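import Mathlib
import Pool.Agent.Lib.H35K.Defs
import Pool.Agent.Lib.H55K.D0
import Pool.Agent.Lib.H55P.S1

/-!
# H35L: the arithmetic of supersingular cyclotomic towers (definitions)

F is imaginary quadratic of class number one, O = 𝓞 F, Ω an algebraic closure of F, A, B in F, E : y^2 = x^3 + A x + B with complex multiplication act by O
(H55K.CMA), p a prime number inert in F of good reduction. All Galois groups are subgroups of Gal(Ω/F). Classes are homomorphisms on groups that act trivially on the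
p-power torsion. See PROOF.md.
-/

open NumberField IsDedekindDomain WeierstrassCurve

namespace H35L

open H55P (IQ Pt ac Inert Dec)
open H35P (WAB)
open H55K (Tor CMA Dta)

section defs

variable {F : Type} [Field F] {A B : F} {Ω : Type} [Field Ω] [DecidableEq Ω] [Algebra F Ω]

/-- The points over Ω as a module over the integers of F. -/
def PM (act : 𝓞 F →+* AddMonoid.End (Pt (WAB A B) Ω)) : Type :=
  let _ := act
  Pt (WAB A B) Ω

variable (act : 𝓞 F →+* AddMonoid.End (Pt (WAB A B) Ω))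

noncomputable instance : AddCommGroup (PM act) := inferInstanceAs (AddCommGroup (Pt (WAB A B) Ω))

noncomputable instance : Module (𝓞 F) (PM act) where
  smul a P := act a P
  one_smul P := show act 1 P = P by rw [map_one]; rfl
  mul_smul a b P := show act (a * b) P = act a (act b P) by rw [map_mul]; rfl
  smul_zero a := show act a (0 : Pt (WAB A B) Ω) = 0 from map_zero _
  smul_add a P Q := show act a ((P : Pt (WAB A B) Ω) + (Q : Pt (WAB A B) Ω)) = act a P + act a Q from map_add _ _ _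
  add_smul a b P := show act (a + b) P = act a P + act b P by rw [map_add]; rfl
  zero_smul P := show act 0 P = 0 by rw [map_zero]; rfl

/-- The Galois action. -/
noncomputable def aM (s : Ω ≃ₐ[F] Ω) : PM act →+ PM act := ac (WAB A B) s

theorem aM_mul (a b : Ω ≃ₐ[F] Ω) (P : PM act) : aM act (a * b) P = aM act a (aM act b P) := by
  change Pt (WAB A B) Ω at P
  cases P <;> rfl

theorem aM_one (P : PM act) : aM act 1 P = P := by
  change Pt (WAB A B) Ω at P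
  cases P <;> rfl

/-- The Galois action commutes with the complex multiplication (H55K.CMA.gal). -/
def Cm : Prop := ∀ (s : Ω ≃ₐ[F] Ω) (a : 𝓞 F) (P : PM act), aM act s (a • P) = a • aM act s P

/-- s acts trivially on the points of order a power of p. -/
def FA (p : ℕ) (s : Ω ≃ₐ[F] Ω) : Prop := ∀ P : PM act, (∃ k : ℕ, p ^ k • P = 0) → aM act s P = P

/-- s acts trivially on the layer F Q_n of the cyclotomic Z_p-extension: its cyclotomic character modulo p^(n+1) is killed by p - 1. -/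
def Gc (p n : ℕ) (s : Ω ≃ₐ[F] Ω) : Prop :=
  ∃ a : ℕ, a ^ (p - 1) ≡ 1 [MOD p ^ (n + 1)] ∧ ∀ z : Ω, z ^ p ^ (n + 1) = 1 → s z = z ^ a

theorem Gc_mono {p m : ℕ} {s : Ω ≃ₐ[F] Ω} (h : Gc p (m + 1) s) : Gc p m s := by
  obtain ⟨a, ha, h1⟩ := h
  refine ⟨a, ha.of_dvd (pow_dvd_pow p (by omega)), fun z hz => h1 z ?_⟩
  rw [pow_succ p (m + 1), pow_mul, hz, one_pow]

/-- Homomorphisms f on H with values in the points of order a power of p, continuous, zero on I; they are extended by zero outside H. -/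
structure IsHm (p : ℕ) (H I : (Ω ≃ₐ[F] Ω) → Prop) (f : (Ω ≃ₐ[F] Ω) → PM act) : Prop where
  out : ∀ h, ¬ H h → f h = 0
  mul : ∀ h, H h → ∀ h', H h' → f (h * h') = f h + f h'
  tor : ∀ h, ∃ k : ℕ, p ^ k • f h = 0
  cont : ∃ L : IntermediateField F Ω, FiniteDimensional F L ∧ ∀ h, H h → h ∈ L.fixingSubgroup → f h = 0
  unr : ∀ h, H h → I h → f h = 0

/-- In addition f is equivariant under N m for some m. -/
structure IsCls (p : ℕ) (H I : (Ω ≃ₐ[F] Ω) → Prop) (N : ℕ → (Ω ≃ₐ[F] Ω) → Prop) (f : (Ω ≃ₐ[F] Ω) → PM act) : Prop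
    extends IsHm act p H I f where
  eqv : ∃ m, ∀ s, N m s → ∀ h, H h → f (s * h * s⁻¹) = aM act s (f h)

/-- The module of the classes. -/
def Cls (hc : Cm act) (p : ℕ) (H I : (Ω ≃ₐ[F] Ω) → Prop) (N : ℕ → (Ω ≃ₐ[F] Ω) → Prop) (hN : ∀ m s, N (m + 1) s → N m s) :
    Submodule (𝓞 F) ((Ω ≃ₐ[F] Ω) → PM act) where
  carrier := {f | IsCls act p H I N f}
  zero_mem' := by
    refine ⟨⟨fun _ _ => rfl, fun _ _ _ _ => (add_zero _).symm, fun _ => ⟨0, smul_zero _⟩, ⟨⊥, inferInstance, fun _ _ _ => rfl⟩, fun _ _ _ => rfl⟩,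
      ⟨0, fun s _ h _ => ?_⟩⟩
    rw [Pi.zero_apply, Pi.zero_apply, map_zero]
  add_mem' := by
    rintro f g (hf : IsCls act p H I N f) (hg : IsCls act p H I N g)
    have hmono : ∀ m n s, m ≤ n → N n s → N m s := by
      intro m n s hmn
      induction n, hmn using Nat.le_induction with
      | base => exact id
      | succ n _ ih => exact fun h => ih (hN n s h)
    refine ⟨⟨fun h hh => ?_, fun h hh h' hh' => ?_, fun h => ?_, ?_, fun h hh hi => ?_⟩, ?_⟩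
    · rw [Pi.add_apply, hf.out h hh, hg.out h hh, add_zero]
    · rw [Pi.add_apply, hf.mul h hh h' hh', hg.mul h hh h' hh', Pi.add_apply, Pi.add_apply, add_add_add_comm]
    · obtain ⟨k, hk⟩ := hf.tor h
      obtain ⟨l, hl⟩ := hg.tor h
      refine ⟨k + l, ?_⟩
      rw [Pi.add_apply, smul_add, pow_add, mul_smul, mul_smul, smul_comm (p ^ k) (p ^ l) (f h), hk, hl, smul_zero, smul_zero, add_zero]
    · obtain ⟨L, hL, h1⟩ := hf.cont
      obtain ⟨L', hL', h2⟩ := hg.cont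
      refine ⟨L ⊔ L', inferInstance, fun h hh hm => ?_⟩
      rw [IntermediateField.fixingSubgroup_sup] at hm
      rw [Pi.add_apply, h1 h hh hm.1, h2 h hh hm.2, add_zero]
    · rw [Pi.add_apply, hf.unr h hh hi, hg.unr h hh hi, add_zero]
    · obtain ⟨m, hm⟩ := hf.eqv
      obtain ⟨n, hn⟩ := hg.eqv
      refine ⟨max m n, fun s hs h hh => ?_⟩
      rw [Pi.add_apply, hm s (hmono _ _ s (le_max_left _ _) hs) h hh, hn s (hmono _ _ s (le_max_right _ _) hs) h hh, Pi.add_apply, map_add]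
  smul_mem' := by
    rintro a f (hf : IsCls act p H I N f)
    refine ⟨⟨fun h hh => ?_, fun h hh h' hh' => ?_, fun h => ?_, ?_, fun h hh hi => ?_⟩, ?_⟩
    · rw [Pi.smul_apply, hf.out h hh, smul_zero]
    · rw [Pi.smul_apply, hf.mul h hh h' hh', Pi.smul_apply, Pi.smul_apply, smul_add]
    · obtain ⟨k, hk⟩ := hf.tor h
      refine ⟨k, ?_⟩
      rw [Pi.smul_apply, smul_comm, hk, smul_zero]
    · obtain ⟨L, hL, h1⟩ := hf.cont
      refine ⟨L, hL, fun h hh hm => ?_⟩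
      rw [Pi.smul_apply, h1 h hh hm, smul_zero]
    · rw [Pi.smul_apply, hf.unr h hh hi, smul_zero]
    · obtain ⟨m, hm⟩ := hf.eqv
      refine ⟨m, fun s hs h hh => ?_⟩
      rw [Pi.smul_apply, hm s hs h hh, Pi.smul_apply, hc]

/-- s₀ carries the data H', I', N' to H, I, N. -/
structure Tr (s₀ : Ω ≃ₐ[F] Ω) (H I : (Ω ≃ₐ[F] Ω) → Prop) (N : ℕ → (Ω ≃ₐ[F] Ω) → Prop) (H' I' : (Ω ≃ₐ[F] Ω) → Prop)
    (N' : ℕ → (Ω ≃ₐ[F] Ω) → Prop) : Prop where
  h : ∀ h, H' h → H (s₀ * h * s₀⁻¹)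
  mul : ∀ h, H' h → ∀ h', H' h' → H' (h * h')
  cj : ∀ m s, N' m s → ∀ h, H' h → H' (s * h * s⁻¹)
  i : ∀ h, I' h → I (s₀ * h * s₀⁻¹)
  n : ∀ m s, N' m s → N m (s₀ * s * s₀⁻¹)

open Classical in
/-- The transport of classes: h ↦ s₀⁻¹ f(s₀ h s₀⁻¹). -/
noncomputable def tr (hc : Cm act) (p : ℕ) (s₀ : Ω ≃ₐ[F] Ω) {H I : (Ω ≃ₐ[F] Ω) → Prop} {N : ℕ → (Ω ≃ₐ[F] Ω) → Prop} {H' I' : (Ω ≃ₐ[F] Ω) → Prop}
    {N' : ℕ → (Ω ≃ₐ[F] Ω) → Prop} (t : Tr s₀ H I N H' I' N') (hN : ∀ m s, N (m + 1) s → N m s) (hN' : ∀ m s, N' (m + 1) s → N' m s) :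
    Cls act hc p H I N hN →ₗ[𝓞 F] Cls act hc p H' I' N' hN' where
  toFun f := ⟨fun h => if H' h then aM act s₀⁻¹ (f.1 (s₀ * h * s₀⁻¹)) else 0, by
    have hf : IsCls act p H I N f.1 := f.2
    refine ⟨⟨fun h hh => if_neg hh, fun h hh h' hh' => ?_, fun h => ?_, ?_, fun h hh hi => ?_⟩, ?_⟩
    · rw [if_pos hh, if_pos hh', if_pos (t.mul h hh h' hh')]
      have h1 : s₀ * (h * h') * s₀⁻¹ = s₀ * h * s₀⁻¹ * (s₀ * h' * s₀⁻¹) := by group
      rw [h1, hf.mul _ (t.h h hh) _ (t.h h' hh'), map_add]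
    · by_cases hh : H' h
      · obtain ⟨k, hk⟩ := hf.tor (s₀ * h * s₀⁻¹)
        refine ⟨k, ?_⟩
        rw [if_pos hh, ← map_nsmul, hk, map_zero]
      · exact ⟨0, by rw [if_neg hh, smul_zero]⟩
    · obtain ⟨L, hL, h1⟩ := hf.cont
      refine ⟨L.map (s₀⁻¹ : Ω ≃ₐ[F] Ω).toAlgHom, ?_, fun h hh hm => ?_⟩
      · exact inferInstance
      · rw [if_pos hh, h1 _ (t.h h hh) ?_, map_zero]
        rw [IntermediateField.mem_fixingSubgroup_iff] at hm ⊢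
        intro x hx
        have h2 := hm (s₀⁻¹ x) ⟨x, hx, rfl⟩
        show s₀ (h (s₀⁻¹ x)) = x
        rw [h2]
        show (s₀ * s₀⁻¹) x = x
        rw [mul_inv_cancel]
        rfl
    · rw [if_pos hh, hf.unr _ (t.h h hh) (t.i h hi), map_zero]
    · obtain ⟨m, hm⟩ := hf.eqv
      refine ⟨m, fun s hs h hh => ?_⟩
      rw [if_pos hh, if_pos (t.cj m s hs h hh)]
      have h1 : s₀ * (s * h * s⁻¹) * s₀⁻¹ = s₀ * s * s₀⁻¹ * (s₀ * h * s₀⁻¹) * (s₀ * s * s₀⁻¹)⁻¹ := by group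
      rw [h1, hm _ (t.n m s hs) _ (t.h h hh), ← aM_mul, ← aM_mul]
      congr 2
      group⟩
  map_add' f g := by
    apply Subtype.ext
    funext h
    by_cases hh : H' h
    · simp only [hh, if_true, Submodule.coe_add, Pi.add_apply, map_add]
    · simp only [hh, if_false, Submodule.coe_add, Pi.add_apply, add_zero]
  map_smul' a f := by
    apply Subtype.ext
    funext h
    by_cases hh : H' h
    · simp only [hh, if_true, SetLike.val_smul, Pi.smul_apply, RingHom.id_apply]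
      exact hc s₀⁻¹ a (f.1 (s₀ * h * s₀⁻¹))
    · simp only [hh, if_false, SetLike.val_smul, Pi.smul_apply, RingHom.id_apply, smul_zero]

/-- The elements of G acting trivially on the points of order a power of p. -/
def SH (G : Subgroup (Ω ≃ₐ[F] Ω)) (p : ℕ) (s : Ω ≃ₐ[F] Ω) : Prop := s ∈ G ∧ FA act p s

/-- The elements of G acting trivially on F Q_m. -/
def SN (G : Subgroup (Ω ≃ₐ[F] Ω)) (p m : ℕ) (s : Ω ≃ₐ[F] Ω) : Prop := s ∈ G ∧ Gc p m s

/-- Inertia outside p. -/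
def GI (p : ℕ) (s : Ω ≃ₐ[F] Ω) : Prop := ∃ V : ValuationSubring Ω, V.valuation (p : Ω) = 1 ∧ Inert V s

/-- No condition. -/
def LI (_ : Ω ≃ₐ[F] Ω) : Prop := False

/-- I is stable under conjugation. -/
def CI (I : (Ω ≃ₐ[F] Ω) → Prop) : Prop := ∀ t s, I s → I (t * s * t⁻¹)

variable (hc : Cm act)

/-- The module of the classes of the group G. -/
def SM (p : ℕ) (G : Subgroup (Ω ≃ₐ[F] Ω)) (I : (Ω ≃ₐ[F] Ω) → Prop) : Submodule (𝓞 F) ((Ω ≃ₐ[F] Ω) → PM act) :=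
  Cls act hc p (SH act G p) I (SN G p) (fun _ _ h => ⟨h.1, Gc_mono h.2⟩)

/-! ### The transports -/

theorem aM_inv (s : Ω ≃ₐ[F] Ω) (P : PM act) : aM act s (aM act s⁻¹ P) = P := by
  rw [← aM_mul, mul_inv_cancel, aM_one]

theorem FA_mul {p : ℕ} {s t : Ω ≃ₐ[F] Ω} (hs : FA act p s) (ht : FA act p t) : FA act p (s * t) := by
  intro P hP
  rw [aM_mul, ht P hP, hs P hP]

theorem FA_conj {p : ℕ} {s : Ω ≃ₐ[F] Ω} (hs : FA act p s) (t : Ω ≃ₐ[F] Ω) : FA act p (t * s * t⁻¹) := by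
  rintro P ⟨k, hk⟩
  rw [aM_mul, aM_mul, hs _ ⟨k, by rw [← map_nsmul, hk, map_zero]⟩, aM_inv]

theorem Gc_conj {p m : ℕ} {s : Ω ≃ₐ[F] Ω} (hs : Gc p m s) (t : Ω ≃ₐ[F] Ω) : Gc p m (t * s * t⁻¹) := by
  obtain ⟨a, ha, h1⟩ := hs
  refine ⟨a, ha, fun z hz => ?_⟩
  rw [AlgEquiv.mul_apply, AlgEquiv.mul_apply, h1 (t⁻¹ z) (by rw [← map_pow, hz, map_one]), map_pow]
  congr 1
  exact t.apply_symm_apply z

theorem GI_conj {p : ℕ} : CI (GI (F := F) (Ω := Ω) p) := by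
  rintro t s ⟨V, hV, h1⟩
  refine ⟨V.comap ((t⁻¹ : Ω ≃ₐ[F] Ω) : Ω →+* Ω), ?_, ?_⟩
  · have hn : ((t⁻¹ : Ω ≃ₐ[F] Ω) : Ω →+* Ω) (p : Ω) = (p : Ω) := map_natCast _ _
    have h2 : ∀ x, x ∈ V.comap ((t⁻¹ : Ω ≃ₐ[F] Ω) : Ω →+* Ω) ↔ (t⁻¹ : Ω ≃ₐ[F] Ω) x ∈ V := fun x => ValuationSubring.mem_comap
    have hp0 : (p : Ω) ≠ 0 := by
      intro h0
      rw [h0, map_zero] at hV
      exact zero_ne_one hV
    have h3 : ∀ U : ValuationSubring Ω, U.valuation (p : Ω) = 1 ↔ (p : Ω) ∈ U ∧ ((p : Ω))⁻¹ ∈ U := by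
      intro U
      have hv0 : U.valuation (p : Ω) ≠ 0 := (Valuation.ne_zero_iff _).2 hp0
      rw [← ValuationSubring.valuation_le_one_iff, ← ValuationSubring.valuation_le_one_iff, map_inv₀]
      constructor
      · intro h
        rw [h]
        simp
      · rintro ⟨h, h'⟩
        exact le_antisymm h ((inv_le_one₀ (zero_lt_iff.2 hv0)).1 h')
    rw [h3, h2, h2, map_inv₀, map_natCast]
    exact (h3 V).1 hV
  · intro x hx
    have hm : ∀ x, x ∈ V.comap ((t⁻¹ : Ω ≃ₐ[F] Ω) : Ω →+* Ω) ↔ (t⁻¹ : Ω ≃ₐ[F] Ω) x ∈ V := fun x => ValuationSubring.mem_comap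
    have hlt : ∀ x, (V.comap ((t⁻¹ : Ω ≃ₐ[F] Ω) : Ω →+* Ω)).valuation x < 1 ↔ V.valuation ((t⁻¹ : Ω ≃ₐ[F] Ω) x) < 1 := by
      intro x
      rw [H55P.lt1_iff, H55P.lt1_iff, hm, map_inv₀]
      simp
    have h4 : (t⁻¹ : Ω ≃ₐ[F] Ω) ((t * s * t⁻¹ : Ω ≃ₐ[F] Ω) x) = s ((t⁻¹ : Ω ≃ₐ[F] Ω) x) := by
      rw [AlgEquiv.mul_apply, AlgEquiv.mul_apply]
      exact t.symm_apply_apply _
    rw [hlt, map_sub, h4]
    exact h1 _ ((hm x).1 hx)

theorem LI_conj : CI (LI (F := F) (Ω := Ω)) := fun _ _ h => h.elim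

theorem tr_op {G : Subgroup (Ω ≃ₐ[F] Ω)} {I : (Ω ≃ₐ[F] Ω) → Prop} {p : ℕ} (hI : CI I) {γ : Ω ≃ₐ[F] Ω} (hγ : γ ∈ G) :
    Tr γ⁻¹ (SH act G p) I (SN G p) (SH act G p) I (SN G p) := by
  have hc : ∀ t s : Ω ≃ₐ[F] Ω, t ∈ G → s ∈ G → t * s * t⁻¹ ∈ G := fun t s ht hs => mul_mem (mul_mem ht hs) (inv_mem ht)
  exact ⟨fun h hh => ⟨hc _ _ (inv_mem hγ) hh.1, FA_conj act hh.2 _⟩, fun h hh h' hh' => ⟨mul_mem hh.1 hh'.1, FA_mul act hh.2 hh'.2⟩,
    fun m s hs h hh => ⟨hc _ _ hs.1 hh.1, FA_conj act hh.2 _⟩, fun h hh => hI _ _ hh, fun m s hs => ⟨hc _ _ (inv_mem hγ) hs.1, Gc_conj hs.2 _⟩⟩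

theorem tr_lo {G G' : Subgroup (Ω ≃ₐ[F] Ω)} {I : (Ω ≃ₐ[F] Ω) → Prop} {p : ℕ} {s₀ : Ω ≃ₐ[F] Ω} (hG : ∀ s ∈ G', s₀ * s * s₀⁻¹ ∈ G) :
    Tr s₀ (SH act G p) I (SN G p) (SH act G' p) LI (SN G' p) :=
  ⟨fun h hh => ⟨hG h hh.1, FA_conj act hh.2 _⟩, fun h hh h' hh' => ⟨mul_mem hh.1 hh'.1, FA_mul act hh.2 hh'.2⟩,
    fun m s hs h hh => ⟨mul_mem (mul_mem hs.1 hh.1) (inv_mem hs.1), FA_conj act hh.2 _⟩, fun h hh => hh.elim, fun m s hs => ⟨hG s hs.1, Gc_conj hs.2 _⟩⟩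

/-- The operator of gamma on the classes of G: (op f)(h) = gamma f(gamma^-1 h gamma). -/
noncomputable def opM (p : ℕ) {G : Subgroup (Ω ≃ₐ[F] Ω)} {I : (Ω ≃ₐ[F] Ω) → Prop} (hI : CI I) {γ : Ω ≃ₐ[F] Ω} (hγ : γ ∈ G) :
    SM act hc p G I →ₗ[𝓞 F] SM act hc p G I :=
  tr act hc p γ⁻¹ (tr_op act hI hγ) _ _

/-- The restriction of the classes of G to G', conjugated by s₀: (lo f)(h) = s₀^-1 f(s₀ h s₀^-1). -/
noncomputable def loM (p : ℕ) {G G' : Subgroup (Ω ≃ₐ[F] Ω)} {I : (Ω ≃ₐ[F] Ω) → Prop} {s₀ : Ω ≃ₐ[F] Ω} (hG : ∀ s ∈ G', s₀ * s * s₀⁻¹ ∈ G) :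
    SM act hc p G I →ₗ[𝓞 F] SM act hc p G' LI :=
  tr act hc p s₀ (tr_lo act hG) _ _

/-! ### Global and local classes -/

/-- The decomposition group of V. -/
abbrev dV (V : ValuationSubring Ω) : Subgroup (Ω ≃ₐ[F] Ω) := H55P.decS F V

/-- The module of the global classes. -/
abbrev RM (p : ℕ) (M : IntermediateField F Ω) : Submodule (𝓞 F) ((Ω ≃ₐ[F] Ω) → PM act) := SM act hc p M.fixingSubgroup (GI p)

/-- The module of the local classes. -/
abbrev WM (p : ℕ) (V : ValuationSubring Ω) : Submodule (𝓞 F) ((Ω ≃ₐ[F] Ω) → PM act) := SM act hc p (dV V) LI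

/-- The points whose multiple by a power of p is rational over the field of level n of G. -/
def PL (p : ℕ) (G : Subgroup (Ω ≃ₐ[F] Ω)) (n : ℕ) (P : PM act) : Prop := ∃ k : ℕ, ∀ s, SN G p n s → aM act s (p ^ k • P) = p ^ k • P

/-- The classes of points of level n: w(s) = s P - P. -/
def DM (p : ℕ) (G : Subgroup (Ω ≃ₐ[F] Ω)) (I : (Ω ≃ₐ[F] Ω) → Prop) (n : ℕ) : Submodule (𝓞 F) (SM act hc p G I) where
  carrier := {w | ∃ P : PM act, PL act p G n P ∧ ∀ h, SH act G p h → w.1 h = aM act h P - P}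
  zero_mem' := ⟨0, ⟨0, fun s _ => by rw [smul_zero, map_zero]⟩, fun h _ => by rw [map_zero, sub_zero]; rfl⟩
  add_mem' := by
    rintro f g ⟨P, ⟨k, hk⟩, hP⟩ ⟨Q, ⟨l, hl⟩, hQ⟩
    refine ⟨P + Q, ⟨k + l, fun s hs => ?_⟩, fun h hh => ?_⟩
    · rw [smul_add, map_add, pow_add, mul_smul (p ^ k) (p ^ l) Q, map_nsmul (aM act s) (p ^ k) (p ^ l • Q), hl s hs, mul_comm,
        mul_smul (p ^ l) (p ^ k) P, map_nsmul (aM act s) (p ^ l) (p ^ k • P), hk s hs]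
    · have h1 : (f + g).1 h = f.1 h + g.1 h := rfl
      rw [h1, hP h hh, hQ h hh, map_add, add_sub_add_comm]
  smul_mem' := by
    rintro a f ⟨P, ⟨k, hk⟩, hP⟩
    refine ⟨a • P, ⟨k, fun s hs => ?_⟩, fun h hh => ?_⟩
    · rw [smul_comm, hc, hk s hs]
    · have h1 : (a • f).1 h = a • f.1 h := rfl
      rw [h1, hP h hh, smul_sub, hc]

/-- gamma is a topological generator: the (p-1)-th power of its cyclotomic character is not 1 modulo p^2. -/
def Gen (p : ℕ) (γ : Ω ≃ₐ[F] Ω) : Prop := ¬ Gc p 1 γ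

/-- The local facts (section (L)) at V. -/
structure LocF (p q : ℕ) (V : ValuationSubring Ω) {γ : Ω ≃ₐ[F] Ω} (hγ : γ ∈ dV V) : Prop where
  w0f : Finite {w : WM act hc p V // p • w = 0 ∧ opM act hc p LI_conj hγ w = w}
  w0 : Nat.card {w : WM act hc p V // p • w = 0 ∧ opM act hc p LI_conj hγ w = w} ≤ q ^ 2
  dp : ∀ n, Nat.card {w : WM act hc p V // w ∈ DM act hc p (dV V) LI n ∧ p • w = 0} = q ^ p ^ n
  ds : ∀ n, ∀ w : WM act hc p V, (w ∈ DM act hc p (dV V) LI 0 ∧ p • w = 0) ↔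
    ∃ w' ∈ DM act hc p (dV V) LI n, p • w' = 0 ∧ ((opM act hc p LI_conj hγ - 1) ^ (p ^ n - 1 - H35K.J p n)) w' = w

/-- s acts as the integer a on the points killed by p^k. -/
def Ch (p k : ℕ) (s : Ω ≃ₐ[F] Ω) (a : 𝓞 F) : Prop := ∀ T : PM act, p ^ k • T = 0 → aM act s T = a • T

/-- s - 1 is bijective on the points of order a power of p. -/
structure Tb (p : ℕ) (s : Ω ≃ₐ[F] Ω) : Prop where
  inj : ∀ P : PM act, (∃ k : ℕ, p ^ k • P = 0) → aM act s P = P → P = 0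
  surj : ∀ P : PM act, (∃ k : ℕ, p ^ k • P = 0) → ∃ Q : PM act, (∃ k : ℕ, p ^ k • Q = 0) ∧ aM act s Q - Q = P

/-- c is a continuous cocycle on G with values in the points. -/
structure IsCo (G : Subgroup (Ω ≃ₐ[F] Ω)) (c : (Ω ≃ₐ[F] Ω) → PM act) : Prop where
  mul : ∀ s ∈ G, ∀ t ∈ G, c (s * t) = c s + aM act s (c t)
  cont : ∃ L : IntermediateField F Ω, FiniteDimensional F L ∧ ∀ s ∈ G, s ∈ L.fixingSubgroup → c s = 0

/-- c is a cocycle on G whose class is killed by a power of p and is trivial at all finite places. -/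
structure IsSh (p : ℕ) (G : Subgroup (Ω ≃ₐ[F] Ω)) (c : (Ω ≃ₐ[F] Ω) → PM act) : Prop extends IsCo act G c where
  tor : ∃ (k : ℕ) (Q : PM act), ∀ s ∈ G, p ^ k • c s = aM act s Q - Q
  loc : ∀ V : ValuationSubring Ω, V ≠ ⊤ → ∃ P : PM act, ∀ s ∈ G, Dec V s → c s = aM act s P - P

/-- The points rational over the field of level n of G. -/
def AM (p : ℕ) (G : Subgroup (Ω ≃ₐ[F] Ω)) (n : ℕ) : AddSubgroup (PM act) where
  carrier := {P | ∀ s, SN G p n s → aM act s P = P}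
  zero_mem' := fun s _ => map_zero _
  add_mem' := fun {P Q} hP hQ s hs => by rw [map_add, hP s hs, hQ s hs]
  neg_mem' := fun {P} hP s hs => by rw [map_neg, hP s hs]

/-- The operator gamma - 1 on points. -/
noncomputable def gm1 (γ : Ω ≃ₐ[F] Ω) : AddMonoid.End (PM act) :=
  let e : AddMonoid.End (PM act) := aM act γ
  e - 1

/-- The local facts in terms of points: (L1) .. (L4) of helper16. -/
structure LocP (p q : ℕ) (V : ValuationSubring Ω) {γ : Ω ≃ₐ[F] Ω} (hγ : γ ∈ dV V) : Prop where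
  l1 : ∀ n, ∀ P ∈ AM act p (dV V) n, p • P = 0 → P = 0
  l2 : ∀ n, Nat.card (AM act p (dV V) n ⧸ (AddSubgroup.map (nsmulAddMonoidHom p) (⊤ : AddSubgroup (AM act p (dV V) n)))) = q ^ p ^ n
  l3 : ∀ n, ∀ P ∈ AM act p (dV V) n, ∃ P₀ ∈ AM act p (dV V) 0, ∃ P' ∈ AM act p (dV V) n,
    (gm1 act γ ^ (p ^ n - 1 - H35K.J p n)) P = P₀ + p • P'
  l3' : ∀ n, ∀ P₀ ∈ AM act p (dV V) 0, ∃ P ∈ AM act p (dV V) n, ∃ P' ∈ AM act p (dV V) n,
    (gm1 act γ ^ (p ^ n - 1 - H35K.J p n)) P = P₀ + p • P'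
  l4f : Finite {w : WM act hc p V // p • w = 0 ∧ opM act hc p LI_conj hγ w = w}
  l4 : Nat.card {w : WM act hc p V // p • w = 0 ∧ opM act hc p LI_conj hγ w = w} ≤ q ^ 2

end defs

end H35L
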