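import Mathlib
import Pool.Agent.Lib.H35L.Ar
import Pool.Agent.Lib.H13S.IN2

/-! # H35L, chunk X8 (M): valuation rings above the same place are conjugate -/

open NumberField IsDedekindDomain WeierstrassCurve

namespace H35L

variable {F : Type} [Field F] [NumberField F] {Ω : Type} [Field Ω] [Algebra F Ω] [IsAlgClosure F Ω]

/-- an automorphism which carries the prime of V to the prime of V' carries V to V' -/
theorem x8_dec {K : Type} [Field K] [NumberField K] {Ω : Type} [Field Ω] [Algebra K Ω] [Algebra.IsAlgebraic K Ω] (q : ℕ)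
    (hq : q.Prime) (V V' : ValuationSubring Ω) (hV : V.valuation (q : Ω) < 1) (s : Ω ≃ₐ[K] Ω)
    (hs : ∀ z : 𝓞 Ω, ∀ w : 𝓞 Ω, (w : Ω) = s (z : Ω) → (w ∈ H13S.in2Q V' ↔ z ∈ H13S.in2Q V)) (x : Ω)
    (hx : x ∈ V) : s x ∈ V' := by
  obtain ⟨a, c, hc, rfl⟩ := H13S.in2_frac K V q hq hV x hx
  have hint : ∀ z : 𝓞 Ω, IsIntegral ℤ (s (z : Ω)) := fun z => z.isIntegral_coe.map (s.toAlgHom.restrictScalars ℤ)
  have h1 : V'.valuation (s (c : Ω)) = 1 := by
    have h2 := (hs c ⟨s (c : Ω), hint c⟩ rfl)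
    have h3 := (H13S.in2Q_one V c).2 hc
    exact (H13S.in2Q_one V' ⟨s (c : Ω), hint c⟩).1 (fun h4 => h3 (h2.1 h4))
  rw [← V'.valuation_le_one_iff, map_div₀ s, map_div₀, h1, div_one]
  exact H13S.in2_le V' (hint a)

/-- conjugacy of the valuation rings above a prime -/
theorem x8_main {K : Type} [Field K] [NumberField K] {Ω : Type} [Field Ω] [Algebra K Ω] [IsAlgClosure K Ω]
    (p : ℕ) (hp : p.Prime) {V V' : ValuationSubring Ω} (hV : V.valuation (p : Ω) < 1) (hV' : V'.valuation (p : Ω) < 1)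
    (h : ∀ z : 𝓞 K, V.valuation (algebraMap K Ω z) < 1 ↔ V'.valuation (algebraMap K Ω z) < 1) :
    ∃ t : Ω ≃ₐ[K] Ω, ∀ x, t x ∈ V' ↔ x ∈ V := by
  classical
  have hal : Algebra.IsAlgebraic K Ω := IsAlgClosure.isAlgebraic
  have hG : IsGalois K Ω := IsAlgClosure.isGalois K Ω
  have hQp : (H13S.in2Q V).IsPrime := H13S.in2Q_prime V
  have hQp' : (H13S.in2Q V').IsPrime := H13S.in2Q_prime V'
  have hinv := H13S.in2_inv (K := K) (Ω := Ω)
  have hsc : SMulCommClass Gal(Ω/K) (𝓞 K) (𝓞 Ω) := by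
    constructor
    intro g a z
    rw [Algebra.smul_def, Algebra.smul_def, smul_mul']
    congr 1
    apply RingOfIntegers.ext
    exact g.commutes (a : K)
  let _ : TopologicalSpace (𝓞 Ω) := ⊥
  have : DiscreteTopology (𝓞 Ω) := ⟨rfl⟩
  have hcont : ContinuousSMul Gal(Ω/K) (𝓞 Ω) := by
    rw [continuousSMul_iff_stabilizer_isOpen]
    intro z
    have h1 := stabilizer_isOpen_of_isIntegral (K := K) (z : Ω)
    have h2 : (MulAction.stabilizer Gal(Ω/K) z : Set Gal(Ω/K)) = (MulAction.stabilizer Gal(Ω/K) (z : Ω) : Set Gal(Ω/K)) := by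
      ext g
      simp only [SetLike.mem_coe, MulAction.mem_stabilizer_iff]
      constructor
      · intro h
        exact congrArg (fun y : 𝓞 Ω => (y : Ω)) h
      · intro h
        exact RingOfIntegers.coe_injective h
    rw [h2]
    exact h1
  have hunder : (H13S.in2Q V).under (𝓞 K) = (H13S.in2Q V').under (𝓞 K) := by
    ext z
    have e1 : z ∈ (H13S.in2Q V).under (𝓞 K) ↔ algebraMap (𝓞 K) (𝓞 Ω) z ∈ H13S.in2Q V := Iff.rfl
    have e2 : z ∈ (H13S.in2Q V').under (𝓞 K) ↔ algebraMap (𝓞 K) (𝓞 Ω) z ∈ H13S.in2Q V' := Iff.rfl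
    rw [e1, e2, H13S.in2Q_lt, H13S.in2Q_lt]
    exact h z
  obtain ⟨g, hg⟩ := Algebra.IsInvariant.exists_smul_of_under_eq_of_profinite (A := 𝓞 K) (G := Gal(Ω/K))
    (H13S.in2Q V) (H13S.in2Q V') hunder
  have key : ∀ z : 𝓞 Ω, (g • z ∈ H13S.in2Q V' ↔ z ∈ H13S.in2Q V) := by
    intro z
    rw [hg]
    exact Ideal.smul_mem_pointwise_smul_iff
  refine ⟨g, fun x => ⟨fun hx => ?_, fun hx => ?_⟩⟩
  · have h1 := x8_dec p hp V' V hV' g.symm (fun z w hw => ?_) (g x) hx
    · rwa [g.symm_apply_apply] at h1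
    · have h2 : z = g • w := by
        apply RingOfIntegers.coe_injective
        show (z : Ω) = g (w : Ω)
        rw [hw, g.apply_symm_apply]
      rw [h2]
      exact (key w).symm
  · refine x8_dec p hp V V' hV g (fun z w hw => ?_) x hx
    have h2 : w = g • z := RingOfIntegers.coe_injective hw
    rw [h2]
    exact key z

/-- Chunk X8 (M). K a finite extension of F in Ω, V, V' of residue characteristic p lying above the same prime of K: some t fixing K carries V to V'. PROOF. Q, Q' = H13S.in2Q V, in2Q V', the primes of 𝓞 Ω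
of the elements of value < 1; they have the same intersection with 𝓞 K. Gal(Ω/K) acts on 𝓞 Ω with invariants 𝓞 K (H13S.in2_inv), Mathlib: Algebra.IsInvariant, profinite version
(Mathlib.RingTheory.Invariant.Profinite, exists_smul_of_under_eq_of_profinite, used in H13S.in2_gen: same instances): t Q = Q'. Every x in V is a/c with a, c in 𝓞 Ω, V(c) = 1 (H13S.in2_frac), so
t x = t a/t c is in V' (H13S.in2_dec has this argument); t^-1 in the same way. An element of Gal(Ω/K) gives an element of Gal(Ω/F) fixing K (IntermediateField.fixingSubgroup). -/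
theorem conj_above (K : IntermediateField F Ω) [FiniteDimensional F K] (p : ℕ) (hp : p.Prime) {V V' : ValuationSubring Ω}
    (hV : V.valuation (p : Ω) < 1) (hV' : V'.valuation (p : Ω) < 1)
    (h : ∀ x ∈ K, IsIntegral ℤ x → (V.valuation x < 1 ↔ V'.valuation x < 1)) :
    ∃ t ∈ K.fixingSubgroup, ∀ x, t x ∈ V' ↔ x ∈ V := by
  have hK : NumberField K := NumberField.of_module_finite F K
  have hac : IsAlgClosed Ω := IsAlgClosure.isAlgClosed F
  have hal : Algebra.IsAlgebraic F Ω := IsAlgClosure.isAlgebraic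
  have hal' : Algebra.IsAlgebraic K Ω := Algebra.IsAlgebraic.tower_top (K := F) K
  have hcl : IsAlgClosure K Ω := ⟨hac, hal'⟩
  obtain ⟨t, ht⟩ := x8_main (K := K) (Ω := Ω) p hp hV hV' (fun z => by
    refine h _ (z : K).2 ?_
    exact z.isIntegral_coe.map (IsScalarTower.toAlgHom ℤ K Ω))
  refine ⟨t.restrictScalars F, ?_, ht⟩
  rw [IntermediateField.mem_fixingSubgroup_iff]
  intro x hx
  exact t.commutes ⟨x, hx⟩

/-- Chunk X8 (S). For K = F: if p generates a prime ideal of 𝓞 F, all V above p are conjugate (an integer a of F has value < 1 iff p divides a: the elements of value < 1 form a proper ideal containing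
the maximal ideal (p)). An x in the bottom field is algebraMap F Ω y, integral: y in 𝓞 F. -/
theorem conj_all (p : ℕ) (hp : p.Prime) (hin : Prime (p : 𝓞 F)) {V V' : ValuationSubring Ω}
    (hV : V.valuation (p : Ω) < 1) (hV' : V'.valuation (p : Ω) < 1) :
    ∃ t : Ω ≃ₐ[F] Ω, ∀ x, t x ∈ V' ↔ x ∈ V := by
  have hone : ∀ (U : ValuationSubring Ω), U.valuation (p : Ω) < 1 → ∀ z : 𝓞 F,
      U.valuation (algebraMap F Ω z) < 1 ↔ (p : 𝓞 F) ∣ z := by
    intro U hU z
    have hne : (p : 𝓞 F) ≠ 0 := hin.ne_zero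
    have hmax : (Ideal.span {(p : 𝓞 F)}).IsMaximal := by
      have h1 : (Ideal.span {(p : 𝓞 F)}).IsPrime := (Ideal.span_singleton_prime hne).2 hin
      exact h1.isMaximal (by rwa [Ne, Ideal.span_singleton_eq_bot])
    set I : Ideal (𝓞 F) := (H13S.in2Q U).comap (algebraMap (𝓞 F) (𝓞 Ω)) with hI
    have hIm : ∀ y : 𝓞 F, y ∈ I ↔ U.valuation (algebraMap F Ω y) < 1 := by
      intro y
      rw [hI, Ideal.mem_comap, H13S.in2Q_lt]
      rfl
    have hIne : I ≠ ⊤ := by
      have : (H13S.in2Q U).IsPrime := H13S.in2Q_prime U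
      exact (Ideal.IsPrime.comap _).ne_top
    have hle : Ideal.span {(p : 𝓞 F)} ≤ I := by
      rw [Ideal.span_singleton_le_iff_mem, hIm]
      simpa using hU
    have heq := hmax.eq_of_le hIne hle
    rw [← hIm, ← heq, Ideal.mem_span_singleton]
  exact x8_main p hp hV hV' fun z => by rw [hone V hV z, hone V' hV' z]

end H35L
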