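import Mathlib
import Pool.Agent.Lib.H35L.Ar

/-! # H35L, chunk C0 (M): the groups of the cyclotomic tower -/

open NumberField IsDedekindDomain WeierstrassCurve

namespace H35L

open H55P (IQ Pt ac Inert Dec Nm)
open H35P (WAB)
open H55K (CMA Dta)
open H35K (Lev)

variable {F : Type} [Field F] [NumberField F] {Ω : Type} [Field Ω] [Algebra F Ω] [IsAlgClosure F Ω] {p : ℕ}

theorem c0_prim (F : Type) [Field F] [NumberField F] (Ω : Type) [Field Ω] [Algebra F Ω] [IsAlgClosure F Ω] {p : ℕ}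
    (hp : p.Prime) (k : ℕ) : ∃ ζ : Ω, IsPrimitiveRoot ζ (p ^ k) := by
  have : IsAlgClosed Ω := IsAlgClosure.isAlgClosed F
  have : CharZero Ω := charZero_of_injective_algebraMap (algebraMap F Ω).injective
  have : NeZero (p ^ k) := ⟨pow_ne_zero k hp.ne_zero⟩
  have : NeZero ((p ^ k : ℕ) : Ω) := ⟨by exact_mod_cast pow_ne_zero k hp.ne_zero⟩
  exact HasEnoughRootsOfUnity.exists_primitiveRoot Ω (p ^ k)

/-- Chunk C0a (S/M). Every s acts on the roots of unity of order dividing p^k by a power prime to p (Ω is algebraically closed of characteristic 0: a primitive root exists). -/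
theorem root_pow (hp : p.Prime) (k : ℕ) (s : Ω ≃ₐ[F] Ω) : ∃ a : ℕ, a.Coprime p ∧ ∀ z : Ω, z ^ p ^ k = 1 → s z = z ^ a := by
  rcases Nat.eq_zero_or_pos k with h0 | h0
  · subst h0
    refine ⟨1, Nat.coprime_one_left p, fun z hz => ?_⟩
    rw [pow_zero, pow_one] at hz
    rw [hz, map_one, one_pow]
  · obtain ⟨ζ, hζ⟩ := c0_prim F Ω hp k
    have : NeZero (p ^ k) := ⟨pow_ne_zero k hp.ne_zero⟩
    have h1 : IsPrimitiveRoot (s ζ) (p ^ k) := hζ.map_of_injective s.injective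
    obtain ⟨i, _, hi, hi2⟩ := (hζ.isPrimitiveRoot_iff).1 h1
    refine ⟨i, Nat.Coprime.coprime_dvd_right (dvd_pow_self p h0.ne') hi, fun z hz => ?_⟩
    obtain ⟨j, _, hj⟩ := hζ.eq_pow_of_pow_eq_one hz
    rw [← hj, map_pow, ← hi2, ← pow_mul, ← pow_mul, mul_comm]

/-- Chunk C0a (S/M). A criterion: with a primitive p^(n+1)-th root of unity in Ω, a is determined modulo p^(n+1). -/
theorem gc_root (hp : p.Prime) {n a : ℕ} {s : Ω ≃ₐ[F] Ω} (ha : ∀ z : Ω, z ^ p ^ (n + 1) = 1 → s z = z ^ a) :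
    Gc p n s ↔ a ^ (p - 1) ≡ 1 [MOD p ^ (n + 1)] := by
  constructor
  · rintro ⟨a', h1, h2⟩
    obtain ⟨ζ, hζ⟩ := c0_prim F Ω hp (n + 1)
    have h3 : ζ ^ a = ζ ^ a' := by
      rw [← ha ζ hζ.pow_eq_one, ← h2 ζ hζ.pow_eq_one]
    have h4 : a % p ^ (n + 1) = a' % p ^ (n + 1) := by
      refine hζ.pow_inj (Nat.mod_lt _ (pow_pos hp.pos _)) (Nat.mod_lt _ (pow_pos hp.pos _)) ?_
      rw [hζ.eq_orderOf, pow_mod_orderOf, pow_mod_orderOf, h3]
    exact (Nat.ModEq.pow (p - 1) h4).trans h1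
  · intro h
    exact ⟨a, h, ha⟩

/-- Chunk C0b (S). root_pow, Fermat. -/
theorem gc_zero (hp : p.Prime) (s : Ω ≃ₐ[F] Ω) : Gc p 0 s := by
  obtain ⟨a, ha, h⟩ := root_pow hp 1 s
  refine ⟨a, ?_, by simpa using h⟩
  have h1 := Nat.ModEq.pow_totient ha
  rw [Nat.totient_prime hp] at h1
  simpa using h1

/-- Chunk C0b (S). -/
theorem gc_mul {n : ℕ} {s t : Ω ≃ₐ[F] Ω} (hs : Gc p n s) (ht : Gc p n t) : Gc p n (s * t) := by
  obtain ⟨a, ha, h1⟩ := hs
  obtain ⟨b, hb, h2⟩ := ht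
  refine ⟨a * b, ?_, fun z hz => ?_⟩
  · rw [mul_pow]
    simpa using ha.mul hb
  · rw [AlgEquiv.mul_apply, h2 z hz, map_pow, h1 z hz, pow_mul]

/-- Chunk C0b (S/M). s^-1 z = z^b with a b = 1 modulo p^(n+1); or s^-1 = a power of s on the roots of unity. -/
theorem gc_inv (hp : p.Prime) {n : ℕ} {s : Ω ≃ₐ[F] Ω} (hs : Gc p n s) : Gc p n s⁻¹ := by
  obtain ⟨a, ha, h1⟩ := hs
  have h2 : a * a ^ (p - 2) = a ^ (p - 1) := by
    rw [← pow_succ']
    congr 1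
    have := hp.two_le
    omega
  refine ⟨a ^ (p - 2), ?_, fun z hz => ?_⟩
  · rw [← pow_mul, mul_comm, pow_mul]
    simpa using ha.pow (p - 2)
  · have h3 : s (z ^ a ^ (p - 2)) = z := by
      rw [map_pow, h1 z hz, ← pow_mul, h2]
      have h4 : z ^ a ^ (p - 1) = z ^ 1 := by
        have h6 : a ^ (p - 1) % orderOf z = 1 % orderOf z := ha.of_dvd (orderOf_dvd_of_pow_eq_one hz)
        rw [← pow_mod_orderOf z (a ^ (p - 1)), h6, pow_mod_orderOf]
      rw [h4, pow_one]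
    rw [← h3]
    have h5 : s⁻¹ (s (z ^ a ^ (p - 2))) = z ^ a ^ (p - 2) := s.symm_apply_apply _
    rw [h5, h3]

/-- Chunk C0b (S). -/
theorem gc_le {m n : ℕ} (h : m ≤ n) {s : Ω ≃ₐ[F] Ω} (hs : Gc p n s) : Gc p m s := by
  classical
  induction n, h using Nat.le_induction with
  | base => exact hs
  | succ n _ ih => exact ih (Gc_mono hs)

/-- The subgroup of level n of G. -/
def LG (hp : p.Prime) (G : Subgroup (Ω ≃ₐ[F] Ω)) (n : ℕ) : Subgroup (Ω ≃ₐ[F] Ω) where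
  carrier := {s | SN G p n s}
  one_mem' := ⟨one_mem G, 1, by rw [one_pow], fun z _ => (pow_one z).symm⟩
  mul_mem' := fun hs ht => ⟨mul_mem hs.1 ht.1, gc_mul hs.2 ht.2⟩
  inv_mem' := fun hs => ⟨inv_mem hs.1, gc_inv hp hs.2⟩

end H35L
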