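import Mathlib
import Pool.Agent.Lib.H35L.C0

/-! # H35L, chunk C0C (M): a generator -/

open NumberField IsDedekindDomain WeierstrassCurve

namespace H35L

open H55P (IQ Pt ac Inert Dec Nm)
open H35P (WAB)
open H55K (CMA Dta)
open H35K (Lev)

variable {F : Type} [Field F] [NumberField F] {Ω : Type} [Field Ω] [Algebra F Ω] [IsAlgClosure F Ω] {p : ℕ}

theorem c0c_pow {s : Ω ≃ₐ[F] Ω} {k a : ℕ} (h : ∀ z : Ω, z ^ p ^ k = 1 → s z = z ^ a) (m : ℕ) (z : Ω)
    (hz : z ^ p ^ k = 1) : (s ^ m) z = z ^ (a ^ m) := by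
  induction m generalizing z with
  | zero => rw [pow_zero, pow_zero, pow_one]; rfl
  | succ m ih =>
    rw [pow_succ s m, AlgEquiv.mul_apply, h z hz, ih (z ^ a) (by rw [← pow_mul, mul_comm, pow_mul, hz, one_pow]), ← pow_mul,
      pow_succ, mul_comm a]

theorem c0c_lte (hp : p.Prime) (h3 : 3 ≤ p) {c : ℕ} (h1 : c ≡ 1 [MOD p]) (h2 : ¬ c ≡ 1 [MOD p ^ 2]) (m : ℕ) :
    ∃ y : ℕ, c ^ p ^ m = 1 + y * p ^ (m + 1) ∧ ¬ p ∣ y := by
  haveI := Fact.mk hp
  have hc0 : 1 ≤ c := by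
    rcases Nat.eq_zero_or_pos c with h | h
    · exfalso
      rw [h] at h1
      have h4 := (Nat.modEq_zero_iff_dvd.1 h1.symm)
      exact hp.one_lt.ne' (Nat.dvd_one.1 h4)
    · exact h
  have hc1 : 1 < c := by
    rcases Nat.lt_or_ge 1 c with h | h
    · exact h
    · exfalso
      have h4 : c = 1 := by omega
      rw [h4] at h2
      exact h2 rfl
  have hd : p ∣ c - 1 := (Nat.modEq_iff_dvd' hc0).1 h1.symm
  have hnd : ¬ p ^ 2 ∣ c - 1 := fun h => h2 ((Nat.modEq_iff_dvd' hc0).2 h).symm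
  have hpc : ¬ p ∣ c := by
    intro h
    have h4 : p ∣ 1 := by
      have h5 := (Nat.dvd_sub h hd)
      rwa [Nat.sub_sub_self hc0] at h5
    exact hp.one_lt.ne' (Nat.dvd_one.1 h4)
  have hodd : Odd p := hp.odd_of_ne_two (by omega)
  have hv1 : padicValNat p (c - 1) = 1 := by
    have h5 : 1 ≤ padicValNat p (c - 1) := one_le_padicValNat_of_dvd (by omega) hd
    have h6 : padicValNat p (c - 1) < 2 := by
      by_contra h7
      push Not at h7
      exact hnd ((padicValNat_dvd_iff_le (by omega)).2 h7)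
    omega
  have hv : padicValNat p (c ^ p ^ m - 1 ^ p ^ m) = m + 1 := by
    rw [padicValNat.pow_sub_pow hodd hc1 hd hpc (pow_pos hp.pos m).ne', hv1, padicValNat.prime_pow]
    omega
  rw [one_pow] at hv
  have hne : c ^ p ^ m - 1 ≠ 0 := by
    have := Nat.one_lt_pow (pow_pos hp.pos m).ne' hc1
    omega
  obtain ⟨y, hy⟩ := (padicValNat_dvd_iff_le hne).2 hv.ge
  refine ⟨y, ?_, ?_⟩
  · have := Nat.one_le_pow (p ^ m) c hc0
    rw [mul_comm y, ← hy]
    omega
  · rintro ⟨w, hw⟩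
    have h7 : p ^ (m + 1 + 1) ∣ c ^ p ^ m - 1 := ⟨w, by rw [hy, hw, pow_succ p (m + 1)]; ring⟩
    have h8 := (padicValNat_dvd_iff_le hne).1 h7
    omega

/-- Chunk C0c (S/M). a^(p-1) = 1 + p x, so a^((p-1) p^n) = 1 modulo p^(n+1). -/
theorem gc_powp (hp : p.Prime) (γ : Ω ≃ₐ[F] Ω) (n : ℕ) : Gc p n (γ ^ p ^ n) := by
  obtain ⟨a, ha, h1⟩ := root_pow hp (n + 1) γ
  refine ⟨a ^ p ^ n, ?_, fun z hz => c0c_pow h1 (p ^ n) z hz⟩
  have h2 := Nat.ModEq.pow_totient (Nat.Coprime.pow_right (n + 1) ha)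
  rw [Nat.totient_prime_pow_succ hp] at h2
  rw [← pow_mul]
  exact h2

/-- Chunk C0c (M). p odd, gamma a generator, s of level n <= m: gamma^(i p^n) s is of level m for some i. u = a^(p-1) for s is 1 modulo p^(n+1), c = b^(p-1) for gamma is 1 modulo p, not modulo p^2. The numbers = 1 modulo p^(n+1) form
a cyclic group modulo p^(m+1) of order p^(m-n) generated by c^(p^n) (which is 1 modulo p^(n+1), not modulo p^(n+2); induction on m: if c^(i p^n) u = 1 + x p^(m+1) and c^(p^m) = 1 + y p^(m+1) modulo p^(m+2), y prime to p, then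
c^(i p^n + l p^m) u = 1 + (x + l y) p^(m+1) modulo p^(m+2)). -/
theorem gc_gen (hp : p.Prime) (h3 : 3 ≤ p) {γ s : Ω ≃ₐ[F] Ω} (hγ : Gen p γ) {n m : ℕ} (hnm : n ≤ m) (hs : Gc p n s) :
    ∃ i : ℕ, Gc p m (γ ^ (i * p ^ n) * s) := by
  induction m, hnm using Nat.le_induction with
  | base => exact ⟨0, by rw [zero_mul, pow_zero, one_mul]; exact hs⟩
  | succ m hnm ih =>
    obtain ⟨i, hi⟩ := ih
    set g := γ ^ (i * p ^ n) * s with hg
    obtain ⟨a, ha, ha1⟩ := root_pow hp (m + 1 + 1) g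
    obtain ⟨b, hb, hb1⟩ := root_pow hp (m + 1 + 1) γ
    have hlow : ∀ k, k ≤ m + 1 + 1 → ∀ z : Ω, z ^ p ^ k = 1 → z ^ p ^ (m + 1 + 1) = 1 := by
      intro k hk z hz
      obtain ⟨d, hd⟩ := Nat.exists_eq_add_of_le hk
      rw [hd, pow_add, pow_mul, hz, one_pow]
    have hu : a ^ (p - 1) ≡ 1 [MOD p ^ (m + 1)] :=
      (gc_root hp (n := m) (a := a) (s := g) fun z hz => ha1 z (hlow _ (by omega) z hz)).1 hi
    have hc2 : ¬ b ^ (p - 1) ≡ 1 [MOD p ^ 2] := fun h =>
      hγ ((gc_root hp (n := 1) (a := b) (s := γ) fun z hz => hb1 z (hlow _ (by omega) z hz)).2 h)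
    have hc1 : b ^ (p - 1) ≡ 1 [MOD p] := by
      have h5 := Nat.ModEq.pow_totient hb
      rwa [Nat.totient_prime hp] at h5
    obtain ⟨y, hy, hyp⟩ := c0c_lte hp h3 hc1 hc2 m
    have ha0 : 1 ≤ a ^ (p - 1) := by
      have h6 : a ≠ 0 := by
        rintro rfl
        rw [Nat.coprime_zero_left] at ha
        exact hp.one_lt.ne' ha
      exact Nat.one_le_pow _ _ (Nat.pos_of_ne_zero h6)
    obtain ⟨x, hx⟩ := (Nat.modEq_iff_dvd' ha0).1 hu.symm
    have hx' : a ^ (p - 1) = 1 + x * p ^ (m + 1) := by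
      rw [mul_comm x, ← hx]
      omega
    have hl : ∃ l : ℕ, p ∣ x + l * y := by
      have hcop : Nat.Coprime y p := ((Nat.Prime.coprime_iff_not_dvd hp).2 hyp).symm
      have hu1 : IsUnit (y : ZMod p) := (ZMod.isUnit_iff_coprime y p).2 hcop
      obtain ⟨v, hv⟩ := hu1.exists_right_inv
      haveI : NeZero p := ⟨hp.ne_zero⟩
      refine ⟨(-(x : ZMod p) * v).val, ?_⟩
      rw [← ZMod.natCast_eq_zero_iff]
      push_cast
      rw [ZMod.natCast_val, ZMod.cast_id', id_eq, mul_assoc, mul_comm v, hv]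
      ring
    obtain ⟨l, hl⟩ := hl
    refine ⟨l * p ^ (m - n) + i, ?_⟩
    have he : γ ^ ((l * p ^ (m - n) + i) * p ^ n) * s = γ ^ (l * p ^ m) * g := by
      rw [hg, ← mul_assoc, ← pow_add]
      congr 2
      have : p ^ m = p ^ (m - n) * p ^ n := by rw [← pow_add]; congr 1; omega
      rw [this]
      ring
    rw [he]
    refine (gc_root hp (n := m + 1) (a := b ^ (l * p ^ m) * a) (s := γ ^ (l * p ^ m) * g) fun z hz => ?_).2 ?_
    · rw [AlgEquiv.mul_apply, ha1 z hz, c0c_pow hb1 (l * p ^ m) (z ^ a) (by rw [← pow_mul, mul_comm, pow_mul, hz, one_pow]), ← pow_mul,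
        mul_comm a]
    · have h7 : (b ^ (l * p ^ m) * a) ^ (p - 1) = (1 + y * p ^ (m + 1)) ^ l * (1 + x * p ^ (m + 1)) := by
        rw [mul_pow, hx', ← hy, ← pow_mul, ← pow_mul, ← pow_mul]
        congr 2
        ring
      rw [h7]
      have h8 : ∀ r : ℕ, (1 + y * p ^ (m + 1)) ^ r ≡ 1 + r * y * p ^ (m + 1) [MOD p ^ (m + 1 + 1)] := by
        intro r
        induction r with
        | zero => rw [pow_zero, zero_mul, zero_mul, add_zero]
        | succ r ih =>
          rw [pow_succ]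
          refine (ih.mul_right _).trans ?_
          have h9 : (1 + r * y * p ^ (m + 1)) * (1 + y * p ^ (m + 1)) =
              1 + (r + 1) * y * p ^ (m + 1) + p ^ (m + 1 + 1) * (r * y * y * p ^ m) := by ring
          rw [h9]
          push_cast
          exact Nat.ModEq.trans (Nat.ModEq.add_left _ ((Nat.modEq_zero_iff_dvd).2 (dvd_mul_right _ _))) (by rw [add_zero])
      refine ((h8 l).mul_right _).trans ?_
      obtain ⟨w, hw⟩ := hl
      have h9 : (1 + l * y * p ^ (m + 1)) * (1 + x * p ^ (m + 1)) =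
          1 + p ^ (m + 1 + 1) * w + p ^ (m + 1 + 1) * (l * y * x * p ^ m) := by
        have h10 : (1 + l * y * p ^ (m + 1)) * (1 + x * p ^ (m + 1)) =
          1 + (x + l * y) * p ^ (m + 1) + p ^ (m + 1 + 1) * (l * y * x * p ^ m) := by ring
        rw [h10, hw]
        ring
      rw [h9]
      refine (Nat.modEq_iff_dvd' (by omega)).2 ⟨w + l * y * x * p ^ m, ?_⟩ |>.symm
      rw [mul_add]
      omega

end H35L
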