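import Mathlib
import Pool.Agent.Lib.H35L.Ar
import Pool.Agent.Lib.H55K.SCH

/-! # H35L, chunk X1 (M): the Galois character modulo p^k -/

open NumberField IsDedekindDomain WeierstrassCurve

namespace H35L

open H55P (IQ Pt ac Inert Dec Nm)
open H35P (WAB Ker tt)
open H55K (Tor CMA Dta GV ak)

variable {F : Type} [Field F] [NumberField F] [IQ F] {A B : F} {Om : ℂ} {Ω : Type} [Field Ω] [DecidableEq Ω]
  [Algebra F Ω] [IsAlgClosure F Ω] {j : Ω →+* ℂ} {act : 𝓞 F →+* AddMonoid.End (Pt (WAB A B) Ω)} {mo : Ideal (𝓞 F)}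
  {ψ : Ideal (𝓞 F) →*₀ 𝓞 F} {p : ℕ}

/-- Chunk X1 (S). CMA.gal. -/
theorem cm (dta : Dta A B Om j act mo ψ p) : Cm act := by
  exact dta.cma.gal

omit [NumberField F] [IQ F] [IsAlgClosure F Ω] in
theorem x1_smul (k : ℕ) (T : PM act) : ((p : 𝓞 F) ^ k) • T = p ^ k • T := by
  rw [← Nat.cast_pow, Nat.cast_smul_eq_nsmul]

/-- Chunk X1 (S/M). The points killed by p^k are generated by one point: CMA.gen for b = p^k (act (n : 𝓞 F) P = n P: map_natCast). -/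
theorem tor_gen (dta : Dta A B Om j act mo ψ p) (k : ℕ) : ∃ T₀ : PM act, p ^ k • T₀ = 0 ∧
    (∀ T : PM act, p ^ k • T = 0 → ∃ a : 𝓞 F, T = a • T₀) ∧ ∀ a : 𝓞 F, a • T₀ = 0 ↔ ((p : 𝓞 F) ^ k) ∣ a := by
  have hp : ((p : 𝓞 F)) ^ k ≠ 0 := pow_ne_zero _ (by exact_mod_cast dta.prime.ne_zero)
  obtain ⟨T₀, h0, h1, h2, -⟩ := dta.cma.gen _ hp
  exact ⟨T₀, (x1_smul (act := act) k T₀).symm.trans h0, fun T hT => h1 T ((x1_smul (act := act) k T).trans hT), h2⟩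

/-- Chunk X1 (S/M). aM s T₀ is killed by p^k, so it is a T₀, and aM s (b T₀) = b a T₀. a is prime to p if k > 0: T₀ = aM s^-1 aM s T₀ and aM s^-1 T₀ = a' T₀, so
p^k divides a a' - 1 (for k = 0 take a = 1). -/
theorem ch_exists (dta : Dta A B Om j act mo ψ p) (k : ℕ) (s : Ω ≃ₐ[F] Ω) :
    ∃ a : 𝓞 F, Ch act p k s a ∧ IsCoprime a (p : 𝓞 F) := by
  have hc := cm dta
  obtain ⟨T₀, h0, h1, h2⟩ := tor_gen dta k
  have key : ∀ t : Ω ≃ₐ[F] Ω, ∃ a : 𝓞 F, aM act t T₀ = a • T₀ := by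
    intro t
    refine h1 _ ?_
    rw [← map_nsmul, h0, map_zero]
  rcases Nat.eq_zero_or_pos k with hk | hk
  · subst hk
    refine ⟨1, fun T hT => ?_, isCoprime_one_left⟩
    rw [pow_zero, one_smul] at hT
    rw [hT, map_zero, smul_zero]
  · obtain ⟨a, ha⟩ := key s
    obtain ⟨a', ha'⟩ := key s⁻¹
    refine ⟨a, fun T hT => ?_, ?_⟩
    · obtain ⟨b, rfl⟩ := h1 T hT
      rw [hc, ha, smul_comm]
    · have h3 : (a' * a - 1) • T₀ = 0 := by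
        have h4 := aM_inv act s T₀
        rw [ha', hc, ha, ← mul_smul] at h4
        rw [sub_smul, h4, one_smul, sub_self]
      obtain ⟨c, hc'⟩ := (dvd_pow_self (p : 𝓞 F) hk.ne').trans ((h2 _).1 h3)
      refine ⟨a', -c, ?_⟩
      linear_combination hc'

/-- Chunk X1 (S). -/
theorem ch_uniq (dta : Dta A B Om j act mo ψ p) {k : ℕ} {s : Ω ≃ₐ[F] Ω} {a b : 𝓞 F} (ha : Ch act p k s a) (hb : Ch act p k s b) :
    ((p : 𝓞 F) ^ k) ∣ a - b := by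
  obtain ⟨T₀, h0, h1, h2⟩ := tor_gen dta k
  refine (h2 _).1 ?_
  rw [sub_smul, ← ha T₀ h0, ← hb T₀ h0, sub_self]

omit [IsAlgClosure F Ω] in
/-- Chunk X1 (S). -/
theorem ch_mul (hc : Cm act) {k : ℕ} {s t : Ω ≃ₐ[F] Ω} {a b : 𝓞 F} (ha : Ch act p k s a) (hb : Ch act p k t b) :
    Ch act p k (s * t) (a * b) := by
  intro T hT
  rw [aM_mul, hb T hT, hc, ha T hT, ← mul_smul, mul_comm]

omit [IsAlgClosure F Ω] in
/-- Chunk X1 (S). -/
theorem ch_congr {k : ℕ} {s : Ω ≃ₐ[F] Ω} {a b : 𝓞 F} (ha : Ch act p k s a) (h : ((p : 𝓞 F) ^ k) ∣ a - b) :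
    Ch act p k s b := by
  intro T hT
  obtain ⟨c, hc⟩ := h
  have h1 : a • T - b • T = 0 := by
    rw [← sub_smul, hc, mul_comm, mul_smul, x1_smul, hT, smul_zero]
  rw [ha T hT]
  exact sub_eq_zero.1 h1

omit [NumberField F] [IQ F] [IsAlgClosure F Ω] in
/-- Chunk X1 (S). -/
theorem ch_mono {k l : ℕ} (hkl : k ≤ l) {s : Ω ≃ₐ[F] Ω} {a : 𝓞 F} (ha : Ch act p l s a) : Ch act p k s a := by
  intro T hT
  refine ha T ?_
  obtain ⟨m, rfl⟩ := Nat.exists_eq_add_of_le hkl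
  rw [pow_add, mul_comm, mul_smul, hT, smul_zero]

omit [NumberField F] [IQ F] [IsAlgClosure F Ω] in
/-- Chunk X1 (S). -/
theorem fa_iff {s : Ω ≃ₐ[F] Ω} : FA act p s ↔ ∀ k, Ch act p k s 1 := by
  constructor
  · intro h k T hT
    rw [h T ⟨k, hT⟩, one_smul]
  · rintro h P ⟨k, hk⟩
    rw [h k P hk, one_smul]

/-- Chunk X1 (S/M). The Galois group acts on the points of order a power of p through an abelian group (ch_exists, aM s and aM t commute on every torsion point). -/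
theorem fa_comm (dta : Dta A B Om j act mo ψ p) (s t : Ω ≃ₐ[F] Ω) : FA act p (s * t * s⁻¹ * t⁻¹) := by
  have hc := cm dta
  rintro P ⟨k, hk⟩
  obtain ⟨a, ha, -⟩ := ch_exists dta k s
  obtain ⟨b, hb, -⟩ := ch_exists dta k t
  have h1 := ch_mul hc ha hb
  have h2 := ch_mul hc hb ha
  have hQ : p ^ k • aM act (s⁻¹ * t⁻¹) P = 0 := by rw [← map_nsmul, hk, map_zero]
  have h3 : aM act (s * t) (aM act (s⁻¹ * t⁻¹) P) = aM act (t * s) (aM act (s⁻¹ * t⁻¹) P) := by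
    rw [h1 _ hQ, h2 _ hQ, mul_comm]
  rw [← aM_mul, ← aM_mul] at h3
  have e1 : s * t * s⁻¹ * t⁻¹ = s * t * (s⁻¹ * t⁻¹) := by group
  have e2 : t * s * (s⁻¹ * t⁻¹) = 1 := by group
  rw [e1, h3, e2, aM_one]

end H35L
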