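import Mathlib
import Pool.Agent.Lib.H35L.X1
import Pool.Agent.Lib.H55K.SPA1

/-! # H35L, chunk X2 (M/L): the cyclotomic character is the norm of the Galois character -/

open NumberField IsDedekindDomain WeierstrassCurve

namespace H35L

open H55P (IQ Pt ac Inert Dec Nm)
open H35P (WAB Ker tt)
open H55K (Tor CMA Dta GV ak)

variable {F : Type} [Field F] [NumberField F] [IQ F] {A B : F} {Om : ℂ} {Ω : Type} [Field Ω] [DecidableEq Ω]
  [Algebra F Ω] [IsAlgClosure F Ω] {j : Ω →+* ℂ} {act : 𝓞 F →+* AddMonoid.End (Pt (WAB A B) Ω)} {mo : Ideal (𝓞 F)}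
  {ψ : Ideal (𝓞 F) →*₀ 𝓞 F} {p : ℕ}

omit [NumberField F] [IQ F] [DecidableEq Ω] [IsAlgClosure F Ω] in
/-- Roots of unity at a Frobenius element. -/
theorem x2_zeta {n : ℕ} (hn : n ≠ 0) {ζ : Ω} (hζ : ζ ^ n = 1) (V : ValuationSubring Ω)
    (hV : ¬ V.valuation (n : Ω) < 1) (q : ℕ) (s : Ω ≃ₐ[F] Ω)
    (hs : ∀ x ∈ V, V.valuation (s x - x ^ q) < 1) : s ζ = ζ ^ q := by
  have hζ0 : ζ ≠ 0 := by
    rintro rfl
    rw [zero_pow hn] at hζ
    exact zero_ne_one hζ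
  have hz1 : V.valuation ζ = 1 := by
    have h1 : V.valuation ζ ^ n = 1 := by rw [← map_pow, hζ, map_one]
    exact (pow_eq_one_iff_of_nonneg zero_le hn).1 h1
  have hzV : ζ ∈ V := (V.valuation_le_one_iff ζ).1 hz1.le
  by_contra hne
  have hz0 : ζ ^ q ≠ 0 := pow_ne_zero _ hζ0
  let ξ : Ω := s ζ / ζ ^ q
  have hξ1 : ξ ≠ 1 := fun h => hne ((div_eq_one_iff_eq hz0).1 h)
  have hξl : ξ ^ n = 1 := by
    show (s ζ / ζ ^ q) ^ n = 1
    rw [div_pow, ← map_pow, hζ, map_one, ← pow_mul, mul_comm, pow_mul, hζ, one_pow, div_one]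
  have hξv : V.valuation (ξ - 1) < 1 := by
    have h1 : ξ - 1 = (s ζ - ζ ^ q) / ζ ^ q := by
      show s ζ / ζ ^ q - 1 = _
      field_simp
    rw [h1, map_div₀, map_pow, hz1, one_pow, div_one]
    exact hs ζ hzV
  have hξV : ξ ∈ V := by
    have h1 : ξ - 1 ∈ V := (V.valuation_le_one_iff _).1 hξv.le
    have h2 := V.add_mem _ _ h1 V.one_mem
    rwa [sub_add_cancel] at h2
  let x : V := ⟨ξ, hξV⟩
  have hr : IsLocalRing.residue V x = 1 := by
    have h1 : x - 1 ∈ IsLocalRing.maximalIdeal V := by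
      rw [ValuationSubring.valuation_lt_one_iff]
      exact hξv
    have h2 := (IsLocalRing.residue_eq_zero_iff _).2 h1
    rw [map_sub, map_one, sub_eq_zero] at h2
    exact h2
  have hsum : ∑ i ∈ Finset.range n, x ^ i = 0 := by
    apply Subtype.ext
    have h1 := geom_sum_mul ξ n
    rw [hξl, sub_self] at h1
    have h2 := (mul_eq_zero.1 h1).resolve_right (sub_ne_zero.2 hξ1)
    rw [ZeroMemClass.coe_zero, ← h2]
    push_cast
    rfl
  have h1 : IsLocalRing.residue V (n : V) = 0 := by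
    have h2 := congrArg (IsLocalRing.residue V) hsum
    rw [map_sum, map_zero] at h2
    simp only [map_pow, hr, one_pow, Finset.sum_const, Finset.card_range, nsmul_eq_mul, mul_one] at h2
    rw [map_natCast]
    exact h2
  apply hV
  have h2 := (IsLocalRing.residue_eq_zero_iff _).1 h1
  have h4 := (ValuationSubring.valuation_lt_one_iff V (n : V)).1 h2
  exact h4

theorem x2_nat_dvd {n : ℕ} {m : ℤ} (h : (n : 𝓞 F) ∣ (m : 𝓞 F)) : (n : ℤ) ∣ m := by
  have h1 : ∀ m' : ℕ, (n : 𝓞 F) ∣ (m' : 𝓞 F) → n ∣ m' := by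
    rintro m' ⟨x, hx⟩
    have h2 := congrArg Nm hx
    rw [H55K.Nm_mul, H55K.Nm_nat, H55K.Nm_nat] at h2
    exact (Nat.pow_dvd_pow_iff two_ne_zero).1 ⟨_, h2⟩
  rcases Int.natAbs_eq m with h2 | h2
  · rw [h2] at h ⊢
    rw [Int.cast_natCast] at h
    exact_mod_cast h1 _ h
  · rw [h2] at h ⊢
    rw [Int.cast_neg, Int.cast_natCast, dvd_neg] at h
    rw [dvd_neg]
    exact_mod_cast h1 _ h

/-- The norm of the Galois character is the cyclotomic character. -/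
theorem x2_char (dta : Dta A B Om j act mo ψ p) {k : ℕ} (hk : 0 < k) {ζ : Ω} (hζ : IsPrimitiveRoot ζ (p ^ k))
    {s : Ω ≃ₐ[F] Ω} {a : 𝓞 F} (ha : Ch act p k s a) {c : ℕ} (hc : s ζ = ζ ^ c) :
    (p : 𝓞 F) ^ k ∣ ((Nm a : ℕ) : 𝓞 F) - (c : 𝓞 F) := by
  classical
  have hA := dta.cma
  have hp := dta.prime
  have hpk : p ^ k ≠ 0 := pow_ne_zero _ hp.ne_zero
  have hac : IsAlgClosed Ω := IsAlgClosure.isAlgClosed F
  have halg : Algebra.IsAlgebraic F Ω := IsAlgClosure.isAlgebraic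
  have hcm := cm dta
  obtain ⟨T₀, h0, hg, hz⟩ := tor_gen dta k
  have hT0 : T₀ ≠ 0 := by
    intro h
    have h1 : ((p : 𝓞 F) ^ k) ∣ 1 := (hz 1).1 (by rw [h, smul_zero])
    have h2 : ((p ^ k : ℕ) : 𝓞 F) ∣ ((1 : ℤ) : 𝓞 F) := by
      push_cast
      exact h1
    have h3 := x2_nat_dvd h2
    have h4 : p ^ k = 1 := by
      have h5 : (p ^ k) ∣ 1 := by exact_mod_cast h3
      exact Nat.dvd_one.1 h5
    have h5 := Nat.one_lt_pow hk.ne' hp.one_lt
    omega
  have hex : ∀ t : Ω ≃ₐ[F] Ω, ∃ e : 𝓞 F × ℕ, aM act t T₀ = e.1 • T₀ ∧ t ζ = ζ ^ e.2 := by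
    intro t
    obtain ⟨x, hx⟩ := hg (aM act t T₀) (by rw [← map_nsmul, h0, map_zero])
    have hn0 : NeZero (p ^ k) := ⟨hpk⟩
    have h1 : (t ζ) ^ (p ^ k) = 1 := by rw [← map_pow, hζ.pow_eq_one, map_one]
    obtain ⟨i, _, hi⟩ := hζ.eq_pow_of_pow_eq_one h1
    exact ⟨⟨x, i⟩, hx, hi.symm⟩
  choose e he using hex
  let mk : 𝓞 F →+* 𝓞 F ⧸ Ideal.span {(p : 𝓞 F) ^ k} := Ideal.Quotient.mk (Ideal.span {(p : 𝓞 F) ^ k})
  have hmk : ∀ x y : 𝓞 F, mk x = mk y ↔ (p : 𝓞 F) ^ k ∣ x - y := by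
    intro x y
    rw [← Ideal.mem_span_singleton]
    exact Ideal.Quotient.mk_eq_mk_iff_sub_mem _ _
  have uniq1 : ∀ (t : Ω ≃ₐ[F] Ω) (x : 𝓞 F), aM act t T₀ = x • T₀ →
      mk ((Nm x : ℕ) : 𝓞 F) = mk ((Nm (e t).1 : ℕ) : 𝓞 F) := by
    intro t x hx
    have h1 : (p : 𝓞 F) ^ k ∣ x - (e t).1 := by
      rw [← hz, sub_smul, ← hx, ← (he t).1, sub_self]
    have h2 : (p : 𝓞 F) ^ k ∣ H55K.cj x - H55K.cj (e t).1 := by
      obtain ⟨y, hy⟩ := h1
      refine ⟨H55K.cj y, ?_⟩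
      rw [← map_sub, hy, map_mul, map_pow, H55K.cj_nat]
    rw [← H55K.mul_cj, ← H55K.mul_cj, map_mul mk, map_mul mk, (hmk _ _).2 h1, (hmk _ _).2 h2]
  have uniq2 : ∀ (t : Ω ≃ₐ[F] Ω) (n : ℕ), t ζ = ζ ^ n → mk (n : 𝓞 F) = mk ((e t).2 : 𝓞 F) := by
    intro t n hn
    have h1 : ζ ^ n = ζ ^ (e t).2 := by rw [← hn, (he t).2]
    have h2 : n ≡ (e t).2 [MOD p ^ k] := by
      rw [← pow_mod_orderOf, ← pow_mod_orderOf ζ (e t).2, ← hζ.eq_orderOf] at h1
      exact hζ.pow_inj (Nat.mod_lt _ (Nat.pos_of_ne_zero hpk)) (Nat.mod_lt _ (Nat.pos_of_ne_zero hpk)) h1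
    rw [hmk]
    have h4 : ((p ^ k : ℕ) : ℤ) ∣ ((n : ℤ) - ((e t).2 : ℤ)) := (Nat.modEq_iff_dvd.1 h2.symm)
    obtain ⟨m, hm⟩ := h4
    refine ⟨(m : 𝓞 F), ?_⟩
    have h6 := congrArg (fun z : ℤ => (z : 𝓞 F)) hm
    push_cast at h6
    exact h6
  let D : (Ω ≃ₐ[F] Ω) →* (𝓞 F ⧸ Ideal.span {(p : 𝓞 F) ^ k}) :=
    { toFun := fun t => mk ((Nm (e t).1 : ℕ) : 𝓞 F)
      map_one' := by
        rw [← uniq1 1 1 (by rw [aM_one, one_smul]), ← H55K.mul_cj]
        simp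
      map_mul' := fun t u => by
        rw [← uniq1 (t * u) ((e u).1 * (e t).1)
          (by rw [aM_mul, (he u).1, hcm, (he t).1, ← mul_smul]), ← map_mul, H55K.Nm_mul, mul_comm]
        congr 1
        push_cast
        rfl }
  let C : (Ω ≃ₐ[F] Ω) →* (𝓞 F ⧸ Ideal.span {(p : 𝓞 F) ^ k}) :=
    { toFun := fun t => mk ((e t).2 : 𝓞 F)
      map_one' := by
        rw [← uniq2 1 1 (by rw [pow_one]; rfl)]
        simp
      map_mul' := fun t u => by
        rw [← uniq2 (t * u) ((e t).2 * (e u).2) (by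
          rw [AlgEquiv.mul_apply, (he u).2, map_pow, (he t).2, pow_mul]), ← map_mul]
        congr 1
        push_cast
        rfl }
  have hH : ∀ (t : Ω ≃ₐ[F] Ω) (x : 𝓞 F) (n : ℕ), aM act t T₀ = x • T₀ →
      t ζ = ζ ^ n → (t ∈ MonoidHom.eqLocus D C ↔ (p : 𝓞 F) ^ k ∣ ((Nm x : ℕ) : 𝓞 F) - (n : 𝓞 F)) := by
    intro t x n hx hn
    rw [← hmk, uniq1 t x hx, uniq2 t n hn]
    exact Iff.rfl
  have key : MonoidHom.eqLocus D C = ⊤ := by
    have hint : ∀ x : Ω, IsIntegral F x := fun x => (Algebra.IsAlgebraic.isAlgebraic x).isIntegral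
    let A₁ : Set Ω := {H55K.xc (T₀ : Pt (WAB A B) Ω), H55K.yc (T₀ : Pt (WAB A B) Ω), ζ}
    have hAf : A₁.Finite := Set.toFinite A₁
    have hAf' : Finite A₁ := hAf
    have hLf : FiniteDimensional F (IntermediateField.adjoin F A₁) :=
      IntermediateField.finiteDimensional_adjoin fun x _ => hint x
    obtain ⟨S₀, hS₀, hfr⟩ := dta.frob
    refine H13S.PA1_top (F₀ := F) (MonoidHom.eqLocus D C) ?_ (IntermediateField.adjoin F A₁) ?_
      (S₀ ∪ {v | (p : 𝓞 F) ∈ v.asIdeal} ∪ {v | mo ≤ v.asIdeal}) ?_ ?_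
    · constructor
      intro t ht g
      show D (g * t * g⁻¹) = C (g * t * g⁻¹)
      have h1 : D t = C t := ht
      rw [map_mul, map_mul, map_mul, map_mul, mul_right_comm, mul_right_comm (C g), h1, ← map_mul,
        ← map_mul, mul_inv_cancel, map_one, map_one]
    · intro t ht
      have hfix : ∀ x ∈ A₁, t x = x := fun x hx =>
        ht ⟨x, IntermediateField.subset_adjoin F A₁ hx⟩
      have e1 : ac (WAB A B) t (T₀ : Pt (WAB A B) Ω) = (T₀ : Pt (WAB A B) Ω) := by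
        refine H55K.S.pt_ext (H55K.S.ac_ne t hT0) hT0 ?_ ?_
        · exact (H55K.S.xc_ac (W := WAB A B) t (T₀ : Pt (WAB A B) Ω)).trans (hfix _ (by simp [A₁]))
        · exact (H55K.S.yc_ac (W := WAB A B) t (T₀ : Pt (WAB A B) Ω)).trans (hfix _ (by simp [A₁]))
      have e1' : aM act t T₀ = (1 : 𝓞 F) • T₀ := by
        rw [one_smul]
        exact e1
      rw [hH t 1 1 e1' (by rw [pow_one]; exact hfix _ (by simp [A₁])), ← H55K.mul_cj]
      simp
    · have hf : ∀ n : ℕ, n ≠ 0 → {v : HeightOneSpectrum (𝓞 F) | (n : 𝓞 F) ∈ v.asIdeal}.Finite := by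
        intro n hn
        have h1 : Ideal.span {(n : 𝓞 F)} ≠ 0 := by
          rw [Ideal.zero_eq_bot, Ne, Ideal.span_singleton_eq_bot]
          exact Nat.cast_ne_zero.2 hn
        refine (Ideal.finite_factors h1).subset ?_
        intro v hv
        exact Ideal.dvd_span_singleton.2 hv
      have hm : {v : HeightOneSpectrum (𝓞 F) | mo ≤ v.asIdeal}.Finite := by
        refine (Ideal.finite_factors dta.hecke.ne).subset ?_
        intro v hv
        exact Ideal.dvd_iff_le.2 hv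
      exact (hS₀.union (hf p hp.ne_zero)).union hm
    · intro v hv hq V hV t ht
      rw [Set.mem_union, Set.mem_union, not_or, not_or] at hv
      obtain ⟨⟨hvS, hvl⟩, hvm⟩ := hv
      change (p : 𝓞 F) ∉ v.asIdeal at hvl
      change ¬ mo ≤ v.asIdeal at hvm
      have hcop : IsCoprime v.asIdeal mo := by
        rw [Ideal.isCoprime_iff_sup_eq]
        exact v.isMaximal.1.2 _ (left_lt_sup.2 hvm)
      have hspan := dta.hecke.gen v.asIdeal hcop
      have hNm : Nm (ψ v.asIdeal) = Ideal.absNorm v.asIdeal := by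
        unfold Nm
        rw [hspan]
      have hVl : ¬ V.valuation (p : Ω) < 1 := by
        intro hlt
        have h1 : Ideal.span {(p : 𝓞 F)} ⊔ v.asIdeal = ⊤ := by
          rw [sup_comm]
          refine v.isMaximal.1.2 _ (left_lt_sup.2 fun h => hvl (h (Ideal.mem_span_singleton_self _)))
        have h2 : (1 : 𝓞 F) ∈ Ideal.span {(p : 𝓞 F)} ⊔ v.asIdeal := by
          rw [h1]
          exact Submodule.mem_top
        obtain ⟨x, hx, y, hy, hxy⟩ := Submodule.mem_sup.1 h2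
        obtain ⟨z, rfl⟩ := Ideal.mem_span_singleton.1 hx
        have h3 : H55K.S.vo V ((p : 𝓞 F) * z) < 1 := by
          rw [H55K.S.vo_mul, H55K.S.vo_nat]
          exact lt_of_le_of_lt (mul_le_of_le_one_right' (H55K.S.vo_le V z)) hlt
        have h4 := H55K.S.vo_add V h3 (hV y hy)
        rw [hxy, H55K.S.vo_one] at h4
        exact lt_irrefl _ h4
      have hV1 : V.valuation (p : Ω) = 1 := by
        refine le_antisymm ?_ (not_lt.1 hVl)
        rw [← H55K.S.vo_nat (F := F)]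
        exact H55K.S.vo_le V _
      have hV2 : V.valuation ((p ^ k : ℕ) : Ω) = 1 := by
        rw [Nat.cast_pow, map_pow, hV1, one_pow]
      have f1 := hfr v hvS hq V hV t ht (p ^ k) hV2 (T₀ : Pt (WAB A B) Ω) h0
      have f3 := x2_zeta hpk hζ.pow_eq_one V (by rw [hV2]; exact lt_irrefl _) _ t ht
      rw [hH t _ _ f1 f3, hNm, sub_self]
      exact dvd_zero _
  have h1 : s ∈ MonoidHom.eqLocus D C := by
    rw [key]
    exact Subgroup.mem_top s
  exact (hH s a c (ha T₀ h0) hc).1 h1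

theorem x2_prim (dta : Dta A B Om j act mo ψ p) (k : ℕ) : ∃ ζ : Ω, IsPrimitiveRoot ζ (p ^ k) := by
  have hac : IsAlgClosed Ω := IsAlgClosure.isAlgClosed F
  have hchar : CharZero Ω := charZero_of_injective_algebraMap (algebraMap F Ω).injective
  have hn0 : NeZero (p ^ k) := ⟨pow_ne_zero _ dta.prime.ne_zero⟩
  have hn1 : NeZero ((p ^ k : ℕ) : Ω) := ⟨by exact_mod_cast pow_ne_zero _ dta.prime.ne_zero⟩
  exact HasEnoughRootsOfUnity.exists_primitiveRoot Ω (p ^ k)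

theorem x2_pow {ζ : Ω} {n : ℕ} (hζ : IsPrimitiveRoot ζ n) (hn : 0 < n) {a b : ℕ} (h : ζ ^ a = ζ ^ b) : a ≡ b [MOD n] := by
  rw [← pow_mod_orderOf, ← pow_mod_orderOf ζ b, ← hζ.eq_orderOf] at h
  exact hζ.pow_inj (Nat.mod_lt _ hn) (Nat.mod_lt _ hn) h

theorem x2_pow' {z : Ω} {n : ℕ} (hz : z ^ n = 1) {a b : ℕ} (h : a ≡ b [MOD n]) : z ^ a = z ^ b := by
  rw [pow_eq_pow_mod a hz, pow_eq_pow_mod b hz, h]

/-- Chunk X2 (M/L). s acts as a on the points killed by p^k; then s z = z^(Nm a) for the p^k-th roots of unity z. PORT of H55K.S.char_id (file Lib/H55K/SPA1.lean, 170 lines) from a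
prime element pi to p^k: T₀ = T₀' = the generator of tor_gen, a = b, zeta a primitive p^k-th root of unity (k > 0), c with s zeta = zeta^c: p^k divides cj a * a - c = Nm a - c in 𝓞 F
(mul_cj, cj (p : 𝓞 F) = p), so p^k divides Nm a - c in the integers (divide in 𝓞 F, ℤ is integrally closed: or Nm a - c = p^k x with x in 𝓞 F rational, hence in ℤ). PROOF of the divisibility: the elements s with
this property form a subgroup containing an open one (the two characters are homomorphisms); H13S.PA1_top reduces to Frobenius elements of degree one primes v not above p, prime to mo,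
outside dta.frob: they act as ψ v on the points (dta.frob), as the (N v)-th power on the roots of unity (PA1_zeta is stated for a prime number l; the same proof for p^k), and Nm (ψ v) = N v. -/
theorem ch_cyc (dta : Dta A B Om j act mo ψ p) {k : ℕ} {s : Ω ≃ₐ[F] Ω} {a : 𝓞 F} (ha : Ch act p k s a) (z : Ω)
    (hz : z ^ p ^ k = 1) : s z = z ^ Nm a := by
  rcases Nat.eq_zero_or_pos k with hk | hk
  · subst hk
    rw [pow_zero, pow_one] at hz
    rw [hz, map_one, one_pow]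
  have hpk : p ^ k ≠ 0 := pow_ne_zero _ dta.prime.ne_zero
  have hn0 : NeZero (p ^ k) := ⟨hpk⟩
  obtain ⟨ζ, hζ⟩ := x2_prim dta k
  have h1 : (s ζ) ^ (p ^ k) = 1 := by rw [← map_pow, hζ.pow_eq_one, map_one]
  obtain ⟨c, _, hc⟩ := hζ.eq_pow_of_pow_eq_one h1
  have h2 := x2_char dta hk hζ ha hc.symm
  have h3 : ((p ^ k : ℕ) : 𝓞 F) ∣ (((Nm a : ℤ) - (c : ℤ) : ℤ) : 𝓞 F) := by
    push_cast
    exact h2
  have h4 : c ≡ Nm a [MOD p ^ k] := Nat.modEq_iff_dvd.2 (x2_nat_dvd h3)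
  obtain ⟨i, _, hi⟩ := hζ.eq_pow_of_pow_eq_one hz
  rw [← hi, map_pow, ← hc, ← pow_mul, ← pow_mul, mul_comm, pow_mul, pow_mul]
  exact x2_pow' (by rw [← pow_mul, mul_comm, pow_mul, hζ.pow_eq_one, one_pow]) h4

/-- Chunk X2 (S). -/
theorem fa_root (dta : Dta A B Om j act mo ψ p) {s : Ω ≃ₐ[F] Ω} (hs : FA act p s) (k : ℕ) (z : Ω) (hz : z ^ p ^ k = 1) : s z = z := by
  have h1 := ch_cyc dta (fa_iff.1 hs k) z hz
  have h2 : Nm (1 : 𝓞 F) = 1 := by
    have h3 := H55K.Nm_nat (F := F) 1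
    simpa using h3
  rw [h1, h2, pow_one]

/-- Chunk X2 (S). -/
theorem fa_gc (dta : Dta A B Om j act mo ψ p) {s : Ω ≃ₐ[F] Ω} (hs : FA act p s) (m : ℕ) : Gc p m s := by
  exact ⟨1, by rw [one_pow], fun z hz => by rw [fa_root dta hs _ z hz, pow_one]⟩

/-- Chunk X2 (S/M). A primitive p^(n+1)-th root of unity exists in Ω; its powers z^a, z^b agree iff a = b modulo p^(n+1). -/
theorem gc_iff (dta : Dta A B Om j act mo ψ p) {n : ℕ} {s : Ω ≃ₐ[F] Ω} {a : 𝓞 F} (ha : Ch act p (n + 1) s a) :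
    Gc p n s ↔ Nm a ^ (p - 1) ≡ 1 [MOD p ^ (n + 1)] := by
  constructor
  · rintro ⟨c, hc, h1⟩
    obtain ⟨ζ, hζ⟩ := x2_prim dta (n + 1)
    have h2 : ζ ^ Nm a = ζ ^ c := by
      rw [← ch_cyc dta ha ζ hζ.pow_eq_one, h1 ζ hζ.pow_eq_one]
    exact ((x2_pow hζ (pow_pos dta.prime.pos _) h2).pow (p - 1)).trans hc
  · intro h
    exact ⟨Nm a, h, fun z hz => ch_cyc dta ha z hz⟩

end H35L
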