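import Mathlib
import Pool.Agent.Lib.H35L.C0C
import Pool.Agent.Lib.H35L.X2

/-! # H35L, chunk C1 (M): levels and equivariance -/

open NumberField IsDedekindDomain WeierstrassCurve

namespace H35L

open H55P (IQ Pt ac Inert Dec Nm)
open H35P (WAB)
open H55K (CMA Dta)
open H35K (Lev)

variable {F : Type} [Field F] [NumberField F] [IQ F] {A B : F} {Om : ℂ} {Ω : Type} [Field Ω] [DecidableEq Ω]
  [Algebra F Ω] [IsAlgClosure F Ω] {j : Ω →+* ℂ} {act : 𝓞 F →+* AddMonoid.End (Pt (WAB A B) Ω)} {mo : Ideal (𝓞 F)}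
  {ψ : Ideal (𝓞 F) →*₀ 𝓞 F} {p : ℕ}

theorem c1_op {G : Subgroup (Ω ≃ₐ[F] Ω)} {I : (Ω ≃ₐ[F] Ω) → Prop} (hc : Cm act) (hI : CI I) {γ : Ω ≃ₐ[F] Ω} (hγ : γ ∈ G)
    (f : SM act hc p G I) (h : Ω ≃ₐ[F] Ω) (hh : SH act G p h) :
    (opM act hc p hI hγ f).1 h = aM act γ (f.1 (γ⁻¹ * h * γ)) := by
  have h1 : (opM act hc p hI hγ f).1 h = aM act (γ⁻¹)⁻¹ (f.1 (γ⁻¹ * h * (γ⁻¹)⁻¹)) := if_pos hh
  rw [h1, inv_inv]

theorem c1_conj {G : Subgroup (Ω ≃ₐ[F] Ω)} {h t : Ω ≃ₐ[F] Ω} (hh : SH act G p h) (ht : t ∈ G) :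
    SH act G p (t * h * t⁻¹) :=
  ⟨mul_mem (mul_mem ht hh.1) (inv_mem ht), FA_conj act hh.2 t⟩

theorem c1_conj' {G : Subgroup (Ω ≃ₐ[F] Ω)} {h t : Ω ≃ₐ[F] Ω} (hh : SH act G p h) (ht : t ∈ G) :
    SH act G p (t⁻¹ * h * t) := by
  have h1 := c1_conj hh (inv_mem ht)
  rwa [inv_inv] at h1

/-- Chunk C1a (S/M). The powers of the operator. -/
theorem op_pow {G : Subgroup (Ω ≃ₐ[F] Ω)} {I : (Ω ≃ₐ[F] Ω) → Prop} (hc : Cm act) (hI : CI I) {γ : Ω ≃ₐ[F] Ω} (hγ : γ ∈ G) (k : ℕ)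
    (f : SM act hc p G I) (h : Ω ≃ₐ[F] Ω) (hh : SH act G p h) :
    ((opM act hc p hI hγ ^ k) f).1 h = aM act (γ ^ k) (f.1 ((γ ^ k)⁻¹ * h * γ ^ k)) := by
  induction k generalizing h with
  | zero =>
    have e : (γ ^ 0)⁻¹ * h * γ ^ 0 = h := by group
    rw [e, pow_zero, pow_zero, aM_one]
    rfl
  | succ k ih =>
    rw [pow_succ', Module.End.mul_apply, c1_op hc hI hγ _ h hh, ih _ (c1_conj' hh hγ), ← aM_mul]
    have e : (γ ^ k)⁻¹ * (γ⁻¹ * h * γ) * γ ^ k = (γ ^ (k + 1))⁻¹ * h * γ ^ (k + 1) := by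
      rw [pow_succ']
      group
    rw [e, pow_succ']

theorem c1_pow_fix {O Z : Type} [CommRing O] [AddCommGroup Z] [Module O Z] (f : Z →ₗ[O] Z) (z : Z) (m : ℕ)
    (h : (f ^ m) z = z) (i : ℕ) : (f ^ (i * m)) z = z := by
  induction i with
  | zero => rw [zero_mul, pow_zero]; rfl
  | succ i ih => rw [add_mul, one_mul, pow_add, Module.End.mul_apply, h, ih]

theorem c1_gc_le {m n : ℕ} {s : Ω ≃ₐ[F] Ω} (hmn : m ≤ n) (h : Gc p n s) : Gc p m s := by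
  induction n, hmn using Nat.le_induction with
  | base => exact h
  | succ n _ ih => exact ih (Gc_mono h)

theorem c1_aM_inj (s : Ω ≃ₐ[F] Ω) {P Q : PM act} (h : aM act s P = aM act s Q) : P = Q := by
  have h1 := congrArg (aM act s⁻¹) h
  rwa [← aM_mul, ← aM_mul, inv_mul_cancel, aM_one, aM_one] at h1

theorem c1_ext {G : Subgroup (Ω ≃ₐ[F] Ω)} {I : (Ω ≃ₐ[F] Ω) → Prop} {hc : Cm act} {f g : SM act hc p G I}
    (h : ∀ h, SH act G p h → f.1 h = g.1 h) : f = g := by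
  apply Subtype.ext
  funext x
  by_cases hx : SH act G p x
  · exact h x hx
  · have hf : IsCls act p (SH act G p) I (SN G p) f.1 := f.2
    have hg : IsCls act p (SH act G p) I (SN G p) g.1 := g.2
    rw [hf.out x hx, hg.out x hx]

/-- Chunk C1 (M). f is of level n iff it is equivariant under the group of level n of G. If equivariant: gamma^(p^n) is of level n (gc_powp), so op^(p^n) f = f (op_pow; both are 0 outside SH). Conversely f is equivariant under some level m,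
m >= n without loss of generality (gc_le), and under gamma^(i p^n) for all i (op^(p^n) f = f, iterate). s of level n: t = gamma^(i p^n) s is of level m (gc_gen), s = gamma^-(i p^n) t. -/
theorem lev_iff (dta : Dta A B Om j act mo ψ p) {G : Subgroup (Ω ≃ₐ[F] Ω)} {I : (Ω ≃ₐ[F] Ω) → Prop} (hc : Cm act) (hI : CI I) {γ : Ω ≃ₐ[F] Ω} (hγ : γ ∈ G)
    (hg : Gen p γ) (n : ℕ) (f : SM act hc p G I) :
    Lev p n (opM act hc p hI hγ) f ↔ ∀ s, SN G p n s → ∀ h, SH act G p h → f.1 (s * h * s⁻¹) = aM act s (f.1 h) := by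
  constructor
  · intro hf s hs h hh
    have hcls : IsCls act p (SH act G p) I (SN G p) f.1 := f.2
    obtain ⟨m, hm⟩ := hcls.eqv
    have h3 : 3 ≤ p := by have := dta.five; omega
    obtain ⟨i, hi⟩ := gc_gen dta.prime h3 hg (le_max_right m n) hs.2
    have hgG : γ ^ (i * p ^ n) ∈ G := pow_mem hγ _
    have ht : SN G p m (γ ^ (i * p ^ n) * s) := ⟨mul_mem hgG hs.1, c1_gc_le (le_max_left m n) hi⟩
    have h1 := hm _ ht h hh
    have hfix : ((opM act hc p hI hγ) ^ (i * p ^ n)) f = f := c1_pow_fix _ _ _ hf i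
    have hx : SH act G p (γ ^ (i * p ^ n) * s * h * (γ ^ (i * p ^ n) * s)⁻¹) := c1_conj hh ht.1
    have h2 := op_pow hc hI hγ (i * p ^ n) f _ hx
    rw [hfix] at h2
    rw [h2] at h1
    have e : (γ ^ (i * p ^ n))⁻¹ * (γ ^ (i * p ^ n) * s * h * (γ ^ (i * p ^ n) * s)⁻¹) * γ ^ (i * p ^ n) = s * h * s⁻¹ := by
      group
    rw [e, aM_mul] at h1
    exact c1_aM_inj _ h1
  · intro hf
    apply c1_ext
    intro h hh
    have hs : SN G p n (γ ^ p ^ n) := ⟨pow_mem hγ _, gc_powp dta.prime γ n⟩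
    rw [op_pow hc hI hγ _ f h hh, ← hf _ hs _ (c1_conj' hh hs.1)]
    congr 1
    group

/-- Chunk C1b (S). -/
theorem lev_zero_iff (dta : Dta A B Om j act mo ψ p) {G : Subgroup (Ω ≃ₐ[F] Ω)} {I : (Ω ≃ₐ[F] Ω) → Prop} (hc : Cm act) (hI : CI I) {γ : Ω ≃ₐ[F] Ω} (hγ : γ ∈ G)
    (hg : Gen p γ) (f : SM act hc p G I) :
    opM act hc p hI hγ f = f ↔ ∀ s ∈ G, ∀ h, SH act G p h → f.1 (s * h * s⁻¹) = aM act s (f.1 h) := by
  have h1 := lev_iff dta hc hI hγ hg 0 f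
  unfold Lev at h1
  rw [pow_zero, pow_one] at h1
  rw [h1]
  constructor
  · intro h2 s hs
    refine h2 s ⟨hs, ?_⟩
    have h3 := gc_powp dta.prime s 0
    rwa [pow_zero, pow_one] at h3
  · intro h2 s hs
    exact h2 s hs.1

end H35L
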