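import Mathlib
import Pool.Agent.Lib.H35L.C1

/-! # H35L, chunk C4 (M): the classes of points -/

open NumberField IsDedekindDomain WeierstrassCurve

namespace H35L

open H55P (IQ Pt ac Inert Dec Nm)
open H35P (WAB)
open H55K (CMA Dta)
open H35K (Lev)

variable {F : Type} [Field F] [NumberField F] [IQ F] {A B : F} {Om : ℂ} {Ω : Type} [Field Ω] [DecidableEq Ω]
  [Algebra F Ω] [IsAlgClosure F Ω] {j : Ω →+* ℂ} {act : 𝓞 F →+* AddMonoid.End (Pt (WAB A B) Ω)} {mo : Ideal (𝓞 F)}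
  {ψ : Ideal (𝓞 F) →*₀ 𝓞 F} {p : ℕ}

theorem c4_tor (dta : Dta A B Om j act mo ψ p) {n k : ℕ} {P : PM act} {G : Subgroup (Ω ≃ₐ[F] Ω)}
    (hk : ∀ s, SN G p n s → aM act s (p ^ k • P) = p ^ k • P) {s : Ω ≃ₐ[F] Ω} (hs : SN G p n s) :
    p ^ k • (aM act s P - P) = 0 := by
  rw [smul_sub, ← map_nsmul, hk s hs, sub_self]

theorem c4_sn (dta : Dta A B Om j act mo ψ p) {n : ℕ} {G : Subgroup (Ω ≃ₐ[F] Ω)} {h : Ω ≃ₐ[F] Ω}
    (hh : SH act G p h) : SN G p n h := ⟨hh.1, fa_gc dta hh.2 n⟩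

theorem c4_inv (s : Ω ≃ₐ[F] Ω) (P : PM act) : aM act s⁻¹ (aM act s P) = P := by
  rw [← aM_mul, inv_mul_cancel, aM_one]

/-- The equivariance of the class of a point. -/
theorem c4_eqv {n k : ℕ} {P : PM act} {G : Subgroup (Ω ≃ₐ[F] Ω)}
    (hk : ∀ s, SN G p n s → aM act s (p ^ k • P) = p ^ k • P) {s h : Ω ≃ₐ[F] Ω} (hs : SN G p n s)
    (hh : SH act G p h) :
    aM act (s * h * s⁻¹) P - P = aM act s (aM act h P - P) := by
  obtain ⟨a, ha⟩ : ∃ a : PM act, a = aM act s P - P := ⟨_, rfl⟩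
  have hka : p ^ k • a = 0 := by
    rw [ha, smul_sub, ← map_nsmul, hk s hs, sub_self]
  have hsP : aM act s P = P + a := by
    rw [ha]
    abel
  have h1 : aM act s⁻¹ P = P - aM act s⁻¹ a := by
    have h2 := c4_inv (act := act) s P
    rw [hsP, map_add] at h2
    exact eq_sub_of_add_eq h2
  have h3 : aM act h (aM act s⁻¹ a) = aM act s⁻¹ a :=
    hh.2 _ ⟨k, by rw [← map_nsmul, hka, map_zero]⟩
  rw [aM_mul, aM_mul, h1, map_sub, map_sub, map_sub, h3, aM_inv, hsP]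
  abel

/-- Chunk C4a (S/M). The class of a point: for P with p^k P rational over the field of level n of G, h -> h P - P is a class (values: h fixes p^k P since it is of level n (fa_gc); continuity: H55P.pt_open; additivity: h fixes h' P - P;
equivariance under level n: s P = P + a with p^k a = 0, s h s^-1 P - P = s(h(s^-1 P)) - P and s^-1 P = P - s^-1 a, h fixes s^-1 a). I must be zero on it: hypothesis hP. -/
theorem pt_cls (dta : Dta A B Om j act mo ψ p) {G : Subgroup (Ω ≃ₐ[F] Ω)} {I : (Ω ≃ₐ[F] Ω) → Prop} (hc : Cm act) {n : ℕ} {P : PM act} (hP : PL act p G n P)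
    (hI : ∀ h, SH act G p h → I h → aM act h P = P) :
    ∃ w ∈ DM act hc p G I n, ∀ h, SH act G p h → w.1 h = aM act h P - P := by
  classical
  obtain ⟨k, hk⟩ := hP
  obtain ⟨w, hw⟩ : ∃ w : (Ω ≃ₐ[F] Ω) → PM act,
      w = fun h => if SH act G p h then aM act h P - P else 0 := ⟨_, rfl⟩
  have hw1 : ∀ h, SH act G p h → w h = aM act h P - P := by
    intro h hh
    rw [hw]
    exact if_pos hh
  have hw0 : ∀ h, ¬ SH act G p h → w h = 0 := by
    intro h hh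
    rw [hw]
    exact if_neg hh
  have hcl : IsCls act p (SH act G p) I (SN G p) w := by
    refine ⟨⟨hw0, ?_, ?_, ?_, ?_⟩, ⟨n, ?_⟩⟩
    · intro h hh h' hh'
      have hhh : SH act G p (h * h') := ⟨mul_mem hh.1 hh'.1, FA_mul act hh.2 hh'.2⟩
      rw [hw1 _ hhh, hw1 _ hh, hw1 _ hh', aM_mul]
      have h1 : aM act h (aM act h' P - P) = aM act h' P - P :=
        hh.2 _ ⟨k, by rw [smul_sub, ← map_nsmul, hk h' (c4_sn dta hh'), sub_self]⟩
      rw [map_sub] at h1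
      rw [← sub_eq_zero] at h1 ⊢
      rw [← h1]
      abel
    · intro h
      by_cases hh : SH act G p h
      · refine ⟨k, ?_⟩
        rw [hw1 _ hh, smul_sub, ← map_nsmul, hk h (c4_sn dta hh), sub_self]
      · exact ⟨0, by rw [hw0 _ hh, smul_zero]⟩
    · obtain ⟨L, hL, h1⟩ := H55P.pt_open (WAB A B) (P : Pt (WAB A B) Ω)
      refine ⟨L, hL, fun h hh hm => ?_⟩
      rw [hw1 _ hh]
      exact sub_eq_zero.2 (h1 h hm)
    · intro h hh hi
      rw [hw1 _ hh, hI h hh hi, sub_self]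
    · intro s hs h hh
      have hhh : SH act G p (s * h * s⁻¹) :=
        ⟨mul_mem (mul_mem hs.1 hh.1) (inv_mem hs.1), FA_conj act hh.2 _⟩
      rw [hw1 _ hhh, hw1 _ hh]
      exact c4_eqv hk hs hh
  exact ⟨⟨w, hcl⟩, ⟨P, ⟨k, hk⟩, hw1⟩, hw1⟩

/-- Chunk C4b (S/M). lev_iff and the computation of pt_cls. -/
theorem dlev (dta : Dta A B Om j act mo ψ p) {G : Subgroup (Ω ≃ₐ[F] Ω)} {I : (Ω ≃ₐ[F] Ω) → Prop} (hc : Cm act) (hI : CI I) {γ : Ω ≃ₐ[F] Ω} (hγ : γ ∈ G)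
    (hg : Gen p γ) (n : ℕ) (w : SM act hc p G I) (hw : w ∈ DM act hc p G I n) : Lev p n (opM act hc p hI hγ) w := by
  obtain ⟨P, ⟨k, hk⟩, hP⟩ := hw
  rw [lev_iff dta hc hI hγ hg]
  intro s hs h hh
  have hhh : SH act G p (s * h * s⁻¹) :=
    ⟨mul_mem (mul_mem hs.1 hh.1) (inv_mem hs.1), FA_conj act hh.2 _⟩
  rw [hP _ hhh, hP _ hh]
  exact c4_eqv hk hs hh

end H35L
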