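import Mathlib
import Pool.Agent.Lib.H35L.X2
import Pool.Agent.Lib.H55K.GF

/-! # H35L, chunk X5 (S/M): elements s with s - 1 bijective -/

open NumberField IsDedekindDomain WeierstrassCurve

namespace H35L

open H55P (IQ Pt ac Inert Dec Nm)
open H35P (WAB Ker tt)
open H55K (Tor CMA Dta GV ak)

variable {F : Type} [Field F] [NumberField F] [IQ F] {A B : F} {Om : ℂ} {Ω : Type} [Field Ω] [DecidableEq Ω]
  [Algebra F Ω] [IsAlgClosure F Ω] {j : Ω →+* ℂ} {act : 𝓞 F →+* AddMonoid.End (Pt (WAB A B) Ω)} {mo : Ideal (𝓞 F)}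
  {ψ : Ideal (𝓞 F) →*₀ 𝓞 F} {p : ℕ}

omit [NumberField F] [IQ F] [IsAlgClosure F Ω] in
theorem x5_nat (k : ℕ) (P : PM act) : ((p : 𝓞 F) ^ k) • P = p ^ k • P := by
  rw [← Nat.cast_pow, Nat.cast_smul_eq_nsmul]

theorem x5_cop (dta : Dta A B Om j act mo ψ p) (hin : Prime (p : 𝓞 F)) {s : Ω ≃ₐ[F] Ω} {a : 𝓞 F}
    (ha : Ch act p 1 s a) (h : ¬ (p : 𝓞 F) ∣ a - 1) (k : ℕ) :
    ∃ b u v : 𝓞 F, Ch act p (k + 1) s b ∧ u * (b - 1) + v * (p : 𝓞 F) ^ (k + 1) = 1 := by
  obtain ⟨b, hb, _⟩ := ch_exists dta (k + 1) s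
  have hb1 : Ch act p 1 s b := ch_mono (by omega) hb
  have h1 : ((p : 𝓞 F) ^ 1) ∣ b - a := ch_uniq dta hb1 ha
  rw [pow_one] at h1
  have h2 : ¬ (p : 𝓞 F) ∣ b - 1 := by
    intro h3
    apply h
    have h4 := dvd_sub h3 h1
    rwa [show b - 1 - (b - a) = a - 1 by ring] at h4
  have h5 : IsCoprime (p : 𝓞 F) (b - 1) := (hin.irreducible.coprime_iff_not_dvd).2 h2
  have h6 : IsCoprime (b - 1) ((p : 𝓞 F) ^ (k + 1)) := h5.symm.pow_right
  obtain ⟨u, v, huv⟩ := h6
  exact ⟨b, u, v, hb, huv⟩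

/-- Chunk X5a (S/M). If s acts as a on the points killed by p and a - 1 is prime to p (p inert: p does not divide a - 1) then s - 1 is bijective on the points of order a power of p: on the points killed by p^k s acts as
a_k (ch_exists) with a_k = a modulo p (ch_mono, ch_uniq), u (a_k - 1) + v p^k = 1. -/
theorem tb_of_ch (dta : Dta A B Om j act mo ψ p) (hin : Prime (p : 𝓞 F)) {s : Ω ≃ₐ[F] Ω} {a : 𝓞 F} (ha : Ch act p 1 s a) (h : ¬ (p : 𝓞 F) ∣ a - 1) :
    Tb act p s := by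
  constructor
  · rintro P ⟨k, hk⟩ hP
    obtain ⟨b, u, v, hb, huv⟩ := x5_cop dta hin ha h k
    have hk1 : p ^ (k + 1) • P = 0 := by rw [pow_succ', mul_smul, hk, smul_zero]
    have h1 := hb P hk1
    rw [hP] at h1
    have h2 : (b - 1) • P = 0 := by rw [sub_smul, one_smul, ← h1, sub_self]
    have h3 : (u * (b - 1) + v * (p : 𝓞 F) ^ (k + 1)) • P = P := by rw [huv, one_smul]
    rw [← h3, add_smul, mul_smul, mul_smul, h2, x5_nat, hk1, smul_zero, smul_zero, add_zero]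
  · rintro P ⟨k, hk⟩
    obtain ⟨b, u, v, hb, huv⟩ := x5_cop dta hin ha h k
    have hk1 : p ^ (k + 1) • P = 0 := by rw [pow_succ', mul_smul, hk, smul_zero]
    have hQ : p ^ (k + 1) • (u • P) = 0 := by rw [smul_comm, hk1, smul_zero]
    refine ⟨u • P, ⟨k + 1, hQ⟩, ?_⟩
    rw [hb _ hQ]
    have h3 : (u * (b - 1) + v * (p : 𝓞 F) ^ (k + 1)) • P = P := by rw [huv, one_smul]
    rw [add_smul, mul_smul v, x5_nat, hk1, smul_zero, add_zero] at h3
    calc b • u • P - u • P = (u * (b - 1)) • P := by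
          rw [← mul_smul, ← sub_smul]
          congr 1
          ring
      _ = P := h3

/-- Chunk X5b (S). -/
theorem tb_of_ne (dta : Dta A B Om j act mo ψ p) (hin : Prime (p : 𝓞 F)) {s : Ω ≃ₐ[F] Ω} {T : PM act} (hT : p • T = 0) (h : aM act s T ≠ T) :
    Tb act p s := by
  obtain ⟨a, ha, _⟩ := ch_exists dta 1 s
  refine tb_of_ch dta hin ha ?_
  rintro ⟨c, hc⟩
  apply h
  have h1 := ha T (by rw [pow_one]; exact hT)
  rw [h1]
  have h2 : a = 1 + c * (p : 𝓞 F) := by linear_combination hc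
  have h3 : (p : 𝓞 F) • T = 0 := by rw [Nat.cast_smul_eq_nsmul, hT]
  rw [h2, add_smul, one_smul, mul_smul, h3, smul_zero, add_zero]

/-- Chunk X5c (S). V of residue characteristic not p, s in the inertia group fixing the points killed by p: s fixes all points of order a power of p. H55K.inert_fix with l = p, pi = p, n = p^k. -/
theorem fa_of_inert (dta : Dta A B Om j act mo ψ p) (hin : Prime (p : 𝓞 F)) {V : ValuationSubring Ω} (hV : V.valuation (p : Ω) = 1) {s : Ω ≃ₐ[F] Ω} (hs : Inert V s)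
    (h : ∀ T : PM act, p • T = 0 → aM act s T = T) : FA act p s := by
  rintro P ⟨k, hk⟩
  obtain ⟨Kg, u, hG⟩ := dta.gmod V
  refine H55K.inert_fix dta.cma dta.prime dta.five hin (dvd_refl _) hG hV s hs ?_ (p ^ k) ?_ P ?_
  · intro T hT
    have h1 : act (p : 𝓞 F) T = 0 := hT
    refine h T ?_
    have h2 : (p : 𝓞 F) • (show PM act from T) = 0 := h1
    rw [Nat.cast_smul_eq_nsmul] at h2
    exact h2
  · rw [Nat.cast_pow, map_pow, hV, one_pow]
  · have h1 : p ^ k • (aM act s P - P) = 0 := by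
      rw [smul_sub, ← map_nsmul, hk, map_zero, sub_self]
    exact h1

end H35L
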