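import Mathlib
import Pool.Agent.Lib.H35L.C4
import Pool.Agent.Lib.H35L.X5

/-! # H35L, chunk C4E (S/M): division of classes of points -/

open NumberField IsDedekindDomain WeierstrassCurve

namespace H35L

open H55P (IQ Pt ac Inert Dec Nm)
open H35P (WAB)
open H55K (CMA Dta)
open H35K (Lev)

variable {F : Type} [Field F] [NumberField F] [IQ F] {A B : F} {Om : ℂ} {Ω : Type} [Field Ω] [DecidableEq Ω]
  [Algebra F Ω] [IsAlgClosure F Ω] {j : Ω →+* ℂ} {act : 𝓞 F →+* AddMonoid.End (Pt (WAB A B) Ω)} {mo : Ideal (𝓞 F)}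
  {ψ : Ideal (𝓞 F) →*₀ 𝓞 F} {p : ℕ}

theorem c4e_div (dta : Dta A B Om j act mo ψ p) (P : PM act) : ∃ Q : PM act, p • Q = P := by
  have hp0 : (p : 𝓞 F) ≠ 0 := by
    exact_mod_cast dta.prime.ne_zero
  obtain ⟨Q, hQ⟩ := dta.cma.surj (p : 𝓞 F) hp0 P
  refine ⟨Q, ?_⟩
  rw [← Nat.cast_smul_eq_nsmul (𝓞 F)]
  exact hQ

theorem c4e_pl {G : Subgroup (Ω ≃ₐ[F] Ω)} {n : ℕ} {P Q : PM act} (hP : PL act p G n P) (hQ : p • Q = P) :
    PL act p G n Q := by
  obtain ⟨k, hk⟩ := hP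
  refine ⟨k + 1, fun s hs => ?_⟩
  rw [pow_succ, mul_smul, hQ]
  exact hk s hs

theorem c4e_ext {G : Subgroup (Ω ≃ₐ[F] Ω)} {I : (Ω ≃ₐ[F] Ω) → Prop} {hc : Cm act} {f g : SM act hc p G I}
    (h : ∀ h, SH act G p h → f.1 h = g.1 h) : f = g := by
  apply Subtype.ext
  funext x
  by_cases hx : SH act G p x
  · exact h x hx
  · have hf : IsCls act p (SH act G p) I (SN G p) f.1 := f.2
    have hg : IsCls act p (SH act G p) I (SN G p) g.1 := g.2
    rw [hf.out x hx, hg.out x hx]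

theorem c4e_main (dta : Dta A B Om j act mo ψ p) {G : Subgroup (Ω ≃ₐ[F] Ω)} {I : (Ω ≃ₐ[F] Ω) → Prop} (hc : Cm act) (n : ℕ)
    (hI : ∀ P : PM act, PL act p G n P → ∀ h, SH act G p h → I h → aM act h P = P)
    (w : SM act hc p G I) (hw : w ∈ DM act hc p G I n) : ∃ w' ∈ DM act hc p G I n, p • w' = w := by
  obtain ⟨P, hP, hwP⟩ := hw
  obtain ⟨Q, hQ⟩ := c4e_div dta P
  have hQl := c4e_pl hP hQ
  obtain ⟨w', hw', hw'Q⟩ := pt_cls dta hc hQl (hI Q hQl)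
  refine ⟨w', hw', ?_⟩
  apply c4e_ext
  intro h hh
  have h1 : (p • w').1 h = p • w'.1 h := rfl
  rw [h1, hw'Q h hh, hwP h hh, smul_sub, hQ, ← map_nsmul, hQ]

/-- Chunk C4e (S/M). Divide the point by p (multiplication by p is onto: CMA.surj): the class of P/p by pt_cls. For G = Dec V, I empty. -/
theorem ddiv (dta : Dta A B Om j act mo ψ p) {G : Subgroup (Ω ≃ₐ[F] Ω)} {I : (Ω ≃ₐ[F] Ω) → Prop} (hc : Cm act) (hI : ∀ h, ¬ I h) (n : ℕ)
    (w : SM act hc p G I) (hw : w ∈ DM act hc p G I n) : ∃ w' ∈ DM act hc p G I n, p • w' = w :=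
  c4e_main dta hc n (fun _ _ h _ hi => absurd hi (hI h)) w hw

/-- Chunk C4f (S/M). The same for I = GI p (inertia outside p): for h in SH and in the inertia group of V, V(p) = 1, and P with p^k P of level n: h P - P is killed by p^k, and h fixes the points killed by p, so h P = P by H55K.inert_fix. -/
theorem ddiv_gi (dta : Dta A B Om j act mo ψ p) (hin : Prime (p : 𝓞 F)) {G : Subgroup (Ω ≃ₐ[F] Ω)} (hc : Cm act) (n : ℕ)
    (w : SM act hc p G (GI p)) (hw : w ∈ DM act hc p G (GI p) n) : ∃ w' ∈ DM act hc p G (GI p) n, p • w' = w := by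
  refine c4e_main dta hc n ?_ w hw
  rintro P ⟨k, hk⟩ h hh ⟨V, hV, hin'⟩
  obtain ⟨Kg, u, hG⟩ := dta.gmod V
  have hfix : ∀ T ∈ H55K.Tor act (p : 𝓞 F), ac (WAB A B) h T = T := by
    intro T hT
    refine hh.2 T ⟨1, ?_⟩
    rw [pow_one, ← Nat.cast_smul_eq_nsmul (𝓞 F)]
    exact hT
  have hkV : V.valuation ((p ^ k : ℕ) : Ω) = 1 := by
    rw [Nat.cast_pow, map_pow, hV, one_pow]
  refine H55K.inert_fix dta.cma dta.prime dta.five hin dvd_rfl hG hV h hin' hfix (p ^ k) hkV P ?_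
  have h1 : SN G p n h := ⟨hh.1, fa_gc dta hh.2 n⟩
  have h2 := hk h h1
  have h3 : p ^ k • (aM act h P - P) = 0 := by
    rw [smul_sub, ← map_nsmul, h2, sub_self]
  exact h3

end H35L
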