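import Mathlib
import Pool.Agent.Lib.H35L.X2
import Pool.Agent.Lib.H35L.C0

/-! # H35L, chunk C5 (M): cocycles that are coboundaries -/

open NumberField IsDedekindDomain WeierstrassCurve

namespace H35L

open H55P (IQ Pt ac Inert Dec Nm)
open H35P (WAB)
open H55K (CMA Dta)
open H35K (Lev)

variable {F : Type} [Field F] [NumberField F] [IQ F] {A B : F} {Om : ℂ} {Ω : Type} [Field Ω] [DecidableEq Ω]
  [Algebra F Ω] [IsAlgClosure F Ω] {j : Ω →+* ℂ} {act : 𝓞 F →+* AddMonoid.End (Pt (WAB A B) Ω)} {mo : Ideal (𝓞 F)}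
  {ψ : Ideal (𝓞 F) →*₀ 𝓞 F} {p : ℕ}

omit [NumberField F] [IQ F] [IsAlgClosure F Ω] in
theorem c5_tor (s : Ω ≃ₐ[F] Ω) {P : PM act} (h : ∃ k : ℕ, p ^ k • P = 0) : ∃ k : ℕ, p ^ k • aM act s P = 0 := by
  obtain ⟨k, hk⟩ := h
  exact ⟨k, by rw [← map_nsmul, hk, map_zero]⟩

omit [NumberField F] [IQ F] [IsAlgClosure F Ω] in
theorem c5_add {P Q : PM act} (h : ∃ k : ℕ, p ^ k • P = 0) (h' : ∃ k : ℕ, p ^ k • Q = 0) : ∃ k : ℕ, p ^ k • (P + Q) = 0 := by
  obtain ⟨k, hk⟩ := h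
  obtain ⟨l, hl⟩ := h'
  refine ⟨k + l, ?_⟩
  rw [smul_add, pow_add, mul_smul, mul_smul, smul_comm (p ^ k) (p ^ l) P, hk, hl, smul_zero, smul_zero, add_zero]

omit [NumberField F] [IQ F] [IsAlgClosure F Ω] in
theorem c5_sub {P Q : PM act} (h : ∃ k : ℕ, p ^ k • P = 0) (h' : ∃ k : ℕ, p ^ k • Q = 0) : ∃ k : ℕ, p ^ k • (P - Q) = 0 := by
  obtain ⟨k, hk⟩ := h
  obtain ⟨l, hl⟩ := h'
  refine ⟨k + l, ?_⟩
  rw [smul_sub, pow_add, mul_smul, mul_smul, smul_comm (p ^ k) (p ^ l) P, hk, hl, smul_zero, smul_zero, sub_zero]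

theorem c5_comm (dta : Dta A B Om j act mo ψ p) (s t : Ω ≃ₐ[F] Ω) {P : PM act} (h : ∃ k : ℕ, p ^ k • P = 0) :
    aM act s (aM act t P) = aM act t (aM act s P) := by
  have h1 := fa_comm dta s t (aM act (t * s) P) (c5_tor (t * s) h)
  rw [← aM_mul] at h1
  have h2 : s * t * s⁻¹ * t⁻¹ * (t * s) = s * t := by group
  rw [h2, aM_mul, aM_mul] at h1
  exact h1

/-- Chunk C5a (M). c a cocycle on the group G with values of order a power of p, sigma in G with sigma - 1 bijective, c zero on the commutators of sigma: c is a coboundary. PROOF. sigma s = [sigma, s] s sigma, the commutator acts trivially on the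
values (fa_comm), so c(sigma s) = c(s sigma): c(sigma) + sigma c(s) = c(s) + s c(sigma). c(sigma) = sigma a - a (Tb.surj): (sigma - 1)(c(s) - (s a - a)) = 0 (s and sigma commute on a: fa_comm). If p^k kills c then p^k a = 0 (Tb.inj). -/
theorem cob (dta : Dta A B Om j act mo ψ p) {G : Subgroup (Ω ≃ₐ[F] Ω)} {σ : Ω ≃ₐ[F] Ω} (hσ : σ ∈ G) (hb : Tb act p σ) {c : (Ω ≃ₐ[F] Ω) → PM act}
    (hm : ∀ s ∈ G, ∀ t ∈ G, c (s * t) = c s + aM act s (c t)) (ht : ∀ s ∈ G, ∃ k : ℕ, p ^ k • c s = 0)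
    (h0 : ∀ s ∈ G, c (σ * s * σ⁻¹ * s⁻¹) = 0) :
    ∃ a : PM act, (∀ k : ℕ, (∀ s ∈ G, p ^ k • c s = 0) → p ^ k • a = 0) ∧ (∃ k : ℕ, p ^ k • a = 0) ∧ ∀ s ∈ G, c s = aM act s a - a := by
  obtain ⟨a, ha, h1⟩ := hb.surj (c σ) (ht σ hσ)
  refine ⟨a, fun k hk => ?_, ha, fun s hs => ?_⟩
  · refine hb.inj _ ?_ ?_
    · obtain ⟨l, hl⟩ := ha
      exact ⟨l, by rw [smul_comm, hl, smul_zero]⟩
    · have h2 : p ^ k • (aM act σ a - a) = 0 := by rw [h1]; exact hk σ hσ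
      rw [smul_sub, sub_eq_zero] at h2
      rw [map_nsmul]
      exact h2
  · have h2 : c (σ * s) = c (s * σ) := by
      have h3 := hm (σ * s * σ⁻¹ * s⁻¹) (mul_mem (mul_mem (mul_mem hσ hs) (inv_mem hσ)) (inv_mem hs)) (s * σ) (mul_mem hs hσ)
      have h4 : σ * s * σ⁻¹ * s⁻¹ * (s * σ) = σ * s := by group
      rw [h4, h0 s hs, zero_add, fa_comm dta σ s _ (ht _ (mul_mem hs hσ))] at h3
      exact h3
    rw [hm σ hσ s hs, hm s hs σ hσ, ← h1] at h2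
    have h5 : aM act s (aM act σ a - a) = aM act σ (aM act s a) - aM act s a := by
      rw [map_sub, c5_comm dta s σ ha]
    rw [h5] at h2
    have h6 : c s - (aM act s a - a) = 0 := by
      refine hb.inj _ (c5_sub (ht s hs) (c5_sub (c5_tor s ha) ha)) ?_
      rw [map_sub, map_sub]
      have h7 : aM act σ (c s) = c s + (aM act σ (aM act s a) - aM act s a) - (aM act σ a - a) := by
        rw [← h2]
        abel
      rw [h7]
      abel
    exact sub_eq_zero.1 h6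

/-- Chunk C5c (S). The group of level n has the same SH (fa_gc). -/
theorem sh_lg (dta : Dta A B Om j act mo ψ p) (G : Subgroup (Ω ≃ₐ[F] Ω)) (n : ℕ) (h : Ω ≃ₐ[F] Ω) :
    SH act (LG dta.prime G n) p h ↔ SH act G p h := by
  constructor
  · rintro ⟨h1, h2⟩
    exact ⟨h1.1, h2⟩
  · rintro ⟨h1, h2⟩
    exact ⟨⟨h1, fa_gc dta h2 n⟩, h2⟩

end H35L
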