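import Mathlib
import Pool.Agent.Lib.H35L.X1
import Pool.Agent.Lib.H55K.GI

/-! # H35L, chunk X3A (M): the parameters of the points of order p^k -/

open NumberField IsDedekindDomain WeierstrassCurve

namespace H35L

open H55P (IQ Pt ac Inert Dec Nm)
open H35P (WAB Ker tt)
open H55K (Tor CMA Dta GV ak)

variable {F : Type} [Field F] [NumberField F] [IQ F] {A B : F} {Om : ℂ} {Ω : Type} [Field Ω] [DecidableEq Ω]
  [Algebra F Ω] [IsAlgClosure F Ω] {j : Ω →+* ℂ} {act : 𝓞 F →+* AddMonoid.End (Pt (WAB A B) Ω)} {mo : Ideal (𝓞 F)}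
  {ψ : Ideal (𝓞 F) →*₀ 𝓞 F} {p : ℕ}

omit [NumberField F] [IQ F] [IsAlgClosure F Ω] in
theorem x3a_act (n : ℕ) (P : Pt (WAB A B) Ω) : act (n : 𝓞 F) P = n • P := by
  rw [map_natCast]
  rfl

omit [NumberField F] [IQ F] [DecidableEq Ω] [IsAlgClosure F Ω] in
theorem x3a_ak (n : ℕ) : ak Ω (n : 𝓞 F) = (n : Ω) := by
  have h : (((n : 𝓞 F)) : F) = (n : F) := map_natCast (algebraMap (𝓞 F) F) n
  show algebraMap F Ω (((n : 𝓞 F)) : F) = (n : Ω)
  rw [h, map_natCast]

/-- One step: the value of a point over a point of larger exact order. -/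
theorem x3a_step (h : CMA F A B Om j act) {V : ValuationSubring Ω} (hV : GV A B V) {β : 𝓞 F} (hβ : Prime β)
    (hv : V.valuation (ak Ω β) < 1) (hv0 : V.valuation (ak Ω β) ≠ 0) {T : Pt (WAB A B) Ω} {m : ℕ} (hm : 0 < m) (h2 : 2 ≤ Nm β)
    (hR : Ker V (act β T)) (hval : V.valuation (tt (act β T)) ^ ((Nm β - 1) * m) = V.valuation (ak Ω β)) :
    Ker V T ∧ V.valuation (tt T) ^ ((Nm β - 1) * (m * Nm β)) = V.valuation (ak Ω β) := by
  classical
  have hT : Ker V T := H55K.ker_red h hV hβ hv hR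
  refine ⟨hT, ?_⟩
  obtain ⟨S, hS, hcard⟩ := H55K.exists_TN h hβ.ne_zero
  have hprod := H55K.ker_prod h hV hβ hv hS hT
  have hq1 : Nm β - 1 ≠ 0 := by omega
  have hSK : ∀ R ∈ S, Ker V R ∧ V.valuation (tt R) ^ (Nm β - 1) = V.valuation (ak Ω β) := by
    intro R hR'
    obtain ⟨h1, h2'⟩ := (hS R).1 hR'
    exact H55K.tor_ram h hV hβ hv (T := R) h1 h2'
  have hSne : S.Nonempty := by
    rw [← Finset.card_pos, hcard]
    omega
  obtain ⟨R₀, hR₀⟩ := hSne
  set τ := V.valuation (tt R₀) with hτ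
  have hτq : τ ^ (Nm β - 1) = V.valuation (ak Ω β) := (hSK R₀ hR₀).2
  have hτS : ∀ R ∈ S, V.valuation (tt R) = τ := by
    intro R hR'
    have e1 := (hSK R hR').2
    rw [← hτq] at e1
    exact (pow_left_inj₀ zero_le zero_le hq1).1 e1
  have hτ1 : τ < 1 := H55K.ttlt hV (hSK R₀ hR₀).1
  have hlt : τ < V.valuation (tt T) := by
    by_contra hcon
    push Not at hcon
    have hle : ∀ R ∈ S, V.valuation (tt (T + R)) ≤ τ := by
      intro R hR'
      have e1 := H55K.tt_add2 hV hT (hSK R hR').1 τ hcon (hτS R hR').le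
      have e2 : τ ^ 2 ≤ τ := by
        rw [sq]
        exact mul_le_of_le_one_left' hτ1.le
      have e3 : tt (T + R) = (tt (T + R) - tt T - tt R) + tt T + tt R := by ring
      rw [e3]
      exact Valuation.map_add_le _ (Valuation.map_add_le _ (e1.trans e2) hcon) (hτS R hR').le
    have hprod2 : V.valuation (tt (act β T)) ≤ τ ^ Nm β := by
      rw [← hprod]
      have e1 : ∏ R ∈ S, V.valuation (tt (T + R)) ≤ τ ^ (Nm β - 1) := by
        rw [← hcard]
        exact Finset.prod_le_pow_card _ _ _ hle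
      have e2 : Nm β = (Nm β - 1) + 1 := by omega
      calc V.valuation (tt T) * ∏ R ∈ S, V.valuation (tt (T + R)) ≤ τ * τ ^ (Nm β - 1) :=
            mul_le_mul' hcon e1
        _ = τ ^ Nm β := by
            conv_rhs => rw [e2]
            rw [pow_succ, mul_comm]
    have e4 : V.valuation (ak Ω β) ≤ V.valuation (ak Ω β) ^ (m * Nm β) := by
      calc V.valuation (ak Ω β) = V.valuation (tt (act β T)) ^ ((Nm β - 1) * m) := hval.symm
        _ ≤ (τ ^ Nm β) ^ ((Nm β - 1) * m) := pow_le_pow_left₀ zero_le hprod2 _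
        _ = (τ ^ (Nm β - 1)) ^ (m * Nm β) := by
            rw [← pow_mul, ← pow_mul]
            congr 1
            ring
        _ = V.valuation (ak Ω β) ^ (m * Nm β) := by rw [hτq]
    have e5 : 1 < m * Nm β := by nlinarith
    have e6 : V.valuation (ak Ω β) ^ (m * Nm β) < V.valuation (ak Ω β) := by
      have := pow_lt_pow_right_of_lt_one₀ (zero_lt_iff.2 hv0) hv e5
      rwa [pow_one] at this
    exact absurd e4 (not_le.2 e6)
  have hc1 : V.valuation (tt T) < 1 := H55K.ttlt hV hT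
  have hc0 : V.valuation (tt T) ≠ 0 := (lt_of_le_of_lt zero_le hlt).ne'
  have heq : ∀ R ∈ S, V.valuation (tt (T + R)) = V.valuation (tt T) := by
    intro R hR'
    have hRτ := hτS R hR'
    have e1 := H55K.tt_add2 hV hT (hSK R hR').1 (V.valuation (tt T)) le_rfl (by rw [hRτ]; exact hlt.le)
    have e2 : V.valuation (tt T) ^ 2 < V.valuation (tt T) := by
      have := pow_lt_pow_right_of_lt_one₀ (zero_lt_iff.2 hc0) hc1 (by norm_num : 1 < 2)
      rwa [pow_one] at this
    have e3 : tt (T + R) - tt T = (tt (T + R) - tt T - tt R) + tt R := by ring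
    refine Valuation.map_eq_of_sub_lt _ ?_
    rw [e3]
    exact Valuation.map_add_lt _ (lt_of_le_of_lt e1 e2) (by rw [hRτ]; exact hlt)
  have hpq : V.valuation (tt T) ^ Nm β = V.valuation (tt (act β T)) := by
    rw [← hprod, Finset.prod_congr rfl heq, Finset.prod_const, hcard]
    conv_lhs => rw [show Nm β = (Nm β - 1) + 1 by omega]
    rw [pow_succ, mul_comm]
  rw [← hval, ← hpq, ← pow_mul]
  congr 1
  ring

theorem ram_val (dta : Dta A B Om j act mo ψ p) (hin : Prime (p : 𝓞 F)) {V : ValuationSubring Ω} (hV : V.valuation (p : Ω) < 1) (k : ℕ)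
    (T : Pt (WAB A B) Ω) (hT : p ^ (k + 1) • T = 0) (hT0 : p ^ k • T ≠ 0) :
    Ker V T ∧ V.valuation (tt T) ^ ((p ^ 2 - 1) * (p ^ 2) ^ k) = V.valuation (p : Ω) := by
  have hG := dta.good V hV
  have hak : ak Ω (p : 𝓞 F) = (p : Ω) := x3a_ak p
  have hv : V.valuation (ak Ω (p : 𝓞 F)) < 1 := by
    rw [hak]
    exact hV
  have hN : Nm (p : 𝓞 F) = p ^ 2 := H55K.Nm_nat p
  have h5 := dta.five
  have hchar : CharZero Ω := charZero_of_injective_algebraMap (algebraMap F Ω).injective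
  have hv0 : V.valuation (ak Ω (p : 𝓞 F)) ≠ 0 := by
    rw [hak, Valuation.ne_zero_iff]
    exact_mod_cast dta.prime.ne_zero
  induction k generalizing T with
  | zero =>
    rw [zero_add, pow_one] at hT
    rw [pow_zero, one_smul] at hT0
    have hT' : T ∈ Tor act (p : 𝓞 F) := by
      show act (p : 𝓞 F) T = 0
      rw [x3a_act]
      exact hT
    obtain ⟨h1, h2⟩ := H55K.tor_ram dta.cma hG hin hv hT' hT0
    refine ⟨h1, ?_⟩
    rw [hN, hak] at h2
    rw [pow_zero, mul_one]
    exact h2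
  | succ k ih =>
    have hR : act (p : 𝓞 F) T = p • T := x3a_act p T
    have h1 : p ^ (k + 1) • (p • T) = 0 := by
      rw [← mul_smul, ← pow_succ]
      exact hT
    have h2 : p ^ k • (p • T) ≠ 0 := by
      rw [← mul_smul, ← pow_succ]
      exact hT0
    obtain ⟨h3, h4⟩ := ih (p • T) h1 h2
    have hm : 0 < (p ^ 2) ^ k := by positivity
    have h6 := x3a_step dta.cma hG hin hv hv0 (T := T) hm (by rw [hN]; nlinarith) (by rw [hR]; exact h3)
      (by rw [hR, hN, hak]; exact h4)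
    rw [hN, hak, ← pow_succ] at h6
    exact h6

end H35L
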