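import Mathlib
import Pool.Agent.Lib.H35L.X1
import Pool.Agent.Lib.H55K.K3

/-! # H35L, chunk X3BA (M): the number of automorphisms -/

open NumberField IsDedekindDomain WeierstrassCurve

namespace H35L

open H55P (IQ Pt ac Inert Dec Nm)
open H35P (WAB Ker tt)
open H55K (Tor CMA Dta GV ak TFld)

variable {F : Type} [Field F] [NumberField F] [IQ F] {A B : F} {Om : ℂ} {Ω : Type} [Field Ω] [DecidableEq Ω]
  [Algebra F Ω] [IsAlgClosure F Ω] {j : Ω →+* ℂ} {act : 𝓞 F →+* AddMonoid.End (Pt (WAB A B) Ω)} {mo : Ideal (𝓞 F)}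
  {ψ : Ideal (𝓞 F) →*₀ 𝓞 F} {p : ℕ}

theorem x3ba_card (p : ℕ) (k : ℕ) :
    Nat.card (𝓞 F ⧸ Ideal.span {((p : 𝓞 F) ^ k)}) = (p ^ 2) ^ k := by
  have h1 : Nm ((p : 𝓞 F) ^ k) = (p ^ 2) ^ k := by
    rw [← Nat.cast_pow, H55K.Nm_nat]
    ring
  have h2 : Nat.card (𝓞 F ⧸ Ideal.span {((p : 𝓞 F) ^ k)}) = Nm ((p : 𝓞 F) ^ k) := by
    unfold Nm
    rw [Ideal.absNorm_apply, Submodule.cardQuot_apply]
  rw [h2, h1]

/-- The number of classes modulo p^(k+1) not divisible by p. -/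
theorem x3ba_units {p : ℕ} (hp : 0 < p) (k : ℕ) :
    Nat.card {x : 𝓞 F ⧸ Ideal.span {((p : 𝓞 F) ^ (k + 1))} // ∀ a : 𝓞 F, Ideal.Quotient.mk _ a = x → ¬ (p : 𝓞 F) ∣ a} =
      (p ^ 2 - 1) * (p ^ 2) ^ k := by
  classical
  have hle : Ideal.span {((p : 𝓞 F) ^ (k + 1))} ≤ Ideal.span {(p : 𝓞 F)} := by
    rw [Ideal.span_singleton_le_span_singleton]
    exact dvd_pow_self _ (Nat.succ_ne_zero k)
  let π : (𝓞 F ⧸ Ideal.span {((p : 𝓞 F) ^ (k + 1))}) →+* (𝓞 F ⧸ Ideal.span {(p : 𝓞 F)}) := Ideal.Quotient.factor hle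
  have hπ : Function.Surjective π := Ideal.Quotient.factor_surjective hle
  have hc1 : Nat.card (𝓞 F ⧸ Ideal.span {((p : 𝓞 F) ^ (k + 1))}) = (p ^ 2) ^ (k + 1) := x3ba_card p (k + 1)
  have hc2 : Nat.card (𝓞 F ⧸ Ideal.span {(p : 𝓞 F)}) = p ^ 2 := by
    have := x3ba_card (F := F) p 1
    rwa [pow_one, pow_one] at this
  have hfin : Finite (𝓞 F ⧸ Ideal.span {((p : 𝓞 F) ^ (k + 1))}) := by
    refine (Nat.card_ne_zero.1 ?_).2
    rw [hc1]
    positivity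
  have hker : Nat.card (AddMonoidHom.ker π.toAddMonoidHom) = (p ^ 2) ^ k := by
    have h1 := AddSubgroup.card_eq_card_quotient_mul_card_addSubgroup (AddMonoidHom.ker π.toAddMonoidHom)
    rw [Nat.card_congr (QuotientAddGroup.quotientKerEquivOfSurjective π.toAddMonoidHom hπ).toEquiv, hc1, hc2, pow_succ,
      mul_comm] at h1
    exact (Nat.eq_of_mul_eq_mul_left (by positivity) h1).symm
  have h3 := Set.ncard_add_ncard_compl ((AddMonoidHom.ker π.toAddMonoidHom : AddSubgroup _) : Set (𝓞 F ⧸ Ideal.span {((p : 𝓞 F) ^ (k + 1))}))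
  rw [hc1, ← Nat.card_coe_set_eq] at h3
  have h4 : Nat.card ((AddMonoidHom.ker π.toAddMonoidHom : AddSubgroup _) : Set (𝓞 F ⧸ Ideal.span {((p : 𝓞 F) ^ (k + 1))})) = (p ^ 2) ^ k := hker
  rw [h4] at h3
  have h5 : Nat.card {x : 𝓞 F ⧸ Ideal.span {((p : 𝓞 F) ^ (k + 1))} // ∀ a : 𝓞 F, Ideal.Quotient.mk _ a = x → ¬ (p : 𝓞 F) ∣ a} =
      (((AddMonoidHom.ker π.toAddMonoidHom : AddSubgroup _) : Set (𝓞 F ⧸ Ideal.span {((p : 𝓞 F) ^ (k + 1))}))ᶜ).ncard := by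
    rw [← Nat.card_coe_set_eq]
    refine Nat.card_congr (Equiv.subtypeEquivRight fun x => ?_)
    show _ ↔ ¬ (π x = 0)
    constructor
    · intro h hx
      obtain ⟨a, rfl⟩ := Ideal.Quotient.mk_surjective x
      refine h a rfl ?_
      have e : π (Ideal.Quotient.mk _ a) = Ideal.Quotient.mk _ a := Ideal.Quotient.factor_mk hle a
      rw [e, Ideal.Quotient.eq_zero_iff_mem, Ideal.mem_span_singleton] at hx
      exact hx
    · rintro hx a rfl hd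
      apply hx
      have e : π (Ideal.Quotient.mk _ a) = Ideal.Quotient.mk _ a := Ideal.Quotient.factor_mk hle a
      rw [e, Ideal.Quotient.eq_zero_iff_mem, Ideal.mem_span_singleton]
      exact hd
  rw [h5]
  have h6 : (p ^ 2 - 1) * (p ^ 2) ^ k = (p ^ 2) ^ (k + 1) - (p ^ 2) ^ k := by
    rw [Nat.sub_mul, one_mul, pow_succ (p ^ 2) k, mul_comm (p ^ 2) ((p ^ 2) ^ k)]
  rw [h6, ← h3]
  omega

omit [NumberField F] [IQ F] [IsAlgClosure F Ω] in
theorem x3ba_fix {k : ℕ} {s : Ω ≃ₐ[F] Ω} (h : ∀ T : PM act, p ^ k • T = 0 → aM act s T = T) :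
    ∀ T ∈ Tor act ((p : 𝓞 F) ^ k), ac (WAB A B) s T = T :=
  fun T hT => h T ((x1_smul (act := act) k T).symm.trans hT)

theorem tf_card (dta : Dta A B Om j act mo ψ p) (hin : Prime (p : 𝓞 F)) (k : ℕ) {N : Type} [Field N] [NumberField N] [Algebra F N] [Algebra N Ω]
    [IsScalarTower F N Ω] (hN : TFld act F N ((p : 𝓞 F) ^ (k + 1))) : Module.finrank F N ≤ (p ^ 2 - 1) * (p ^ 2) ^ k := by
  classical
  have hgal : IsGalois F N := hN.gal
  have hpp : 0 < p := dta.prime.pos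
  choose s hs using fun σ : Gal(N/F) => H55K.exists_lft (F := F) (Ω := Ω) σ
  choose a ha hcop using fun σ : Gal(N/F) => ch_exists dta (k + 1) (s σ)
  have hfin : Finite (𝓞 F ⧸ Ideal.span {((p : 𝓞 F) ^ (k + 1))}) := by
    refine (Nat.card_ne_zero.1 ?_).2
    rw [x3ba_card p]
    positivity
  let f : Gal(N/F) → {x : 𝓞 F ⧸ Ideal.span {((p : 𝓞 F) ^ (k + 1))} // ∀ a : 𝓞 F, Ideal.Quotient.mk _ a = x → ¬ (p : 𝓞 F) ∣ a} :=
    fun σ => ⟨Ideal.Quotient.mk _ (a σ), by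
      intro b hb hd
      rw [Ideal.Quotient.eq, Ideal.mem_span_singleton] at hb
      have h1 : (p : 𝓞 F) ∣ a σ := by
        have h2 : (p : 𝓞 F) ∣ b - a σ := (dvd_pow_self _ (Nat.succ_ne_zero k)).trans hb
        have h3 := dvd_sub hd h2
        rwa [sub_sub_cancel] at h3
      exact hin.not_isUnit ((hcop σ).isUnit_of_dvd' h1 dvd_rfl)⟩
  have hinj : Function.Injective f := by
    intro σ τ hστ
    have h1 : Ideal.Quotient.mk (Ideal.span {((p : 𝓞 F) ^ (k + 1))}) (a σ) = Ideal.Quotient.mk _ (a τ) := congrArg Subtype.val hστ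
    rw [Ideal.Quotient.eq, Ideal.mem_span_singleton] at h1
    have h2 : Ch act p (k + 1) (s τ) (a σ) := ch_congr (ha τ) (by rw [← neg_sub, dvd_neg]; exact h1)
    have hu : H55K.Lft (τ⁻¹ * σ) ((s τ)⁻¹ * s σ) := (hs τ).inv.mul (hs σ)
    have h3 : H55K.Fxd N ((s τ)⁻¹ * s σ) := by
      refine hN.gen _ hu.fxd (x3ba_fix fun T hT' => ?_)
      rw [aM_mul, ha σ T hT', ← h2 T hT', ← aM_mul, inv_mul_cancel, aM_one]
    exact (inv_mul_eq_one.1 ((H55K.lft_fxd hu).1 h3)).symm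
  have h1 := Nat.card_le_card_of_injective f hinj
  rw [IsGalois.card_aut_eq_finrank, x3ba_units hpp] at h1
  exact h1

end H35L
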