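import Mathlib
import Pool.Agent.Lib.H35L.X3A
import Pool.Agent.Lib.H35L.X3BA

/-! # H35L, chunk X3B (M): total ramification of the field of the points killed by p^k -/

open NumberField IsDedekindDomain WeierstrassCurve

namespace H35L

open H55P (IQ Pt ac Inert Dec Nm)
open H35P (WAB Ker tt)
open H55K (Tor CMA Dta GV ak TFld)

variable {F : Type} [Field F] [NumberField F] [IQ F] {A B : F} {Om : ℂ} {Ω : Type} [Field Ω] [DecidableEq Ω]
  [Algebra F Ω] [IsAlgClosure F Ω] {j : Ω →+* ℂ} {act : 𝓞 F →+* AddMonoid.End (Pt (WAB A B) Ω)} {mo : Ideal (𝓞 F)}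
  {ψ : Ideal (𝓞 F) →*₀ 𝓞 F} {p : ℕ}

/-- The prime (p) of F. -/
theorem x3b_prime (hin : Prime (p : 𝓞 F)) : ∃ v : HeightOneSpectrum (𝓞 F), v.asIdeal = Ideal.span {(p : 𝓞 F)} ∧
    v.valuation F ((p : 𝓞 F) : F) = WithZero.exp (-1 : ℤ) := by
  have hP : (Ideal.span {(p : 𝓞 F)}).IsPrime := (Ideal.span_singleton_prime hin.ne_zero).2 hin
  have hne : (Ideal.span {(p : 𝓞 F)}) ≠ ⊥ := by
    rw [Ne, Ideal.span_singleton_eq_bot]
    exact hin.ne_zero
  refine ⟨⟨_, hP, hne⟩, rfl, ?_⟩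
  have h1 := HeightOneSpectrum.valuation_of_algebraMap (K := F) (v := ⟨Ideal.span {(p : 𝓞 F)}, hP, hne⟩) (p : 𝓞 F)
  exact h1.trans (HeightOneSpectrum.intValuation_singleton _ hin.ne_zero rfl)

theorem tf_ram (dta : Dta A B Om j act mo ψ p) (hin : Prime (p : 𝓞 F)) (k : ℕ) {N : Type} [Field N] [NumberField N] [Algebra F N] [Algebra N Ω]
    [IsScalarTower F N Ω] (hN : TFld act F N ((p : 𝓞 F) ^ (k + 1))) : Module.finrank F N = (p ^ 2 - 1) * (p ^ 2) ^ k ∧
      ∀ W W' : HeightOneSpectrum (𝓞 N), (p : 𝓞 N) ∈ W.asIdeal → (p : 𝓞 N) ∈ W'.asIdeal → W = W' := by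
  classical
  have hgal : IsGalois F N := hN.gal
  obtain ⟨v, hvI, hv⟩ := x3b_prime (F := F) hin
  have hle : Module.finrank F N ≤ (p ^ 2 - 1) * (p ^ 2) ^ k := tf_card dta hin k hN
  set P : ℕ := (p ^ 2 - 1) * (p ^ 2) ^ k with hP
  have h5 := dta.five
  have hP0 : P ≠ 0 := by
    have h1 : 0 < p ^ 2 - 1 := by
      have : 1 < p ^ 2 := by nlinarith
      omega
    have h2 : 0 < (p ^ 2) ^ k := by positivity
    rw [hP]
    exact (Nat.mul_pos h1 h2).ne'
  have hbF : (((p : 𝓞 F)) : F) ≠ 0 := by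
    intro h1
    exact hin.ne_zero (by exact_mod_cast h1)
  obtain ⟨x, hx⟩ : ∃ x : Fˣ, (x : F) = ((p : 𝓞 F) : F) := ⟨Units.mk0 _ hbF, rfl⟩
  have hordv : H55R.ord v x = 1 := by
    have h1 := H55R.BF1_val v x
    rw [hx, hv, WithZero.exp_inj] at h1
    omega
  have hakN : ((Units.map (algebraMap F N : F →* N) x : Nˣ) : N) = algebraMap F N ((p : 𝓞 F) : F) := by
    show algebraMap F N (x : F) = _
    rw [hx]
  have hval : ∀ W : HeightOneSpectrum (𝓞 N), W.under (𝓞 F) = v →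
      W.valuation N (algebraMap F N ((p : 𝓞 F) : F)) = WithZero.exp (-(H55R.es F N v : ℤ)) := by
    intro W hW
    have h1 := H55R.ord_map W v hW x
    rw [hordv, mul_one] at h1
    have h2 := H55R.BF1_val W (Units.map (algebraMap F N : F →* N) x)
    rw [h1, hakN] at h2
    exact h2
  have hes : 0 < H55R.es F N v := H55R.es_pos v
  have hfs : 0 < H55R.fs F N v := H55R.fs_pos v
  have key : ∀ W : HeightOneSpectrum (𝓞 N), W.under (𝓞 F) = v → ∀ R : Pt (WAB A B) Ω, p ^ (k + 1) • R = 0 → p ^ k • R ≠ 0 →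
      ∀ t : N, algebraMap N Ω t = tt R → ∃ m : ℕ, m * P = H55R.es F N v := by
    intro W hW R hR h0 t ht
    obtain ⟨V, hV⟩ := H55K.exists_abw Ω W
    have hbΩ : (p : Ω) = algebraMap N Ω (algebraMap F N ((p : 𝓞 F) : F)) := by
      rw [← IsScalarTower.algebraMap_apply F N Ω]
      exact (x3a_ak p).symm
    have hWb : W.valuation N (algebraMap F N ((p : 𝓞 F) : F)) < 1 := by
      rw [hval W hW, ← WithZero.exp_zero, WithZero.exp_lt_exp]
      omega
    have hvb : V.valuation (p : Ω) < 1 := by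
      rw [hbΩ, hV.lt]
      exact hWb
    obtain ⟨-, h2⟩ := ram_val dta hin hvb k R hR h0
    rw [← hP, ← ht, hbΩ, ← map_pow, ← map_pow, hV.eq, map_pow] at h2
    have hne : W.valuation N (algebraMap F N ((p : 𝓞 F) : F)) ≠ 0 := by
      rw [hval W hW]
      exact WithZero.exp_ne_zero
    have ht0 : W.valuation N t ≠ 0 := by
      intro h3
      rw [h3, zero_pow hP0] at h2
      exact hne h2.symm
    obtain ⟨c, hc⟩ : ∃ c : ℤ, W.valuation N t = WithZero.exp c :=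
      ⟨WithZero.log (W.valuation N t), (WithZero.exp_log ht0).symm⟩
    rw [hval W hW, hc, ← WithZero.exp_nsmul, WithZero.exp_inj, nsmul_eq_mul] at h2
    have hc0 : c ≤ 0 := by
      by_contra hcon
      push Not at hcon
      have h3 : (0 : ℤ) < (P : ℤ) := by omega
      have h4 : (0 : ℤ) < (P : ℤ) * c := mul_pos h3 hcon
      omega
    obtain ⟨m, hm⟩ : ∃ m : ℕ, c = -(m : ℤ) := ⟨c.natAbs, by omega⟩
    refine ⟨m, ?_⟩
    rw [hm] at h2
    have h5 : ((m * P : ℕ) : ℤ) = (H55R.es F N v : ℤ) := by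
      rw [Nat.cast_mul]
      linarith
    exact_mod_cast h5
  obtain ⟨W₀, hW₀⟩ := H55R.under_exists (L := N) v
  obtain ⟨T, hT, -, hT2⟩ := tor_gen dta (k + 1)
  have hT0 : p ^ k • T ≠ 0 := by
    intro h0
    rw [← x1_smul (act := act) k T, hT2] at h0
    have h1 : (p : 𝓞 F) ^ (k + 1) ∣ (p : 𝓞 F) ^ k * 1 := by rwa [mul_one]
    rw [pow_succ] at h1
    have h2 := (mul_dvd_mul_iff_left (pow_ne_zero k hin.ne_zero)).1 h1
    exact hin.not_isUnit (isUnit_of_dvd_one h2)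
  have hTm : (T : Pt (WAB A B) Ω) ∈ Tor act ((p : 𝓞 F) ^ (k + 1)) := (x1_smul (act := act) (k + 1) T).trans hT
  obtain ⟨a, b, ha, hb⟩ := hN.crd T hTm
  obtain ⟨m, hm⟩ := key W₀ hW₀ T hT hT0 (a / b) (by rw [map_div₀, ha, hb]; exact (H55K.tt_xy _).symm)
  have hcard := H55R.D5_card (L := N) v
  have hcpos : 0 < (H55R.D5_T (L := N) v).card :=
    Finset.card_pos.2 ⟨W₀, (H55R.D5_mem v W₀).2 hW₀⟩
  obtain ⟨hc1, hf1, hm1⟩ := H55K.k3_arith hcpos hfs hes hm (hcard.le.trans hle)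
  have hes1 : H55R.es F N v = P := by rw [← hm, hm1, one_mul]
  refine ⟨?_, ?_⟩
  · rw [← hcard, hc1, hf1, hes1, one_mul, mul_one]
  · have hu : ∀ W : HeightOneSpectrum (𝓞 N), (p : 𝓞 N) ∈ W.asIdeal → W.under (𝓞 F) = v := by
      intro W hW
      apply HeightOneSpectrum.ext
      have hmax : v.asIdeal.IsMaximal := v.isMaximal
      have hle2 : v.asIdeal ≤ (W.under (𝓞 F)).asIdeal := by
        rw [hvI, Ideal.span_singleton_le_iff_mem]
        show algebraMap (𝓞 F) (𝓞 N) (p : 𝓞 F) ∈ W.asIdeal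
        rw [map_natCast]
        exact hW
      exact (hmax.eq_of_le (W.under (𝓞 F)).isPrime.ne_top hle2).symm
    intro W W' hW hW'
    obtain ⟨Z, hZ⟩ := Finset.card_eq_one.1 hc1
    have h1 : W ∈ H55R.D5_T (L := N) v := (H55R.D5_mem v W).2 (hu W hW)
    have h2 : W' ∈ H55R.D5_T (L := N) v := (H55R.D5_mem v W').2 (hu W' hW')
    rw [hZ, Finset.mem_singleton] at h1 h2
    rw [h1, h2]

end H35L
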