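import Mathlib
import Pool.Agent.Lib.H35L.X2
import Pool.Agent.Lib.H35L.X3B
import Pool.Agent.Lib.H35L.X8
import Pool.Agent.Lib.H55K.K1A

/-! # H35L, chunk X3 (M): the Galois group acts by all units -/

open NumberField IsDedekindDomain WeierstrassCurve

namespace H35L

open H55P (IQ Pt ac Inert Dec Nm)
open H35P (WAB Ker tt)
open H55K (Tor CMA Dta GV ak TFld)

variable {F : Type} [Field F] [NumberField F] [IQ F] {A B : F} {Om : ℂ} {Ω : Type} [Field Ω] [DecidableEq Ω]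
  [Algebra F Ω] [IsAlgClosure F Ω] {j : Ω →+* ℂ} {act : 𝓞 F →+* AddMonoid.End (Pt (WAB A B) Ω)} {mo : Ideal (𝓞 F)}
  {ψ : Ideal (𝓞 F) →*₀ 𝓞 F} {p : ℕ}

theorem x3_surj (dta : Dta A B Om j act mo ψ p) (hin : Prime (p : 𝓞 F)) (k : ℕ) {N : Type} [Field N] [NumberField N] [Algebra F N] [Algebra N Ω]
    [IsScalarTower F N Ω] (hN : TFld act F N ((p : 𝓞 F) ^ (k + 1))) (b : 𝓞 F) (hb : IsCoprime b (p : 𝓞 F)) :
    ∃ s : Ω ≃ₐ[F] Ω, Ch act p (k + 1) s b := by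
  classical
  have hgal : IsGalois F N := hN.gal
  have hpp : 0 < p := dta.prime.pos
  choose s hs using fun σ : Gal(N/F) => H55K.exists_lft (F := F) (Ω := Ω) σ
  choose a ha hcop using fun σ : Gal(N/F) => ch_exists dta (k + 1) (s σ)
  have hfin : Finite (𝓞 F ⧸ Ideal.span {((p : 𝓞 F) ^ (k + 1))}) := by
    refine (Nat.card_ne_zero.1 ?_).2
    rw [x3ba_card p]
    positivity
  have hcl : ∀ c : 𝓞 F, IsCoprime c (p : 𝓞 F) → ∀ b : 𝓞 F, Ideal.Quotient.mk (Ideal.span {((p : 𝓞 F) ^ (k + 1))}) b =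
      Ideal.Quotient.mk _ c → ¬ (p : 𝓞 F) ∣ b := by
    intro c hc b hb hd
    rw [Ideal.Quotient.eq, Ideal.mem_span_singleton] at hb
    have h1 : (p : 𝓞 F) ∣ c := by
      have h2 : (p : 𝓞 F) ∣ b - c := (dvd_pow_self _ (Nat.succ_ne_zero k)).trans hb
      have h3 := dvd_sub hd h2
      rwa [sub_sub_cancel] at h3
    exact hin.not_isUnit (hc.isUnit_of_dvd' h1 dvd_rfl)
  let f : Gal(N/F) → {x : 𝓞 F ⧸ Ideal.span {((p : 𝓞 F) ^ (k + 1))} // ∀ a : 𝓞 F, Ideal.Quotient.mk _ a = x → ¬ (p : 𝓞 F) ∣ a} :=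
    fun σ => ⟨Ideal.Quotient.mk _ (a σ), hcl _ (hcop σ)⟩
  have hinj : Function.Injective f := by
    intro σ τ hστ
    have h1 : Ideal.Quotient.mk (Ideal.span {((p : 𝓞 F) ^ (k + 1))}) (a σ) = Ideal.Quotient.mk _ (a τ) := congrArg Subtype.val hστ
    rw [Ideal.Quotient.eq, Ideal.mem_span_singleton] at h1
    have h2 : Ch act p (k + 1) (s τ) (a σ) := ch_congr (ha τ) (by rw [← neg_sub, dvd_neg]; exact h1)
    have hu : H55K.Lft (τ⁻¹ * σ) ((s τ)⁻¹ * s σ) := (hs τ).inv.mul (hs σ)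
    have h3 : H55K.Fxd N ((s τ)⁻¹ * s σ) := by
      refine hN.gen _ hu.fxd (x3ba_fix fun T hT' => ?_)
      rw [aM_mul, ha σ T hT', ← h2 T hT', ← aM_mul, inv_mul_cancel, aM_one]
    exact (inv_mul_eq_one.1 ((H55K.lft_fxd hu).1 h3)).symm
  have hbij := hinj.bijective_of_nat_card_le (by
    rw [IsGalois.card_aut_eq_finrank, x3ba_units hpp, (tf_ram dta hin k hN).1])
  obtain ⟨σ, hσ⟩ := hbij.2 ⟨Ideal.Quotient.mk _ b, hcl b hb⟩
  have h1 : Ideal.Quotient.mk (Ideal.span {((p : 𝓞 F) ^ (k + 1))}) (a σ) = Ideal.Quotient.mk _ b := congrArg Subtype.val hσ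
  rw [Ideal.Quotient.eq, Ideal.mem_span_singleton] at h1
  exact ⟨s σ, ch_congr (ha σ) h1⟩

theorem gal_surj (dta : Dta A B Om j act mo ψ p) (hin : Prime (p : 𝓞 F)) (k : ℕ) (a : 𝓞 F) (ha : IsCoprime a (p : 𝓞 F)) :
    ∃ s : Ω ≃ₐ[F] Ω, Ch act p k s a := by
  obtain ⟨N, iF, iN, i1, i2, i3, t1, t2, t3, hN⟩ := H55K.exists_TFld dta.cma F (b := (p : 𝓞 F) ^ (k + 1))
    (pow_ne_zero _ hin.ne_zero)
  clear t1 t3 i1
  obtain ⟨s, hs⟩ := x3_surj dta hin k hN a ha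
  exact ⟨s, ch_mono (Nat.le_succ k) hs⟩

end H35L
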