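import Mathlib
import Pool.Agent.Lib.H35L.X3
import Pool.Agent.Lib.H55K.K1A
import Pool.Agent.Lib.H55K.D1

/-! # H35L, chunk X3D (M): the decomposition group acts by all units; gamma -/

open NumberField IsDedekindDomain WeierstrassCurve

namespace H35L

open H55P (IQ Pt ac Inert Dec Nm)
open H35P (WAB Ker tt)
open H55K (Tor CMA Dta GV ak TFld)

variable {F : Type} [Field F] [NumberField F] [IQ F] {A B : F} {Om : ℂ} {Ω : Type} [Field Ω] [DecidableEq Ω]
  [Algebra F Ω] [IsAlgClosure F Ω] {j : Ω →+* ℂ} {act : 𝓞 F →+* AddMonoid.End (Pt (WAB A B) Ω)} {mo : Ideal (𝓞 F)}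
  {ψ : Ideal (𝓞 F) →*₀ 𝓞 F} {p : ℕ}

theorem x3d_N (h : CMA F A B Om j act) {b : 𝓞 F} (hb : b ≠ 0) :
    ∃ (N : Type) (_ : Field N) (_ : NumberField N) (_ : Algebra F N) (_ : Algebra N Ω)
      (_ : IsScalarTower F N Ω), TFld act F N b := by
  obtain ⟨N, i1, i2, i3, i4, i5, i6, i7, i8, hNf⟩ := H55K.exists_TFld h F hb
  exact ⟨N, i1, i2, i4, i5, i7, hNf⟩

omit [IQ F] [DecidableEq Ω] [NumberField F] [IsAlgClosure F Ω] [Algebra F Ω] in
theorem x3d_pl {N : Type} [Field N] [NumberField N] [Algebra N Ω] (V : ValuationSubring Ω) (hp : p.Prime)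
    (hV : V.valuation (p : Ω) < 1) : ∃ W : HeightOneSpectrum (𝓞 N), (p : 𝓞 N) ∈ W.asIdeal ∧
      ∀ y : 𝓞 N, y ∈ W.asIdeal ↔ V.valuation (algebraMap N Ω (y : N)) < 1 := by
  let I : Ideal (𝓞 N) :=
    { carrier := {y | V.valuation (algebraMap N Ω (y : N)) < 1}
      add_mem' := by
        intro a b ha hb
        change V.valuation (algebraMap N Ω ((a : N) + (b : N))) < 1
        rw [map_add]
        exact V.valuation.map_add_lt ha hb
      zero_mem' := by
        change V.valuation (algebraMap N Ω (0 : N)) < 1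
        rw [map_zero, map_zero]
        exact zero_lt_one
      smul_mem' := by
        intro c y hy
        change V.valuation (algebraMap N Ω ((c : N) * (y : N))) < 1
        rw [map_mul, map_mul, mul_comm]
        exact mul_lt_one_of_lt_of_le hy (H55K.k0_int V c) }
  have hI : ∀ y : 𝓞 N, y ∈ I ↔ V.valuation (algebraMap N Ω (y : N)) < 1 := fun _ => Iff.rfl
  have hpI : (p : 𝓞 N) ∈ I := by
    rw [hI]
    change V.valuation (algebraMap N Ω (algebraMap (𝓞 N) N (p : 𝓞 N))) < 1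
    rw [map_natCast, map_natCast]
    exact hV
  have hprime : I.IsPrime := by
    refine ⟨?_, ?_⟩
    · rw [Ne, Ideal.eq_top_iff_one, hI]
      change ¬ V.valuation (algebraMap N Ω (1 : N)) < 1
      rw [map_one, map_one]
      exact lt_irrefl _
    · intro a b hab
      rw [hI, hI]
      rw [hI] at hab
      change V.valuation (algebraMap N Ω ((a : N) * (b : N))) < 1 at hab
      rw [map_mul, map_mul] at hab
      by_contra hcon
      push Not at hcon
      have ha : V.valuation (algebraMap N Ω (a : N)) = 1 := le_antisymm (H55K.k0_int V a) hcon.1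
      have hb : V.valuation (algebraMap N Ω (b : N)) = 1 := le_antisymm (H55K.k0_int V b) hcon.2
      rw [ha, hb, one_mul] at hab
      exact lt_irrefl _ hab
  have hne : I ≠ ⊥ := by
    intro h0
    rw [h0, Ideal.mem_bot] at hpI
    exact hp.ne_zero (by exact_mod_cast hpI)
  exact ⟨⟨I, hprime, hne⟩, hpI, hI⟩

/-- Chunk X3 (M). The same with s in the decomposition group of V above p: s from gal_surj (level k+1), V' = s V (or comap) is above p; V and V' lie above the same prime of N = TFld (there is only one above p: tf_ram),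
N as an intermediate field (image of N in Ω): conj_above gives t fixing N with t s V = V; t acts trivially on the points killed by p^(k+1) (TFld.crd). -/
theorem dec_surj (dta : Dta A B Om j act mo ψ p) (hin : Prime (p : 𝓞 F)) {V : ValuationSubring Ω} (hV : V.valuation (p : Ω) < 1) (k : ℕ) (a : 𝓞 F)
    (ha : IsCoprime a (p : 𝓞 F)) : ∃ s ∈ dV (F := F) V, Ch act p k s a := by
  obtain ⟨s, hs⟩ := gal_surj dta hin k a ha
  have hb : (p : 𝓞 F) ^ (k + 1) ≠ 0 := pow_ne_zero _ hin.ne_zero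
  obtain ⟨N, i1, i2, i3, i4, i5, hN⟩ := x3d_N dta.cma hb
  obtain ⟨_, hone⟩ := tf_ram dta hin k hN
  let f : N →ₐ[F] Ω := IsScalarTower.toAlgHom F N Ω
  have hf : ∀ y, f y = algebraMap N Ω y := fun _ => rfl
  let K : IntermediateField F Ω := f.fieldRange
  have hfin : FiniteDimensional F N := Module.Finite.of_restrictScalars_finite ℚ F N
  have hfinK : FiniteDimensional F K := by
    have e : N ≃ₐ[F] K := AlgEquiv.ofInjectiveField f
    exact Module.Finite.equiv e.toLinearEquiv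
  let V' : ValuationSubring Ω := V.comap (s : Ω →+* Ω)
  have hm : ∀ x, x ∈ V' ↔ s x ∈ V := fun x => ValuationSubring.mem_comap
  have hlt : ∀ x, V'.valuation x < 1 ↔ V.valuation (s x) < 1 := by
    intro x
    rw [H55P.lt1_iff, H55P.lt1_iff, hm, map_inv₀]
    simp
  have hV' : V'.valuation (p : Ω) < 1 := by
    rw [hlt, map_natCast]
    exact hV
  obtain ⟨W, hpW, hW⟩ := x3d_pl (N := N) V dta.prime hV
  obtain ⟨W', hpW', hW'⟩ := x3d_pl (N := N) V' dta.prime hV'
  have hWW : W = W' := hone W W' hpW hpW'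
  obtain ⟨t, htK, ht⟩ := conj_above K p dta.prime hV hV' (by
    rintro x ⟨y, rfl⟩ hx
    change V.valuation (algebraMap N Ω y) < 1 ↔ V'.valuation (algebraMap N Ω y) < 1
    have hy : IsIntegral ℤ y := by
      have h1 : IsIntegral ℤ (algebraMap N Ω y) := hx
      exact (isIntegral_algebraMap_iff (algebraMap N Ω).injective).1 h1
    have h2 : algebraMap (𝓞 N) N ⟨y, hy⟩ = y := rfl
    rw [← h2, ← hW ⟨y, hy⟩, ← hW' ⟨y, hy⟩, hWW])
  have htN : ∀ y : N, t (algebraMap N Ω y) = algebraMap N Ω y := by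
    intro y
    rw [IntermediateField.mem_fixingSubgroup_iff] at htK
    exact htK _ ⟨y, rfl⟩
  refine ⟨s * t, fun x => ?_, fun T hT => ?_⟩
  · rw [AlgEquiv.mul_apply, ← hm, ht]
  · rw [aM_mul]
    have h3 : aM act t T = T := by
      have h4 : (T : Pt (WAB A B) Ω) ∈ Tor act ((p : 𝓞 F) ^ (k + 1)) := by
        change (((p : 𝓞 F) ^ (k + 1)) • T : PM act) = 0
        rw [← Nat.cast_pow, Nat.cast_smul_eq_nsmul (𝓞 F), pow_succ', mul_smul, hT, smul_zero]
      obtain ⟨x, y, hx, hy⟩ := hN.crd T h4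
      exact H55K.ac_fix t (by rw [← hx, htN]) (by rw [← hy, htN])
    rw [h3, hs T hT]

/-- Chunk X3 (S). a = 1 + p: Nm a = (1+p)^2, (1+p)^(2(p-1)) = 1 + 2 p (p-1) = 1 - 2p modulo p^2 is not 1 (p odd). gc_iff. -/
theorem exists_gam (dta : Dta A B Om j act mo ψ p) (hin : Prime (p : 𝓞 F)) {V : ValuationSubring Ω} (hV : V.valuation (p : Ω) < 1) :
    ∃ γ ∈ dV (F := F) V, Gen p γ := by
  have hp := dta.prime
  have h5 := dta.five
  obtain ⟨γ, hγ, hch⟩ := dec_surj dta hin hV 2 ((1 + p : ℕ) : 𝓞 F) (by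
    refine ⟨1, -1, ?_⟩
    push_cast
    ring)
  refine ⟨γ, hγ, ?_⟩
  unfold Gen
  rw [gc_iff dta (n := 1) hch, H55K.Nm_nat, ← pow_mul]
  intro hcon
  have h1 : ((p ^ 2 : ℕ) : ℤ) ∣ 1 - (1 + (p : ℤ)) ^ (2 * (p - 1)) := by
    have h2 := (Nat.modEq_iff_dvd.1 hcon)
    push_cast at h2 ⊢
    exact h2
  obtain ⟨c, hc⟩ : (p : ℤ) ^ 2 ∣ (1 + (p : ℤ)) ^ (2 * (p - 1)) - (1 + (2 * (p - 1) : ℕ) * p) := by
    have h3 : ∀ m : ℕ, (p : ℤ) ^ 2 ∣ (1 + (p : ℤ)) ^ m - (1 + (m : ℤ) * p) := by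
      intro m
      induction m with
      | zero => simp
      | succ m ih =>
        obtain ⟨c, hc⟩ := ih
        refine ⟨c * (1 + p) + m, ?_⟩
        have h4 : (1 + (p : ℤ)) ^ m = 1 + (m : ℤ) * p + (p : ℤ) ^ 2 * c := by linarith
        rw [pow_succ, h4]
        push_cast
        ring
    exact_mod_cast h3 (2 * (p - 1))
  obtain ⟨d, hd⟩ := h1
  have hp1 : ((p - 1 : ℕ) : ℤ) = (p : ℤ) - 1 := by
    rw [Nat.cast_sub hp.one_le, Nat.cast_one]
  have h6 : (p : ℤ) * (2 * ((p : ℤ) - 1)) = (p : ℤ) * (p * (-(c + d))) := by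
    push_cast at hd hc
    rw [hp1] at hc
    linear_combination (-1 : ℤ) * hd - hc
  have hp0 : (p : ℤ) ≠ 0 := by exact_mod_cast hp.ne_zero
  have h7 := mul_left_cancel₀ hp0 h6
  have h8 : (p : ℤ) ∣ 2 := ⟨2 + (c + d), by linear_combination -h7⟩
  have h9 : (p : ℤ) ≤ 2 := Int.le_of_dvd (by norm_num) h8
  have h10 : (5 : ℤ) ≤ p := by exact_mod_cast h5
  omega

end H35L
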