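import Mathlib
import Pool.Agent.Lib.H35L.X1

/-! # H35L, chunk X5T (M): Teichmueller elements -/

open NumberField IsDedekindDomain WeierstrassCurve

namespace H35L

open H55P (IQ Pt ac Inert Dec Nm)
open H35P (WAB Ker tt)
open H55K (Tor CMA Dta GV ak)

variable {F : Type} [Field F] [NumberField F] [IQ F] {A B : F} {Om : ℂ} {Ω : Type} [Field Ω] [DecidableEq Ω]
  [Algebra F Ω] [IsAlgClosure F Ω] {j : Ω →+* ℂ} {act : 𝓞 F →+* AddMonoid.End (Pt (WAB A B) Ω)} {mo : Ideal (𝓞 F)}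
  {ψ : Ideal (𝓞 F) →*₀ 𝓞 F} {p : ℕ}

theorem x5t_nat {m n : ℕ} (h : (m : 𝓞 F) ∣ (n : 𝓞 F)) : m ∣ n := by
  obtain ⟨x, hx⟩ := h
  have h1 := congrArg Nm hx
  rw [H55K.Nm_mul, H55K.Nm_nat, H55K.Nm_nat] at h1
  exact (Nat.pow_dvd_pow_iff two_ne_zero).1 ⟨Nm x, h1⟩

/-- A generator of the units modulo p. -/
theorem x5t_gen (hp : p.Prime) (hin : Prime (p : 𝓞 F)) : ∃ b : 𝓞 F,
    (∀ i : ℕ, (p : 𝓞 F) ∣ b ^ i - 1 ↔ (p ^ 2 - 1) ∣ i) ∧ (p : 𝓞 F) ∣ H55K.cj b - b ^ p := by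
  classical
  haveI : Fact p.Prime := ⟨hp⟩
  have hp2 : 2 ≤ p := hp.two_le
  obtain ⟨I, hIdef⟩ : ∃ I : Ideal (𝓞 F), I = Ideal.span {(p : 𝓞 F)} := ⟨_, rfl⟩
  have hI : I.IsPrime := by
    rw [hIdef]
    exact (Ideal.span_singleton_prime hin.ne_zero).2 hin
  have hI0 : I ≠ ⊥ := by
    rw [hIdef]
    intro h
    exact hin.ne_zero (Ideal.span_singleton_eq_bot.1 h)
  haveI hImax : I.IsMaximal := hI.isMaximal hI0
  letI : Field (𝓞 F ⧸ I) := Ideal.Quotient.field I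
  have hcard : Nat.card (𝓞 F ⧸ I) = p ^ 2 := by
    have h1 : Nm (p : 𝓞 F) = p ^ 2 := H55K.Nm_nat p
    unfold H55P.Nm at h1
    rw [Ideal.absNorm_apply, Submodule.cardQuot_apply, ← hIdef] at h1
    exact h1
  haveI : Finite (𝓞 F ⧸ I) := Nat.finite_of_card_ne_zero (by rw [hcard]; positivity)
  haveI : CharP (𝓞 F ⧸ I) p := by
    rw [hIdef]
    exact CharP.quotient (𝓞 F) p hin.not_unit
  obtain ⟨g, hg⟩ := IsCyclic.exists_generator (α := (𝓞 F ⧸ I)ˣ)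
  have hord : orderOf g = p ^ 2 - 1 := by
    rw [orderOf_eq_card_of_forall_mem_zpowers hg, Nat.card_units, hcard]
  obtain ⟨b, hb⟩ := Ideal.Quotient.mk_surjective (g : 𝓞 F ⧸ I)
  have hdvd : ∀ x : 𝓞 F, Ideal.Quotient.mk I x = 0 ↔ (p : 𝓞 F) ∣ x := by
    intro x
    rw [Ideal.Quotient.eq_zero_iff_mem, hIdef, Ideal.mem_span_singleton]
  have hpow : ∀ i : ℕ, (p : 𝓞 F) ∣ b ^ i - 1 ↔ (p ^ 2 - 1) ∣ i := by
    intro i
    rw [← hdvd, map_sub, map_pow, map_one, hb, sub_eq_zero, ← hord, orderOf_dvd_iff_pow_eq_one,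
      Units.ext_iff]
    simp
  refine ⟨b, hpow, ?_⟩
  obtain ⟨c, hc⟩ : ∃ c : 𝓞 F ⧸ I, c = Ideal.Quotient.mk I (H55K.cj b) := ⟨_, rfl⟩
  obtain ⟨β, hβ⟩ : ∃ β : 𝓞 F ⧸ I, β = Ideal.Quotient.mk I b := ⟨_, rfl⟩
  have hprod : β * c = (Nm b : 𝓞 F ⧸ I) := by
    rw [hβ, hc, ← map_mul, H55K.mul_cj, map_natCast]
  have hsum : β + c = (Nm (b + 1) : 𝓞 F ⧸ I) - (Nm b : 𝓞 F ⧸ I) - 1 := by
    have h1 : (β + 1) * (c + 1) = (Nm (b + 1) : 𝓞 F ⧸ I) := by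
      have h2 : (b + 1) * H55K.cj (b + 1) = (Nm (b + 1) : 𝓞 F) := H55K.mul_cj _
      rw [map_add, map_one] at h2
      have h3 := congrArg (Ideal.Quotient.mk I) h2
      rw [map_mul, map_add, map_add, map_one, map_natCast, ← hβ, ← hc] at h3
      exact h3
    rw [← h1, ← hprod]
    ring
  obtain ⟨τ, hτ⟩ : ∃ τ : 𝓞 F ⧸ I, τ = (Nm (b + 1) : 𝓞 F ⧸ I) - (Nm b : 𝓞 F ⧸ I) - 1 := ⟨_, rfl⟩
  obtain ⟨ν, hν⟩ : ∃ ν : 𝓞 F ⧸ I, ν = (Nm b : 𝓞 F ⧸ I) := ⟨_, rfl⟩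
  have hφτ : frobenius (𝓞 F ⧸ I) p τ = τ := by
    rw [hτ, map_sub, map_sub, map_natCast, map_natCast, map_one]
  have hφν : frobenius (𝓞 F ⧸ I) p ν = ν := by
    rw [hν, map_natCast]
  rw [← hτ] at hsum
  rw [← hν] at hprod
  have h1 : β * β - τ * β + ν = 0 := by
    rw [← hsum, ← hprod]
    ring
  have h2 := congrArg (frobenius (𝓞 F ⧸ I) p) h1
  rw [map_add, map_sub, map_mul, map_mul, map_zero, hφτ, hφν, frobenius_def] at h2
  have h3 : (β ^ p - β) * (β ^ p - c) = 0 := by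
    rw [← hsum, ← hprod] at h2
    linear_combination h2
  rcases mul_eq_zero.1 h3 with h4 | h4
  · exfalso
    have h5 : β ≠ 0 := by
      rw [hβ, hb]
      exact g.ne_zero
    have h6 : β ^ (p - 1) = 1 := by
      have h7 : β ^ p = β ^ (p - 1) * β := by
        rw [← pow_succ]
        congr 1
        omega
      rw [h7] at h4
      have h8 : (β ^ (p - 1) - 1) * β = 0 := by linear_combination h4
      rcases mul_eq_zero.1 h8 with h9 | h9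
      · exact sub_eq_zero.1 h9
      · exact absurd h9 h5
    have h7 : (p : 𝓞 F) ∣ b ^ (p - 1) - 1 := by
      rw [← hdvd, map_sub, map_pow, map_one, ← hβ, h6, sub_self]
    have h8 := Nat.le_of_dvd (by omega) ((hpow (p - 1)).1 h7)
    have h9 : p ^ 2 = p * p := sq p
    have h10 : 2 * p ≤ p * p := Nat.mul_le_mul_right p hp2
    omega
  · rw [← hdvd, map_sub, map_pow, ← hβ, ← hc]
    rw [sub_eq_zero] at h4 ⊢
    exact h4.symm

/-- Chunk X5d (M). A Teichmueller element: b in 𝓞 F whose class generates the units of 𝓞 F / p (a field with q = p^2 elements, hin), a = b^(q^n). a^(q-1) = 1 modulo p^(n+1) (b^(q-1) = 1 mod p, take the power q^n: (1+px)^(p^n) = 1 mod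
p^(n+1)). cj a = a^p modulo p^(n+1): cj b = b^p modulo p (cj is an automorphism of the field 𝓞 F / p with q elements, not the identity: otherwise cj x - x is in (p) for all x, but p is unramified in F (dta.unr); Frobenius is the only other
automorphism; OR: b is a root of (X - b)(X - cj b) with integer coefficients, b^p is another root modulo p and b^p <> b), then the power q^n. So Nm a = a cj a = a^(p+1) and Nm a^(p-1) = a^(q-1) = 1 modulo p^(n+1) (in 𝓞 F, hence in ℤ).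
The result: a with these properties and a a generator modulo p (q^n is prime to q - 1). -/
theorem teich (dta : Dta A B Om j act mo ψ p) (hin : Prime (p : 𝓞 F)) (n : ℕ) : ∃ a : 𝓞 F, IsCoprime a (p : 𝓞 F) ∧
    (p : 𝓞 F) ^ (n + 1) ∣ a ^ (p ^ 2 - 1) - 1 ∧ Nm a ^ (p - 1) ≡ 1 [MOD p ^ (n + 1)] ∧
    (p : 𝓞 F) ^ (n + 1) ∣ (Nm a : 𝓞 F) - a ^ (p + 1) ∧
    ∀ i : ℕ, (p : 𝓞 F) ∣ a ^ i - 1 → (p ^ 2 - 1) ∣ i := by
  have hp := dta.prime
  have hp2 : 2 ≤ p := hp.two_le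
  obtain ⟨b, hb, hbc⟩ := x5t_gen (F := F) hp hin
  obtain ⟨a, ha⟩ : ∃ a : 𝓞 F, a = b ^ p ^ (2 * n) := ⟨_, rfl⟩
  have hq : p ^ 2 - 1 ≠ 0 := by
    have h9 : p ^ 2 = p * p := sq p
    have h10 : 2 * p ≤ p * p := Nat.mul_le_mul_right p hp2
    omega
  have hle : (p : 𝓞 F) ^ (n + 1) ∣ (p : 𝓞 F) ^ (2 * n + 1) := pow_dvd_pow _ (by omega)
  have hord : (p : 𝓞 F) ^ (n + 1) ∣ a ^ (p ^ 2 - 1) - 1 := by
    have h1 : (p : 𝓞 F) ∣ b ^ (p ^ 2 - 1) - 1 := (hb _).2 (dvd_refl _)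
    have h2 := dvd_sub_pow_of_dvd_sub h1 (2 * n)
    rw [one_pow] at h2
    have h3 : a ^ (p ^ 2 - 1) = (b ^ (p ^ 2 - 1)) ^ p ^ (2 * n) := by
      rw [ha, ← pow_mul, ← pow_mul, mul_comm]
    rw [h3]
    exact hle.trans h2
  have hcj : (p : 𝓞 F) ^ (n + 1) ∣ H55K.cj a - a ^ p := by
    have h2 := dvd_sub_pow_of_dvd_sub hbc (2 * n)
    have h3 : H55K.cj a = (H55K.cj b) ^ p ^ (2 * n) := by rw [ha, map_pow]
    have h4 : a ^ p = (b ^ p) ^ p ^ (2 * n) := by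
      rw [ha, ← pow_mul, ← pow_mul, mul_comm]
    rw [h3, h4]
    exact hle.trans h2
  have hnm : (p : 𝓞 F) ^ (n + 1) ∣ (Nm a : 𝓞 F) - a ^ (p + 1) := by
    obtain ⟨c, hc⟩ := hcj
    refine ⟨a * c, ?_⟩
    rw [← H55K.mul_cj, pow_succ' a p]
    linear_combination a * hc
  have hpa : ¬ (p : 𝓞 F) ∣ a := by
    intro h
    have h1 : (p : 𝓞 F) ∣ a ^ (p ^ 2 - 1) := dvd_pow h hq
    have h2 : (p : 𝓞 F) ∣ a ^ (p ^ 2 - 1) - 1 := (dvd_pow_self _ (by omega)).trans hord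
    have h3 := dvd_sub h1 h2
    rw [sub_sub_cancel] at h3
    exact hin.not_unit (isUnit_of_dvd_one h3)
  refine ⟨a, ((hin.irreducible.coprime_iff_not_dvd).2 hpa).symm, hord, ?_, hnm, ?_⟩
  · have ha0 : a ≠ 0 := by
      rintro rfl
      exact hpa (dvd_zero _)
    have h1 : 1 ≤ Nm a ^ (p - 1) := by
      refine Nat.one_le_pow _ _ (Nat.pos_of_ne_zero fun h => ha0 (H55P.Nm_eq_zero.1 h))
    refine ((Nat.modEq_iff_dvd' h1).2 (x5t_nat (F := F) ?_)).symm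
    rw [Nat.cast_sub h1, Nat.cast_pow, Nat.cast_pow, Nat.cast_one]
    have h2 : (p : 𝓞 F) ^ (n + 1) ∣ (Nm a : 𝓞 F) ^ (p - 1) - (a ^ (p + 1)) ^ (p - 1) :=
      hnm.trans (sub_dvd_pow_sub_pow _ _ _)
    have h3 : (a ^ (p + 1)) ^ (p - 1) = a ^ (p ^ 2 - 1) := by
      rw [← pow_mul]
      congr 1
      have h4 := Nat.sq_sub_sq p 1
      rw [one_pow] at h4
      exact h4.symm
    rw [h3] at h2
    have h5 := dvd_add h2 hord
    rwa [sub_add_sub_cancel] at h5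
  · intro i hi
    have h1 : (p : 𝓞 F) ∣ b ^ (p ^ (2 * n) * i) - 1 := by
      rw [pow_mul, ← ha]
      exact hi
    have h2 := (hb _).1 h1
    refine Nat.Coprime.dvd_of_dvd_mul_left ?_ h2
    have h3 : Nat.Coprime (p ^ 2 - 1) p := by
      have h4 : Nat.Coprime (p ^ 2 - 1) (p ^ 2) := by
        have h5 : p ^ 2 = (p ^ 2 - 1) + 1 := by
          have : 0 < p ^ 2 := by positivity
          omega
        have h6 : Nat.Coprime (p ^ 2 - 1) ((p ^ 2 - 1) + 1) := by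
          rw [Nat.coprime_self_add_right]
          exact Nat.coprime_one_right _
        rwa [← h5] at h6
      exact Nat.Coprime.coprime_dvd_right (dvd_pow_self p two_ne_zero) h4
    exact Nat.Coprime.pow_right _ h3

end H35L
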