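import Mathlib
import Pool.Agent.Lib.H35L.X3D
import Pool.Agent.Lib.H35L.X5
import Pool.Agent.Lib.H35L.X5T

/-! # H35L, chunk X5E (S): the element sigma -/

open NumberField IsDedekindDomain WeierstrassCurve

namespace H35L

open H55P (IQ Pt ac Inert Dec Nm)
open H35P (WAB Ker tt)
open H55K (Tor CMA Dta GV ak)

variable {F : Type} [Field F] [NumberField F] [IQ F] {A B : F} {Om : ℂ} {Ω : Type} [Field Ω] [DecidableEq Ω]
  [Algebra F Ω] [IsAlgClosure F Ω] {j : Ω →+* ℂ} {act : 𝓞 F →+* AddMonoid.End (Pt (WAB A B) Ω)} {mo : Ideal (𝓞 F)}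
  {ψ : Ideal (𝓞 F) →*₀ 𝓞 F} {p : ℕ}

/-- Chunk X5e (S). For every n some s in the decomposition group of V above p has Gc p n s and s - 1 bijective: dec_surj for a from teich (k = n + 1), gc_iff, tb_of_ch (p does not divide a - 1 as q - 1 > 1). -/
theorem exists_sig (dta : Dta A B Om j act mo ψ p) (hin : Prime (p : 𝓞 F)) {V : ValuationSubring Ω} (hV : V.valuation (p : Ω) < 1) (n : ℕ) :
    ∃ σ ∈ dV (F := F) V, Gc p n σ ∧ Tb act p σ := by
  obtain ⟨a, hcop, -, hNm, -, hgen⟩ := teich dta hin n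
  obtain ⟨s, hs, hch⟩ := dec_surj dta hin hV (n + 1) a hcop
  refine ⟨s, hs, (gc_iff dta hch).2 hNm, tb_of_ch dta hin (ch_mono (by omega) hch) fun h => ?_⟩
  have h1 := hgen 1 (by rw [pow_one]; exact h)
  have h2 := Nat.le_of_dvd one_pos h1
  have h3 := dta.five
  have h4 : 25 ≤ p ^ 2 := by nlinarith
  omega

end H35L
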