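import Mathlib
import Pool.Agent.Lib.H35L.C4
import Pool.Agent.Lib.H35L.C5
import Pool.Agent.Lib.H35L.X5E

/-! # H35L, chunk C6A (M): the classes of points killed by p -/

open NumberField IsDedekindDomain WeierstrassCurve

namespace H35L

open H55P (IQ Pt ac Inert Dec Nm)
open H35P (WAB)
open H55K (CMA Dta)
open H35K (Lev)

variable {F : Type} [Field F] [NumberField F] [IQ F] {A B : F} {Om : ℂ} {Ω : Type} [Field Ω] [DecidableEq Ω]
  [Algebra F Ω] [IsAlgClosure F Ω] {j : Ω →+* ℂ} {act : 𝓞 F →+* AddMonoid.End (Pt (WAB A B) Ω)} {mo : Ideal (𝓞 F)}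
  {ψ : Ideal (𝓞 F) →*₀ 𝓞 F} {p : ℕ}

theorem c6a_div (dta : Dta A B Om j act mo ψ p) (hin : Prime (p : 𝓞 F)) (a : PM act) : ∃ a' : PM act, p • a' = a := by
  obtain ⟨a', ha'⟩ := dta.cma.surj (p : 𝓞 F) hin.ne_zero a
  let b : PM act := a'
  exact ⟨b, (Nat.cast_smul_eq_nsmul (𝓞 F) p b).symm.trans ha'⟩

theorem c6a_cocycle (Q : PM act) (s t : Ω ≃ₐ[F] Ω) :
    aM act (s * t) Q - Q = (aM act s Q - Q) + aM act s (aM act t Q - Q) := by
  rw [aM_mul, map_sub]
  abel

theorem c6a_comm (dta : Dta A B Om j act mo ψ p) {V : ValuationSubring Ω} {n : ℕ} {σ s : Ω ≃ₐ[F] Ω}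
    (hσ : σ ∈ LG dta.prime (dV V) n) (hs : s ∈ LG dta.prime (dV V) n) : SH act (dV V) p (σ * s * σ⁻¹ * s⁻¹) :=
  ⟨mul_mem (mul_mem (mul_mem hσ.1 hs.1) (inv_mem hσ.1)) (inv_mem hs.1), fa_comm dta σ s⟩

/-- Chunk C6a (M). The classes of points killed by p: w in DM n, p w = 0 iff w(h) = h P - P with p P rational of level n. PROOF. w(h) = h P - P, p^k P of level n. p P is fixed by SH: the cocycle s -> s (pP) - pP on the group of level n (values killed by p^k) is zero on
SH, and there is sigma of level n with sigma - 1 bijective (exists_sig): by cob it is s a - a; a = p a' (divisibility), P' = P - a': p P' = pP - a is of level n and h P' - P' = h P - P. -/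
theorem dm_p (dta : Dta A B Om j act mo ψ p) (hin : Prime (p : 𝓞 F)) (hc : Cm act) {V : ValuationSubring Ω} (hV : V.valuation (p : Ω) < 1) (n : ℕ)
    (w : WM act hc p V) : (w ∈ DM act hc p (dV V) LI n ∧ p • w = 0) ↔
      ∃ P : PM act, p • P ∈ AM act p (dV V) n ∧ ∀ h, SH act (dV V) p h → w.1 h = aM act h P - P := by
  constructor
  · rintro ⟨⟨P, ⟨k, hk⟩, hP⟩, hpw⟩
    obtain ⟨σ, hσV, hσn, hσb⟩ := exists_sig dta hin hV n
    have hσ : σ ∈ LG dta.prime (dV V) n := ⟨hσV, hσn⟩
    have hfix : ∀ h, SH act (dV V) p h → aM act h (p • P) = p • P := by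
      intro h hh
      have h1 : p • w.1 h = 0 := by
        have h2 : (p • w).1 h = 0 := by rw [hpw]; rfl
        exact h2
      rw [hP h hh, smul_sub, ← map_nsmul, sub_eq_zero] at h1
      exact h1
    obtain ⟨a, ha1, ⟨l, hl⟩, ha3⟩ := cob dta hσ hσb (c := fun s => aM act s (p • P) - p • P)
      (fun s _ t _ => c6a_cocycle _ s t)
      (fun s hs => ⟨k, by
        change p ^ k • (aM act s (p • P) - p • P) = 0
        rw [smul_sub, ← map_nsmul, smul_comm (p ^ k) p P, map_nsmul, hk s hs, sub_self]⟩)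
      (fun s hs => by
        change aM act (σ * s * σ⁻¹ * s⁻¹) (p • P) - p • P = 0
        rw [hfix _ (c6a_comm dta hσ hs), sub_self])
    obtain ⟨a', ha'⟩ := c6a_div dta hin a
    refine ⟨P - a', fun s hs => ?_, fun h hh => ?_⟩
    · have h1 : aM act s (p • P) - p • P = aM act s a - a := ha3 s hs
      rw [smul_sub, ha', map_sub, sub_eq_sub_iff_sub_eq_sub]
      exact h1
    · have h1 : aM act h a' = a' := hh.2 a' ⟨l + 1, by rw [pow_succ, mul_smul, ha', hl]⟩
      rw [hP h hh, map_sub, h1]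
      abel
  · rintro ⟨P, hP, hw⟩
    refine ⟨⟨P, ⟨1, fun s hs => ?_⟩, hw⟩, ?_⟩
    · rw [pow_one]
      exact hP s hs
    · apply Subtype.ext
      funext h
      have hwc : IsCls act p (SH act (dV V) p) LI (SN (dV V) p) w.1 := w.2
      change p • w.1 h = 0
      by_cases hh : SH act (dV V) p h
      · rw [hw h hh, smul_sub, ← map_nsmul, hP h ⟨hh.1, fa_gc dta hh.2 n⟩, sub_self]
      · rw [hwc.out h hh, smul_zero]

/-- Chunk C6b (M). p P = Q, w(h) = h P - P: w = 0 iff Q = p Q' with Q' of level n (cob for the cocycle s P - P with values killed by p: P - a is of level n). -/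
theorem dm_zero (dta : Dta A B Om j act mo ψ p) (hin : Prime (p : 𝓞 F)) {V : ValuationSubring Ω} (hV : V.valuation (p : Ω) < 1) (n : ℕ)
    {P : PM act} (hP : p • P ∈ AM act p (dV V) n) : (∀ h, SH act (dV V) p h → aM act h P = P) ↔ ∃ Q ∈ AM act p (dV V) n, p • Q = p • P := by
  constructor
  · intro hfix
    obtain ⟨σ, hσV, hσn, hσb⟩ := exists_sig dta hin hV n
    have hσ : σ ∈ LG dta.prime (dV V) n := ⟨hσV, hσn⟩
    have hk : ∀ s ∈ LG dta.prime (dV V) n, p ^ 1 • (aM act s P - P) = 0 := by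
      intro s hs
      rw [pow_one, smul_sub, ← map_nsmul, hP s hs, sub_self]
    obtain ⟨a, ha1, _, ha3⟩ := cob dta hσ hσb (c := fun s => aM act s P - P)
      (fun s _ t _ => c6a_cocycle _ s t)
      (fun s hs => ⟨1, hk s hs⟩)
      (fun s hs => by
        change aM act (σ * s * σ⁻¹ * s⁻¹) P - P = 0
        rw [hfix _ (c6a_comm dta hσ hs), sub_self])
    have ha : p • a = 0 := by
      have := ha1 1 hk
      rwa [pow_one] at this
    refine ⟨P - a, fun s hs => ?_, ?_⟩
    · have h1 : aM act s P - P = aM act s a - a := ha3 s hs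
      rw [map_sub, sub_eq_sub_iff_sub_eq_sub]
      exact h1
    · rw [smul_sub, ha, sub_zero]
  · rintro ⟨Q, hQ, hQP⟩ h hh
    have h1 : aM act h (P - Q) = P - Q := hh.2 _ ⟨1, by rw [pow_one, smul_sub, hQP, sub_self]⟩
    have h2 : aM act h Q = Q := hQ h ⟨hh.1, fa_gc dta hh.2 n⟩
    rw [map_sub, h2] at h1
    exact sub_left_injective h1

end H35L
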