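import Mathlib
import Pool.Agent.Lib.H35L.C6A
import Pool.Agent.Lib.H35L.C4E

/-! # H35L, chunk C6 (M): the local facts from the points -/

open NumberField IsDedekindDomain WeierstrassCurve

namespace H35L

open H55P (IQ Pt ac Inert Dec Nm)
open H35P (WAB)
open H55K (CMA Dta)
open H35K (Lev)

variable {F : Type} [Field F] [NumberField F] [IQ F] {A B : F} {Om : ℂ} {Ω : Type} [Field Ω] [DecidableEq Ω]
  [Algebra F Ω] [IsAlgClosure F Ω] {j : Ω →+* ℂ} {act : 𝓞 F →+* AddMonoid.End (Pt (WAB A B) Ω)} {mo : Ideal (𝓞 F)}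
  {ψ : Ideal (𝓞 F) →*₀ 𝓞 F} {p : ℕ}

/-- Q is the multiple by p of a point P with class w. -/
def c6_R (hc : Cm act) (p : ℕ) (V : ValuationSubring Ω) (Q : PM act) (w : WM act hc p V) : Prop :=
  ∃ P : PM act, p • P = Q ∧ ∀ h, SH act (dV V) p h → w.1 h = aM act h P - P

theorem c6_uniq {hc : Cm act} {V : ValuationSubring Ω} {Q : PM act} {w w' : WM act hc p V} (h : c6_R hc p V Q w)
    (h' : c6_R hc p V Q w') : w = w' := by
  obtain ⟨P, hP, hw⟩ := h
  obtain ⟨P', hP', hw'⟩ := h'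
  apply c4e_ext
  intro x hx
  rw [hw x hx, hw' x hx]
  have h1 : aM act x (P - P') = P - P' := by
    refine hx.2 _ ⟨1, ?_⟩
    rw [pow_one, smul_sub, hP, hP', sub_self]
  rw [map_sub] at h1
  rw [sub_eq_sub_iff_sub_eq_sub]
  exact h1

theorem c6_add {hc : Cm act} {V : ValuationSubring Ω} {Q Q' : PM act} {w w' : WM act hc p V} (h : c6_R hc p V Q w)
    (h' : c6_R hc p V Q' w') : c6_R hc p V (Q + Q') (w + w') := by
  obtain ⟨P, hP, hw⟩ := h
  obtain ⟨P', hP', hw'⟩ := h'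
  refine ⟨P + P', by rw [smul_add, hP, hP'], fun x hx => ?_⟩
  have h1 : (w + w').1 x = w.1 x + w'.1 x := rfl
  rw [h1, hw x hx, hw' x hx, map_add]
  abel

theorem c6_ex (dta : Dta A B Om j act mo ψ p) (hin : Prime (p : 𝓞 F)) (hc : Cm act) {V : ValuationSubring Ω} (hV : V.valuation (p : Ω) < 1)
    {n : ℕ} {Q : PM act} (hQ : Q ∈ AM act p (dV V) n) :
    ∃ w : WM act hc p V, (w ∈ DM act hc p (dV V) LI n ∧ p • w = 0) ∧ c6_R hc p V Q w := by
  obtain ⟨P, hP⟩ := c4e_div dta Q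
  have hPl : PL act p (dV V) n P := ⟨1, fun s hs => by rw [pow_one, hP]; exact hQ s hs⟩
  obtain ⟨w, hw, hwP⟩ := pt_cls dta hc hPl (I := LI) (fun h _ hi => hi.elim)
  refine ⟨w, (dm_p dta hin hc hV n w).2 ⟨P, by rw [hP]; exact hQ, hwP⟩, P, hP, hwP⟩

theorem c6_zero (dta : Dta A B Om j act mo ψ p) (hc : Cm act) {V : ValuationSubring Ω}
    {n : ℕ} {Q : PM act} (hQ : Q ∈ AM act p (dV V) n) : c6_R hc p V (p • Q) 0 := by
  refine ⟨Q, rfl, fun h hh => ?_⟩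
  rw [hQ h ⟨hh.1, fa_gc dta hh.2 n⟩, sub_self]
  rfl

theorem c6_gm {hc : Cm act} {V : ValuationSubring Ω} {γ : Ω ≃ₐ[F] Ω} (hγ : γ ∈ dV V) {Q : PM act} {w : WM act hc p V}
    (h : c6_R hc p V Q w) : c6_R hc p V (gm1 act γ Q) ((opM act hc p LI_conj hγ - 1) w) := by
  obtain ⟨P, hP, hw⟩ := h
  refine ⟨gm1 act γ P, by rw [← map_nsmul, hP], fun x hx => ?_⟩
  have h1 : ((opM act hc p LI_conj hγ - 1) w).1 x = (opM act hc p LI_conj hγ w).1 x - w.1 x := rfl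
  have h2 : (opM act hc p LI_conj hγ w).1 x = aM act (γ⁻¹)⁻¹ (w.1 (γ⁻¹ * x * (γ⁻¹)⁻¹)) := if_pos hx
  have h3 : SH act (dV V) p (γ⁻¹ * x * (γ⁻¹)⁻¹) :=
    ⟨mul_mem (mul_mem (inv_mem hγ) hx.1) (inv_mem (inv_mem hγ)), FA_conj act hx.2 _⟩
  have h4 : gm1 act γ P = aM act γ P - P := rfl
  have h5 : γ * (γ⁻¹ * x * γ) = x * γ := by group
  rw [h1, h2, hw _ h3, hw x hx, inv_inv, h4, map_sub, map_sub, ← aM_mul, h5, aM_mul]
  abel

theorem c6_gmk {hc : Cm act} {V : ValuationSubring Ω} {γ : Ω ≃ₐ[F] Ω} (hγ : γ ∈ dV V) (k : ℕ) {Q : PM act} {w : WM act hc p V}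
    (h : c6_R hc p V Q w) : c6_R hc p V ((gm1 act γ ^ k) Q) (((opM act hc p LI_conj hγ - 1) ^ k) w) := by
  induction k with
  | zero => exact h
  | succ k ih =>
    rw [pow_succ', pow_succ']
    exact c6_gm hγ ih

open Classical in
/-- The class of a point of level n. -/
noncomputable def c6_f (dta : Dta A B Om j act mo ψ p) (hin : Prime (p : 𝓞 F)) (hc : Cm act) {V : ValuationSubring Ω} (hV : V.valuation (p : Ω) < 1)
    (n : ℕ) : AM act p (dV V) n →+ WM act hc p V :=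
  AddMonoidHom.mk' (fun Q => (c6_ex dta hin hc hV Q.2).choose) (by
    intro Q Q'
    exact c6_uniq (c6_ex dta hin hc hV (Q + Q').2).choose_spec.2
      (c6_add (c6_ex dta hin hc hV Q.2).choose_spec.2 (c6_ex dta hin hc hV Q'.2).choose_spec.2))

theorem c6_fR (dta : Dta A B Om j act mo ψ p) (hin : Prime (p : 𝓞 F)) (hc : Cm act) {V : ValuationSubring Ω} (hV : V.valuation (p : Ω) < 1)
    (n : ℕ) (Q : AM act p (dV V) n) : (c6_f dta hin hc hV n Q ∈ DM act hc p (dV V) LI n ∧ p • c6_f dta hin hc hV n Q = 0) ∧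
      c6_R hc p V Q.1 (c6_f dta hin hc hV n Q) :=
  (c6_ex dta hin hc hV Q.2).choose_spec

theorem c6_card (dta : Dta A B Om j act mo ψ p) (hin : Prime (p : 𝓞 F)) (hc : Cm act) {V : ValuationSubring Ω} (hV : V.valuation (p : Ω) < 1)
    (n : ℕ) : Nat.card {w : WM act hc p V // w ∈ DM act hc p (dV V) LI n ∧ p • w = 0} =
      Nat.card (AM act p (dV V) n ⧸ (AddSubgroup.map (nsmulAddMonoidHom p) (⊤ : AddSubgroup (AM act p (dV V) n)))) := by
  have hker : (c6_f dta hin hc hV n).ker = AddSubgroup.map (nsmulAddMonoidHom p) (⊤ : AddSubgroup (AM act p (dV V) n)) := by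
    ext Q
    rw [AddMonoidHom.mem_ker, AddSubgroup.mem_map]
    constructor
    · intro h0
      obtain ⟨-, P, hP, hw⟩ := c6_fR dta hin hc hV n Q
      have h1 : p • P ∈ AM act p (dV V) n := by rw [hP]; exact Q.2
      obtain ⟨R, hR, hRP⟩ := (dm_zero dta hin hV n h1).1 (fun h hh => by
        have h2 := hw h hh
        rw [h0] at h2
        exact (sub_eq_zero.1 h2.symm))
      refine ⟨⟨R, hR⟩, trivial, ?_⟩
      apply Subtype.ext
      change p • R = Q.1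
      rw [hRP, hP]
    · rintro ⟨R, -, hR⟩
      have h1 : c6_R hc p V Q.1 0 := by
        rw [← hR]
        exact c6_zero dta hc R.2
      exact c6_uniq (c6_fR dta hin hc hV n Q).2 h1
  rw [← hker]
  refine (Nat.card_congr (QuotientAddGroup.quotientKerEquivRange (c6_f dta hin hc hV n)).toEquiv).symm ▸ ?_
  refine Nat.card_congr (Equiv.subtypeEquivRight fun w => ?_)
  constructor
  · intro hw
    obtain ⟨P, hP, hwP⟩ := (dm_p dta hin hc hV n w).1 hw
    exact ⟨⟨p • P, hP⟩, c6_uniq (c6_fR dta hin hc hV n ⟨p • P, hP⟩).2 ⟨P, rfl, hwP⟩⟩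
  · rintro ⟨Q, rfl⟩
    exact (c6_fR dta hin hc hV n Q).1

/-- Chunk C6 (M). l2 gives dp: Q -> class of P, p P = Q (pt_cls; surjectivity of p) is a bijection from A_n/p A_n to the classes of points killed by p (dm_p, dm_zero). ds: the class of gm1^s Q is (del - 1)^s of the class of Q; l3, l3'. -/
theorem locf_of_locp (dta : Dta A B Om j act mo ψ p) (hin : Prime (p : 𝓞 F)) (hc : Cm act) {V : ValuationSubring Ω} (hV : V.valuation (p : Ω) < 1) {q : ℕ}
    {γ : Ω ≃ₐ[F] Ω} (hγ : γ ∈ dV V) (hg : Gen p γ) (h : LocP act hc p q V hγ) : LocF act hc p q V hγ := by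
  refine ⟨h.l4f, h.l4, fun n => by rw [c6_card dta hin hc hV n, h.l2 n], fun n w => ?_⟩
  constructor
  · intro hw
    obtain ⟨P, hP, hwP⟩ := (dm_p dta hin hc hV 0 w).1 hw
    obtain ⟨Q, hQ, Q', hQ', he⟩ := h.l3' n _ hP
    obtain ⟨w', hw', hR⟩ := c6_ex dta hin hc hV hQ
    refine ⟨w', hw'.1, hw'.2, ?_⟩
    have h1 := c6_gmk hγ (p ^ n - 1 - H35K.J p n) hR
    rw [he] at h1
    have h2 : c6_R hc p V (p • P + p • Q') (w + 0) := c6_add ⟨P, rfl, hwP⟩ (c6_zero dta hc hQ')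
    rw [add_zero] at h2
    exact c6_uniq h1 h2
  · rintro ⟨w', hw', hpw', rfl⟩
    obtain ⟨P, hP, hwP⟩ := (dm_p dta hin hc hV n w').1 ⟨hw', hpw'⟩
    obtain ⟨Q0, hQ0, Q', hQ', he⟩ := h.l3 n _ hP
    obtain ⟨w0, hw0, hR0⟩ := c6_ex dta hin hc hV hQ0
    have h1 := c6_gmk hγ (p ^ n - 1 - H35K.J p n) (show c6_R hc p V (p • P) w' from ⟨P, rfl, hwP⟩)
    rw [he] at h1
    have h2 := c6_add hR0 (c6_zero dta hc hQ')
    rw [add_zero] at h2
    rw [c6_uniq h1 h2]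
    exact hw0

end H35L
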