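import Mathlib
import Pool.Agent.Lib.H35L.Ar

/-! # H35L: Kummer classes (definitions) -/

open NumberField IsDedekindDomain WeierstrassCurve

namespace H35L

open H55P (IQ Pt ac Inert Dec Nm)
open H35P (WAB)
open H55K (CMA Dta)
open H35K (Lev)

section

variable {F : Type} [Field F] {A B : F} {Ω : Type} [Field Ω] [DecidableEq Ω] [Algebra F Ω]
  (act : 𝓞 F →+* AddMonoid.End (Pt (WAB A B) Ω))

open Classical in
/-- A p^k-th root of u. -/
noncomputable def rt (p k : ℕ) (u : Ω) : Ω := if h : ∃ v, v ^ p ^ k = u then h.choose else 0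

/-- A homomorphism from the roots of unity of order dividing p^k to the points (zero elsewhere). -/
structure IsT (p k : ℕ) (t : Ω → PM act) : Prop where
  mul : ∀ z w, z ^ p ^ k = 1 → w ^ p ^ k = 1 → t (z * w) = t z + t w
  out : ∀ z, z ^ p ^ k ≠ 1 → t z = 0

open Classical in
/-- The Kummer class of u and t on H. -/
noncomputable def kum (p k : ℕ) (H : (Ω ≃ₐ[F] Ω) → Prop) (u : Ω) (t : Ω → PM act) : (Ω ≃ₐ[F] Ω) → PM act :=
  fun h => if H h then t (h (rt p k u) / rt p k u) else 0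

/-- The conjugation by s. -/
noncomputable def cjL (hc : Cm act) (s : Ω ≃ₐ[F] Ω) : ((Ω ≃ₐ[F] Ω) → PM act) →ₗ[𝓞 F] ((Ω ≃ₐ[F] Ω) → PM act) where
  toFun f := fun h => aM act s (f (s⁻¹ * h * s))
  map_add' f g := by
    funext h
    exact map_add (aM act s) _ _
  map_smul' a f := by
    funext h
    exact hc s a (f (s⁻¹ * h * s))

theorem cjL_mul (hc : Cm act) (s t : Ω ≃ₐ[F] Ω) : cjL act hc (s * t) = cjL act hc s * cjL act hc t := by
  apply LinearMap.ext
  intro f
  funext h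
  show aM act (s * t) (f ((s * t)⁻¹ * h * (s * t))) = aM act s (aM act t (f (t⁻¹ * (s⁻¹ * h * s) * t)))
  rw [aM_mul, mul_inv_rev]
  simp only [mul_assoc]

theorem cjL_one (hc : Cm act) : cjL act hc 1 = 1 := by
  apply LinearMap.ext
  intro f
  funext h
  show aM act 1 (f (1⁻¹ * h * 1)) = f h
  rw [aM_one, inv_one, one_mul, mul_one]

/-- The action by conjugation. -/
noncomputable def cjR (hc : Cm act) : (Ω ≃ₐ[F] Ω) →* Module.End (𝓞 F) ((Ω ≃ₐ[F] Ω) → PM act) where
  toFun := cjL act hc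
  map_one' := cjL_one act hc
  map_mul' := cjL_mul act hc

/-- u is a unit of B. -/
structure IsU (B : IntermediateField F Ω) (u : Ω) : Prop where
  mem : u ∈ B
  ne : u ≠ 0
  int : IsIntegral ℤ u
  inv : IsIntegral ℤ u⁻¹

/-- The module of the Kummer classes of the units of B, on the elements of G acting trivially on the points of order a power of p. -/
noncomputable def KU (p k : ℕ) (G : Subgroup (Ω ≃ₐ[F] Ω)) (B : IntermediateField F Ω) : Submodule (𝓞 F) ((Ω ≃ₐ[F] Ω) → PM act) :=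
  Submodule.span (𝓞 F) {f | ∃ (u : Ω) (t : Ω → PM act), IsU B u ∧ IsT act p k t ∧ f = kum act p k (SH act G p) u t}

/-- The Kummer classes fixed by sigma. -/
noncomputable def XU (hc : Cm act) (p k : ℕ) (G : Subgroup (Ω ≃ₐ[F] Ω)) (B : IntermediateField F Ω) (σ : Ω ≃ₐ[F] Ω) :
    Submodule (𝓞 F) ((Ω ≃ₐ[F] Ω) → PM act) :=
  KU act p k G B ⊓ LinearMap.ker (cjL act hc σ - 1)

/-- B is the field of the points killed by p^K over the field of G. -/
def IsB (p K : ℕ) (G : Subgroup (Ω ≃ₐ[F] Ω)) (B : IntermediateField F Ω) : Prop :=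
  ∀ s, s ∈ B.fixingSubgroup ↔ s ∈ G ∧ Ch act p K s 1

/-- sigma acts on the points killed by p^K as a Teichmueller element a, a generator modulo p. -/
structure IsSig (p K : ℕ) (σ : Ω ≃ₐ[F] Ω) (a : 𝓞 F) : Prop where
  ch : Ch act p K σ a
  cop : IsCoprime a (p : 𝓞 F)
  pw : (p : 𝓞 F) ^ K ∣ a ^ (p ^ 2 - 1) - 1
  gen : ∀ i : ℕ, (p : 𝓞 F) ∣ a ^ i - 1 → (p ^ 2 - 1) ∣ i

end

end H35L
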