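import Mathlib
import Pool.Agent.Lib.H35L.C0
import Pool.Agent.Lib.H35L.K0

/-! # H35L: the frame of the tower (definitions) -/

open NumberField IsDedekindDomain WeierstrassCurve

namespace H35L

open H55P (IQ Pt ac Inert Dec Nm)
open H35P (WAB)
open H55K (CMA Dta)
open H35K (Lev)

section

variable {F : Type} [Field F] {A B : F} {Ω : Type} [Field Ω] [DecidableEq Ω] [Algebra F Ω]
  (act : 𝓞 F →+* AddMonoid.End (Pt (WAB A B) Ω))

/-- M is a finite extension of F of degree g in which p is totally split (the decomposition groups at all V above p fix M), V is above p, gamma in Dec V a generator of the cyclotomic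
tower, s₀ i representatives of the cosets of Gal(Ω/M). -/
structure Fr (p : ℕ) (M : IntermediateField F Ω) (V : ValuationSubring Ω) (γ : Ω ≃ₐ[F] Ω) (g : ℕ) (s₀ : Fin g → (Ω ≃ₐ[F] Ω)) : Prop where
  fin : FiniteDimensional F M
  deg : Module.finrank F M = g
  above : V.valuation (p : Ω) < 1
  spl : ∀ V' : ValuationSubring Ω, V'.valuation (p : Ω) < 1 → ∀ s, Dec V' s → s ∈ M.fixingSubgroup
  gam : γ ∈ dV V
  gen : Gen p γ
  rep : ∀ x : Ω ≃ₐ[F] Ω, ∃ i, ∃ t ∈ M.fixingSubgroup, x = t * s₀ i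

variable {act} {p : ℕ} {M : IntermediateField F Ω} {V : ValuationSubring Ω} {γ : Ω ≃ₐ[F] Ω} {g : ℕ} {s₀ : Fin g → (Ω ≃ₐ[F] Ω)}

theorem Fr.gM (h : Fr p M V γ g s₀) : γ ∈ M.fixingSubgroup := h.spl V h.above γ h.gam

theorem Fr.hG (h : Fr p M V γ g s₀) (i : Fin g) : ∀ s ∈ dV (F := F) V, s₀ i * s * (s₀ i)⁻¹ ∈ M.fixingSubgroup := by
  intro s hs
  have hm : ∀ x, x ∈ V.comap (((s₀ i)⁻¹ : Ω ≃ₐ[F] Ω) : Ω →+* Ω) ↔ ((s₀ i)⁻¹ : Ω ≃ₐ[F] Ω) x ∈ V := fun x => ValuationSubring.mem_comap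
  refine h.spl (V.comap (((s₀ i)⁻¹ : Ω ≃ₐ[F] Ω) : Ω →+* Ω)) ?_ _ ?_
  · rw [H55P.lt1_iff]
    have h1 := (H55P.lt1_iff V (p : Ω)).1 h.above
    rw [hm, map_inv₀, map_natCast]
    exact h1
  · intro x
    rw [hm, hm, AlgEquiv.mul_apply, AlgEquiv.mul_apply]
    have h2 : ((s₀ i)⁻¹ : Ω ≃ₐ[F] Ω) (s₀ i (s (((s₀ i)⁻¹ : Ω ≃ₐ[F] Ω) x))) = s (((s₀ i)⁻¹ : Ω ≃ₐ[F] Ω) x) := (s₀ i).symm_apply_apply _
    rw [h2]
    exact hs _

/-- The operator of gamma on the global classes. -/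
noncomputable abbrev gamF (hc : Cm act) (h : Fr p M V γ g s₀) : RM act hc p M →ₗ[𝓞 F] RM act hc p M := opM act hc p GI_conj h.gM

/-- The operator of gamma on the local classes. -/
noncomputable abbrev delF (hc : Cm act) (h : Fr p M V γ g s₀) : WM act hc p V →ₗ[𝓞 F] WM act hc p V := opM act hc p LI_conj h.gam

/-- The localisation at the places above p. -/
noncomputable abbrev locF (hc : Cm act) (h : Fr p M V γ g s₀) (i : Fin g) : RM act hc p M →ₗ[𝓞 F] WM act hc p V := loM act hc p (h.hG i)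

/-- The classes of points at V. -/
abbrev dF (act : 𝓞 F →+* AddMonoid.End (Pt (WAB A B) Ω)) (hc : Cm act) (p : ℕ) (V : ValuationSubring Ω) (n : ℕ) : Submodule (𝓞 F) (WM act hc p V) := DM act hc p (dV V) LI n

end

end H35L
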