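import Mathlib
import Pool.Agent.Lib.H35L.Ar

/-! # H35L, chunk C1C (M): classes are killed by a power of p -/

open NumberField IsDedekindDomain WeierstrassCurve

namespace H35L

open H55P (IQ Pt ac Inert Dec Nm)
open H35P (WAB)
open H55K (CMA Dta)
open H35K (Lev)

variable {F : Type} [Field F] [NumberField F] [IQ F] {A B : F} {Om : ℂ} {Ω : Type} [Field Ω] [DecidableEq Ω]
  [Algebra F Ω] [IsAlgClosure F Ω] {j : Ω →+* ℂ} {act : 𝓞 F →+* AddMonoid.End (Pt (WAB A B) Ω)} {mo : Ideal (𝓞 F)}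
  {ψ : Ideal (𝓞 F) →*₀ 𝓞 F} {p : ℕ}

theorem c1c_inv {G : Subgroup (Ω ≃ₐ[F] Ω)} {h : Ω ≃ₐ[F] Ω} (hh : SH act G p h) : SH act G p h⁻¹ := by
  refine ⟨inv_mem hh.1, fun P hP => ?_⟩
  have h1 := congrArg (aM act h⁻¹) (hh.2 P hP)
  rw [← aM_mul, inv_mul_cancel, aM_one] at h1
  exact h1.symm

/-- Chunk C1c (S/M). The same for homomorphisms. -/
theorem hm_tor {G : Subgroup (Ω ≃ₐ[F] Ω)} {I : (Ω ≃ₐ[F] Ω) → Prop} (f : (Ω ≃ₐ[F] Ω) → PM act) (hf : IsHm act p (SH act G p) I f) :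
    ∃ k : ℕ, ∀ h, p ^ k • f h = 0 := by
  classical
  obtain ⟨L, hL, hL0⟩ := hf.cont
  choose k hk using hf.tor
  have hfin : Finite (L →ₐ[F] Ω) := inferInstance
  have hconst : ∀ h h', SH act G p h → SH act G p h' → (∀ x : L, h x.1 = h' x.1) → f h = f h' := by
    intro h h' hh hh' hx
    have h1 : SH act G p (h⁻¹ * h') := ⟨mul_mem (inv_mem hh.1) hh'.1, FA_mul act (c1c_inv hh).2 hh'.2⟩
    have h2 : f (h⁻¹ * h') = 0 := by
      apply hL0 _ h1
      rw [IntermediateField.mem_fixingSubgroup_iff]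
      intro x hx'
      change h⁻¹ (h' x) = x
      rw [← hx ⟨x, hx'⟩]
      change (h⁻¹ * h) x = x
      rw [inv_mul_cancel]
      rfl
    have h3 := hf.mul h hh _ h1
    rw [h2, add_zero, mul_inv_cancel_left] at h3
    exact h3.symm
  let S : Set ℕ := {m | ∃ φ : L →ₐ[F] Ω, m = if hφ : ∃ h, SH act G p h ∧ ∀ x : L, h x.1 = φ x then k hφ.choose else 0}
  have hS : S.Finite := by
    have h1 : S = Set.range fun φ : L →ₐ[F] Ω => if hφ : ∃ h, SH act G p h ∧ ∀ x : L, h x.1 = φ x then k hφ.choose else 0 := by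
      ext m
      constructor
      · rintro ⟨φ, h⟩
        exact ⟨φ, h.symm⟩
      · rintro ⟨φ, h⟩
        exact ⟨φ, h.symm⟩
    rw [h1]
    exact Set.finite_range _
  obtain ⟨N, hN⟩ := hS.bddAbove
  refine ⟨N, fun h => ?_⟩
  by_cases hh : SH act G p h
  · have hex : ∃ h', SH act G p h' ∧ ∀ x : L, h' x.1 = ((h : Ω →ₐ[F] Ω).comp L.val) x := ⟨h, hh, fun x => rfl⟩
    have h1 : k hex.choose ≤ N := by
      apply hN
      exact ⟨(h : Ω →ₐ[F] Ω).comp L.val, by rw [dif_pos hex]⟩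
    have h2 : f h = f hex.choose := by
      apply hconst _ _ hh hex.choose_spec.1
      intro x
      exact (hex.choose_spec.2 x).symm
    rw [h2, ← Nat.sub_add_cancel h1, pow_add, mul_smul, hk, smul_zero]
  · rw [hf.out h hh, smul_zero]

/-- Chunk C1c (M). Every class is killed by a power of p: f has finitely many values on SH (it is zero on the elements fixing L, L finite over F; take the normal closure of L: f is constant on the cosets of a subgroup of finite index). -/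
theorem cls_tor {G : Subgroup (Ω ≃ₐ[F] Ω)} {I : (Ω ≃ₐ[F] Ω) → Prop} (hc : Cm act) (f : SM act hc p G I) : ∃ k : ℕ, p ^ k • f = 0 := by
  have hf : IsCls act p (SH act G p) I (SN G p) f.1 := f.2
  obtain ⟨k, hk⟩ := hm_tor f.1 hf.toIsHm
  refine ⟨k, ?_⟩
  apply Subtype.ext
  funext h
  exact hk h

end H35L
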