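import Mathlib
import Pool.Agent.Lib.H35L.C4E
import Pool.Agent.Lib.H35L.FR
import Pool.Agent.Lib.H35L.C5
import Pool.Agent.Lib.H35L.X5E
import Pool.Agent.Lib.H35L.C1C

/-! # H35L, chunk S4A (S/M): classes of global points -/

open NumberField IsDedekindDomain WeierstrassCurve

namespace H35L

open H55P (IQ Pt ac Inert Dec Nm)
open H35P (WAB)
open H55K (CMA Dta)
open H35K (Lev)

variable {F : Type} [Field F] [NumberField F] [IQ F] {A B : F} {Om : ℂ} {Ω : Type} [Field Ω] [DecidableEq Ω]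
  [Algebra F Ω] [IsAlgClosure F Ω] {j : Ω →+* ℂ} {act : 𝓞 F →+* AddMonoid.End (Pt (WAB A B) Ω)} {mo : Ideal (𝓞 F)}
  {ψ : Ideal (𝓞 F) →*₀ 𝓞 F} {p : ℕ} {M : IntermediateField F Ω} {V : ValuationSubring Ω} {γ : Ω ≃ₐ[F] Ω} {g : ℕ} {s₀ : Fin g → (Ω ≃ₐ[F] Ω)}

/-- Chunk S4a (S/M). A class of a global point is a Selmer class: dlev; loc_i: the point s₀^-1 P, s in SN (dV V) conjugated by s₀ is in SN Gal(Ω/M) (hG, Gc_conj). -/
theorem selm_of_dm (dta : Dta A B Om j act mo ψ p) (hc : Cm act) (fr : Fr p M V γ g s₀) (n : ℕ) (f : RM act hc p M) (hf : f ∈ DM act hc p M.fixingSubgroup (GI p) n) :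
    H35K.Selm p (gamF hc fr) (locF hc fr) (dF act hc p V) n f := by
  refine ⟨dlev dta hc GI_conj fr.gM fr.gen n f hf, fun i => ?_⟩
  obtain ⟨P, ⟨k, hk⟩, hP⟩ := hf
  have hconj : ∀ x : Ω ≃ₐ[F] Ω, ∀ Q : PM act, aM act (s₀ i)⁻¹ (aM act (s₀ i * x * (s₀ i)⁻¹) Q) = aM act x (aM act (s₀ i)⁻¹ Q) := by
    intro x Q
    rw [← aM_mul, ← aM_mul]
    have h3 : (s₀ i)⁻¹ * (s₀ i * x * (s₀ i)⁻¹) = x * (s₀ i)⁻¹ := by group
    rw [h3]
  refine ⟨aM act (s₀ i)⁻¹ P, ⟨k, fun s hs => ?_⟩, fun x hx => ?_⟩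
  · have h1 := hk _ ⟨fr.hG i s hs.1, Gc_conj hs.2 (s₀ i)⟩
    have h2 := congrArg (aM act (s₀ i)⁻¹) h1
    rw [hconj, map_nsmul] at h2
    exact h2
  · have h1 : (locF hc fr i f).1 x = aM act (s₀ i)⁻¹ (f.1 (s₀ i * x * (s₀ i)⁻¹)) := if_pos hx
    have h2 : SH act M.fixingSubgroup p (s₀ i * x * (s₀ i)⁻¹) := ⟨fr.hG i x hx.1, FA_conj act hx.2 _⟩
    rw [h1, hP _ h2, map_sub, hconj]

/-- Chunk S4 (S/M). If there are finitely many Selmer classes of level n, the classes of global points of level n are zero: they form a finite divisible p-group (ddiv_gi). -/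
theorem dm_bot (dta : Dta A B Om j act mo ψ p) (hin : Prime (p : 𝓞 F)) (hc : Cm act) (fr : Fr p M V γ g s₀) (n : ℕ)
    (hfin : {r : RM act hc p M | H35K.Selm p (gamF hc fr) (locF hc fr) (dF act hc p V) n r}.Finite) (f : RM act hc p M)
    (hf : f ∈ DM act hc p M.fixingSubgroup (GI p) n) : f = 0 := by
  have hfD : Finite (DM act hc p M.fixingSubgroup (GI p) n) :=
    (hfin.subset fun r hr => selm_of_dm dta hc fr n r hr).to_subtype
  have hsurj : Function.Surjective (fun w : DM act hc p M.fixingSubgroup (GI p) n => p • w) := by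
    intro w
    obtain ⟨w', hw', h⟩ := ddiv_gi dta hin hc n w.1 w.2
    exact ⟨⟨w', hw'⟩, Subtype.ext h⟩
  have hinj := Finite.injective_iff_surjective.2 hsurj
  obtain ⟨k, hk⟩ := cls_tor hc f
  have hpow : ∀ (k : ℕ) (w : DM act hc p M.fixingSubgroup (GI p) n), p ^ k • w = 0 → w = 0 := by
    intro k
    induction k with
    | zero =>
      intro w hw
      rwa [pow_zero, one_smul] at hw
    | succ k ih =>
      intro w hw
      refine ih w (hinj ?_)
      show p • (p ^ k • w) = p • (0 : DM act hc p M.fixingSubgroup (GI p) n)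
      rw [← mul_smul, ← pow_succ', hw, smul_zero]
  have h1 := hpow k ⟨f, hf⟩ (Subtype.ext hk)
  exact congrArg Subtype.val h1

end H35L
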