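import Mathlib
import Pool.Agent.Lib.H35L.C4E
import Pool.Agent.Lib.H35L.FR
import Pool.Agent.Lib.H35L.C5
import Pool.Agent.Lib.H35L.X5E
import Pool.Agent.Lib.H35L.S4A

/-! # H35L, chunk S4 (M): rational points -/

open NumberField IsDedekindDomain WeierstrassCurve

namespace H35L

open H55P (IQ Pt ac Inert Dec Nm)
open H35P (WAB)
open H55K (CMA Dta)
open H35K (Lev)

variable {F : Type} [Field F] [NumberField F] [IQ F] {A B : F} {Om : ℂ} {Ω : Type} [Field Ω] [DecidableEq Ω]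
  [Algebra F Ω] [IsAlgClosure F Ω] {j : Ω →+* ℂ} {act : 𝓞 F →+* AddMonoid.End (Pt (WAB A B) Ω)} {mo : Ideal (𝓞 F)}
  {ψ : Ideal (𝓞 F) →*₀ 𝓞 F} {p : ℕ} {M : IntermediateField F Ω} {V : ValuationSubring Ω} {γ : Ω ≃ₐ[F] Ω} {g : ℕ} {s₀ : Fin g → (Ω ≃ₐ[F] Ω)}

theorem s4_inert (dta : Dta A B Om j act mo ψ p) (hin : Prime (p : 𝓞 F)) {G : Subgroup (Ω ≃ₐ[F] Ω)} (n : ℕ)
    {P : PM act} (hP : PL act p G n P) : ∀ h, SH act G p h → GI p h → aM act h P = P := by
  obtain ⟨k, hk⟩ := hP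
  rintro h hh ⟨V, hV, hin'⟩
  obtain ⟨Kg, u, hG⟩ := dta.gmod V
  have hfix : ∀ T ∈ H55K.Tor act (p : 𝓞 F), ac (WAB A B) h T = T := by
    intro T hT
    refine hh.2 T ⟨1, ?_⟩
    rw [pow_one, ← Nat.cast_smul_eq_nsmul (𝓞 F)]
    exact hT
  have hkV : V.valuation ((p ^ k : ℕ) : Ω) = 1 := by
    rw [Nat.cast_pow, map_pow, hV, one_pow]
  refine H55K.inert_fix dta.cma dta.prime dta.five hin dvd_rfl hG hV h hin' hfix (p ^ k) hkV P ?_
  have h1 : SN G p n h := ⟨hh.1, fa_gc dta hh.2 n⟩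
  have h2 := hk h h1
  have h3 : p ^ k • (aM act h P - P) = 0 := by
    rw [smul_sub, ← map_nsmul, h2, sub_self]
  exact h3

/-- Chunk S4c (M). So every rational point of level n is divisible by p in the group of rational points of level n, and there is no rational point of order p. Q rational, p P = Q, the class of P (pt_cls, hI as in ddiv_gi) is zero: h P = P for h in SH: cob for s P - P on the group of level n:
P - a is rational, p a = 0. No torsion: sigma in the group of level n with sigma - 1 bijective (exists_sig, Fr.spl). -/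
theorem am_div (dta : Dta A B Om j act mo ψ p) (hin : Prime (p : 𝓞 F)) (hc : Cm act) (fr : Fr p M V γ g s₀) (n : ℕ)
    (hfin : {r : RM act hc p M | H35K.Selm p (gamF hc fr) (locF hc fr) (dF act hc p V) n r}.Finite) :
    (∀ Q ∈ AM act p M.fixingSubgroup n, ∃ P ∈ AM act p M.fixingSubgroup n, p • P = Q) ∧ ∀ Q ∈ AM act p M.fixingSubgroup n, p • Q = 0 → Q = 0 := by
  obtain ⟨σ, hσ, hσn, hTb⟩ := exists_sig dta hin fr.above n
  have hσM : σ ∈ M.fixingSubgroup := fr.spl V fr.above σ hσ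
  have hσG : σ ∈ LG dta.prime M.fixingSubgroup n := ⟨hσM, hσn⟩
  refine ⟨fun Q hQ => ?_, fun Q hQ hpQ => ?_⟩
  · obtain ⟨P, hPQ⟩ := c4e_div dta Q
    have hQl : PL act p M.fixingSubgroup n Q := ⟨0, fun s hs => by rw [pow_zero, one_smul]; exact hQ s hs⟩
    have hPl : PL act p M.fixingSubgroup n P := c4e_pl hQl hPQ
    obtain ⟨w, hw, hwP⟩ := pt_cls dta hc hPl (s4_inert dta hin n hPl)
    have hw0 := dm_bot dta hin hc fr n hfin w hw
    have hfix : ∀ h, SH act M.fixingSubgroup p h → aM act h P = P := by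
      intro h hh
      have h1 := hwP h hh
      rw [hw0] at h1
      have h2 : (0 : PM act) = aM act h P - P := h1
      exact (sub_eq_zero.1 h2.symm)
    have hm : ∀ s ∈ LG dta.prime M.fixingSubgroup n, ∀ t ∈ LG dta.prime M.fixingSubgroup n,
        aM act (s * t) P - P = (aM act s P - P) + aM act s (aM act t P - P) := by
      intro s _ t _
      rw [aM_mul, map_sub]
      abel
    have hp1 : ∀ s ∈ LG dta.prime M.fixingSubgroup n, p ^ 1 • (aM act s P - P) = 0 := by
      intro s hs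
      rw [pow_one, smul_sub, ← map_nsmul, hPQ, hQ s hs, sub_self]
    have h0 : ∀ s ∈ LG dta.prime M.fixingSubgroup n, aM act (σ * s * σ⁻¹ * s⁻¹) P - P = 0 := by
      intro s hs
      have hsM : s ∈ M.fixingSubgroup := hs.1
      rw [sub_eq_zero]
      refine hfix _ ⟨?_, fa_comm dta σ s⟩
      exact mul_mem (mul_mem (mul_mem hσM hsM) (inv_mem hσM)) (inv_mem hsM)
    obtain ⟨a, ha1, -, ha3⟩ := cob dta (c := fun s => aM act s P - P) hσG hTb hm (fun s hs => ⟨1, hp1 s hs⟩) h0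
    refine ⟨P - a, fun s hs => ?_, ?_⟩
    · have h1 : aM act s P - P = aM act s a - a := ha3 s hs
      rw [map_sub]
      have h2 : aM act s P = aM act s a - a + P := by rw [← h1]; abel
      rw [h2]
      abel
    · have h1 := ha1 1 hp1
      rw [pow_one] at h1
      rw [smul_sub, hPQ, h1, sub_zero]
  · exact hTb.inj Q ⟨1, by rw [pow_one]; exact hpQ⟩ (hQ σ hσG)

end H35L
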