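import Mathlib
import Pool.Agent.Lib.H35L.C0C

/-! # H35L, chunk C0D (M): the index -/

open NumberField IsDedekindDomain WeierstrassCurve

namespace H35L

open H55P (IQ Pt ac Inert Dec Nm)
open H35P (WAB)
open H55K (CMA Dta)
open H35K (Lev)

variable {F : Type} [Field F] [NumberField F] {Ω : Type} [Field Ω] [Algebra F Ω] [IsAlgClosure F Ω] {p : ℕ}

theorem c0d_lte (hp : p.Prime) (h3 : 3 ≤ p) {c : ℕ} (h1 : c ≡ 1 [MOD p]) (h2 : ¬ c ≡ 1 [MOD p ^ 2]) (n k : ℕ) :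
    c ^ k ≡ 1 [MOD p ^ (n + 1)] ↔ p ^ n ∣ k := by
  have hodd : Odd p := hp.odd_of_ne_two (by omega)
  have hd : (p : ℤ) ∣ (c : ℤ) - 1 := by
    have := (Nat.modEq_iff_dvd.1 h1.symm)
    simpa using this
  have hc : ¬ (p : ℤ) ∣ (c : ℤ) := by
    intro h
    have h4 : (p : ℤ) ∣ 1 := by
      have := dvd_sub h hd
      simpa using this
    have h5 : p ∣ 1 := by exact_mod_cast h4
    exact hp.one_lt.ne' (Nat.dvd_one.1 h5)
  have hd2 : ¬ (p : ℤ) ^ 2 ∣ (c : ℤ) - 1 := by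
    intro h
    refine h2 (Nat.modEq_iff_dvd.2 ?_).symm
    push_cast
    exact h
  have hm : emultiplicity (p : ℤ) ((c : ℤ) - 1) = 1 := by
    have := (emultiplicity_eq_coe (a := (p : ℤ)) (b := (c : ℤ) - 1) (n := 1)).2 ⟨by simpa using hd, by simpa using hd2⟩
    simpa using this
  have hl := Int.emultiplicity_pow_sub_pow hp hodd hd hc k
  rw [one_pow, hm] at hl
  have h6 : c ^ k ≡ 1 [MOD p ^ (n + 1)] ↔ (p : ℤ) ^ (n + 1) ∣ (c : ℤ) ^ k - 1 := by
    rw [Nat.ModEq.comm, Nat.modEq_iff_dvd]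
    push_cast
    rfl
  rw [h6, pow_dvd_iff_le_emultiplicity, hl, pow_dvd_iff_le_emultiplicity]
  push_cast
  rw [add_comm (n : ℕ∞) 1]
  exact WithTop.add_le_add_iff_left (by decide)

theorem c0d_pow {N b : ℕ} {γ : Ω ≃ₐ[F] Ω} (h : ∀ z : Ω, z ^ N = 1 → γ z = z ^ b) (k : ℕ) (z : Ω) (hz : z ^ N = 1) :
    (γ ^ k) z = z ^ b ^ k := by
  induction k with
  | zero => simp
  | succ k ih =>
    rw [pow_succ, AlgEquiv.mul_apply, h z hz, map_pow, ih, ← pow_mul, pow_succ]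

/-- Chunk C0d (S/M). gamma^k is of level n iff p^n divides k (c as in gc_gen: c^k = 1 modulo p^(n+1) iff p^n divides k; only n >= 1 is not trivial). -/
theorem gc_pow_iff (hp : p.Prime) (h3 : 3 ≤ p) {γ : Ω ≃ₐ[F] Ω} (hγ : Gen p γ) (n k : ℕ) : Gc p n (γ ^ k) ↔ p ^ n ∣ k := by
  rcases Nat.eq_zero_or_pos n with h0 | h0
  · subst h0
    rw [pow_zero]
    exact ⟨fun _ => one_dvd k, fun _ => gc_zero hp _⟩
  obtain ⟨b, hb, hb2⟩ := root_pow hp (n + 1) γ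
  rw [gc_root hp (c0d_pow hb2 k), ← pow_mul, mul_comm, pow_mul]
  refine c0d_lte hp h3 ?_ ?_ n k
  · have h1 := Nat.ModEq.pow_totient hb
    rwa [Nat.totient_prime hp] at h1
  · intro h4
    refine hγ ((gc_root hp (n := 1) (a := b) fun z hz => hb2 z ?_).2 h4)
    obtain ⟨m, rfl⟩ : ∃ m, n = m + 1 := ⟨n - 1, by omega⟩
    rw [show m + 1 + 1 = (1 + 1) + m by ring, pow_add, pow_mul, hz, one_pow]

/-- Chunk C0d (S/M). The index of the group of level n in G is p^n: the cosets of gamma^i, i < p^n (gc_gen with n := 0, m := n; gc_pow_iff). -/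
theorem lg_index (hp : p.Prime) (h3 : 3 ≤ p) {G : Subgroup (Ω ≃ₐ[F] Ω)} {γ : Ω ≃ₐ[F] Ω} (hγG : γ ∈ G) (hγ : Gen p γ) (n : ℕ) :
    (LG hp G n).relIndex G = p ^ n := by
  have hmem : ∀ s : Ω ≃ₐ[F] Ω, s ∈ LG hp G n ↔ s ∈ G ∧ Gc p n s := fun s => Iff.rfl
  let g : G := ⟨γ, hγG⟩
  let f : Fin (p ^ n) → G ⧸ (LG hp G n).subgroupOf G := fun i => QuotientGroup.mk (g ^ (i : ℕ))
  have hinj : ∀ i j : ℕ, i ≤ j → j < p ^ n → (QuotientGroup.mk (g ^ i) : G ⧸ (LG hp G n).subgroupOf G) = QuotientGroup.mk (g ^ j) → i = j := by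
    intro i j hij hj h
    rw [QuotientGroup.eq, Subgroup.mem_subgroupOf, hmem] at h
    have h1 : (((g ^ i)⁻¹ * g ^ j : G) : Ω ≃ₐ[F] Ω) = γ ^ (j - i) := by
      have h2 : g ^ j = g ^ i * g ^ (j - i) := by rw [← pow_add, Nat.add_sub_cancel' hij]
      rw [h2, inv_mul_cancel_left]
      rfl
    rw [h1, gc_pow_iff hp h3 hγ] at h
    have := Nat.eq_zero_of_dvd_of_lt h.2 (by omega)
    omega
  have hbij : Function.Bijective f := by
    constructor
    · intro i j h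
      rcases le_total (i : ℕ) (j : ℕ) with hij | hij
      · exact Fin.ext (hinj _ _ hij j.2 h)
      · exact Fin.ext (hinj _ _ hij i.2 h.symm).symm
    · intro q
      obtain ⟨s, rfl⟩ := QuotientGroup.mk_surjective q
      obtain ⟨i, hi⟩ := gc_gen hp h3 hγ (Nat.zero_le n) (gc_zero hp (s : Ω ≃ₐ[F] Ω))
      rw [pow_zero, mul_one] at hi
      have hpos : 0 < p ^ n := pow_pos hp.pos n
      let j : ℕ := (p ^ n - i % p ^ n) % p ^ n
      have hj : j < p ^ n := Nat.mod_lt _ hpos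
      have hij : p ^ n ∣ j + i := by
        have h1 : i % p ^ n < p ^ n := Nat.mod_lt _ hpos
        have h2 : j + i ≡ (p ^ n - i % p ^ n) + i % p ^ n [MOD p ^ n] :=
          Nat.ModEq.add (Nat.mod_modEq _ _) (Nat.mod_modEq _ _).symm
        rw [Nat.sub_add_cancel h1.le] at h2
        exact (Nat.modEq_zero_iff_dvd.1 (h2.trans (Nat.modEq_zero_iff_dvd.2 dvd_rfl)))
      refine ⟨⟨j, hj⟩, ?_⟩
      change QuotientGroup.mk (g ^ j) = QuotientGroup.mk s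
      rw [QuotientGroup.eq, Subgroup.mem_subgroupOf]
      have h5 : (((g ^ j)⁻¹ * s : G) : Ω ≃ₐ[F] Ω) = (γ ^ (j + i))⁻¹ * (γ ^ i * (s : Ω ≃ₐ[F] Ω)) := by
        have h6 : (g ^ j)⁻¹ * s = (g ^ (j + i))⁻¹ * (g ^ i * s) := by
          rw [pow_add]
          group
        rw [h6]
        rfl
      rw [h5]
      refine mul_mem (inv_mem ?_) ?_
      · exact (hmem _).2 ⟨pow_mem hγG _, (gc_pow_iff hp h3 hγ _ _).2 hij⟩
      · exact (hmem _).2 ⟨mul_mem (pow_mem hγG _) s.2, hi⟩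
  have h7 : Nat.card (Fin (p ^ n)) = Nat.card (G ⧸ (LG hp G n).subgroupOf G) := Nat.card_eq_of_bijective f hbij
  rw [Nat.card_fin] at h7
  exact h7.symm

end H35L
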