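import Mathlib
import Pool.Agent.Lib.H35L.C0D
import Pool.Agent.Lib.H35L.FR

/-! # H35L, chunk MN (S/M): the fields of the tower -/

open NumberField IsDedekindDomain WeierstrassCurve

namespace H35L

open H55P (IQ Pt ac Inert Dec Nm)
open H35P (WAB)
open H55K (CMA Dta)
open H35K (Lev)

variable {F : Type} [Field F] [NumberField F] {Ω : Type} [Field Ω] [Algebra F Ω] [IsAlgClosure F Ω] {p : ℕ}

/-- Chunk MN (S/M). The group of level n of Gal(Ω/M) is Gal(Ω/N) for a finite extension N of F: it is open (it contains the elements fixing M and a primitive p^(n+1)-th root of unity), hence closed; InfiniteGalois.fixingSubgroup_fixedField. -/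
theorem exists_layer (hp : p.Prime) (M : IntermediateField F Ω) [FiniteDimensional F M] (n : ℕ) :
    ∃ N : IntermediateField F Ω, FiniteDimensional F N ∧ N.fixingSubgroup = LG hp M.fixingSubgroup n := by
  have hac : IsAlgClosed Ω := IsAlgClosure.isAlgClosed F
  have halg : Algebra.IsAlgebraic F Ω := IsAlgClosure.isAlgebraic
  have hnorm : Normal F Ω := IsAlgClosure.normal F Ω
  have hgal : IsGalois F Ω := ⟨⟩
  obtain ⟨ζ, hζ⟩ := c0_prim F Ω hp (n + 1)
  have hpos : NeZero (p ^ (n + 1)) := ⟨pow_ne_zero _ hp.ne_zero⟩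
  let M1 : IntermediateField F Ω := M ⊔ IntermediateField.adjoin F {ζ}
  have hf1 : FiniteDimensional F (IntermediateField.adjoin F {ζ}) :=
    IntermediateField.adjoin.finiteDimensional (Algebra.IsAlgebraic.isAlgebraic ζ).isIntegral
  have hf2 : FiniteDimensional F M1 := IntermediateField.finiteDimensional_sup M _
  have hle : M1.fixingSubgroup ≤ LG hp M.fixingSubgroup n := by
    intro s hs
    have hs' : ∀ x ∈ M1, s x = x := fun x hx => hs ⟨x, hx⟩
    refine ⟨?_, 1, by rw [one_pow], ?_⟩
    · intro x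
      exact hs' _ ((le_sup_left : M ≤ M1) x.2)
    · intro z hz
      obtain ⟨i, _, rfl⟩ := hζ.eq_pow_of_pow_eq_one hz
      have h1 : s ζ = ζ := hs' _ ((le_sup_right : IntermediateField.adjoin F {ζ} ≤ M1)
        (IntermediateField.mem_adjoin_simple_self F ζ))
      rw [map_pow, h1, pow_one]
  have hopen : IsOpen ((LG hp M.fixingSubgroup n : Subgroup (Ω ≃ₐ[F] Ω)) : Set (Ω ≃ₐ[F] Ω)) :=
    Subgroup.isOpen_mono hle (IntermediateField.fixingSubgroup_isOpen M1)
  have hclosed : IsClosed ((LG hp M.fixingSubgroup n : Subgroup (Ω ≃ₐ[F] Ω)) : Set (Ω ≃ₐ[F] Ω)) :=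
    Subgroup.isClosed_of_isOpen _ hopen
  let H : ClosedSubgroup (Ω ≃ₐ[F] Ω) := ⟨LG hp M.fixingSubgroup n, hclosed⟩
  refine ⟨IntermediateField.fixedField (LG hp M.fixingSubgroup n), ?_, InfiniteGalois.fixingSubgroup_fixedField H⟩
  have hle2 : IntermediateField.fixedField (LG hp M.fixingSubgroup n) ≤ M1 := by
    have h1 := IntermediateField.fixedField_antitone hle
    rwa [InfiniteGalois.fixedField_fixingSubgroup] at h1
  exact Module.Finite.of_injective (IntermediateField.inclusion hle2).toLinearMap (IntermediateField.inclusion_injective hle2)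

end H35L
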