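import Mathlib
import Pool.Agent.Lib.H35L.S4
import Pool.Agent.Lib.H35L.MN
import Pool.Agent.Lib.H55P.S5

/-! # H35L, chunk S5 (M): the group of rational points is finite -/

open NumberField IsDedekindDomain WeierstrassCurve

namespace H35L

open H55P (IQ Pt ac Inert Dec Nm)
open H35P (WAB)
open H55K (CMA Dta)
open H35K (Lev)

variable {F : Type} [Field F] [NumberField F] [IQ F] {A B : F} {Om : ℂ} {Ω : Type} [Field Ω] [DecidableEq Ω]
  [Algebra F Ω] [IsAlgClosure F Ω] {j : Ω →+* ℂ} {act : 𝓞 F →+* AddMonoid.End (Pt (WAB A B) Ω)} {mo : Ideal (𝓞 F)}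
  {ψ : Ideal (𝓞 F) →*₀ 𝓞 F} {p : ℕ} {M : IntermediateField F Ω} {V : ValuationSubring Ω} {γ : Ω ≃ₐ[F] Ω} {g : ℕ} {s₀ : Fin g → (Ω ≃ₐ[F] Ω)}

/-- A finitely generated abelian group on which p is bijective is finite of order prime to p. -/
theorem s5_fin {X : Type} [AddCommGroup X] [Module.Finite ℤ X] {p : ℕ} (hp : p.Prime) (h : ∀ x : X, ∃ y : X, p • y = x)
    (h2 : ∀ x : X, p • x = 0 → x = 0) : Finite X ∧ ¬ p ∣ Nat.card X := by
  have hsm : (⊤ : Submodule ℤ X) ≤ (Ideal.span {(p : ℤ)}) • (⊤ : Submodule ℤ X) := by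
    intro x _
    obtain ⟨y, rfl⟩ := h x
    rw [← natCast_zsmul]
    exact Submodule.smul_mem_smul (Ideal.mem_span_singleton_self _) trivial
  obtain ⟨r, hr, hr2⟩ := Submodule.exists_sub_one_mem_and_smul_eq_zero_of_fg_of_le_smul (Ideal.span {(p : ℤ)}) ⊤
    Module.Finite.fg_top hsm
  have hr0 : r ≠ 0 := by
    rintro rfl
    rw [Ideal.mem_span_singleton] at hr
    obtain ⟨m, hm⟩ := hr
    have h3 : (p : ℤ) ∣ 1 := ⟨-m, by linarith⟩
    have h4 := Int.natAbs_dvd_natAbs.2 h3
    rw [Int.natAbs_natCast, Int.natAbs_one] at h4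
    exact hp.one_lt.ne' (Nat.dvd_one.1 h4)
  have htor : Module.IsTorsion ℤ X := fun x => ⟨⟨r, mem_nonZeroDivisors_of_ne_zero hr0⟩, hr2 x trivial⟩
  have hfin : Finite X := Module.finite_of_fg_torsion X htor
  refine ⟨hfin, fun hd => ?_⟩
  have hfact : Fact p.Prime := ⟨hp⟩
  obtain ⟨x, hx⟩ := exists_prime_addOrderOf_dvd_card' p hd
  have h5 : p • x = 0 := by
    rw [← hx]
    exact addOrderOf_nsmul_eq_zero x
  have h6 := h2 x h5
  rw [h6, addOrderOf_zero] at hx
  exact hp.one_lt.ne hx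

/-- Chunk S5 (M). If multiplication by p is bijective on the rational points of level n they are finite, of order prime to p. The rational points of level n are the points over the number field K = exists_layer (coordinates fixed by Gal(Ω/K) are in K; Affine.Point.map); H19MW.mw_fg_n with n = p (the range of p is
everything: finite index): a finitely generated abelian group with p X = X is finite of order prime to p (AddCommGroup.equiv_free_prod_directSum_zmod, or: generators and Nakayama; p-torsion free). -/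
theorem am_fin (dta : Dta A B Om j act mo ψ p) (hM : FiniteDimensional F M) (n : ℕ)
    (h1 : ∀ Q ∈ AM act p M.fixingSubgroup n, ∃ P ∈ AM act p M.fixingSubgroup n, p • P = Q)
    (h2 : ∀ Q ∈ AM act p M.fixingSubgroup n, p • Q = 0 → Q = 0) :
    Finite (AM act p M.fixingSubgroup n) ∧ ¬ p ∣ Nat.card (AM act p M.fixingSubgroup n) := by
  classical
  have hac : IsAlgClosed Ω := IsAlgClosure.isAlgClosed F
  have hal : Algebra.IsAlgebraic F Ω := IsAlgClosure.isAlgebraic
  have hchar : CharZero Ω := charZero_of_injective_algebraMap (algebraMap F Ω).injective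
  have hell : (WAB A B).IsElliptic := by
    refine ⟨isUnit_iff_ne_zero.2 ?_⟩
    have hd : (WAB A B).Δ = -16 * (4 * A ^ 3 + 27 * B ^ 2) := by
      unfold WAB WeierstrassCurve.Δ WeierstrassCurve.b₂ WeierstrassCurve.b₄ WeierstrassCurve.b₆ WeierstrassCurve.b₈
      ring
    rw [hd]
    exact mul_ne_zero (by norm_num) dta.cma.disc
  obtain ⟨K, hKf, hKe⟩ := exists_layer dta.prime M n
  have hKn : NumberField K := NumberField.of_module_finite F K
  have hmw : Module.Finite ℤ (Pt (WAB A B) K) := H55P.mw (WAB A B) K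
  let φ : Pt (WAB A B) K →+ Pt (WAB A B) Ω := Affine.Point.map (W' := (WAB A B).toAffine) K.val
  have hφ : Function.Injective φ := Affine.Point.map_injective _
  have hmem : ∀ P : PM act, P ∈ AM act p M.fixingSubgroup n ↔ ∃ Q : Pt (WAB A B) K, φ Q = (P : Pt (WAB A B) Ω) := by
    intro P
    have h3 := H55P.fix_iff (F := F) (Ω := Ω) (WAB A B) K (P : Pt (WAB A B) Ω)
    rw [hKe] at h3
    exact h3
  have hdiv : ∀ x : Pt (WAB A B) K, ∃ y : Pt (WAB A B) K, p • y = x := by
    intro x
    obtain ⟨P, hP, hPx⟩ := h1 (φ x : PM act) ((hmem _).2 ⟨x, rfl⟩)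
    obtain ⟨y, hy⟩ := (hmem P).1 hP
    refine ⟨y, hφ ?_⟩
    rw [map_nsmul, hy]
    exact hPx
  have htf : ∀ x : Pt (WAB A B) K, p • x = 0 → x = 0 := by
    intro x hx
    have h3 : p • (φ x : PM act) = 0 := by
      have h4 : p • φ x = 0 := by rw [← map_nsmul, hx, map_zero]
      exact h4
    have h5 : φ x = 0 := h2 (φ x : PM act) ((hmem _).2 ⟨x, rfl⟩) h3
    exact hφ (h5.trans (map_zero φ).symm)
  obtain ⟨hf, hc⟩ := s5_fin dta.prime hdiv htf
  let e : Pt (WAB A B) K → AM act p M.fixingSubgroup n := fun x => ⟨(φ x : PM act), (hmem _).2 ⟨x, rfl⟩⟩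
  have he : Function.Bijective e := by
    constructor
    · intro x y hxy
      exact hφ (congrArg Subtype.val hxy)
    · rintro ⟨P, hP⟩
      obtain ⟨y, hy⟩ := (hmem P).1 hP
      exact ⟨y, Subtype.ext hy⟩
  refine ⟨Finite.of_surjective e he.2, ?_⟩
  rw [← Nat.card_congr (Equiv.ofBijective e he)]
  exact hc

end H35L
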