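import Mathlib
import Pool.Agent.Lib.H35L.X2
import Pool.Agent.Lib.H35L.C0

/-! # H35L, chunk C5B (M): extension of homomorphisms to cocycles -/

open NumberField IsDedekindDomain WeierstrassCurve

namespace H35L

open H55P (IQ Pt ac Inert Dec Nm)
open H35P (WAB)
open H55K (CMA Dta)
open H35K (Lev)

variable {F : Type} [Field F] [NumberField F] [IQ F] {A B : F} {Om : ℂ} {Ω : Type} [Field Ω] [DecidableEq Ω]
  [Algebra F Ω] [IsAlgClosure F Ω] {j : Ω →+* ℂ} {act : 𝓞 F →+* AddMonoid.End (Pt (WAB A B) Ω)} {mo : Ideal (𝓞 F)}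
  {ψ : Ideal (𝓞 F) →*₀ 𝓞 F} {p : ℕ}

omit [NumberField F] [IQ F] [IsAlgClosure F Ω] in
theorem c5b_tor (s : Ω ≃ₐ[F] Ω) {P : PM act} (h : ∃ k : ℕ, p ^ k • P = 0) : ∃ k : ℕ, p ^ k • aM act s P = 0 := by
  obtain ⟨k, hk⟩ := h
  exact ⟨k, by rw [← map_nsmul, hk, map_zero]⟩

omit [NumberField F] [IQ F] [IsAlgClosure F Ω] in
theorem c5b_add {P Q : PM act} (h : ∃ k : ℕ, p ^ k • P = 0) (h' : ∃ k : ℕ, p ^ k • Q = 0) : ∃ k : ℕ, p ^ k • (P + Q) = 0 := by
  obtain ⟨k, hk⟩ := h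
  obtain ⟨l, hl⟩ := h'
  refine ⟨k + l, ?_⟩
  rw [smul_add, pow_add, mul_smul, mul_smul, smul_comm (p ^ k) (p ^ l) P, hk, hl, smul_zero, smul_zero, add_zero]

omit [NumberField F] [IQ F] [IsAlgClosure F Ω] in
theorem c5b_sub {P Q : PM act} (h : ∃ k : ℕ, p ^ k • P = 0) (h' : ∃ k : ℕ, p ^ k • Q = 0) : ∃ k : ℕ, p ^ k • (P - Q) = 0 := by
  obtain ⟨k, hk⟩ := h
  obtain ⟨l, hl⟩ := h'
  refine ⟨k + l, ?_⟩
  rw [smul_sub, pow_add, mul_smul, mul_smul, smul_comm (p ^ k) (p ^ l) P, hk, hl, smul_zero, smul_zero, sub_zero]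

theorem c5b_comm (dta : Dta A B Om j act mo ψ p) (s t : Ω ≃ₐ[F] Ω) {P : PM act} (h : ∃ k : ℕ, p ^ k • P = 0) :
    aM act s (aM act t P) = aM act t (aM act s P) := by
  have h1 := fa_comm dta s t (aM act (t * s) P) (c5b_tor (t * s) h)
  rw [← aM_mul] at h1
  have h2 : s * t * s⁻¹ * t⁻¹ * (t * s) = s * t := by group
  rw [h2, aM_mul, aM_mul] at h1
  exact h1

/-- Chunk C5b (M). f a homomorphism on SH (the elements of G acting trivially), equivariant under G, sigma in G with sigma - 1 bijective: f extends to a continuous cocycle c on G. c(s) = the a of order a power of p with sigma a - a = f(sigma s sigma^-1 s^-1).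
The commutator is in SH (fa_comm). [sigma, s t] = [sigma, s] s [sigma, t] s^-1, so f[sigma, st] = f[sigma, s] + s f[sigma, t] (equivariance) and sigma, s commute on the values: c(s t) = c(s) + s c(t) (Tb.inj). For h in SH: f(sigma h sigma^-1 h^-1) =
sigma f(h) - f(h). Continuity: L' = normal closure of L: s in L'.fixingSubgroup implies sigma s sigma^-1 s^-1 in L.fixingSubgroup. -/
theorem ext (dta : Dta A B Om j act mo ψ p) {G : Subgroup (Ω ≃ₐ[F] Ω)} {I : (Ω ≃ₐ[F] Ω) → Prop} {σ : Ω ≃ₐ[F] Ω} (hσ : σ ∈ G) (hb : Tb act p σ)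
    {f : (Ω ≃ₐ[F] Ω) → PM act} (hf : IsHm act p (SH act G p) I f) (he : ∀ s ∈ G, ∀ h, SH act G p h → f (s * h * s⁻¹) = aM act s (f h)) :
    ∃ c : (Ω ≃ₐ[F] Ω) → PM act, IsCo act G c ∧ (∀ h, SH act G p h → c h = f h) ∧ (∀ s ∈ G, ∃ k : ℕ, p ^ k • c s = 0) ∧
      ∀ k : ℕ, (∀ h, p ^ k • f h = 0) → ∀ s ∈ G, p ^ k • c s = 0 := by
  choose c hct hc using fun s : Ω ≃ₐ[F] Ω => hb.surj (f (σ * s * σ⁻¹ * s⁻¹)) (hf.tor _)
  have hk : ∀ s ∈ G, SH act G p (σ * s * σ⁻¹ * s⁻¹) := fun s hs =>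
    ⟨mul_mem (mul_mem (mul_mem hσ hs) (inv_mem hσ)) (inv_mem hs), fa_comm dta σ s⟩
  have h1G : SH act G p 1 := ⟨one_mem G, fun P _ => aM_one act P⟩
  have hf1 : f 1 = 0 := by
    have h1 := hf.mul 1 h1G 1 h1G
    rw [mul_one] at h1
    exact (left_eq_add.1 h1)
  refine ⟨c, ⟨fun s hs t ht => ?_, ?_⟩, fun h hh => ?_, fun s _ => hct s, fun k hk0 s hs => ?_⟩
  · have h1 : c (s * t) - (c s + aM act s (c t)) = 0 := by
      refine hb.inj _ (c5b_sub (hct _) (c5b_add (hct _) (c5b_tor s (hct _)))) ?_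
      have e1 : aM act σ (c (s * t)) = c (s * t) + f (σ * (s * t) * σ⁻¹ * (s * t)⁻¹) := by rw [← hc]; abel
      have e2 : aM act σ (c s) = c s + f (σ * s * σ⁻¹ * s⁻¹) := by rw [← hc]; abel
      have e3 : aM act σ (aM act s (c t)) = aM act s (c t) + aM act s (f (σ * t * σ⁻¹ * t⁻¹)) := by
        rw [c5b_comm dta σ s (hct t), ← map_add, ← hc t]
        congr 1
        abel
      have e4 : f (σ * (s * t) * σ⁻¹ * (s * t)⁻¹) = f (σ * s * σ⁻¹ * s⁻¹) + aM act s (f (σ * t * σ⁻¹ * t⁻¹)) := by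
        rw [← he s hs _ (hk t ht), ← hf.mul _ (hk s hs)]
        · congr 1
          group
        · exact ⟨mul_mem (mul_mem hs (hk t ht).1) (inv_mem hs), FA_conj act (hk t ht).2 s⟩
      rw [map_sub, map_add, e1, e2, e3, e4]
      abel
    exact sub_eq_zero.1 h1
  · obtain ⟨L, hL, h1⟩ := hf.cont
    refine ⟨L ⊔ L.map (σ⁻¹ : Ω ≃ₐ[F] Ω).toAlgHom, inferInstance, fun s hs hm => ?_⟩
    rw [IntermediateField.fixingSubgroup_sup] at hm
    refine hb.inj _ (hct s) ?_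
    have h2 : f (σ * s * σ⁻¹ * s⁻¹) = 0 := by
      refine h1 _ (hk s hs) (mul_mem ?_ (inv_mem hm.1))
      have h3 : s ∈ (L.map (σ⁻¹ : Ω ≃ₐ[F] Ω).toAlgHom).fixingSubgroup := hm.2
      rw [IntermediateField.mem_fixingSubgroup_iff] at h3
      rw [IntermediateField.mem_fixingSubgroup_iff]
      intro x hx
      have h4 := h3 (σ⁻¹ x) ⟨x, hx, rfl⟩
      show σ (s (σ⁻¹ x)) = x
      rw [h4]
      show (σ * σ⁻¹) x = x
      rw [mul_inv_cancel]
      rfl
    have h5 := hc s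
    rw [h2] at h5
    exact sub_eq_zero.1 h5
  · have h1 : c h - f h = 0 := by
      refine hb.inj _ (c5b_sub (hct h) (hf.tor h)) ?_
      have hi : SH act G p h⁻¹ := by
        refine ⟨inv_mem hh.1, fun P hP => ?_⟩
        have h2 := hh.2 (aM act h⁻¹ P) (c5b_tor _ hP)
        rw [aM_inv] at h2
        exact h2.symm
      have h2 : f h⁻¹ = -f h := by
        have h3 := hf.mul h hh h⁻¹ hi
        rw [mul_inv_cancel, hf1] at h3
        exact (neg_eq_of_add_eq_zero_right h3.symm).symm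
      have h3 : f (σ * h * σ⁻¹ * h⁻¹) = aM act σ (f h) - f h := by
        rw [hf.mul (σ * h * σ⁻¹) ⟨mul_mem (mul_mem hσ hh.1) (inv_mem hσ), FA_conj act hh.2 σ⟩ h⁻¹ hi, he σ hσ h hh, h2,
          sub_eq_add_neg]
      have h4 : aM act σ (c h) = c h + (aM act σ (f h) - f h) := by
        rw [← h3, ← hc]
        abel
      rw [map_sub, h4]
      abel
    exact sub_eq_zero.1 h1
  · refine hb.inj _ ?_ ?_
    · obtain ⟨l, hl⟩ := hct s
      exact ⟨l, by rw [smul_comm, hl, smul_zero]⟩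
    · have h2 : p ^ k • (aM act σ (c s) - c s) = 0 := by rw [hc s]; exact hk0 _
      rw [smul_sub, sub_eq_zero] at h2
      rw [map_nsmul]
      exact h2

end H35L
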