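import Mathlib
import Pool.Agent.Lib.H35L.C0
import Pool.Agent.Lib.H13S.FR
import Pool.Agent.Lib.H13S.IN1
import Pool.Agent.Lib.H16C.FR1
import Pool.Agent.Lib.H55P.S1

/-! # H35L, chunk S0A (M/L): Frobenius elements at V outside p -/

open NumberField IsDedekindDomain WeierstrassCurve

namespace H35L

open H55P (IQ Pt ac Inert Dec Nm)
open H35P (WAB)
open H55K (CMA Dta)
open H35K (Lev)

variable {F : Type} [Field F] [NumberField F] {Ω : Type} [Field Ω] [Algebra F Ω] [IsAlgClosure F Ω]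

open H16C (plc mem_plc not_mem_plc plc_ne_bot natCast_mem_plc FR_numberField FR_isIntegral)

/-- the power of Frobenius on a finite level -/
theorem s0a_core {F₀ : Type} [Field F₀] [NumberField F₀] {Ω : Type} [Field Ω] [Algebra F₀ Ω]
    (N : IntermediateField F₀ Ω) [FiniteDimensional F₀ N] (V : ValuationSubring Ω) (q : ℕ) (hq : q.Prime)
    (hV : V.valuation (q : Ω) < 1) (v : Ideal (𝓞 F₀)) (hvm : v.IsMaximal) (hvb : v ≠ ⊥)
    (hv : ∀ a : 𝓞 F₀, a ∈ v → V.valuation (algebraMap F₀ Ω (a : F₀)) < 1)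
    (s : Ω ≃ₐ[F₀] Ω) (hs : Dec V s) (hN : ∀ x ∈ N, s x ∈ N) :
    ∃ i : ℕ, ∀ x ∈ N, x ∈ V → V.valuation (s x - x ^ (Ideal.absNorm v ^ i)) < 1 := by
  classical
  haveI : NumberField N := FR_numberField N
  let _ : Field (𝓞 F₀ ⧸ v) := Ideal.Quotient.field v
  have hfin0 : Finite (𝓞 F₀ ⧸ v) := Ideal.finiteQuotientOfFreeOfNeBot _ hvb
  have hPb : plc N V ≠ ⊥ := plc_ne_bot N hq.ne_zero hV
  have hPm : (plc N V).IsMaximal := (H16C.plc_isPrime N V).isMaximal hPb
  let _ : Field (𝓞 N ⧸ plc N V) := Ideal.Quotient.field _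
  have hfin1 : Finite (𝓞 N ⧸ plc N V) := Ideal.finiteQuotientOfFreeOfNeBot _ hPb
  have hle : v ≤ (plc N V).comap (algebraMap (𝓞 F₀) (𝓞 N)) := by
    intro a ha
    rw [Ideal.mem_comap, mem_plc]
    exact hv a ha
  let fA : (𝓞 F₀ ⧸ v) →+* (𝓞 N ⧸ plc N V) := Ideal.quotientMap (plc N V) (algebraMap (𝓞 F₀) (𝓞 N)) hle
  letI : Algebra (𝓞 F₀ ⧸ v) (𝓞 N ⧸ plc N V) := fA.toAlgebra
  let sN : N →+* N := ((s.toAlgHom : Ω →ₐ[F₀] Ω).toRingHom.comp N.val.toRingHom).codRestrict N.toSubfield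
    (fun x => hN x x.2)
  have hsN : ∀ x : N, ((sN x : N) : Ω) = s (x : Ω) := fun x => rfl
  let σ : 𝓞 N →+* 𝓞 N := RingOfIntegers.mapRingHom sN
  have hσ : ∀ z : 𝓞 N, (((σ z : 𝓞 N) : N) : Ω) = s ((z : N) : Ω) := fun z => rfl
  have hleP : plc N V ≤ (plc N V).comap σ := by
    intro z hz
    rw [Ideal.mem_comap, mem_plc, hσ, H55P.dec_lt1 V s hs]
    exact hz
  let sb : (𝓞 N ⧸ plc N V) →ₐ[𝓞 F₀ ⧸ v] (𝓞 N ⧸ plc N V) :=
    { Ideal.quotientMap (plc N V) σ hleP with
      commutes' := by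
        intro r
        obtain ⟨a, rfl⟩ := Ideal.Quotient.mk_surjective r
        change Ideal.quotientMap (plc N V) σ hleP (fA (Ideal.Quotient.mk v a)) = fA (Ideal.Quotient.mk v a)
        have h1 : fA (Ideal.Quotient.mk v a) = Ideal.Quotient.mk (plc N V) (algebraMap (𝓞 F₀) (𝓞 N) a) :=
          Ideal.quotientMap_mk
        rw [h1, Ideal.quotientMap_mk]
        congr 1
        apply RingOfIntegers.ext
        apply Subtype.ext
        rw [hσ]
        exact s.commutes (a : F₀) }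
  have hsb : ∀ z : 𝓞 N, sb (Ideal.Quotient.mk _ z) = Ideal.Quotient.mk _ (σ z) := fun z => rfl
  let _ : Fintype (𝓞 F₀ ⧸ v) := Fintype.ofFinite _
  obtain ⟨i, hi⟩ := (FiniteField.bijective_frobeniusAlgHom_pow (𝓞 F₀ ⧸ v) (𝓞 N ⧸ plc N V)).2 sb
  have hcard : Ideal.absNorm v = Fintype.card (𝓞 F₀ ⧸ v) := by
    rw [← Nat.card_eq_fintype_card]
    rfl
  have hpow : ∀ (j : ℕ) (y : 𝓞 N ⧸ plc N V),
      (FiniteField.frobeniusAlgHom (𝓞 F₀ ⧸ v) (𝓞 N ⧸ plc N V) ^ j) y = y ^ (Ideal.absNorm v ^ j) := by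
    intro j
    induction j with
    | zero => intro y; simp
    | succ j ih =>
      intro y
      rw [pow_succ, AlgHom.mul_apply, ih, FiniteField.frobeniusAlgHom_apply, ← hcard, ← pow_mul, pow_succ,
        mul_comm (Ideal.absNorm v ^ j)]
  refine ⟨i.1, ?_⟩
  set M : ℕ := Ideal.absNorm v ^ i.1 with hM
  have hint : ∀ z : 𝓞 N, V.valuation (s ((z : N) : Ω) - ((z : N) : Ω) ^ M) < 1 := by
    intro z
    have h1 : Ideal.Quotient.mk (plc N V) (σ z) = Ideal.Quotient.mk (plc N V) (z ^ M) := by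
      rw [← hsb, map_pow, ← hpow, ← hi]
    rw [Ideal.Quotient.eq, mem_plc] at h1
    have h2 : (((σ z - z ^ M : 𝓞 N) : N) : Ω) = s ((z : N) : Ω) - ((z : N) : Ω) ^ M := by
      simp [← hσ]
    rw [← h2]
    exact h1
  intro x hx hxV
  obtain ⟨a, c, hc, hxac⟩ := H16C.frac_rep_int N V q hq hV (x := ⟨x, hx⟩) ((V.valuation_le_one_iff _).2 hxV)
  have hc1 := not_mem_plc.1 hc
  have hc0 : ((c : N) : Ω) ≠ 0 := by
    intro h0
    rw [h0, map_zero] at hc1
    exact zero_ne_one hc1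
  have hx2 : x * ((c : N) : Ω) = ((a : N) : Ω) := by
    have := congrArg (fun z : N => (z : Ω)) hxac
    simpa using this
  have hsx : s x * s ((c : N) : Ω) = s ((a : N) : Ω) := by rw [← map_mul, hx2]
  have hs1 : V.valuation (s ((c : N) : Ω)) = 1 := by
    have h3 : V.valuation (s ((c : N) : Ω)) ≤ 1 := H16C.FR_le_one V ((FR_isIntegral N c).map (s.toAlgHom.restrictScalars ℤ))
    have h4 : ¬ V.valuation (s ((c : N) : Ω)) < 1 := by
      rw [H55P.dec_lt1 V s hs, hc1]
      exact lt_irrefl _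
    exact le_antisymm h3 (not_lt.1 h4)
  have hkey : (s x - x ^ M) * (s ((c : N) : Ω) * ((c : N) : Ω) ^ M) =
      (s ((a : N) : Ω) - ((a : N) : Ω) ^ M) * ((c : N) : Ω) ^ M -
        ((a : N) : Ω) ^ M * (s ((c : N) : Ω) - ((c : N) : Ω) ^ M) := by
    have h5 : ((a : N) : Ω) ^ M = x ^ M * ((c : N) : Ω) ^ M := by rw [← mul_pow, hx2]
    rw [h5, ← hsx]
    ring
  have h6 : V.valuation ((s x - x ^ M) * (s ((c : N) : Ω) * ((c : N) : Ω) ^ M)) < 1 := by
    rw [hkey]
    apply V.valuation.map_sub_lt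
    · rw [map_mul, map_pow, hc1, one_pow, mul_one]
      exact hint a
    · rw [map_mul, map_pow]
      exact lt_of_le_of_lt (mul_le_of_le_one_left' (pow_le_one' (H16C.FR_le_one V (FR_isIntegral N a)) _)) (hint c)
  rw [map_mul, map_mul, map_pow, hs1, hc1, one_pow, one_mul, mul_one] at h6
  exact h6

/-- Chunk S0A (M/L). K a finite extension of F in Ω, V <> Ω a valuation ring (of residue characteristic l). There is phi in Gal(Ω/K), in Dec V, with phi x = x^N modulo the maximal ideal, N >= 2 the cardinality of the residue field of K (H13S.exists_frob for the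
base field K; Ω is an algebraic closure of K; residue characteristic: H13S.in2_prime). For every finite extension L of F and s in Gal(Ω/K), in Dec V, there are i and iota in Gal(Ω/K) with iota in the inertia group of V and s = phi^i iota on L:
N' = normal closure of L K over F, the residue field of V ∩ N' is finite, s acts on it over the residue field of K, so as a power of phi (Galois group of finite fields); phi^-i s acts trivially on the residue field of N' ∩ V, H13S.inertia_lift gives iota in the inertia group of V with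
iota = phi^-i s on N'. -/
theorem frob_gen (K : IntermediateField F Ω) [FiniteDimensional F K] (V : ValuationSubring Ω) (hV : V ≠ ⊤) :
    ∃ (φ : Ω ≃ₐ[F] Ω) (N : ℕ), φ ∈ K.fixingSubgroup ∧ Dec V φ ∧ 2 ≤ N ∧ (∀ x ∈ V, V.valuation (φ x - x ^ N) < 1) ∧
      ∀ L : IntermediateField F Ω, FiniteDimensional F L → ∀ s ∈ K.fixingSubgroup, Dec V s →
        ∃ (i : ℕ) (ι : Ω ≃ₐ[F] Ω), ι ∈ K.fixingSubgroup ∧ Inert V ι ∧ ∀ x ∈ L, s x = (φ ^ i * ι) x := by
  classical
  have hcl0 : IsAlgClosed Ω := IsAlgClosure.isAlgClosed F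
  have hal0 : Algebra.IsAlgebraic F Ω := IsAlgClosure.isAlgebraic
  have hc0 : CharZero Ω := charZero_of_injective_algebraMap (algebraMap F Ω).injective
  have hnK : NumberField K := FR_numberField K
  have halK : Algebra.IsAlgebraic K Ω := Algebra.IsAlgebraic.tower_top (K := F) K
  have hclK : IsAlgClosure K Ω := ⟨hcl0, halK⟩
  have halZ : Algebra.IsAlgebraic ℤ Ω := by
    have h1 : Algebra.IsAlgebraic ℚ Ω := Algebra.IsAlgebraic.trans ℚ F Ω
    exact (IsFractionRing.comap_isAlgebraic_iff (K := ℚ)).2 h1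
  obtain ⟨q, hq, hqV⟩ := H13S.in2_prime V hV
  have hPb : plc K V ≠ ⊥ := plc_ne_bot K hq.ne_zero hqV
  have hPm : (plc K V).IsMaximal := (H16C.plc_isPrime K V).isMaximal hPb
  have hvK : ∀ a : 𝓞 K, a ∈ plc K V → V.valuation (algebraMap K Ω (a : K)) < 1 := fun a ha => ha
  obtain ⟨f, hf1, hf2⟩ := H13S.exists_frob (F₀ := K) (Ω := Ω) ⟨plc K V, hPm.isPrime, hPb⟩ V hvK
  set Nn : ℕ := Ideal.absNorm (plc K V) with hNn
  have hf2' : ∀ x ∈ V, V.valuation (f x - x ^ Nn) < 1 := hf2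
  set φ : Ω ≃ₐ[F] Ω := f.restrictScalars F with hφ
  have hφa : ∀ x, φ x = f x := fun x => rfl
  have hφK : φ ∈ K.fixingSubgroup := by
    rw [IntermediateField.mem_fixingSubgroup_iff]
    intro x hx
    exact f.commutes ⟨x, hx⟩
  have hφD : Dec V φ := fun x => hf1 x
  have hN2 : 2 ≤ Nn := by
    have h0 : Nn ≠ 0 := by
      rw [hNn]
      intro h
      exact hPb (Ideal.absNorm_eq_zero_iff.1 h)
    have h1 : Nn ≠ 1 := by
      rw [hNn]
      intro h
      exact hPm.ne_top (Ideal.absNorm_eq_one_iff.1 h)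
    omega
  refine ⟨φ, Nn, hφK, hφD, hN2, fun x hx => hf2' x hx, ?_⟩
  intro L hL s hsK hsD
  -- the finite normal field
  have hfdKL : FiniteDimensional F (K ⊔ L : IntermediateField F Ω) := IntermediateField.finiteDimensional_sup K L
  have hnorm : Normal F Ω := IsAlgClosure.normal F Ω
  set N0 : IntermediateField F Ω := IntermediateField.normalClosure F (K ⊔ L : IntermediateField F Ω) Ω with hN0
  have hN0n : Normal F N0 := normalClosure.normal F _ Ω
  have hN0f : FiniteDimensional F N0 := normalClosure.is_finiteDimensional F _ Ω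
  have hKN : K ≤ N0 := le_sup_left.trans (IntermediateField.le_normalClosure _)
  have hLN : L ≤ N0 := le_sup_right.trans (IntermediateField.le_normalClosure _)
  have hst : ∀ t : Ω ≃ₐ[F] Ω, ∀ x ∈ N0, t x ∈ N0 := by
    intro t x hx
    exact (IntermediateField.normal_iff_forall_map_le'.1 hN0n t) ⟨x, hx, rfl⟩
  set N : IntermediateField K Ω := IntermediateField.extendScalars hKN with hN
  have hmN : ∀ x, x ∈ N ↔ x ∈ N0 := fun x => Iff.rfl
  have hNf : FiniteDimensional K N := by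
    have h1 : FiniteDimensional F N := hN0f
    exact FiniteDimensional.right F K N
  set sK : Ω ≃ₐ[K] Ω := IntermediateField.fixingSubgroupEquiv K ⟨s, hsK⟩ with hsKd
  have hsKa : ∀ x, sK x = s x := fun x => rfl
  obtain ⟨i, hi⟩ := s0a_core N V q hq hqV (plc K V) hPm hPb hvK sK (fun x => hsD x) (fun x hx => hst s x hx)
  have hcong : ∀ (a b : Ω) (n : ℕ), a ∈ V → b ∈ V → V.valuation (a - b) < 1 → V.valuation (a ^ n - b ^ n) < 1 := by
    intro a b n ha hb hab
    obtain ⟨c, hc⟩ := sub_dvd_pow_sub_pow (⟨a, ha⟩ : V) (⟨b, hb⟩ : V) n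
    have h1 : a ^ n - b ^ n = (a - b) * (c : Ω) := by
      have := congrArg (fun z : V => (z : Ω)) hc
      simpa using this
    rw [h1, map_mul]
    exact lt_of_le_of_lt (mul_le_of_le_one_right' ((V.valuation_le_one_iff _).2 c.2)) hab
  have hφi : ∀ j : ℕ, Dec V (φ ^ j) ∧ ∀ x ∈ V, V.valuation ((φ ^ j) x - x ^ (Nn ^ j)) < 1 := by
    intro j
    induction j with
    | zero =>
      refine ⟨fun x => by simp, fun x _ => by simp⟩
    | succ j ih =>
      have hD : Dec V (φ ^ (j + 1)) := by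
        intro x
        rw [pow_succ', AlgEquiv.mul_apply, hφD, ih.1]
      refine ⟨hD, ?_⟩
      intro x hx
      have h1 : (φ ^ (j + 1)) x = φ ((φ ^ j) x) := by rw [pow_succ', AlgEquiv.mul_apply]
      have h2 : (φ ^ j) x ∈ V := (ih.1 x).2 hx
      have h3 := hf2' _ h2
      have h4 := hcong _ _ Nn h2 (pow_mem hx (Nn ^ j)) (ih.2 x hx)
      rw [← pow_mul, ← pow_succ] at h4
      have h5 : (φ ^ (j + 1)) x - x ^ (Nn ^ (j + 1)) =
          (f ((φ ^ j) x) - ((φ ^ j) x) ^ Nn) + (((φ ^ j) x) ^ Nn - x ^ (Nn ^ (j + 1))) := by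
        rw [h1, hφa]
        ring
      rw [h5]
      exact V.valuation.map_add_lt h3 h4
  obtain ⟨hDi, hφi2⟩ := hφi i
  set φi : Ω ≃ₐ[F] Ω := φ ^ i with hφid
  have hφiK : φi ∈ K.fixingSubgroup := pow_mem hφK i
  have huK : φi⁻¹ * s ∈ K.fixingSubgroup := mul_mem (inv_mem hφiK) hsK
  set uK : Ω ≃ₐ[K] Ω := IntermediateField.fixingSubgroupEquiv K ⟨φi⁻¹ * s, huK⟩ with huKd
  have huKa : ∀ x, uK x = (φi⁻¹ * s) x := fun x => rfl
  have hinv : ∀ x, φi ((φi⁻¹ * s) x) = s x := by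
    intro x
    rw [← AlgEquiv.mul_apply, mul_inv_cancel_left]
  obtain ⟨s', hs'1, hs'2⟩ := H13S.inertia_lift (F₀ := K) N V uK (fun x hx => hst _ x hx) (by
    intro x hxN hxV
    rw [huKa, ← H55P.dec_lt1 V φi hDi, map_sub, hinv]
    have h5 : s x - φi x = (sK x - x ^ (Nn ^ i)) - (φi x - x ^ (Nn ^ i)) := by
      rw [hsKa]
      ring
    rw [h5]
    exact V.valuation.map_sub_lt (hi x hxN hxV) (hφi2 x hxV))
  refine ⟨i, s'.restrictScalars F, ?_, fun x hx => hs'1 x hx, ?_⟩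
  · rw [IntermediateField.mem_fixingSubgroup_iff]
    intro x hx
    exact s'.commutes ⟨x, hx⟩
  · intro x hx
    rw [AlgEquiv.mul_apply]
    change s x = φi (s' x)
    rw [hs'2 x ((hmN x).2 (hLN hx)), huKa, hinv]


end H35L
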