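import Mathlib
import Pool.Agent.Lib.H35L.S0A
import Pool.Agent.Lib.H35L.X5
import Pool.Agent.Lib.H35L.C5

/-! # H35L, chunk S0BA (S/M): Frobenius minus one is onto -/

open NumberField IsDedekindDomain WeierstrassCurve

namespace H35L

open H55P (IQ Pt ac Inert Dec Nm)
open H35P (WAB)
open H55K (CMA Dta)
open H35K (Lev)

variable {F : Type} [Field F] [NumberField F] [IQ F] {A B : F} {Om : ℂ} {Ω : Type} [Field Ω] [DecidableEq Ω]
  [Algebra F Ω] [IsAlgClosure F Ω] {j : Ω →+* ℂ} {act : 𝓞 F →+* AddMonoid.End (Pt (WAB A B) Ω)} {mo : Ideal (𝓞 F)}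
  {ψ : Ideal (𝓞 F) →*₀ 𝓞 F} {p : ℕ} {M : IntermediateField F Ω} {V : ValuationSubring Ω} {γ : Ω ≃ₐ[F] Ω} {g : ℕ} {s₀ : Fin g → (Ω ≃ₐ[F] Ω)}

/-- The norm of the character of a Frobenius element. -/
theorem s0ba_nm (dta : Dta A B Om j act mo ψ p) {V' : ValuationSubring Ω} (hV : V'.valuation (p : Ω) = 1)
    {φ : Ω ≃ₐ[F] Ω} {N : ℕ} (hφ : ∀ x ∈ V', V'.valuation (φ x - x ^ N) < 1) {k : ℕ} {a : 𝓞 F}
    (ha : Ch act p k φ a) : Nm a ≡ N [MOD p ^ k] := by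
  have hpk : p ^ k ≠ 0 := pow_ne_zero _ dta.prime.ne_zero
  obtain ⟨ζ, hζ⟩ := x2_prim dta k
  have h1 := ch_cyc dta ha ζ hζ.pow_eq_one
  have h2 := x2_zeta hpk hζ.pow_eq_one V' (by
    rw [Nat.cast_pow, map_pow, hV, one_pow]
    exact lt_irrefl _) N φ hφ
  exact x2_pow hζ (Nat.pos_of_ne_zero hpk) (h1.symm.trans h2)

/-- The character of a Frobenius element is not 1 modulo a high power of p. -/
theorem s0ba_ne (dta : Dta A B Om j act mo ψ p) {V' : ValuationSubring Ω} (hV : V'.valuation (p : Ω) = 1)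
    {φ : Ω ≃ₐ[F] Ω} {N : ℕ} (hN : 2 ≤ N) (hφ : ∀ x ∈ V', V'.valuation (φ x - x ^ N) < 1) {k : ℕ} (hk : N ≤ k) {a : 𝓞 F}
    (ha : Ch act p k φ a) : ¬ (p : 𝓞 F) ^ N ∣ a - 1 := by
  rintro ⟨c, hc⟩
  have h1 : (Nm a : ℤ) ≡ N [ZMOD (p ^ k : ℕ)] := (Int.natCast_modEq_iff).2 (s0ba_nm dta hV hφ ha)
  have h2 : ((p ^ N : ℕ) : 𝓞 F) ∣ (((Nm a : ℤ) - 1 : ℤ) : 𝓞 F) := by
    have h3 := H55K.mul_cj a
    have h4 : a = 1 + (p : 𝓞 F) ^ N * c := by linear_combination hc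
    have h5 : H55K.cj a = 1 + (p : 𝓞 F) ^ N * H55K.cj c := by
      rw [h4, map_add, map_one, map_mul, map_pow, H55K.cj_nat]
    refine ⟨c + H55K.cj c + (p : 𝓞 F) ^ N * c * H55K.cj c, ?_⟩
    push_cast
    rw [← h3, h5]
    nth_rewrite 1 [h4]
    ring
  have h3 := x2_nat_dvd h2
  have h4 : ((p ^ N : ℕ) : ℤ) ∣ (N : ℤ) - (Nm a : ℤ) :=
    (Int.natCast_dvd_natCast.2 (pow_dvd_pow p hk)).trans (Int.modEq_iff_dvd.1 h1)
  have h5 : ((p ^ N : ℕ) : ℤ) ∣ ((N - 1 : ℕ) : ℤ) := by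
    have h6 := dvd_add h4 h3
    have h7 : ((N - 1 : ℕ) : ℤ) = (N : ℤ) - (Nm a : ℤ) + ((Nm a : ℤ) - 1) := by
      rw [Nat.cast_sub (by omega)]
      push_cast
      ring
    rw [h7]
    exact h6
  have h6 : p ^ N ∣ N - 1 := Int.natCast_dvd_natCast.1 h5
  have h7 := Nat.le_of_dvd (by omega) h6
  have h8 : N < p ^ N := Nat.lt_pow_self dta.prime.one_lt
  omega

/-- Chunk S0Ba (S/M). V(p) = 1, phi x = x^N modulo the maximal ideal, N >= 2: phi - 1 is onto on the points of order a power of p. z^(p^k) = 1: phi z = z^N (different p^k-th roots of unity are different modulo V, as V(p) = 1: see H55K.S.PA1_zeta), phi acts as a_k on the points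
killed by p^k: Nm a_k = N modulo p^k (ch_cyc). p^r does not divide N - 1: so p^r does not divide a_k - 1 for k >= r (else Nm a_k = 1 modulo p^r): a_k - 1 = p^j u modulo p^k, j < r fixed, u prime to p. P killed by p^s: Q killed by p^(s+j) with (a_(s+j) - 1) Q = P. -/
theorem frob_surj (dta : Dta A B Om j act mo ψ p) (hin : Prime (p : 𝓞 F)) {V' : ValuationSubring Ω} (hV : V'.valuation (p : Ω) = 1) {φ : Ω ≃ₐ[F] Ω} {N : ℕ} (hN : 2 ≤ N)
    (hφ : ∀ x ∈ V', V'.valuation (φ x - x ^ N) < 1) (P : PM act) (hP : ∃ k : ℕ, p ^ k • P = 0) :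
    ∃ Q : PM act, (∃ k : ℕ, p ^ k • Q = 0) ∧ aM act φ Q - Q = P := by
  obtain ⟨t, ht⟩ := hP
  obtain ⟨a, ha, -⟩ := ch_exists dta (t + N) φ
  have hne := s0ba_ne dta hV hN hφ (by omega) ha
  have hfin : FiniteMultiplicity (p : 𝓞 F) (a - 1) := by
    refine ⟨N, fun h => hne ?_⟩
    exact (pow_dvd_pow _ (Nat.le_succ N)).trans h
  obtain ⟨u, hu, hu'⟩ := hfin.exists_eq_pow_mul_and_not_dvd
  set i := multiplicity (p : 𝓞 F) (a - 1) with hi
  have hiN : i < N := by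
    by_contra hcon
    exact hne ((pow_dvd_pow _ (not_lt.1 hcon)).trans ⟨u, hu⟩)
  have h5 : IsCoprime (p : 𝓞 F) u := (hin.irreducible.coprime_iff_not_dvd).2 hu'
  have h6 : IsCoprime u ((p : 𝓞 F) ^ (t + N)) := h5.symm.pow_right
  obtain ⟨x, y, hxy⟩ := h6
  have hp0 : ((p : 𝓞 F)) ^ i ≠ 0 := pow_ne_zero _ (by exact_mod_cast dta.prime.ne_zero)
  obtain ⟨Q', hQ'⟩ := dta.cma.surj _ hp0 P
  have hQ1 : ((p : 𝓞 F) ^ i) • (show PM act from Q') = P := hQ'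
  have hQ2 : p ^ (t + N) • (show PM act from Q') = 0 := by
    obtain ⟨m, hm⟩ := Nat.exists_eq_add_of_le (show t + i ≤ t + N by omega)
    have h7 : p ^ (t + N) = p ^ m * (p ^ t * p ^ i) := by
      rw [hm, pow_add, pow_add, mul_comm]
    rw [h7, mul_smul, mul_smul, ← x5_nat i, hQ1, ht, smul_zero]
  have hQ3 : p ^ (t + N) • (x • (show PM act from Q')) = 0 := by rw [smul_comm, hQ2, smul_zero]
  refine ⟨x • (show PM act from Q'), ⟨t + N, hQ3⟩, ?_⟩
  rw [ha _ hQ3]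
  have h8 : a • x • (show PM act from Q') - x • (show PM act from Q') =
      ((p : 𝓞 F) ^ i) • ((x * u) • (show PM act from Q')) := by
    rw [← mul_smul, ← sub_smul, ← mul_smul]
    refine congrArg (fun z : 𝓞 F => z • (show PM act from Q')) ?_
    linear_combination x * hu
  have h9 : (x * u) • (show PM act from Q') = (show PM act from Q') := by
    have h10 : (x * u + y * (p : 𝓞 F) ^ (t + N)) • (show PM act from Q') = (show PM act from Q') := by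
      rw [hxy, one_smul]
    rw [add_smul, mul_smul y, x5_nat, hQ2, smul_zero, add_zero] at h10
    exact h10
  rw [h8, h9, hQ1]

end H35L
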