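import Mathlib
import Pool.Agent.Lib.H35L.S0A
import Pool.Agent.Lib.H35L.X5
import Pool.Agent.Lib.H35L.C5
import Pool.Agent.Lib.H35L.S0BA

/-! # H35L, chunk S0B (M): unramified classes are locally trivial outside p -/

open NumberField IsDedekindDomain WeierstrassCurve

namespace H35L

open H55P (IQ Pt ac Inert Dec Nm)
open H35P (WAB)
open H55K (CMA Dta)
open H35K (Lev)

variable {F : Type} [Field F] [NumberField F] [IQ F] {A B : F} {Om : ℂ} {Ω : Type} [Field Ω] [DecidableEq Ω]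
  [Algebra F Ω] [IsAlgClosure F Ω] {j : Ω →+* ℂ} {act : 𝓞 F →+* AddMonoid.End (Pt (WAB A B) Ω)} {mo : Ideal (𝓞 F)}
  {ψ : Ideal (𝓞 F) →*₀ 𝓞 F} {p : ℕ} {M : IntermediateField F Ω} {V : ValuationSubring Ω} {γ : Ω ≃ₐ[F] Ω} {g : ℕ} {s₀ : Fin g → (Ω ≃ₐ[F] Ω)}

/-- Chunk S0B (M). K a finite extension of F, c a continuous cocycle on Gal(Ω/K) with values of order a power of p, zero on the elements of inertia groups outside p acting trivially on the points of order a power of p: c is a coboundary on Dec V', V' <> Ω, V'(p) = 1. PROOF.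
(1) Some iota in Inert V', fixing K, moves a point killed by p: iota - 1 is bijective (tb_of_ne); for s in G₁ = Gal(Ω/K) ∩ Dec V' the commutator of iota and s is in Inert V' (normal in Dec V': H55P.inS_dec), and acts trivially (fa_comm), so c is zero on it: cob.
(2) Otherwise all elements of Inert V' fixing K act trivially (fa_of_inert), c is zero on them. phi from frob_gen, c(phi) = phi Q - Q (frob_surj): c' = c - (s Q - Q) is zero on phi, on its powers, and on the inertia elements; every s in G₁ is phi^i iota on L, where c and Q are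
trivial: c'(s) = c'(phi^i iota) = 0 (c'(s) = c'(t) if s = t on L: s = t (t^-1 s), t^-1 s fixes L). -/
theorem loc_np (dta : Dta A B Om j act mo ψ p) (hin : Prime (p : 𝓞 F)) (K : IntermediateField F Ω) [FiniteDimensional F K] {c : (Ω ≃ₐ[F] Ω) → PM act}
    (hco : IsCo act K.fixingSubgroup c) (ht : ∀ s ∈ K.fixingSubgroup, ∃ k : ℕ, p ^ k • c s = 0)
    (hu : ∀ h, SH act K.fixingSubgroup p h → GI p h → c h = 0) {V' : ValuationSubring Ω} (hV : V' ≠ ⊤) (hVp : V'.valuation (p : Ω) = 1) :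
    ∃ P : PM act, (∃ k : ℕ, p ^ k • P = 0) ∧ ∀ s ∈ K.fixingSubgroup, Dec V' s → c s = aM act s P - P := by
  classical
  have hal0 : Algebra.IsAlgebraic F Ω := IsAlgClosure.isAlgebraic
  by_cases hmv : ∃ ι : Ω ≃ₐ[F] Ω, Inert V' ι ∧ ι ∈ K.fixingSubgroup ∧ ∃ T : PM act, p • T = 0 ∧ aM act ι T ≠ T
  · obtain ⟨ι, hιI, hιK, T, hT, hne⟩ := hmv
    have hb := tb_of_ne dta hin hT hne
    have hιD : Dec V' ι := H55P.inert_dec V' ι hιI
    obtain ⟨a, -, ha1, ha2⟩ := cob dta (G := K.fixingSubgroup ⊓ H55P.decS F V') (σ := ι) ⟨hιK, hιD⟩ hb (c := c)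
      (fun s hs t ht' => hco.mul s hs.1 t ht'.1) (fun s hs => ht s hs.1) (by
      intro s hs
      refine hu _ ⟨mul_mem (mul_mem (mul_mem hιK hs.1) (inv_mem hιK)) (inv_mem hs.1), fa_comm dta ι s⟩ ⟨V', hVp, ?_⟩
      have h1 : ι * s * ι⁻¹ * s⁻¹ = ι * (s * ι⁻¹ * s⁻¹) := by group
      rw [h1]
      have h0 : ι ∈ H55P.inS F V' := hιI
      have h2 : s * ι⁻¹ * s⁻¹ ∈ H55P.inS F V' := H55P.inS_dec V' s hs.2 ι⁻¹ (inv_mem h0)
      exact mul_mem h0 h2)
    exact ⟨a, ha1, fun s hs hD => ha2 s ⟨hs, hD⟩⟩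
  · have hfix : ∀ ι : Ω ≃ₐ[F] Ω, Inert V' ι → ι ∈ K.fixingSubgroup → FA act p ι := by
      intro ι h1 h2
      refine fa_of_inert dta hin hVp h1 fun T hT => ?_
      by_contra hne
      exact hmv ⟨ι, h1, h2, T, hT, hne⟩
    obtain ⟨φ, N, hφK, hφD, hN2, hφc, hgen⟩ := frob_gen K V' hV
    obtain ⟨Q, hQt, hQ⟩ := frob_surj dta hin hVp hN2 hφc (c φ) (ht φ hφK)
    set c' : (Ω ≃ₐ[F] Ω) → PM act := fun s => c s - (aM act s Q - Q) with hc'
    have hmul : ∀ s ∈ K.fixingSubgroup, ∀ t ∈ K.fixingSubgroup, c' (s * t) = c' s + aM act s (c' t) := by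
      intro s hs t ht'
      simp only [hc']
      rw [hco.mul s hs t ht', aM_mul, map_sub, map_sub]
      abel
    have hφ0 : c' φ = 0 := by
      simp only [hc']
      rw [hQ, sub_self]
    have hone : c' 1 = 0 := by
      have h1 := hmul 1 (one_mem _) 1 (one_mem _)
      rw [mul_one, aM_one] at h1
      exact (left_eq_add.1 h1)
    have hpow : ∀ i : ℕ, c' (φ ^ i) = 0 := by
      intro i
      induction i with
      | zero => rw [pow_zero]; exact hone
      | succ i ih => rw [pow_succ, hmul _ (pow_mem hφK i) _ hφK, ih, hφ0, map_zero, add_zero]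
    have hin0 : ∀ ι : Ω ≃ₐ[F] Ω, Inert V' ι → ι ∈ K.fixingSubgroup → c' ι = 0 := by
      intro ι h1 h2
      have h3 := hfix ι h1 h2
      simp only [hc']
      rw [hu ι ⟨h2, h3⟩ ⟨V', hVp, h1⟩, h3 Q hQt, sub_self, sub_self]
    obtain ⟨L, hL, hL0⟩ := hco.cont
    obtain ⟨L2, hL2, hL20⟩ := H55P.pt_open (WAB A B) (Q : Pt (WAB A B) Ω)
    refine ⟨Q, hQt, fun s hs hD => ?_⟩
    obtain ⟨i, ι, hιK, hιI, hsι⟩ := hgen (L ⊔ L2) (IntermediateField.finiteDimensional_sup L L2) s hs hD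
    set t : Ω ≃ₐ[F] Ω := φ ^ i * ι with htd
    have htK : t ∈ K.fixingSubgroup := mul_mem (pow_mem hφK i) hιK
    have huK : t⁻¹ * s ∈ K.fixingSubgroup := mul_mem (inv_mem htK) hs
    have huL : t⁻¹ * s ∈ (L ⊔ L2).fixingSubgroup := by
      rw [IntermediateField.mem_fixingSubgroup_iff]
      intro x hx
      rw [AlgEquiv.mul_apply, hsι x hx]
      exact t.symm_apply_apply x
    rw [IntermediateField.fixingSubgroup_sup] at huL
    have hu0 : c' (t⁻¹ * s) = 0 := by
      simp only [hc']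
      have h1 : aM act (t⁻¹ * s) Q = Q := hL20 _ huL.2
      rw [hL0 _ huK huL.1, h1, sub_self, sub_self]
    have ht0 : c' t = 0 := by
      rw [htd, hmul _ (pow_mem hφK i) _ hιK, hpow, hin0 ι hιI hιK, map_zero, add_zero]
    have hs0 : c' s = 0 := by
      have h1 := hmul t htK (t⁻¹ * s) huK
      rw [mul_inv_cancel_left, ht0, hu0, map_zero, add_zero] at h1
      exact h1
    simp only [hc'] at hs0
    exact sub_eq_zero.1 hs0


end H35L
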