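import Mathlib
import Pool.Agent.Lib.H35L.FR
import Pool.Agent.Lib.H35L.C1
import Pool.Agent.Lib.H35L.C4
import Pool.Agent.Lib.H35L.C5
import Pool.Agent.Lib.H35L.C0D
import Pool.Agent.Lib.H35L.X5E
import Pool.Agent.Lib.H35L.X8

/-! # H35L, chunk S1A (S/M): the valuation rings above p -/

open NumberField IsDedekindDomain WeierstrassCurve

namespace H35L

open H55P (IQ Pt ac Inert Dec Nm)
open H35P (WAB)
open H55K (CMA Dta)
open H35K (Lev)

variable {F : Type} [Field F] [NumberField F] [IQ F] {A B : F} {Om : ℂ} {Ω : Type} [Field Ω] [DecidableEq Ω]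
  [Algebra F Ω] [IsAlgClosure F Ω] {j : Ω →+* ℂ} {act : 𝓞 F →+* AddMonoid.End (Pt (WAB A B) Ω)} {mo : Ideal (𝓞 F)}
  {ψ : Ideal (𝓞 F) →*₀ 𝓞 F} {p : ℕ} {M : IntermediateField F Ω} {V : ValuationSubring Ω} {γ : Ω ≃ₐ[F] Ω} {g : ℕ} {s₀ : Fin g → (Ω ≃ₐ[F] Ω)}

/-- Chunk S1a (S/M). Every V' above p is t s₀(i) V with t in Gal(Ω/M) of level n: V' = x V (conj_all), x = t s₀(i) (rep); replace x by x gamma^l: t s₀ gamma^l = t (s₀ gamma^l s₀^-1) s₀, and t (s₀ gamma^l s₀^-1) is in Gal(Ω/M) (hG), it has the cyclotomic character of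
t gamma^l: of level n for some l (gc_gen for n := 0, m := n, applied to t; Gc_conj does not change characters: write t s₀ gamma^l s₀^-1 = (t gamma^l)(gamma^-l s₀ gamma^l s₀^-1), a commutator acts trivially on roots of unity: root_pow). -/
theorem above_all (dta : Dta A B Om j act mo ψ p) (hin : Prime (p : 𝓞 F)) (fr : Fr p M V γ g s₀) (n : ℕ) {V' : ValuationSubring Ω} (hV' : V'.valuation (p : Ω) < 1) :
    ∃ (i : Fin g) (t : Ω ≃ₐ[F] Ω), SN M.fixingSubgroup p n t ∧ ∀ x, (t * s₀ i) x ∈ V' ↔ x ∈ V := by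
  have hp := dta.prime
  have h3 : 3 ≤ p := by
    have := dta.five
    omega
  obtain ⟨x, hx⟩ := conj_all p hp hin fr.above hV'
  obtain ⟨i, t, ht, rfl⟩ := fr.rep x
  obtain ⟨l, hl⟩ := gc_gen hp h3 fr.gen (Nat.zero_le n) (gc_zero hp t)
  rw [pow_zero, mul_one] at hl
  have hγl : γ ^ l ∈ dV (F := F) V := pow_mem fr.gam l
  refine ⟨i, t * (s₀ i * γ ^ l * (s₀ i)⁻¹), ⟨mul_mem ht (fr.hG i _ hγl), ?_⟩, fun y => ?_⟩
  · obtain ⟨a, _, ha⟩ := root_pow hp (n + 1) t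
    obtain ⟨b, _, hb⟩ := root_pow hp (n + 1) (γ ^ l)
    have hpw : ∀ (z : Ω) (m : ℕ), z ^ p ^ (n + 1) = 1 → (z ^ m) ^ p ^ (n + 1) = 1 := by
      intro z m hz
      rw [← pow_mul, mul_comm, pow_mul, hz, one_pow]
    have h1 : ∀ z : Ω, z ^ p ^ (n + 1) = 1 → (γ ^ l * t) z = z ^ (b * a) := by
      intro z hz
      rw [AlgEquiv.mul_apply, ha z hz, map_pow, hb z hz, pow_mul]
    have h2 : ∀ z : Ω, z ^ p ^ (n + 1) = 1 → (t * (s₀ i * γ ^ l * (s₀ i)⁻¹)) z = z ^ (b * a) := by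
      intro z hz
      have hz' : ((s₀ i)⁻¹ z) ^ p ^ (n + 1) = 1 := by rw [← map_pow, hz, map_one]
      have h4 : (s₀ i * γ ^ l * (s₀ i)⁻¹) z = z ^ b := by
        rw [AlgEquiv.mul_apply, AlgEquiv.mul_apply, hb _ hz', map_pow]
        exact congrArg (fun y => y ^ b) ((s₀ i).apply_symm_apply z)
      rw [AlgEquiv.mul_apply, h4, ha _ (hpw z b hz), ← pow_mul]
    rw [gc_root hp h2]
    exact (gc_root hp h1).1 hl
  · have h4 : t * (s₀ i * γ ^ l * (s₀ i)⁻¹) * s₀ i = t * s₀ i * γ ^ l := by group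
    rw [h4, AlgEquiv.mul_apply, hx]
    exact hγl y

end H35L
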