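import Mathlib
import Pool.Agent.Lib.H35L.FR
import Pool.Agent.Lib.H35L.C1
import Pool.Agent.Lib.H35L.C4
import Pool.Agent.Lib.H35L.C5
import Pool.Agent.Lib.H35L.C0D
import Pool.Agent.Lib.H35L.X5E
import Pool.Agent.Lib.H35L.X8
import Pool.Agent.Lib.H35L.S1A

/-! # H35L, chunk S1 (M): Selmer classes are locally classes of points above p -/

open NumberField IsDedekindDomain WeierstrassCurve

namespace H35L

open H55P (IQ Pt ac Inert Dec Nm)
open H35P (WAB)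
open H55K (CMA Dta)
open H35K (Lev)

variable {F : Type} [Field F] [NumberField F] [IQ F] {A B : F} {Om : ℂ} {Ω : Type} [Field Ω] [DecidableEq Ω]
  [Algebra F Ω] [IsAlgClosure F Ω] {j : Ω →+* ℂ} {act : 𝓞 F →+* AddMonoid.End (Pt (WAB A B) Ω)} {mo : Ideal (𝓞 F)}
  {ψ : Ideal (𝓞 F) →*₀ 𝓞 F} {p : ℕ} {M : IntermediateField F Ω} {V : ValuationSubring Ω} {γ : Ω ≃ₐ[F] Ω} {g : ℕ} {s₀ : Fin g → (Ω ≃ₐ[F] Ω)}

/-- Chunk S1 (M). f a class, equivariant under level n, with loc_i f in D n for all i; c a cocycle on the group of level n extending f, with values of order a power of p. At every V' above p, c(s) = s P - P on the elements of level n of Dec V'. PROOF. x = t s₀(i) from above_all,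
s₀^-1 f(s₀ h s₀^-1) = h P₀ - P₀ for h in SH(dV V) (DM), P₁ = x P₀: f(h') = h' P₁ - P₁ for h' = x h x^-1 (f(t y t^-1) = t f(y)); p^k P₁ is fixed by the elements of level n of Dec V'. c'(s) = c(s) - (s P₁ - P₁) on G₁ = elements of level n of Dec V' (they fix M: Fr.spl): a cocycle
with values of order a power of p, zero on SH; sigma from exists_sig for V', cob (the commutators of sigma are in SH: fa_comm): c'(s) = s a - a. -/
theorem loc_p (dta : Dta A B Om j act mo ψ p) (hin : Prime (p : 𝓞 F)) (hc : Cm act) (fr : Fr p M V γ g s₀) (n : ℕ) (f : RM act hc p M)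
    (he : ∀ s, SN M.fixingSubgroup p n s → ∀ h, SH act M.fixingSubgroup p h → f.1 (s * h * s⁻¹) = aM act s (f.1 h))
    (hl : ∀ i, locF hc fr i f ∈ dF act hc p V n) {c : (Ω ≃ₐ[F] Ω) → PM act} (hco : IsCo act (LG dta.prime M.fixingSubgroup n) c)
    (ht : ∀ s ∈ LG dta.prime M.fixingSubgroup n, ∃ k : ℕ, p ^ k • c s = 0) (hx : ∀ h, SH act M.fixingSubgroup p h → c h = f.1 h)
    {V' : ValuationSubring Ω} (hV' : V'.valuation (p : Ω) < 1) :
    ∃ P : PM act, ∀ s ∈ LG dta.prime M.fixingSubgroup n, Dec V' s → c s = aM act s P - P := by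
  obtain ⟨i, t, ht', hxV⟩ := above_all dta hin fr n hV'
  obtain ⟨P₀, ⟨k, hk⟩, hP₀⟩ := hl i
  obtain ⟨x, hxd⟩ : ∃ x, x = t * s₀ i := ⟨_, rfl⟩
  rw [← hxd] at hxV
  obtain ⟨P₁, hP₁⟩ : ∃ P₁, P₁ = aM act x P₀ := ⟨_, rfl⟩
  have hdec : ∀ s, Dec V' s → x⁻¹ * s * x ∈ dV (F := F) V := by
    intro s hs y
    rw [← hxV, ← AlgEquiv.mul_apply]
    have h1 : x * (x⁻¹ * s * x) = s * x := by group
    rw [h1, AlgEquiv.mul_apply, hs, hxV]
  have hGM : ∀ s ∈ LG dta.prime (dV V') n, s ∈ LG dta.prime M.fixingSubgroup n := fun s hs =>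
    ⟨fr.spl V' hV' s hs.1, hs.2⟩
  have hconj : ∀ s, Gc p n s → Gc p n (x⁻¹ * s * x) := by
    intro s hs
    have h1 := Gc_conj hs x⁻¹
    rwa [inv_inv] at h1
  have hcoc : ∀ s₁ s₂ : Ω ≃ₐ[F] Ω, aM act (s₁ * s₂) P₁ - P₁ = (aM act s₁ P₁ - P₁) + aM act s₁ (aM act s₂ P₁ - P₁) := by
    intro s₁ s₂
    rw [aM_mul, map_sub]
    abel
  -- the value of f on the decomposition group
  have hval : ∀ h', SH act (dV V') p h' → f.1 h' = aM act h' P₁ - P₁ := by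
    intro h' hh'
    have h1 : SH act (dV V) p (x⁻¹ * h' * x) := by
      refine ⟨hdec h' hh'.1, ?_⟩
      have h2 := FA_conj act hh'.2 x⁻¹
      rwa [inv_inv] at h2
    have h2 := hP₀ _ h1
    have h3 : (locF hc fr i f).1 (x⁻¹ * h' * x) =
        aM act (s₀ i)⁻¹ (f.1 (s₀ i * (x⁻¹ * h' * x) * (s₀ i)⁻¹)) := if_pos h1
    rw [h3] at h2
    have h4 := congrArg (aM act (s₀ i)) h2
    rw [aM_inv] at h4
    have h5 : SH act M.fixingSubgroup p (s₀ i * (x⁻¹ * h' * x) * (s₀ i)⁻¹) :=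
      ⟨fr.hG i _ h1.1, FA_conj act h1.2 _⟩
    have h6 := he t ht' _ h5
    have h7 : t * (s₀ i * (x⁻¹ * h' * x) * (s₀ i)⁻¹) * t⁻¹ = h' := by
      have e1 : t * (s₀ i * (x⁻¹ * h' * x) * (s₀ i)⁻¹) * t⁻¹ = (t * s₀ i) * x⁻¹ * h' * (x * (t * s₀ i)⁻¹) := by group
      rw [e1, ← hxd]
      group
    rw [h7, h4, ← aM_mul, ← hxd, map_sub, ← aM_mul, ← hP₁] at h6
    have h8 : x * (x⁻¹ * h' * x) = h' * x := by group
    rw [h8, aM_mul, ← hP₁] at h6
    exact h6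
  obtain ⟨σ, hσ, hσg, hσb⟩ := exists_sig dta hin hV' n
  have hσG : σ ∈ LG dta.prime (dV V') n := ⟨hσ, hσg⟩
  obtain ⟨a, _, _, ha⟩ := cob dta (G := LG dta.prime (dV V') n) (c := fun s => c s - (aM act s P₁ - P₁)) hσG hσb
    (fun s₁ h1 s₂ h2 => by
      rw [hco.mul s₁ (hGM s₁ h1) s₂ (hGM s₂ h2), hcoc, map_sub (aM act s₁) (c s₂)]
      abel)
    (fun s hs => by
      refine c5_sub (ht s (hGM s hs)) ⟨k, ?_⟩
      have h1 := hk _ ⟨hdec s hs.1, hconj s hs.2⟩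
      have h2 := congrArg (aM act x) h1
      rw [← aM_mul] at h2
      have h3 : x * (x⁻¹ * s * x) = s * x := by group
      rw [h3, aM_mul, map_nsmul (aM act x), ← hP₁] at h2
      rw [smul_sub, ← map_nsmul, h2, sub_self])
    (fun s hs => by
      have h1 : SH act (dV V') p (σ * s * σ⁻¹ * s⁻¹) :=
        ⟨mul_mem (mul_mem (mul_mem hσ hs.1) (inv_mem hσ)) (inv_mem hs.1), fa_comm dta σ s⟩
      have h2 : SH act M.fixingSubgroup p (σ * s * σ⁻¹ * s⁻¹) := ⟨fr.spl V' hV' _ h1.1, h1.2⟩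
      show c (σ * s * σ⁻¹ * s⁻¹) - (aM act (σ * s * σ⁻¹ * s⁻¹) P₁ - P₁) = 0
      rw [hx _ h2, hval _ h1, sub_self])
  refine ⟨P₁ + a, fun s hs hd => ?_⟩
  have h1 : c s - (aM act s P₁ - P₁) = aM act s a - a := ha s ⟨hd, hs.2⟩
  rw [sub_eq_iff_eq_add] at h1
  rw [h1, map_add]
  abel

end H35L
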