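import Mathlib
import Pool.Agent.Lib.H35L.S1
import Pool.Agent.Lib.H35L.S0B
import Pool.Agent.Lib.H35L.C5B
import Pool.Agent.Lib.H35L.C1C
import Pool.Agent.Lib.H35L.MN
import Pool.Agent.Lib.H35K.Defs

/-! # H35L, chunk S2 (M): Selmer classes give classes of Sha -/

open NumberField IsDedekindDomain WeierstrassCurve

namespace H35L

open H55P (IQ Pt ac Inert Dec Nm)
open H35P (WAB)
open H55K (CMA Dta)
open H35K (Lev)

variable {F : Type} [Field F] [NumberField F] [IQ F] {A B : F} {Om : ℂ} {Ω : Type} [Field Ω] [DecidableEq Ω]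
  [Algebra F Ω] [IsAlgClosure F Ω] {j : Ω →+* ℂ} {act : 𝓞 F →+* AddMonoid.End (Pt (WAB A B) Ω)} {mo : Ideal (𝓞 F)}
  {ψ : Ideal (𝓞 F) →*₀ 𝓞 F} {p : ℕ} {M : IntermediateField F Ω} {V : ValuationSubring Ω} {γ : Ω ≃ₐ[F] Ω} {g : ℕ} {s₀ : Fin g → (Ω ≃ₐ[F] Ω)}

/-- Chunk S2 (M). A Selmer class f of level n: equivariant under level n (lev_iff); ext for the group of level n (sh_lg; sigma from exists_sig for V: of level n and in Gal(Ω/M) by Fr.spl) gives c; f is killed by p^k, so c too (Q = 0). Locally: V'(p) < 1: loc_p; V'(p) = 1, V' <> Ω: loc_np for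
K = exists_layer. -/
theorem sh_of_selm (dta : Dta A B Om j act mo ψ p) (hin : Prime (p : 𝓞 F)) (hc : Cm act) (fr : Fr p M V γ g s₀) (n : ℕ) (f : RM act hc p M)
    (hf : H35K.Selm p (gamF hc fr) (locF hc fr) (dF act hc p V) n f) :
    ∃ c : (Ω ≃ₐ[F] Ω) → PM act, IsSh act p (LG dta.prime M.fixingSubgroup n) c ∧ (∀ h, SH act M.fixingSubgroup p h → c h = f.1 h) ∧
      ∃ k : ℕ, ∀ s ∈ LG dta.prime M.fixingSubgroup n, p ^ k • c s = 0 := by
  have he := (lev_iff dta hc GI_conj fr.gM fr.gen n f).1 hf.1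
  have hcls : IsCls act p (SH act M.fixingSubgroup p) (GI p) (SN M.fixingSubgroup p) f.1 := f.2
  obtain ⟨σ, hσ, hσg, hσb⟩ := exists_sig dta hin fr.above n
  have hσG : σ ∈ LG dta.prime M.fixingSubgroup n := ⟨fr.spl V fr.above σ hσ, hσg⟩
  have hSH : SH act (LG dta.prime M.fixingSubgroup n) p = SH act M.fixingSubgroup p :=
    funext fun h => propext (sh_lg dta M.fixingSubgroup n h)
  have hhm : IsHm act p (SH act (LG dta.prime M.fixingSubgroup n) p) (GI p) f.1 := by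
    rw [hSH]
    exact hcls.toIsHm
  obtain ⟨c, hco, hcf, hct, hck⟩ := ext dta hσG hσb hhm (fun s hs h hh => he s hs h (by rwa [hSH] at hh))
  have hcf' : ∀ h, SH act M.fixingSubgroup p h → c h = f.1 h := fun h hh => hcf h (by rwa [hSH])
  obtain ⟨k, hk⟩ := cls_tor hc f
  have hk' : ∀ h, p ^ k • f.1 h = 0 := fun h => congrFun (congrArg Subtype.val hk) h
  refine ⟨c, ⟨hco, ⟨k, 0, fun s hs => ?_⟩, fun V' hV' => ?_⟩, hcf', k, fun s hs => hck k hk' s hs⟩
  · rw [hck k hk' s hs, map_zero, sub_zero]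
  · have hle : V'.valuation (p : Ω) ≤ 1 := (V'.valuation_le_one_iff _).2 (natCast_mem V' p)
    rcases hle.lt_or_eq with hlt | heq
    · exact loc_p dta hin hc fr n f he hf.2 hco hct hcf' hlt
    · have hfin := fr.fin
      obtain ⟨K, hKf, hKe⟩ := exists_layer dta.prime M n
      rw [← hKe] at hco hct hSH
      obtain ⟨P, _, hP⟩ := loc_np dta hin K hco hct (fun h hh hg => by
        rw [hSH] at hh
        rw [hcf' h hh]
        exact hcls.unr h hh hg) hV' heq
      refine ⟨P, fun s hs hd => hP s ?_ hd⟩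
      rw [hKe]
      exact hs

end H35L
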