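import Mathlib
import Pool.Agent.Lib.H35L.S1
import Pool.Agent.Lib.H35L.X5
import Pool.Agent.Lib.H35K.Defs

/-! # H35L, chunk S3 (M): classes of Sha come from Selmer classes -/

open NumberField IsDedekindDomain WeierstrassCurve

namespace H35L

open H55P (IQ Pt ac Inert Dec Nm)
open H35P (WAB)
open H55K (CMA Dta)
open H35K (Lev)

variable {F : Type} [Field F] [NumberField F] [IQ F] {A B : F} {Om : ℂ} {Ω : Type} [Field Ω] [DecidableEq Ω]
  [Algebra F Ω] [IsAlgClosure F Ω] {j : Ω →+* ℂ} {act : 𝓞 F →+* AddMonoid.End (Pt (WAB A B) Ω)} {mo : Ideal (𝓞 F)}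
  {ψ : Ideal (𝓞 F) →*₀ 𝓞 F} {p : ℕ} {M : IntermediateField F Ω} {V : ValuationSubring Ω} {γ : Ω ≃ₐ[F] Ω} {g : ℕ} {s₀ : Fin g → (Ω ≃ₐ[F] Ω)}

/-- Chunk S3 (M). c in Sha of the group of level n, p^k c = s Q - Q, p^k P = Q (CMA.surj): c' = c - (s P - P) is killed by p^k. f = c' on SH, 0 outside: a homomorphism (SH acts trivially on the values), continuous (c is, and H55P.pt_open for P), equivariant under level n (c'(s h s^-1) = s c'(h) + c'(s) -
s h s^-1 c'(s)), zero on GI: h in Inert V', V'(p) = 1; V' = Ω: h = 1; otherwise (Inert in Dec) c'(h) = h R - R with R = P_V' - P, killed by p^k, h fixes the points killed by p: H55K.inert_fix gives h R = R. Level n: lev_iff. loc_i f in D n: V' = s₀ V (comap), c'(s) = s R - R on the elements of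
level n of Dec V' (they fix M: Fr.spl), p^k R is fixed by them; s₀^-1 c'(s₀ h s₀^-1) = h (s₀^-1 R) - s₀^-1 R. -/
theorem selm_of_sh (dta : Dta A B Om j act mo ψ p) (hin : Prime (p : 𝓞 F)) (hc : Cm act) (fr : Fr p M V γ g s₀) (n : ℕ) {c : (Ω ≃ₐ[F] Ω) → PM act}
    (h : IsSh act p (LG dta.prime M.fixingSubgroup n) c) :
    ∃ (f : RM act hc p M) (P : PM act), H35K.Selm p (gamF hc fr) (locF hc fr) (dF act hc p V) n f ∧
      (∃ k : ℕ, ∀ s ∈ LG dta.prime M.fixingSubgroup n, p ^ k • (c s - (aM act s P - P)) = 0) ∧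
      ∀ h, SH act M.fixingSubgroup p h → c h - (aM act h P - P) = f.1 h := by
  classical
  have hp := dta.prime
  obtain ⟨k, Q, hQ⟩ := h.tor
  obtain ⟨P, hPQ⟩ : ∃ P : PM act, p ^ k • P = Q := by
    have hp0 : (p : 𝓞 F) ^ k ≠ 0 := pow_ne_zero _ (by exact_mod_cast hp.ne_zero)
    obtain ⟨P, hP⟩ := dta.cma.surj ((p : 𝓞 F) ^ k) hp0 Q
    let b : PM act := P
    refine ⟨b, ?_⟩
    rw [← Nat.cast_smul_eq_nsmul (𝓞 F), Nat.cast_pow]
    exact hP
  obtain ⟨c', hc'⟩ : ∃ c' : (Ω ≃ₐ[F] Ω) → PM act, ∀ s, c' s = c s - (aM act s P - P) := ⟨_, fun _ => rfl⟩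
  have hmem : ∀ s, s ∈ LG dta.prime M.fixingSubgroup n ↔ s ∈ M.fixingSubgroup ∧ Gc p n s := fun _ => Iff.rfl
  have hSG : ∀ {h}, SH act M.fixingSubgroup p h → h ∈ LG dta.prime M.fixingSubgroup n := fun hh => ⟨hh.1, fa_gc dta hh.2 n⟩
  have hk : ∀ s ∈ LG dta.prime M.fixingSubgroup n, p ^ k • c' s = 0 := by
    intro s hs
    rw [hc', smul_sub, hQ s hs, smul_sub, ← map_nsmul, hPQ, sub_self]
  have hmul : ∀ s ∈ LG dta.prime M.fixingSubgroup n, ∀ t ∈ LG dta.prime M.fixingSubgroup n, c' (s * t) = c' s + aM act s (c' t) := by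
    intro s hs t ht
    rw [hc', hc', hc', h.mul s hs t ht, aM_mul, map_sub, map_sub]
    abel
  have hone : c' 1 = 0 := by
    have h1 := hmul 1 (one_mem _) 1 (one_mem _)
    rw [one_mul, aM_one] at h1
    exact left_eq_add.1 h1
  have hloc : ∀ V' : ValuationSubring Ω, V' ≠ ⊤ → ∃ R : PM act, ∀ s ∈ LG dta.prime M.fixingSubgroup n, Dec V' s →
      c' s = aM act s R - R := by
    intro V' hV'
    obtain ⟨R, hR⟩ := h.loc V' hV'
    refine ⟨R - P, fun s hs hd => ?_⟩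
    rw [hc', hR s hs hd, map_sub]
    abel
  have hSHG : ∀ {a b}, SH act M.fixingSubgroup p a → SH act M.fixingSubgroup p b → SH act M.fixingSubgroup p (a * b) :=
    fun ha hb => ⟨mul_mem ha.1 hb.1, FA_mul act ha.2 hb.2⟩
  have heq : ∀ s, SN M.fixingSubgroup p n s → ∀ x, SH act M.fixingSubgroup p x → c' (s * x * s⁻¹) = aM act s (c' x) := by
    intro s hs x hx
    have hs' : s ∈ LG dta.prime M.fixingSubgroup n := hs
    have h1 : c' s⁻¹ = - aM act s⁻¹ (c' s) := by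
      have h2 := hmul s⁻¹ (inv_mem hs') s hs'
      rw [inv_mul_cancel, hone] at h2
      exact eq_neg_of_add_eq_zero_left h2.symm
    have h3 : aM act (s * x * s⁻¹) (c' s) = c' s := FA_conj act hx.2 s _ ⟨k, hk s hs'⟩
    rw [hmul _ (mul_mem hs' (hSG hx)) _ (inv_mem hs'), hmul _ hs' _ (hSG hx), h1, map_neg, ← aM_mul, h3]
    abel
  obtain ⟨f, hf⟩ : ∃ f : (Ω ≃ₐ[F] Ω) → PM act, f = fun x => if SH act M.fixingSubgroup p x then c' x else 0 := ⟨_, rfl⟩
  have hf1 : ∀ x, SH act M.fixingSubgroup p x → f x = c' x := fun x hx => by rw [hf]; exact if_pos hx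
  have hf0 : ∀ x, ¬ SH act M.fixingSubgroup p x → f x = 0 := fun x hx => by rw [hf]; exact if_neg hx
  have halg : Algebra.IsAlgebraic F Ω := IsAlgClosure.isAlgebraic
  have hfc : IsCls act p (SH act M.fixingSubgroup p) (GI p) (SN M.fixingSubgroup p) f := by
    refine ⟨⟨hf0, fun x hx y hy => ?_, fun x => ?_, ?_, fun x hx hi => ?_⟩, ⟨n, fun s hs x hx => ?_⟩⟩
    · rw [hf1 _ (hSHG hx hy), hf1 _ hx, hf1 _ hy, hmul _ (hSG hx) _ (hSG hy), hx.2 _ ⟨k, hk y (hSG hy)⟩]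
    · by_cases hx : SH act M.fixingSubgroup p x
      · exact ⟨k, by rw [hf1 x hx, hk x (hSG hx)]⟩
      · exact ⟨0, by rw [hf0 x hx, smul_zero]⟩
    · obtain ⟨L, hL, hL1⟩ := h.cont
      obtain ⟨L', hL', hL1'⟩ := H55P.pt_open (F := F) (WAB A B) (P : Pt (WAB A B) Ω)
      refine ⟨L ⊔ L', inferInstance, fun x hx hm => ?_⟩
      rw [IntermediateField.fixingSubgroup_sup] at hm
      have h2 : aM act x P = P := hL1' x hm.2
      rw [hf1 x hx, hc', hL1 x (hSG hx) hm.1, h2, sub_self, sub_self]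
    · rw [hf1 x hx]
      obtain ⟨V', hV', hin'⟩ := hi
      by_cases htop : V' = ⊤
      · have h2 : x = 1 := by
          apply AlgEquiv.ext
          intro y
          have h3 := hin' y (by rw [htop]; exact ValuationSubring.mem_top y)
          rw [H55P.lt1_iff] at h3
          rcases h3 with h3 | h3
          · exact sub_eq_zero.1 h3
          · exact absurd (by rw [htop]; exact ValuationSubring.mem_top _) h3
        rw [h2, hone]
      · obtain ⟨R, hR⟩ := hloc V' htop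
        have h2 := hR x (hSG hx) (H55P.inert_dec V' x hin')
        have h3 := hk x (hSG hx)
        rw [h2] at h3
        obtain ⟨Kg, u, hG⟩ := dta.gmod V'
        have hfix : ∀ T ∈ H55K.Tor act (p : 𝓞 F), ac (WAB A B) x T = T := by
          intro T hT
          refine hx.2 T ⟨1, ?_⟩
          rw [pow_one, ← Nat.cast_smul_eq_nsmul (𝓞 F)]
          exact hT
        have hkV : V'.valuation ((p ^ k : ℕ) : Ω) = 1 := by
          rw [Nat.cast_pow, map_pow, hV', one_pow]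
        have h4 : aM act x R = R := H55K.inert_fix dta.cma dta.prime dta.five hin dvd_rfl hG hV' x hin' hfix (p ^ k) hkV R h3
        rw [h2, h4, sub_self]
    · rw [hf1 x hx, hf1 _ (⟨mul_mem (mul_mem hs.1 hx.1) (inv_mem hs.1), FA_conj act hx.2 s⟩)]
      exact heq s hs x hx
  refine ⟨⟨f, hfc⟩, P, ⟨?_, fun i => ?_⟩, ⟨k, fun s hs => ?_⟩, fun x hx => ?_⟩
  · refine (lev_iff dta hc GI_conj fr.gM fr.gen n ⟨f, hfc⟩).2 fun s hs x hx => ?_
    show f (s * x * s⁻¹) = aM act s (f x)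
    rw [hf1 x hx, hf1 _ (⟨mul_mem (mul_mem hs.1 hx.1) (inv_mem hs.1), FA_conj act hx.2 s⟩)]
    exact heq s hs x hx
  · have hm : ∀ x, x ∈ V.comap (((s₀ i)⁻¹ : Ω ≃ₐ[F] Ω) : Ω →+* Ω) ↔ ((s₀ i)⁻¹ : Ω ≃ₐ[F] Ω) x ∈ V := fun x => ValuationSubring.mem_comap
    have hV0 : V.comap (((s₀ i)⁻¹ : Ω ≃ₐ[F] Ω) : Ω →+* Ω) ≠ ⊤ := by
      intro htop
      have h1 := (H55P.lt1_iff V (p : Ω)).1 fr.above
      have h2 : ((p : Ω))⁻¹ ∈ V := by
        have h3 : ((p : Ω))⁻¹ ∈ V.comap (((s₀ i)⁻¹ : Ω ≃ₐ[F] Ω) : Ω →+* Ω) := by rw [htop]; exact ValuationSubring.mem_top _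
        rw [hm, map_inv₀, map_natCast] at h3
        exact h3
      rcases h1 with h1 | h1
      · rw [h1, inv_zero] at h2
        have hac : IsAlgClosed Ω := IsAlgClosure.isAlgClosed F
        have hchar : CharZero Ω := charZero_of_injective_algebraMap (algebraMap F Ω).injective
        exact hp.ne_zero (by exact_mod_cast h1)
      · exact h1 h2
    obtain ⟨R, hR⟩ := hloc _ hV0
    have hd : ∀ s ∈ dV (F := F) V, Dec (V.comap (((s₀ i)⁻¹ : Ω ≃ₐ[F] Ω) : Ω →+* Ω)) (s₀ i * s * (s₀ i)⁻¹) := by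
      intro s hs x
      rw [hm, hm, AlgEquiv.mul_apply, AlgEquiv.mul_apply]
      have h2 : ((s₀ i)⁻¹ : Ω ≃ₐ[F] Ω) (s₀ i (s (((s₀ i)⁻¹ : Ω ≃ₐ[F] Ω) x))) = s (((s₀ i)⁻¹ : Ω ≃ₐ[F] Ω) x) := (s₀ i).symm_apply_apply _
      rw [h2]
      exact hs _
    have hval : ∀ s ∈ dV (F := F) V, Gc p n s → c' (s₀ i * s * (s₀ i)⁻¹) = aM act (s₀ i * s * (s₀ i)⁻¹) R - R := fun s hs hg =>
      hR _ ⟨fr.hG i s hs, Gc_conj hg (s₀ i)⟩ (hd s hs)
    have hinv : ∀ P' : PM act, aM act (s₀ i)⁻¹ (aM act (s₀ i) P') = P' := by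
      intro P'
      rw [← aM_mul, inv_mul_cancel, aM_one]
    refine ⟨aM act (s₀ i)⁻¹ R, ⟨k, fun s hs => ?_⟩, fun x hx => ?_⟩
    · have h1 := hk _ (⟨fr.hG i s hs.1, Gc_conj hs.2 (s₀ i)⟩ : s₀ i * s * (s₀ i)⁻¹ ∈ LG dta.prime M.fixingSubgroup n)
      rw [hval s hs.1 hs.2, smul_sub, sub_eq_zero, ← map_nsmul] at h1
      have h2 := congrArg (aM act (s₀ i)⁻¹) h1
      rw [← aM_mul] at h2
      have h3 : (s₀ i)⁻¹ * (s₀ i * s * (s₀ i)⁻¹) = s * (s₀ i)⁻¹ := by group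
      rw [h3, aM_mul] at h2
      rw [← map_nsmul]
      exact h2
    · have h1 : (locF hc fr i ⟨f, hfc⟩).1 x = aM act (s₀ i)⁻¹ (f (s₀ i * x * (s₀ i)⁻¹)) := if_pos hx
      have h2 : SH act M.fixingSubgroup p (s₀ i * x * (s₀ i)⁻¹) := ⟨fr.hG i x hx.1, FA_conj act hx.2 _⟩
      rw [h1, hf1 _ h2, hval x hx.1 (fa_gc dta hx.2 n), map_sub, ← aM_mul]
      have h3 : (s₀ i)⁻¹ * (s₀ i * x * (s₀ i)⁻¹) = x * (s₀ i)⁻¹ := by group
      rw [h3, aM_mul]
  · rw [← hc']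
    exact hk s hs
  · rw [← hc']
    exact (hf1 x hx).symm

end H35L
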