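import Mathlib
import Pool.Agent.Lib.SSG.Z.ZD
import Pool.Agent.Lib.H35L.Ar

/-! # H35L, S6A: cocycles as elements of the group Sha of helper19's systems -/

open NumberField IsDedekindDomain WeierstrassCurve

namespace H35L

open H55P (IQ Pt ac Inert Dec Nm)
open H35P (WAB)
open H55K (CMA Dta)
open H35K (Lev)

open scoped Classical

variable {F : Type} [Field F] {A B : F} {Ω : Type} [Field Ω] [Algebra F Ω] {act : 𝓞 F →+* AddMonoid.End (Pt (WAB A B) Ω)} {p : ℕ}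
  {H : Subgroup (Ω ≃ₐ[F] Ω)} {c c' : (Ω ≃ₐ[F] Ω) → PM act}

/-- The system of the group H. -/
noncomputable abbrev SyH (A B : F) (H : Subgroup (Ω ≃ₐ[F] Ω)) : SSG.LS H (Pt (WAB A B) Ω) := (SSG.galS (WAB A B) Ω).res H

/-- The cocycle of c. -/
noncomputable def mkZ (h : IsSh act p H c) : (SyH A B H).Z := ⟨fun s => c s, by
  refine ⟨fun s t => h.mul s s.2 t t.2, ?_, ?_⟩
  · obtain ⟨L, hL, h1⟩ := h.cont
    exact ⟨_, ⟨_, ⟨L, hL, rfl⟩, rfl⟩, fun s hs => h1 s s.2 hs⟩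
  · rintro _ ⟨_, ⟨V, hV, rfl⟩, rfl⟩
    obtain ⟨P, hP⟩ := h.loc V hV
    exact ⟨P, fun s hs => hP s s.2 hs⟩⟩

theorem mkZ_pp (h : IsSh act p H c) : ∃ k : ℕ, p ^ k • (SyH A B H).cl (mkZ h) = 0 := by
  obtain ⟨k, Q, hQ⟩ := h.tor
  refine ⟨k, ?_⟩
  rw [← map_nsmul, SSG.LS.cl_zero]
  exact ⟨Q, fun s => hQ s s.2⟩

theorem mkZ_eq (h : IsSh act p H c) (h' : IsSh act p H c') :
    (SyH A B H).cl (mkZ h) = (SyH A B H).cl (mkZ h') ↔ ∃ P : PM act, ∀ s ∈ H, c s - c' s = aM act s P - P := by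
  rw [← sub_eq_zero, ← map_sub, SSG.LS.cl_zero]
  constructor
  · rintro ⟨P, hP⟩
    exact ⟨P, fun s hs => hP ⟨s, hs⟩⟩
  · rintro ⟨P, hP⟩
    exact ⟨P, fun s => hP s s.2⟩

theorem mkZ_surj (act : 𝓞 F →+* AddMonoid.End (Pt (WAB A B) Ω)) (x : (SyH A B H).Sha) (hx : ∃ k : ℕ, p ^ k • x = 0) :
    ∃ (c : (Ω ≃ₐ[F] Ω) → PM act) (h : IsSh act p H c), (SyH A B H).cl (mkZ h) = x := by
  obtain ⟨z, rfl⟩ := (SyH A B H).cl_surj x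
  have hz : (SyH A B H).IsZ z.1 := z.2
  let c : (Ω ≃ₐ[F] Ω) → PM act := fun s => if hs : s ∈ H then z.1 ⟨s, hs⟩ else 0
  have hc : ∀ s : H, c s = z.1 s := fun s => by
    show (if hs : (s : Ω ≃ₐ[F] Ω) ∈ H then (z.1 ⟨s, hs⟩ : PM act) else 0) = z.1 s
    rw [dif_pos s.2]
  have h : IsSh act p H c := by
    refine ⟨⟨fun s hs t ht => ?_, ?_⟩, ?_, fun V hV => ?_⟩
    · have h1 := hz.mul ⟨s, hs⟩ ⟨t, ht⟩
      rw [hc ⟨s, hs⟩, hc ⟨t, ht⟩]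
      exact (hc (⟨s, hs⟩ * ⟨t, ht⟩)).trans h1
    · obtain ⟨_, ⟨_, ⟨L, hL, rfl⟩, rfl⟩, h1⟩ := hz.cont
      exact ⟨L, hL, fun s hs hl => (hc ⟨s, hs⟩).trans (h1 ⟨s, hs⟩ hl)⟩
    · obtain ⟨k, hk⟩ := hx
      rw [← map_nsmul, SSG.LS.cl_zero] at hk
      obtain ⟨Q, hQ⟩ := hk
      refine ⟨k, Q, fun s hs => ?_⟩
      rw [hc ⟨s, hs⟩]
      exact hQ ⟨s, hs⟩
    · obtain ⟨P, hP⟩ := hz.loc _ ⟨_, ⟨V, hV, rfl⟩, rfl⟩
      refine ⟨P, fun s hs hd => ?_⟩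
      rw [hc ⟨s, hs⟩]
      exact hP ⟨s, hs⟩ hd
  refine ⟨c, h, ?_⟩
  congr 1
  apply Subtype.ext
  funext s
  exact hc s

end H35L
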