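import Mathlib
import Pool.Agent.Lib.H35L.S6A
import Pool.Agent.Lib.H35L.S2
import Pool.Agent.Lib.H35L.S3
import Pool.Agent.Lib.H35L.S4A

/-! # H35L, S6: the Tate-Shafarevich group of level n and the Selmer classes -/

open NumberField IsDedekindDomain WeierstrassCurve

namespace H35L

open H55P (IQ Pt ac Inert Dec Nm)
open H35P (WAB)
open H55K (CMA Dta)
open H35K (Lev)

open scoped Classical

variable {F : Type} [Field F] [NumberField F] [IQ F] {A B : F} {Om : ℂ} {Ω : Type} [Field Ω]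
  [Algebra F Ω] [IsAlgClosure F Ω] {j : Ω →+* ℂ} {act : 𝓞 F →+* AddMonoid.End (Pt (WAB A B) Ω)} {mo : Ideal (𝓞 F)}
  {ψ : Ideal (𝓞 F) →*₀ 𝓞 F} {p : ℕ} {M : IntermediateField F Ω} {V : ValuationSubring Ω} {γ : Ω ≃ₐ[F] Ω} {g : ℕ} {s₀ : Fin g → (Ω ≃ₐ[F] Ω)}

/-- Two classes whose cocycles have the same class in Sha are equal. -/
theorem s6_inj (dta : Dta A B Om j act mo ψ p) (hin : Prime (p : 𝓞 F)) (hc : Cm act) (fr : Fr p M V γ g s₀) (n : ℕ)
    (hfin : {r : RM act hc p M | H35K.Selm p (gamF hc fr) (locF hc fr) (dF act hc p V) n r}.Finite) {r r' : RM act hc p M}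
    {c c' : (Ω ≃ₐ[F] Ω) → PM act} (h2 : ∀ h, SH act M.fixingSubgroup p h → c h = r.1 h) (h2' : ∀ h, SH act M.fixingSubgroup p h → c' h = r'.1 h)
    (h3 : ∃ k : ℕ, ∀ s ∈ LG dta.prime M.fixingSubgroup n, p ^ k • c s = 0) (h3' : ∃ k : ℕ, ∀ s ∈ LG dta.prime M.fixingSubgroup n, p ^ k • c' s = 0)
    (h : ∃ P : PM act, ∀ s ∈ LG dta.prime M.fixingSubgroup n, c s - c' s = aM act s P - P) : r = r' := by
  obtain ⟨P, hP⟩ := h
  obtain ⟨k, hk⟩ := h3
  obtain ⟨l, hl⟩ := h3'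
  have h4 : r - r' ∈ DM act hc p M.fixingSubgroup (GI p) n := by
    refine ⟨P, ⟨k + l, fun s hs => ?_⟩, fun h hh => ?_⟩
    · have h5 : p ^ (k + l) • (c s - c' s) = 0 := by
        rw [smul_sub, pow_add, mul_smul, mul_smul, hl s hs, smul_zero, sub_zero, smul_comm, hk s hs, smul_zero]
      rw [hP s hs, smul_sub, sub_eq_zero] at h5
      rw [map_nsmul]
      exact h5
    · have h5 := hP h (((sh_lg dta M.fixingSubgroup n h).2 hh).1)
      rw [h2 h hh, h2' h hh] at h5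
      exact h5
  exact sub_eq_zero.1 (dm_bot dta hin hc fr n hfin _ h4)

/-- The cocycle of the class of a cocycle has the same class in Sha. -/
theorem s6_surj (dta : Dta A B Om j act mo ψ p) (hin : Prime (p : 𝓞 F)) (fr : Fr p M V γ g s₀) (n : ℕ)
    {c c' f : (Ω ≃ₐ[F] Ω) → PM act} {P : PM act} (hco : IsCo act (LG dta.prime M.fixingSubgroup n) c) (hco' : IsCo act (LG dta.prime M.fixingSubgroup n) c')
    (h2 : ∀ h, SH act M.fixingSubgroup p h → c h = f h) (h2' : ∀ h, SH act M.fixingSubgroup p h → c' h - (aM act h P - P) = f h)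
    (h3 : ∃ k : ℕ, ∀ s ∈ LG dta.prime M.fixingSubgroup n, p ^ k • c s = 0)
    (h3' : ∃ k : ℕ, ∀ s ∈ LG dta.prime M.fixingSubgroup n, p ^ k • (c' s - (aM act s P - P)) = 0) :
    ∃ P : PM act, ∀ s ∈ LG dta.prime M.fixingSubgroup n, c s - c' s = aM act s P - P := by
  obtain ⟨k, hk⟩ := h3
  obtain ⟨l, hl⟩ := h3'
  obtain ⟨σ, hσ, hg, hb⟩ := exists_sig dta hin fr.above n
  have hσ' : σ ∈ LG dta.prime M.fixingSubgroup n := ⟨fr.spl V fr.above σ hσ, hg⟩
  obtain ⟨a, -, -, ha⟩ := cob dta (G := LG dta.prime M.fixingSubgroup n) hσ' hb (c := fun s => c s - (c' s - (aM act s P - P)))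
    (fun s hs t ht => by
      show c (s * t) - (c' (s * t) - (aM act (s * t) P - P)) = c s - (c' s - (aM act s P - P)) + aM act s (c t - (c' t - (aM act t P - P)))
      rw [hco.mul s hs t ht, hco'.mul s hs t ht, aM_mul, map_sub, map_sub, map_sub]
      abel)
    (fun s hs => ⟨k + l, by
      show p ^ (k + l) • (c s - (c' s - (aM act s P - P))) = 0
      rw [smul_sub, pow_add, mul_smul, mul_smul, hl s hs, smul_zero, sub_zero, smul_comm, hk s hs, smul_zero]⟩)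
    (fun s hs => by
      have h5 : SH act M.fixingSubgroup p (σ * s * σ⁻¹ * s⁻¹) :=
        ⟨mul_mem (mul_mem (mul_mem hσ'.1 hs.1) (inv_mem hσ'.1)) (inv_mem hs.1), fa_comm dta σ s⟩
      show c (σ * s * σ⁻¹ * s⁻¹) - (c' (σ * s * σ⁻¹ * s⁻¹) - (aM act (σ * s * σ⁻¹ * s⁻¹) P - P)) = 0
      rw [h2 _ h5, h2' _ h5, sub_self])
  refine ⟨a - P, fun s hs => ?_⟩
  have h6 := ha s hs
  have h7 : c s = aM act s a - a + (c' s - (aM act s P - P)) := by
    rw [← h6]
    abel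
  rw [h7, map_sub]
  abel

/-- The number of elements of order a power of p of the Tate-Shafarevich group of level n is the number of the Selmer classes of level n. -/
theorem card_sha (dta : Dta A B Om j act mo ψ p) (hin : Prime (p : 𝓞 F)) (hc : Cm act) (fr : Fr p M V γ g s₀) (n : ℕ)
    (hfin : {r : RM act hc p M | H35K.Selm p (gamF hc fr) (locF hc fr) (dF act hc p V) n r}.Finite) :
    Nat.card (SSG.PP p ((SSG.galS (WAB A B) Ω).res (LG dta.prime M.fixingSubgroup n)).Sha) =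
      Nat.card {r : RM act hc p M // H35K.Selm p (gamF hc fr) (locF hc fr) (dF act hc p V) n r} := by
  choose c hc1 hc2 hc3 using fun r : {r : RM act hc p M // H35K.Selm p (gamF hc fr) (locF hc fr) (dF act hc p V) n r} => sh_of_selm dta hin hc fr n r.1 r.2
  let Φ : {r : RM act hc p M // H35K.Selm p (gamF hc fr) (locF hc fr) (dF act hc p V) n r} →
      SSG.PP p (SyH A B (LG dta.prime M.fixingSubgroup n)).Sha := fun r => ⟨(SyH A B (LG dta.prime M.fixingSubgroup n)).cl (mkZ (hc1 r)), mkZ_pp _⟩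
  refine (Nat.card_congr (Equiv.ofBijective Φ ⟨fun r r' h => ?_, ?_⟩)).symm
  · have h1 : (SyH A B (LG dta.prime M.fixingSubgroup n)).cl (mkZ (hc1 r)) = (SyH A B (LG dta.prime M.fixingSubgroup n)).cl (mkZ (hc1 r')) := congrArg Subtype.val h
    exact Subtype.ext (s6_inj dta hin hc fr n hfin (hc2 r) (hc2 r') (hc3 r) (hc3 r') ((mkZ_eq _ _).1 h1))
  · rintro ⟨x, hx⟩
    obtain ⟨c', h', rfl⟩ := mkZ_surj act x hx
    obtain ⟨f, P, hf, hk, hP⟩ := selm_of_sh dta hin hc fr n h'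
    refine ⟨⟨f, hf⟩, Subtype.ext ?_⟩
    exact (mkZ_eq _ _).2 (s6_surj dta hin fr n (hc1 ⟨f, hf⟩).toIsCo h'.toIsCo (hc2 ⟨f, hf⟩) hP (hc3 ⟨f, hf⟩) hk)

end H35L
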