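import Mathlib
import Pool.Agent.Lib.H35L.X2

/-! # H35L, chunk C1D (M): operators and restriction commute -/

open NumberField IsDedekindDomain WeierstrassCurve

namespace H35L

open H55P (IQ Pt ac Inert Dec Nm)
open H35P (WAB)
open H55K (CMA Dta)
open H35K (Lev)

variable {F : Type} [Field F] [NumberField F] [IQ F] {A B : F} {Om : ℂ} {Ω : Type} [Field Ω] [DecidableEq Ω]
  [Algebra F Ω] [IsAlgClosure F Ω] {j : Ω →+* ℂ} {act : 𝓞 F →+* AddMonoid.End (Pt (WAB A B) Ω)} {mo : Ideal (𝓞 F)}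
  {ψ : Ideal (𝓞 F) →*₀ 𝓞 F} {p : ℕ}

omit [IQ F] [IsAlgClosure F Ω] in
theorem c1d_op {G : Subgroup (Ω ≃ₐ[F] Ω)} {I : (Ω ≃ₐ[F] Ω) → Prop} (hc : Cm act) (hI : CI I) {γ : Ω ≃ₐ[F] Ω} (hγ : γ ∈ G)
    (f : SM act hc p G I) (h : Ω ≃ₐ[F] Ω) (hh : SH act G p h) :
    (opM act hc p hI hγ f).1 h = aM act γ (f.1 (γ⁻¹ * h * γ)) := by
  have h1 : (opM act hc p hI hγ f).1 h = aM act (γ⁻¹)⁻¹ (f.1 (γ⁻¹ * h * (γ⁻¹)⁻¹)) := if_pos hh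
  rw [h1, inv_inv]

omit [IQ F] [IsAlgClosure F Ω] in
theorem c1d_op_out {G : Subgroup (Ω ≃ₐ[F] Ω)} {I : (Ω ≃ₐ[F] Ω) → Prop} (hc : Cm act) (hI : CI I) {γ : Ω ≃ₐ[F] Ω} (hγ : γ ∈ G)
    (f : SM act hc p G I) (h : Ω ≃ₐ[F] Ω) (hh : ¬ SH act G p h) :
    (opM act hc p hI hγ f).1 h = 0 := if_neg hh

omit [IQ F] [IsAlgClosure F Ω] in
theorem c1d_lo {G G' : Subgroup (Ω ≃ₐ[F] Ω)} {I : (Ω ≃ₐ[F] Ω) → Prop} (hc : Cm act) {s₀ : Ω ≃ₐ[F] Ω}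
    (hG : ∀ s ∈ G', s₀ * s * s₀⁻¹ ∈ G) (f : SM act hc p G I) (h : Ω ≃ₐ[F] Ω) (hh : SH act G' p h) :
    (loM act hc p hG f).1 h = aM act s₀⁻¹ (f.1 (s₀ * h * s₀⁻¹)) := if_pos hh

omit [IQ F] [IsAlgClosure F Ω] in
theorem c1d_lo_out {G G' : Subgroup (Ω ≃ₐ[F] Ω)} {I : (Ω ≃ₐ[F] Ω) → Prop} (hc : Cm act) {s₀ : Ω ≃ₐ[F] Ω}
    (hG : ∀ s ∈ G', s₀ * s * s₀⁻¹ ∈ G) (f : SM act hc p G I) (h : Ω ≃ₐ[F] Ω) (hh : ¬ SH act G' p h) :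
    (loM act hc p hG f).1 h = 0 := if_neg hh

/-- Chunk C1d (S/M). The operators commute with the restriction: s₀ gamma s₀^-1 gamma^-1 is in G, and it is of every level (it acts trivially on all points of order a power of p: fa_comm; fa_gc). For h in SH G':
lo (op f) h = s₀^-1 gamma f(gamma^-1 s₀ h s₀^-1 gamma); op (lo f) h = gamma s₀^-1 f(s₀ gamma^-1 h gamma s₀^-1), and with d = s₀ gamma s₀^-1 gamma^-1: s₀ gamma^-1 = (d gamma)^-1 s₀, so it is gamma s₀^-1 f(gamma^-1 d^-1 (s₀ h s₀^-1) d gamma);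
gamma^-1 d^-1 x d gamma = e^-1 (gamma^-1 x gamma) e, e = gamma^-1 d gamma in G of every level. -/
theorem lo_comm (dta : Dta A B Om j act mo ψ p) {G G' : Subgroup (Ω ≃ₐ[F] Ω)} {I : (Ω ≃ₐ[F] Ω) → Prop} (hc : Cm act) (hI : CI I) {γ s₀ : Ω ≃ₐ[F] Ω} (hγ : γ ∈ G)
    (hγ' : γ ∈ G') (hG : ∀ s ∈ G', s₀ * s * s₀⁻¹ ∈ G) (f : SM act hc p G I) :
    loM act hc p hG (opM act hc p hI hγ f) = opM act hc p LI_conj hγ' (loM act hc p hG f) := by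
  apply Subtype.ext
  funext h
  by_cases hh : SH act G' p h
  · have hf : IsCls act p (SH act G p) I (SN G p) f.1 := f.2
    obtain ⟨m, hm⟩ := hf.eqv
    have h1 : SH act G p (s₀ * h * s₀⁻¹) := ⟨hG h hh.1, FA_conj act hh.2 _⟩
    have hx : SH act G p (γ⁻¹ * (s₀ * h * s₀⁻¹) * γ) := by
      refine ⟨mul_mem (mul_mem (inv_mem hγ) h1.1) hγ, ?_⟩
      have h2 := FA_conj act h1.2 γ⁻¹
      rwa [inv_inv] at h2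
    have h3 : SH act G' p (γ⁻¹ * h * γ) := by
      refine ⟨mul_mem (mul_mem (inv_mem hγ') hh.1) hγ', ?_⟩
      have h2 := FA_conj act hh.2 γ⁻¹
      rwa [inv_inv] at h2
    rw [c1d_lo hc hG _ h hh, c1d_op hc hI hγ _ _ h1, c1d_op hc LI_conj hγ' _ h hh, c1d_lo hc hG _ _ h3]
    have he : FA act p (s₀ * γ⁻¹ * s₀⁻¹ * γ) := by
      have h4 := fa_comm dta s₀ γ⁻¹
      rwa [inv_inv] at h4
    have heG : s₀ * γ⁻¹ * s₀⁻¹ * γ ∈ G := mul_mem (hG _ (inv_mem hγ')) hγ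
    have hy : s₀ * (γ⁻¹ * h * γ) * s₀⁻¹ = s₀ * γ⁻¹ * s₀⁻¹ * γ * (γ⁻¹ * (s₀ * h * s₀⁻¹) * γ) * (s₀ * γ⁻¹ * s₀⁻¹ * γ)⁻¹ := by
      group
    rw [hy, hm _ ⟨heG, fa_gc dta he m⟩ _ hx, he _ (hf.tor _)]
    obtain ⟨k, hk⟩ := hf.tor (γ⁻¹ * (s₀ * h * s₀⁻¹) * γ)
    have h5 := fa_comm dta s₀⁻¹ γ (aM act γ (aM act s₀⁻¹ (f.1 (γ⁻¹ * (s₀ * h * s₀⁻¹) * γ))))
      ⟨k, by rw [← map_nsmul, ← map_nsmul, hk, map_zero, map_zero]⟩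
    rw [← h5, ← aM_mul, ← aM_mul, ← aM_mul]
    congr 2
    group
  · rw [c1d_lo_out hc hG _ h hh, c1d_op_out hc LI_conj hγ' _ h hh]

end H35L
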