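import Mathlib
import Pool.Agent.Lib.H35L.C1

/-! # H35L, chunk C4B (M): the norm of a class of points -/

open NumberField IsDedekindDomain WeierstrassCurve

namespace H35L

open H55P (IQ Pt ac Inert Dec Nm)
open H35P (WAB)
open H55K (CMA Dta)
open H35K (Lev)

variable {F : Type} [Field F] [NumberField F] [IQ F] {A B : F} {Om : ℂ} {Ω : Type} [Field Ω] [DecidableEq Ω]
  [Algebra F Ω] [IsAlgClosure F Ω] {j : Ω →+* ℂ} {act : 𝓞 F →+* AddMonoid.End (Pt (WAB A B) Ω)} {mo : Ideal (𝓞 F)}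
  {ψ : Ideal (𝓞 F) →*₀ 𝓞 F} {p : ℕ}

/-- Chunk C4c (S). -/
theorem dmono {G : Subgroup (Ω ≃ₐ[F] Ω)} {I : (Ω ≃ₐ[F] Ω) → Prop} (hc : Cm act) (n : ℕ) :
    DM act hc p G I n ≤ DM act hc p G I (n + 1) := by
  rintro w ⟨P, ⟨k, hk⟩, hP⟩
  exact ⟨P, ⟨k, fun s hs => hk s ⟨hs.1, Gc_mono hs.2⟩⟩, hP⟩

theorem c4b_conj {n k : ℕ} {P : PM act} {G : Subgroup (Ω ≃ₐ[F] Ω)}
    (hk : ∀ s, SN G p n s → aM act s (p ^ k • P) = p ^ k • P) {g : Ω ≃ₐ[F] Ω} (hg : g ∈ G)
    {s : Ω ≃ₐ[F] Ω} (hs : SN G p n s) :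
    aM act s (aM act g (p ^ k • P)) = aM act g (p ^ k • P) := by
  have h1 : SN G p n (g⁻¹ * s * g) := by
    refine ⟨mul_mem (mul_mem (inv_mem hg) hs.1) hg, ?_⟩
    have h2 := Gc_conj hs.2 g⁻¹
    rwa [inv_inv] at h2
  have h3 : s * g = g * (g⁻¹ * s * g) := by group
  rw [← aM_mul, h3, aM_mul, hk _ h1]

theorem c4b_val {P : PM act} {G : Subgroup (Ω ≃ₐ[F] Ω)} {g h : Ω ≃ₐ[F] Ω} :
    aM act g (aM act (g⁻¹ * h * g) P - P) = aM act h (aM act g P) - aM act g P := by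
  have h3 : g * (g⁻¹ * h * g) = h * g := by group
  rw [map_sub, ← aM_mul, h3, aM_mul]

theorem c4b_sh {G : Subgroup (Ω ≃ₐ[F] Ω)} {g h : Ω ≃ₐ[F] Ω} (hg : g ∈ G) (hh : SH act G p h) :
    SH act G p (g⁻¹ * h * g) := by
  refine ⟨mul_mem (mul_mem (inv_mem hg) hh.1) hg, ?_⟩
  have h2 := FA_conj act hh.2 g⁻¹
  rwa [inv_inv] at h2

/-- Chunk C4c (S/M). The class of gamma P. -/
theorem dst (hp : p.Prime) {G : Subgroup (Ω ≃ₐ[F] Ω)} {I : (Ω ≃ₐ[F] Ω) → Prop} (hc : Cm act) (hI : CI I) {γ : Ω ≃ₐ[F] Ω} (hγ : γ ∈ G)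
    (n : ℕ) (w : SM act hc p G I) (hw : w ∈ DM act hc p G I n) : opM act hc p hI hγ w ∈ DM act hc p G I n := by
  obtain ⟨P, ⟨k, hk⟩, hP⟩ := hw
  refine ⟨aM act γ P, ⟨k, fun s hs => ?_⟩, fun h hh => ?_⟩
  · rw [← map_nsmul]
    exact c4b_conj hk hγ hs
  · have h1 := op_pow hc hI hγ 1 w h hh
    rw [pow_one, pow_one, hP _ (c4b_sh hγ hh), c4b_val (G := G)] at h1
    exact h1

/-- Chunk C4d (M). The class of the sum P' of gamma^(i p^n) P, i < p (op_pow). P' has level n: Q = p^k P is fixed by level n+1; s of level n: gamma^(i p^n) s of level n+1 for some i (gc_gen), so s = gamma^-(i p^n) t permutes the points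
gamma^(l p^n) Q, l modulo p (gamma^(p^(n+1)) fixes Q, level n+1 is normal in G: Gc_conj). -/
theorem dnrm (dta : Dta A B Om j act mo ψ p) {G : Subgroup (Ω ≃ₐ[F] Ω)} {I : (Ω ≃ₐ[F] Ω) → Prop} (hc : Cm act) (hI : CI I) {γ : Ω ≃ₐ[F] Ω} (hγ : γ ∈ G)
    (hg : Gen p γ) (n : ℕ) (w : SM act hc p G I) (hw : w ∈ DM act hc p G I (n + 1)) : H35K.nrm p n (opM act hc p hI hγ) w ∈ DM act hc p G I n := by
  obtain ⟨P, ⟨k, hk⟩, hP⟩ := hw
  have hp := dta.prime
  have h3 : 3 ≤ p := by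
    have := dta.five
    omega
  have hpow : ∀ l : ℕ, γ ^ l ∈ G := fun l => pow_mem hγ l
  refine ⟨∑ i ∈ Finset.range p, aM act (γ ^ (i * p ^ n)) P, ⟨k, fun s hs => ?_⟩, fun h hh => ?_⟩
  · obtain ⟨R, hR⟩ : ∃ R : PM act, R = ∑ i ∈ Finset.range p, aM act (γ ^ (i * p ^ n)) (p ^ k • P) :=
      ⟨_, rfl⟩
    have hR' : p ^ k • ∑ i ∈ Finset.range p, aM act (γ ^ (i * p ^ n)) P = R := by
      rw [hR, Finset.smul_sum]
      refine Finset.sum_congr rfl fun i _ => ?_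
      rw [map_nsmul]
    rw [hR']
    have htop : aM act (γ ^ (p * p ^ n)) (p ^ k • P) = p ^ k • P := by
      refine hk _ ⟨hpow _, ?_⟩
      have h4 : p * p ^ n = p ^ (n + 1) := by ring
      rw [h4]
      exact gc_powp hp γ (n + 1)
    have hstep : aM act (γ ^ p ^ n) R = R := by
      rw [hR, map_sum]
      have h5 : ∀ i ∈ Finset.range p, aM act (γ ^ p ^ n) (aM act (γ ^ (i * p ^ n)) (p ^ k • P)) =
          aM act (γ ^ ((i + 1) * p ^ n)) (p ^ k • P) := by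
        intro i _
        rw [← aM_mul, ← pow_add]
        have h6 : p ^ n + i * p ^ n = (i + 1) * p ^ n := by ring
        rw [h6]
      rw [Finset.sum_congr rfl h5]
      have h7 := Finset.sum_range_succ (fun i => aM act (γ ^ (i * p ^ n)) (p ^ k • P)) p
      have h8 := Finset.sum_range_succ' (fun i => aM act (γ ^ (i * p ^ n)) (p ^ k • P)) p
      rw [h7, htop, zero_mul, pow_zero, aM_one] at h8
      exact (add_right_cancel h8).symm
    have hiter : ∀ i : ℕ, aM act (γ ^ (i * p ^ n)) R = R := by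
      intro i
      induction i with
      | zero => rw [zero_mul, pow_zero, aM_one]
      | succ i ih =>
        have h6 : (i + 1) * p ^ n = p ^ n + i * p ^ n := by ring
        rw [h6, pow_add, aM_mul, ih, hstep]
    obtain ⟨i, hi⟩ := gc_gen hp h3 hg (Nat.le_succ n) hs.2
    have ht : SN G p (n + 1) (γ ^ (i * p ^ n) * s) := ⟨mul_mem (hpow _) hs.1, hi⟩
    have h9 : aM act (γ ^ (i * p ^ n) * s) R = R := by
      rw [hR, map_sum]
      refine Finset.sum_congr rfl fun l _ => ?_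
      exact c4b_conj hk (hpow _) ht
    rw [aM_mul] at h9
    have h10 : aM act (γ ^ (i * p ^ n)) (aM act s R) = aM act (γ ^ (i * p ^ n)) R := by
      rw [h9, hiter]
    have h11 := congrArg (aM act (γ ^ (i * p ^ n))⁻¹) h10
    have h12 : ∀ Q : PM act, aM act (γ ^ (i * p ^ n))⁻¹ (aM act (γ ^ (i * p ^ n)) Q) = Q := by
      intro Q
      rw [← aM_mul, inv_mul_cancel, aM_one]
    rw [h12, h12] at h11
    exact h11
  · have h1 : (H35K.nrm p n (opM act hc p hI hγ) w).1 h =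
        ∑ i ∈ Finset.range p, (((opM act hc p hI hγ) ^ (i * p ^ n)) w).1 h := by
      unfold H35K.nrm
      rw [LinearMap.sum_apply]
      have h2 : ∀ s : Finset ℕ, (∑ i ∈ s, ((opM act hc p hI hγ) ^ (i * p ^ n)) w :
          SM act hc p G I).1 h = ∑ i ∈ s, (((opM act hc p hI hγ) ^ (i * p ^ n)) w).1 h := by
        intro s
        rw [AddSubmonoidClass.coe_finset_sum, Finset.sum_apply]
      exact h2 _
    rw [h1, map_sum, ← Finset.sum_sub_distrib]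
    refine Finset.sum_congr rfl fun i _ => ?_
    rw [op_pow hc hI hγ _ w h hh, hP _ (c4b_sh (hpow _) hh), c4b_val (G := G)]

end H35L
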