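import Mathlib

/-! # H35L, chunk FL (M): free modules over p-groups -/

namespace H35L

theorem fla_inj {k : Type} [Field k] {V : Type} [AddCommGroup V] [Module k V] [Module.Finite k V] (g : ℕ) (h : Module.finrank k V ≤ g) :
    ∃ f : V →ₗ[k] (Fin g → k), Function.Injective f := by
  let e : V ≃ₗ[k] (Fin (Module.finrank k V) → k) := LinearEquiv.ofFinrankEq _ _ (by rw [Module.finrank_fin_fun])
  let c : (Fin (Module.finrank k V) → k) →ₗ[k] (Fin g → k) :=
    { toFun := fun v i => if hi : (i : ℕ) < Module.finrank k V then v ⟨i, hi⟩ else 0
      map_add' := by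
        intro x y
        funext i
        by_cases hi : (i : ℕ) < Module.finrank k V
        · simp only [dif_pos hi, Pi.add_apply]
        · simp only [dif_neg hi, Pi.add_apply, add_zero]
      map_smul' := by
        intro r x
        funext i
        by_cases hi : (i : ℕ) < Module.finrank k V
        · simp only [dif_pos hi, Pi.smul_apply, RingHom.id_apply]
        · simp only [dif_neg hi, Pi.smul_apply, smul_zero, RingHom.id_apply] }
  refine ⟨c.comp e.toLinearMap, ?_⟩
  have hc : Function.Injective c := by
    intro x y hxy
    funext i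
    have h1 := congrFun hxy ⟨i, i.2.trans_le h⟩
    have h2 : ∀ v : Fin (Module.finrank k V) → k, c v ⟨i, i.2.trans_le h⟩ = v i := by
      intro v
      exact dif_pos i.2
    rw [h2, h2] at h1
    exact h1
  exact hc.comp e.injective

/-- Chunk FLa (M). P a finite p-group acting on the finite vector space X over the field k with card k = q elements of characteristic p, at most q^g invariants, X has at least q^(g |P|) elements: X is isomorphic to the functions P -> k^g with the right translation:
there is a linear bijection Phi with Phi(rho(s) x)(h) = Phi(x)(h s). PROOF. The invariants have dimension <= g: a linear map l : X -> k^g injective on the invariants (exists: extend a linear injection from a subspace). Phi(x)(h) = l(rho(h) x).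
The kernel of Phi is a stable subspace whose invariants are killed by l (h = 1), so it has no nonzero invariant; a p-group acting on a nonzero finite vector space of characteristic p has a nonzero invariant (IsPGroup.card_modEq_card_fixedPoints). So
Phi is injective, and bijective by the cardinalities. -/
theorem fl_iso {k : Type} [Field k] [Finite k] {p : ℕ} (hp : p.Prime) [CharP k p] {X : Type} [AddCommGroup X] [Module k X] [Finite X] {P : Type} [Group P]
    [Finite P] (hP : IsPGroup p P) (ρ : P →* Module.End k X) (g : ℕ) (h1 : Nat.card {x : X // ∀ s, ρ s x = x} ≤ Nat.card k ^ g)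
    (h2 : Nat.card k ^ (g * Nat.card P) ≤ Nat.card X) :
    ∃ Φ : X ≃ₗ[k] (P → Fin g → k), ∀ s x h, Φ (ρ s x) h = Φ x (h * s) := by
  classical
  have hfinX : Module.Finite k X := Module.Finite.of_finite
  have hq : 2 ≤ Nat.card k := Finite.one_lt_card
  -- the invariants
  let V : Submodule k X :=
    { carrier := {x | ∀ s, ρ s x = x}
      add_mem' := by
        intro x y hx hy s
        rw [map_add, hx s, hy s]
      zero_mem' := fun s => map_zero _
      smul_mem' := by
        intro c x hx s
        rw [map_smul, hx s] }
  have hV : Module.finrank k V ≤ g := by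
    have h3 : Nat.card V = Nat.card k ^ Module.finrank k V := Module.natCard_eq_pow_finrank
    have h4 : Nat.card V = Nat.card {x : X // ∀ s, ρ s x = x} := rfl
    rw [← h4, h3] at h1
    exact (Nat.pow_le_pow_iff_right hq).mp h1
  obtain ⟨f, hf⟩ := fla_inj g hV
  obtain ⟨l, hl⟩ := LinearMap.exists_extend f
  have hlV : ∀ x ∈ V, l x = 0 → x = 0 := by
    intro x hx h0
    have h3 : f ⟨x, hx⟩ = 0 := by
      rw [← hl]
      exact h0
    have h4 := hf (h3.trans (map_zero f).symm)
    exact congrArg Subtype.val h4
  let Φ₀ : X →ₗ[k] (P → Fin g → k) := LinearMap.pi (fun h => l.comp (ρ h))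
  have hΦ₀ : ∀ x h, Φ₀ x h = l (ρ h x) := fun x h => rfl
  have hst : ∀ s x h, Φ₀ (ρ s x) h = Φ₀ x (h * s) := by
    intro s x h
    rw [hΦ₀, hΦ₀, map_mul]
    rfl
  have hker : ∀ x, Φ₀ x = 0 → x = 0 := by
    by_contra hc
    push Not at hc
    obtain ⟨x₀, hx₀, hne⟩ := hc
    let W : Submodule k X := LinearMap.ker Φ₀
    letI : MulAction P W :=
      { smul := fun s w => ⟨ρ s w.1, by
          have h3 : Φ₀ w.1 = 0 := w.2
          show Φ₀ (ρ s w.1) = 0
          funext h
          rw [hst, h3]
          rfl⟩
        one_smul := by
          intro w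
          apply Subtype.ext
          show ρ 1 w.1 = w.1
          rw [map_one]
          rfl
        mul_smul := by
          intro a b w
          apply Subtype.ext
          show ρ (a * b) w.1 = ρ a (ρ b w.1)
          rw [map_mul]
          rfl }
    have hWcard : p ∣ Nat.card W := by
      have h3 : Nat.card W = Nat.card k ^ Module.finrank k W := Module.natCard_eq_pow_finrank
      have h4 : Module.finrank k W ≠ 0 := by
        intro h5
        have h6 : W = ⊥ := Submodule.finrank_eq_zero.mp h5
        have h7 : x₀ ∈ W := hx₀
        rw [h6, Submodule.mem_bot] at h7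
        exact hne h7
      rw [h3]
      apply dvd_pow _ h4
      have := Fintype.ofFinite k
      rw [Nat.card_eq_fintype_card]
      obtain ⟨n, hn1, hn2⟩ := FiniteField.card k p
      rw [hn2]
      exact dvd_pow_self p n.2.ne'
    haveI : Fact p.Prime := ⟨hp⟩
    have h0 : (0 : W) ∈ MulAction.fixedPoints P W := by
      intro s
      apply Subtype.ext
      show ρ s 0 = 0
      exact map_zero _
    obtain ⟨b, hb, hb0⟩ := hP.exists_fixed_point_of_prime_dvd_card_of_fixed_point W hWcard h0
    have hbV : (b : X) ∈ V := by
      intro s
      exact congrArg Subtype.val (hb s)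
    have hbl : l (b : X) = 0 := by
      have h3 : Φ₀ (b : X) 1 = 0 := by
        have h4 : Φ₀ (b : X) = 0 := b.2
        rw [h4]
        rfl
      rw [hΦ₀, map_one] at h3
      exact h3
    exact hb0 (Subtype.ext (hlV _ hbV hbl).symm)
  have hinj : Function.Injective Φ₀ := by
    rw [injective_iff_map_eq_zero]
    exact hker
  have hcard : Nat.card (P → Fin g → k) ≤ Nat.card X := by
    have h3 : Nat.card (P → Fin g → k) = Nat.card k ^ (g * Nat.card P) := by
      rw [Nat.card_fun, Nat.card_fun, Nat.card_fin, pow_mul]
    rw [h3]
    exact h2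
  have hbij := hinj.bijective_of_nat_card_le hcard
  exact ⟨LinearEquiv.ofBijective Φ₀ hbij, fun s x h => hst s x h⟩

/-- Chunk FLb (M). So for every subgroup S: the S-invariants are the norms, and there are q^(g [P:S]) of them. PROOF. Phi(x) for x invariant under S is a function constant on the left cosets h S; y with Phi(y) = Phi(x) on a set of representatives of
the cosets h S and 0 elsewhere: the sum over s in S of Phi(y)(h s) is Phi(x)(h). Count: the functions on P/S. -/
theorem fl {k : Type} [Field k] [Finite k] {p : ℕ} (hp : p.Prime) [CharP k p] {X : Type} [AddCommGroup X] [Module k X] [Finite X] {P : Type} [Group P]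
    [Finite P] (hP : IsPGroup p P) (ρ : P →* Module.End k X) (g : ℕ) (h1 : Nat.card {x : X // ∀ s, ρ s x = x} ≤ Nat.card k ^ g)
    (h2 : Nat.card k ^ (g * Nat.card P) ≤ Nat.card X) (S : Subgroup P) [Fintype S] :
    (∀ x : X, (∀ s ∈ S, ρ s x = x) → ∃ y : X, ∑ s : S, ρ (s : P) y = x) ∧
      Nat.card {x : X // ∀ s ∈ S, ρ s x = x} = Nat.card k ^ (g * S.index) := by
  classical
  obtain ⟨Φ, hΦ⟩ := fl_iso hp hP ρ g h1 h2
  have hinv : ∀ x : X, (∀ s ∈ S, ρ s x = x) ↔ ∀ s ∈ S, ∀ h, Φ x (h * s) = Φ x h := by
    intro x
    constructor
    · intro hx s hs h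
      rw [← hΦ, hx s hs]
    · intro hx s hs
      apply Φ.injective
      funext h
      rw [hΦ, hx s hs]
  have hmk : ∀ (h : P) (s : P), s ∈ S → (QuotientGroup.mk (h * s) : P ⧸ S) = QuotientGroup.mk h := by
    intro h s hs
    exact QuotientGroup.mk_mul_of_mem h hs
  have hout : ∀ h : P, h⁻¹ * (QuotientGroup.mk h : P ⧸ S).out ∈ S := by
    intro h
    have h3 : (QuotientGroup.mk h : P ⧸ S) = QuotientGroup.mk ((QuotientGroup.mk h : P ⧸ S).out) := (Quotient.out_eq' _).symm
    exact QuotientGroup.eq.mp h3
  constructor
  · intro x hx
    rw [hinv] at hx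
    refine ⟨Φ.symm (fun h => if h = (QuotientGroup.mk h : P ⧸ S).out then Φ x h else 0), ?_⟩
    apply Φ.injective
    rw [map_sum]
    funext h
    rw [Finset.sum_apply]
    have h3 : ∀ s : S, Φ (ρ (s : P) (Φ.symm (fun h => if h = (QuotientGroup.mk h : P ⧸ S).out then Φ x h else 0))) h =
        if s = ⟨h⁻¹ * (QuotientGroup.mk h : P ⧸ S).out, hout h⟩ then Φ x h else 0 := by
      intro s
      rw [hΦ, LinearEquiv.apply_symm_apply]
      beta_reduce
      rw [hmk h s s.2, hx s s.2 h]
      by_cases h4 : h * s = (QuotientGroup.mk h : P ⧸ S).out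
      · have h6 : (s : P) = h⁻¹ * (QuotientGroup.mk h : P ⧸ S).out := by
          rw [← h4]
          group
        rw [if_pos h4, if_pos (Subtype.ext h6)]
      · rw [if_neg h4, if_neg (fun h5 => h4 (by rw [h5]; group))]
    rw [Finset.sum_congr rfl (fun s _ => h3 s), Finset.sum_ite_eq' Finset.univ]
    exact if_pos (Finset.mem_univ _)
  · let e : {x : X // ∀ s ∈ S, ρ s x = x} ≃ (P ⧸ S → Fin g → k) :=
      { toFun := fun x c => Φ x.1 c.out
        invFun := fun f => ⟨Φ.symm (fun h => f (QuotientGroup.mk h)), by
          rw [hinv]
          intro s hs h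
          rw [LinearEquiv.apply_symm_apply]
          beta_reduce
          rw [hmk h s hs]⟩
        left_inv := by
          intro x
          apply Subtype.ext
          apply Φ.injective
          rw [LinearEquiv.apply_symm_apply]
          funext h
          have h3 := (hinv x.1).mp x.2 _ (hout h) h
          rw [← h3]
          congr 1
          group
        right_inv := by
          intro f
          funext c
          show Φ (Φ.symm (fun h => f (QuotientGroup.mk h))) c.out = f c
          rw [LinearEquiv.apply_symm_apply]
          beta_reduce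
          congr 1
          exact Quotient.out_eq' c }
    rw [Nat.card_congr e, Nat.card_fun, Nat.card_fun, Nat.card_fin, pow_mul]
    rfl

end H35L
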