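import Mathlib
import Pool.Agent.Lib.H35L.FL

/-! # H35L, chunk FL2 (M): lifting of invariants -/

namespace H35L

/-- Chunk FL2 (M). The version used for the Kummer classes. Gamma acts on the O-module Z, X1 and XK are stable submodules, the normal subgroup N₀ of index p^m acts trivially on them, X1 is finite and killed by p, every element of X1 is p^k y with y in XK,
X1 has at most q^g invariants under Gamma and at least q^(g p^m) elements. THEN for every subgroup S containing N₀: X1 has q^(g [Gamma:S]) elements invariant under S and each of them is p^k y with y in XK invariant under S.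
PROOF. P = Gamma/N₀ acts on X1, a vector space over O/p (fl); S/N₀ has index [Gamma:S]. x invariant under S is the sum over s in S/N₀ of s x' (fl), x' = p^k y', y = the sum over S/N₀ of s y' (well defined, invariant under S as N₀ acts trivially on XK). -/
theorem fl2 {O : Type} [CommRing O] {p q : ℕ} (hp : p.Prime) (hmax : (Ideal.span {(p : O)}).IsMaximal)
    (hq : Nat.card (O ⧸ Ideal.span {(p : O)}) = q) (hq2 : 2 ≤ q) {Z : Type} [AddCommGroup Z] [Module O Z] {Γ : Type} [Group Γ]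
    (ρ : Γ →* Module.End O Z) (X1 XK : Submodule O Z) (h1 : ∀ s, ∀ x ∈ X1, ρ s x ∈ X1) (h1' : ∀ s, ∀ x ∈ XK, ρ s x ∈ XK)
    (N₀ : Subgroup Γ) [N₀.Normal] {m : ℕ} (hN : N₀.index = p ^ m) (ht : ∀ s ∈ N₀, ∀ x ∈ X1, ρ s x = x) (ht' : ∀ s ∈ N₀, ∀ x ∈ XK, ρ s x = x)
    (hp1 : ∀ x ∈ X1, p • x = 0) (hfin : Finite X1) {k : ℕ} (hdiv : ∀ x ∈ X1, ∃ y ∈ XK, p ^ k • y = x) (g : ℕ)
    (hle : Nat.card {x : Z // x ∈ X1 ∧ ∀ s, ρ s x = x} ≤ q ^ g) (hge : q ^ (g * p ^ m) ≤ Nat.card X1) (S : Subgroup Γ) (hS : N₀ ≤ S) :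
    Nat.card {x : Z // x ∈ X1 ∧ ∀ s ∈ S, ρ s x = x} = q ^ (g * S.index) ∧
      ∀ x ∈ X1, (∀ s ∈ S, ρ s x = x) → ∃ y ∈ XK, (∀ s ∈ S, ρ s y = y) ∧ p ^ k • y = x := by
  classical
  let I : Ideal O := Ideal.span {(p : O)}
  haveI hmax' : I.IsMaximal := hmax
  letI : Field (O ⧸ I) := Ideal.Quotient.field I
  have hqI : Nat.card (O ⧸ I) = q := hq
  haveI hfk : Finite (O ⧸ I) := Nat.finite_of_card_ne_zero (by omega)
  haveI hch : CharP (O ⧸ I) p := by
    have h0 : ((p : ℕ) : O ⧸ I) = 0 := by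
      rw [← map_natCast (Ideal.Quotient.mk I)]
      exact Ideal.Quotient.eq_zero_iff_mem.mpr (Ideal.subset_span (Set.mem_singleton _))
    exact (CharP.charP_iff_prime_eq_zero hp).mpr h0
  have htor : Module.IsTorsionBySet O X1 (I : Set O) := by
    intro x a
    obtain ⟨c, hc⟩ := Ideal.mem_span_singleton'.mp a.2
    apply Subtype.ext
    show (a : O) • (x : Z) = 0
    rw [← hc, mul_smul, Nat.cast_smul_eq_nsmul, hp1 x.1 x.2, smul_zero]
  letI : Module (O ⧸ I) X1 := htor.module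
  let r1 : Γ → Module.End (O ⧸ I) X1 := fun s =>
    { toFun := fun x => ⟨ρ s x.1, h1 s x.1 x.2⟩
      map_add' := by
        intro x y
        apply Subtype.ext
        exact map_add (ρ s) _ _
      map_smul' := by
        intro c x
        obtain ⟨a, rfl⟩ := Ideal.Quotient.mk_surjective c
        apply Subtype.ext
        exact map_smul (ρ s) a x.1 }
  have hr1 : ∀ s x, (r1 s x : Z) = ρ s x.1 := fun s x => rfl
  let ρ1 : Γ →* Module.End (O ⧸ I) X1 :=
    { toFun := r1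
      map_one' := by
        apply LinearMap.ext
        intro x
        apply Subtype.ext
        rw [hr1, map_one]
        rfl
      map_mul' := by
        intro a b
        apply LinearMap.ext
        intro x
        apply Subtype.ext
        rw [hr1, map_mul]
        rfl }
  let ρ2 : Γ ⧸ N₀ →* Module.End (O ⧸ I) X1 := QuotientGroup.lift N₀ ρ1 (by
    intro s hs
    apply LinearMap.ext
    intro x
    apply Subtype.ext
    exact ht s hs x.1 x.2)
  have hr2 : ∀ (s : Γ) (x : X1), (ρ2 (QuotientGroup.mk s) x : Z) = ρ s x.1 := fun s x => rfl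
  haveI hfin2 : Finite (Γ ⧸ N₀) := by
    apply Nat.finite_of_card_ne_zero
    show N₀.index ≠ 0
    rw [hN]
    exact pow_ne_zero m hp.ne_zero
  have hcardP : Nat.card (Γ ⧸ N₀) = p ^ m := hN
  have hP : IsPGroup p (Γ ⧸ N₀) := IsPGroup.of_card hcardP
  have hmem : ∀ (T : Subgroup Γ) (x : X1), (∀ s ∈ T.map (QuotientGroup.mk' N₀), ρ2 s x = x) ↔ ∀ s ∈ T, ρ s x.1 = x.1 := by
    intro T x
    constructor
    · intro hx s hs
      have h3 : ρ2 (QuotientGroup.mk s) x = x := hx _ ⟨s, hs, rfl⟩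
      rw [← hr2, h3]
    · rintro hx _ ⟨s, hs, rfl⟩
      apply Subtype.ext
      exact hx s hs
  have hE : ∀ (T : Subgroup Γ), Nat.card {x : X1 // ∀ s ∈ T.map (QuotientGroup.mk' N₀), ρ2 s x = x} =
      Nat.card {x : Z // x ∈ X1 ∧ ∀ s ∈ T, ρ s x = x} := by
    intro T
    apply Nat.card_congr
    exact
      { toFun := fun x => ⟨x.1.1, x.1.2, (hmem T x.1).mp x.2⟩
        invFun := fun x => ⟨⟨x.1, x.2.1⟩, (hmem T ⟨x.1, x.2.1⟩).mpr x.2.2⟩
        left_inv := fun x => rfl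
        right_inv := fun x => rfl }
  have hle' : Nat.card {x : X1 // ∀ s, ρ2 s x = x} ≤ Nat.card (O ⧸ I) ^ g := by
    rw [hqI]
    refine le_trans (le_of_eq ?_) hle
    apply Nat.card_congr
    exact
      { toFun := fun x => ⟨x.1.1, x.1.2, fun s => congrArg Subtype.val (x.2 (QuotientGroup.mk s))⟩
        invFun := fun x => ⟨⟨x.1, x.2.1⟩, fun s => by
          obtain ⟨s, rfl⟩ := QuotientGroup.mk_surjective s
          apply Subtype.ext
          exact x.2.2 s⟩
        left_inv := fun x => rfl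
        right_inv := fun x => rfl }
  have hge' : Nat.card (O ⧸ I) ^ (g * Nat.card (Γ ⧸ N₀)) ≤ Nat.card X1 := by
    rw [hqI, hcardP]
    exact hge
  have hfX1 : Finite X1 := hfin
  letI : Fintype (S.map (QuotientGroup.mk' N₀) : Subgroup (Γ ⧸ N₀)) := Fintype.ofFinite _
  obtain ⟨hA, hB⟩ := fl hp hP ρ2 g hle' hge' (S.map (QuotientGroup.mk' N₀))
  have hidx : (S.map (QuotientGroup.mk' N₀)).index = S.index := by
    apply Subgroup.index_map_eq S (QuotientGroup.mk'_surjective N₀)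
    rw [QuotientGroup.ker_mk']
    exact hS
  constructor
  · rw [← hE S, hB, hidx, hqI]
  · intro x hx hxS
    obtain ⟨x', hx'⟩ := hA ⟨x, hx⟩ ((hmem S ⟨x, hx⟩).mpr hxS)
    obtain ⟨y', hy', hyx⟩ := hdiv x'.1 x'.2
    refine ⟨∑ s : (S.map (QuotientGroup.mk' N₀) : Subgroup (Γ ⧸ N₀)), ρ (s : Γ ⧸ N₀).out y', ?_, ?_, ?_⟩
    · exact Submodule.sum_mem _ (fun s _ => h1' _ _ hy')
    · intro t ht3
      rw [map_sum]
      have h3 : ∀ s : (S.map (QuotientGroup.mk' N₀) : Subgroup (Γ ⧸ N₀)), ρ t (ρ (s : Γ ⧸ N₀).out y') =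
          ρ (((⟨QuotientGroup.mk t, ⟨t, ht3, rfl⟩⟩ : (S.map (QuotientGroup.mk' N₀) : Subgroup (Γ ⧸ N₀))) * s :
            (S.map (QuotientGroup.mk' N₀) : Subgroup (Γ ⧸ N₀))) : Γ ⧸ N₀).out y' := by
        intro s
        obtain ⟨o, ho⟩ : ∃ o, o = (((⟨QuotientGroup.mk t, ⟨t, ht3, rfl⟩⟩ : (S.map (QuotientGroup.mk' N₀) : Subgroup (Γ ⧸ N₀))) * s :
            (S.map (QuotientGroup.mk' N₀) : Subgroup (Γ ⧸ N₀))) : Γ ⧸ N₀).out := ⟨_, rfl⟩
        rw [← ho]
        have h4 : (QuotientGroup.mk o : Γ ⧸ N₀) = QuotientGroup.mk (t * (s : Γ ⧸ N₀).out) := by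
          rw [ho]
          refine (Quotient.out_eq' _).trans ?_
          show (QuotientGroup.mk t : Γ ⧸ N₀) * (s : Γ ⧸ N₀) = QuotientGroup.mk (t * (s : Γ ⧸ N₀).out)
          rw [QuotientGroup.mk_mul]
          congr 1
          exact (Quotient.out_eq' _).symm
        have h5 : o⁻¹ * (t * (s : Γ ⧸ N₀).out) ∈ N₀ := QuotientGroup.eq.mp h4
        have h6 : t * (s : Γ ⧸ N₀).out = o * (o⁻¹ * (t * (s : Γ ⧸ N₀).out)) := by group
        have h7 : ρ t (ρ (s : Γ ⧸ N₀).out y') = ρ (t * (s : Γ ⧸ N₀).out) y' := by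
          rw [map_mul]
          rfl
        rw [h7, h6, map_mul]
        show ρ o (ρ (o⁻¹ * (t * (s : Γ ⧸ N₀).out)) y') = ρ o y'
        rw [ht' _ h5 _ hy']
      rw [Finset.sum_congr rfl (fun s _ => h3 s)]
      exact Equiv.sum_comp (Equiv.mulLeft (⟨QuotientGroup.mk t, ⟨t, ht3, rfl⟩⟩ : (S.map (QuotientGroup.mk' N₀) : Subgroup (Γ ⧸ N₀))))
        (fun s => ρ (s : Γ ⧸ N₀).out y')
    · rw [Finset.smul_sum]
      have h3 : ∀ s : (S.map (QuotientGroup.mk' N₀) : Subgroup (Γ ⧸ N₀)), p ^ k • ρ (s : Γ ⧸ N₀).out y' = ((ρ2 (s : Γ ⧸ N₀) x' : X1) : Z) := by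
        intro s
        rw [← map_nsmul, hyx, ← hr2]
        congr 3
        exact Quotient.out_eq' _
      rw [Finset.sum_congr rfl (fun s _ => h3 s)]
      have h4 := congrArg Subtype.val hx'
      rw [AddSubmonoidClass.coe_finsetSum] at h4
      exact h4

end H35L
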