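import Mathlib
import Pool.Agent.Lib.H35L.K0
import Pool.Agent.Lib.H35L.X2

/-! # H35L, chunk K1 (M): Kummer classes are classes -/

open NumberField IsDedekindDomain WeierstrassCurve

namespace H35L

open H55P (IQ Pt ac Inert Dec Nm)
open H35P (WAB)
open H55K (CMA Dta)
open H35K (Lev)

variable {F : Type} [Field F] [NumberField F] [IQ F] {A B : F} {Om : ℂ} {Ω : Type} [Field Ω] [DecidableEq Ω]
  [Algebra F Ω] [IsAlgClosure F Ω] {j : Ω →+* ℂ} {act : 𝓞 F →+* AddMonoid.End (Pt (WAB A B) Ω)} {mo : Ideal (𝓞 F)}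
  {ψ : Ideal (𝓞 F) →*₀ 𝓞 F} {p : ℕ}

omit [NumberField F] [IQ F] [DecidableEq Ω] [IsAlgClosure F Ω] [Algebra F Ω] in
/-- Roots of unity near one. -/
theorem k1_root {n : ℕ} {z : Ω} (hz : z ^ n = 1) (V : ValuationSubring Ω) (hV : ¬ V.valuation (n : Ω) < 1) (h : V.valuation (z - 1) < 1) :
    z = 1 := by
  by_contra hne
  have hzV : z ∈ V := by
    have h1 : z - 1 ∈ V := (V.valuation_le_one_iff _).1 h.le
    have h2 := V.add_mem _ _ h1 V.one_mem
    rwa [sub_add_cancel] at h2
  let x : V := ⟨z, hzV⟩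
  have hr : IsLocalRing.residue V x = 1 := by
    have h1 : x - 1 ∈ IsLocalRing.maximalIdeal V := by
      rw [ValuationSubring.valuation_lt_one_iff]
      exact h
    have h2 := (IsLocalRing.residue_eq_zero_iff _).2 h1
    rw [map_sub, map_one, sub_eq_zero] at h2
    exact h2
  have hsum : ∑ i ∈ Finset.range n, x ^ i = 0 := by
    apply Subtype.ext
    have h1 := geom_sum_mul z n
    rw [hz, sub_self] at h1
    have h2 := (mul_eq_zero.1 h1).resolve_right (sub_ne_zero.2 hne)
    rw [ZeroMemClass.coe_zero, ← h2]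
    push_cast
    rfl
  have h1 : IsLocalRing.residue V (n : V) = 0 := by
    have h2 := congrArg (IsLocalRing.residue V) hsum
    rw [map_sum, map_zero] at h2
    simp only [map_pow, hr, one_pow, Finset.sum_const, Finset.card_range, nsmul_eq_mul, mul_one] at h2
    rw [map_natCast]
    exact h2
  apply hV
  have h2 := (IsLocalRing.residue_eq_zero_iff _).1 h1
  exact (ValuationSubring.valuation_lt_one_iff V (n : V)).1 h2

omit [NumberField F] [IQ F] [IsAlgClosure F Ω] in
theorem k1_t1 {k : ℕ} {t : Ω → PM act} (ht : IsT act p k t) : t 1 = 0 := by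
  have h1 := ht.mul 1 1 (one_pow _) (one_pow _)
  rw [mul_one] at h1
  exact left_eq_add.mp h1

omit [NumberField F] [IQ F] [IsAlgClosure F Ω] in
theorem k1_pow {k : ℕ} {t : Ω → PM act} (ht : IsT act p k t) {z : Ω} (hz : z ^ p ^ k = 1) (i : ℕ) : t (z ^ i) = i • t z := by
  induction i with
  | zero => rw [pow_zero, zero_smul, k1_t1 ht]
  | succ i ih =>
    rw [pow_succ, ht.mul _ _ (by rw [← pow_mul, mul_comm, pow_mul, hz, one_pow]) hz, ih, succ_nsmul]

theorem k1_rt (F : Type) [Field F] {Ω : Type} [Field Ω] [Algebra F Ω] [IsAlgClosure F Ω] {p k : ℕ} (hp : p ≠ 0) (u : Ω) : ∃ v : Ω, v ^ p ^ k = u := by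
  haveI : IsAlgClosed Ω := IsAlgClosure.isAlgClosed F
  exact IsAlgClosed.exists_pow_nat_eq u (Nat.pos_of_ne_zero (pow_ne_zero k hp))

/-- Chunk K1a (S/M). For h in SH fixing u, any root v of u may be used: h v/v is a p^k-th root of unity, the same for all v (h fixes the roots of unity of order dividing p^k: fa_root). -/
theorem kum_eq (dta : Dta A B Om j act mo ψ p) {k : ℕ} {G : Subgroup (Ω ≃ₐ[F] Ω)} {u v : Ω} (hu : u ≠ 0) (hv : v ^ p ^ k = u) {t : Ω → PM act} (ht : IsT act p k t)
    {h : Ω ≃ₐ[F] Ω} (hh : SH act G p h) (hhu : h u = u) : kum act p k (SH act G p) u t h = t (h v / v) ∧ (h v / v) ^ p ^ k = 1 := by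
  have hp0 : p ≠ 0 := dta.prime.ne_zero
  have hpk : p ^ k ≠ 0 := pow_ne_zero k hp0
  have hex : ∃ v : Ω, v ^ p ^ k = u := ⟨v, hv⟩
  have hw : rt p k u ^ p ^ k = u := by
    rw [rt, dif_pos hex]
    exact hex.choose_spec
  have hw0 : rt p k u ≠ 0 := by
    intro h0
    rw [h0, zero_pow hpk] at hw
    exact hu hw.symm
  have hv0 : v ≠ 0 := by
    intro h0
    rw [h0, zero_pow hpk] at hv
    exact hu hv.symm
  have h1 : (v / rt p k u) ^ p ^ k = 1 := by
    rw [div_pow, hv, hw, div_self hu]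
  have h2 := fa_root dta hh.2 k _ h1
  rw [map_div₀] at h2
  have hhw : h (rt p k u) ≠ 0 := (map_ne_zero h).mpr hw0
  have h3 : h v / v = h (rt p k u) / rt p k u := by
    rw [div_eq_div_iff hv0 hw0]
    rw [div_eq_div_iff hhw hw0] at h2
    rw [h2]
    ring
  refine ⟨?_, ?_⟩
  · rw [h3]
    exact if_pos hh
  · rw [div_pow, ← map_pow, hv, hhu, div_self hu]

/-- Chunk K1 (M). The Kummer class of a unit u fixed by all of SH is a homomorphism, continuous, unramified outside p. mul: h h' v/v = h(h' v/v) (h v/v), h fixes the root of unity h' v/v. tor: p^k t z = t (z^(p^k)) = t 1 = 0.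
cont: the elements fixing F(v). unr: V(p) = 1, h in the inertia group of V: v is a unit of V (u and u^-1 are integral), z = h v/v, V(z - 1) < 1 and z^(p^k) = 1 imply z = 1 (z <> 1: prod over i of (1 - z^i)... : the order of z is p^j, j > 0; some power z' of z
has order p, V(z' - 1) < 1, 1 + z' + ... + z'^(p-1) = 0 is p modulo the maximal ideal: contradiction, cf. H55K.S.PA1_zeta). -/
theorem kum_hm (dta : Dta A B Om j act mo ψ p) {k : ℕ} {G : Subgroup (Ω ≃ₐ[F] Ω)} {u : Ω} (hu : u ≠ 0) (hi : IsIntegral ℤ u) (hi' : IsIntegral ℤ u⁻¹)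
    {t : Ω → PM act} (ht : IsT act p k t) (hfix : ∀ h, SH act G p h → h u = u) : IsHm act p (SH act G p) (GI p) (kum act p k (SH act G p) u t) := by
  have hp0 : p ≠ 0 := dta.prime.ne_zero
  have hpk : p ^ k ≠ 0 := pow_ne_zero k hp0
  obtain ⟨v, hv⟩ := k1_rt F (k := k) hp0 u
  have hv0 : v ≠ 0 := by
    intro h0
    rw [h0, zero_pow hpk] at hv
    exact hu hv.symm
  have key : ∀ h, SH act G p h → kum act p k (SH act G p) u t h = t (h v / v) ∧ (h v / v) ^ p ^ k = 1 :=
    fun h hh => kum_eq dta hu hv ht hh (hfix h hh)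
  have hSm : ∀ h, SH act G p h → ∀ h', SH act G p h' → SH act G p (h * h') := by
    intro h hh h' hh'
    refine ⟨G.mul_mem hh.1 hh'.1, fun P hP => ?_⟩
    rw [aM_mul, hh'.2 P hP, hh.2 P hP]
  refine ⟨fun h hh => if_neg hh, ?_, ?_, ?_, ?_⟩
  · intro h hh h' hh'
    rw [(key _ (hSm h hh h' hh')).1, (key h hh).1, (key h' hh').1, add_comm, ← ht.mul _ _ (key h' hh').2 (key h hh).2]
    congr 1
    have h1 := fa_root dta hh.2 k _ (key h' hh').2
    rw [map_div₀] at h1
    have hhv : h v ≠ 0 := (map_ne_zero h).mpr hv0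
    rw [div_eq_div_iff hhv hv0] at h1
    show h (h' v) / v = h' v / v * (h v / v)
    rw [div_mul_div_comm, div_eq_div_iff hv0 (mul_ne_zero hv0 hv0)]
    linear_combination v * h1
  · intro h
    by_cases hh : SH act G p h
    · refine ⟨k, ?_⟩
      rw [(key h hh).1, ← k1_pow ht (key h hh).2, (key h hh).2, k1_t1 ht]
    · refine ⟨0, ?_⟩
      rw [show kum act p k (SH act G p) u t h = 0 from if_neg hh, smul_zero]
  · haveI : Algebra.IsAlgebraic F Ω := IsAlgClosure.isAlgebraic
    refine ⟨IntermediateField.adjoin F {v}, IntermediateField.adjoin.finiteDimensional (Algebra.IsAlgebraic.isAlgebraic v).isIntegral, ?_⟩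
    intro h hh hm
    have h1 : h v = v := (IntermediateField.mem_fixingSubgroup_iff _ h).1 hm v (IntermediateField.mem_adjoin_simple_self F v)
    rw [(key h hh).1, h1, div_self hv0, k1_t1 ht]
  · rintro h hh ⟨V, hVp, hI⟩
    have hint : ∀ x : Ω, IsIntegral ℤ x → V.valuation x ≤ 1 := by
      intro x hx
      rw [ValuationSubring.valuation_le_one_iff]
      have h1 : IsIntegral V x := hx.tower_top
      obtain ⟨y, hy⟩ := (IsIntegrallyClosed.isIntegral_iff (R := V) (K := Ω)).mp h1
      rw [← hy]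
      exact y.2
    have hVu : V.valuation u = 1 := by
      apply le_antisymm (hint u hi)
      have h1 := hint _ hi'
      rw [map_inv₀] at h1
      have h2 : V.valuation u ≠ 0 := (map_ne_zero _).mpr hu
      exact (inv_le_one₀ (zero_lt_iff.mpr h2)).mp h1
    have hVv : V.valuation v = 1 := by
      have h1 : V.valuation v ^ p ^ k = 1 := by rw [← map_pow, hv, hVu]
      exact (pow_eq_one_iff_of_nonneg zero_le hpk).1 h1
    have hvV : v ∈ V := (V.valuation_le_one_iff v).1 hVv.le
    have h3 : V.valuation (h v / v - 1) < 1 := by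
      have h4 : h v / v - 1 = (h v - v) / v := by
        field_simp
      rw [h4, map_div₀, hVv, div_one]
      exact hI v hvV
    have h5 : ¬ V.valuation ((p ^ k : ℕ) : Ω) < 1 := by
      rw [Nat.cast_pow, map_pow, hVp, one_pow]
      exact lt_irrefl _
    rw [(key h hh).1, k1_root (key h hh).2 V h5 h3, k1_t1 ht]

end H35L
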