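import Mathlib
import Pool.Agent.Lib.H35L.K1

/-! # H35L, chunk K2 (M): the algebra of Kummer classes -/

open NumberField IsDedekindDomain WeierstrassCurve

namespace H35L

open H55P (IQ Pt ac Inert Dec Nm)
open H35P (WAB)
open H55K (CMA Dta)
open H35K (Lev)

variable {F : Type} [Field F] [NumberField F] [IQ F] {A B : F} {Om : ℂ} {Ω : Type} [Field Ω] [DecidableEq Ω]
  [Algebra F Ω] [IsAlgClosure F Ω] {j : Ω →+* ℂ} {act : 𝓞 F →+* AddMonoid.End (Pt (WAB A B) Ω)} {mo : Ideal (𝓞 F)}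
  {ψ : Ideal (𝓞 F) →*₀ 𝓞 F} {p : ℕ}

/-- Chunk K2a (S/M). Additivity in u. -/
theorem kum_mul (dta : Dta A B Om j act mo ψ p) {k : ℕ} {G : Subgroup (Ω ≃ₐ[F] Ω)} {u u' : Ω} (hu : u ≠ 0) (hu' : u' ≠ 0) {t : Ω → PM act} (ht : IsT act p k t)
    (hfix : ∀ h, SH act G p h → h u = u) (hfix' : ∀ h, SH act G p h → h u' = u') :
    kum act p k (SH act G p) (u * u') t = kum act p k (SH act G p) u t + kum act p k (SH act G p) u' t := by
  have hp0 : p ≠ 0 := dta.prime.ne_zero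
  obtain ⟨v, hv⟩ := k1_rt F (k := k) hp0 u
  obtain ⟨v', hv'⟩ := k1_rt F (k := k) hp0 u'
  funext h
  rw [Pi.add_apply]
  by_cases hh : SH act G p h
  · have h1 := kum_eq dta hu hv ht hh (hfix h hh)
    have h2 := kum_eq dta hu' hv' ht hh (hfix' h hh)
    have h3 := kum_eq dta (mul_ne_zero hu hu') (v := v * v') (by rw [mul_pow, hv, hv']) ht hh (by rw [map_mul, hfix h hh, hfix' h hh])
    rw [h1.1, h2.1, h3.1, ← ht.mul _ _ h1.2 h2.2, map_mul, mul_div_mul_comm]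
  · have e : ∀ w : Ω, kum act p k (SH act G p) w t h = 0 := fun w => if_neg hh
    rw [e, e, e, add_zero]

/-- Chunk K2b (S/M). The conjugate of a Kummer class: s (kum u t) = kum (s u) (s t s^-1), s in G. -/
theorem kum_cj (dta : Dta A B Om j act mo ψ p) (hc : Cm act) {k : ℕ} {G : Subgroup (Ω ≃ₐ[F] Ω)} {s : Ω ≃ₐ[F] Ω} (hs : s ∈ G) {u : Ω} (hu : u ≠ 0) {t : Ω → PM act}
    (ht : IsT act p k t) (hfix : ∀ h, SH act G p h → h u = u) :
    cjL act hc s (kum act p k (SH act G p) u t) = kum act p k (SH act G p) (s u) (fun z => aM act s (t (s⁻¹ z))) ∧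
      IsT act p k (fun z => aM act s (t (s⁻¹ z))) := by
  have hp0 : p ≠ 0 := dta.prime.ne_zero
  have hpw : ∀ z : Ω, z ^ p ^ k = 1 ↔ (s⁻¹ z) ^ p ^ k = 1 := by
    intro z
    constructor
    · intro hz
      rw [← map_pow, hz, map_one]
    · intro hz
      rw [← map_pow] at hz
      have h1 := congrArg s hz
      rw [map_one] at h1
      have h2 : s (s⁻¹ (z ^ p ^ k)) = z ^ p ^ k := by
        rw [← AlgEquiv.mul_apply, mul_inv_cancel]
        rfl
      rw [h2] at h1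
      exact h1
  have hT : IsT act p k (fun z => aM act s (t (s⁻¹ z))) := by
    refine ⟨fun z w hz hw => ?_, fun z hz => ?_⟩
    · show aM act s (t (s⁻¹ (z * w))) = aM act s (t (s⁻¹ z)) + aM act s (t (s⁻¹ w))
      rw [map_mul, ht.mul _ _ ((hpw z).1 hz) ((hpw w).1 hw), map_add]
    · show aM act s (t (s⁻¹ z)) = 0
      rw [ht.out _ (fun h => hz ((hpw z).2 h)), map_zero]
  refine ⟨?_, hT⟩
  obtain ⟨v, hv⟩ := k1_rt F (k := k) hp0 u
  have hss : ∀ x : Ω, s (s⁻¹ x) = x := by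
    intro x
    rw [← AlgEquiv.mul_apply, mul_inv_cancel]
    rfl
  have hss' : ∀ x : Ω, s⁻¹ (s x) = x := by
    intro x
    rw [← AlgEquiv.mul_apply, inv_mul_cancel]
    rfl
  have hcj : ∀ h, SH act G p h ↔ SH act G p (s⁻¹ * h * s) := by
    intro h
    constructor
    · intro hh
      refine ⟨G.mul_mem (G.mul_mem (G.inv_mem hs) hh.1) hs, ?_⟩
      have h1 := FA_conj act hh.2 s⁻¹
      rw [inv_inv] at h1
      exact h1
    · intro hh
      have e : h = s * (s⁻¹ * h * s) * s⁻¹ := by group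
      rw [e]
      exact ⟨G.mul_mem (G.mul_mem hs hh.1) (G.inv_mem hs), FA_conj act hh.2 s⟩
  funext h
  show aM act s (kum act p k (SH act G p) u t (s⁻¹ * h * s)) = kum act p k (SH act G p) (s u) (fun z => aM act s (t (s⁻¹ z))) h
  by_cases hh : SH act G p h
  · have hh' := (hcj h).1 hh
    have h1 := kum_eq dta hu hv ht hh' (hfix _ hh')
    have hhs : h (s u) = s u := by
      have h2 := hfix _ hh'
      have h3 := congrArg s h2
      have h4 : s ((s⁻¹ * h * s) u) = h (s u) := by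
        rw [AlgEquiv.mul_apply, AlgEquiv.mul_apply, hss]
      rw [h4] at h3
      exact h3
    have h5 := kum_eq dta ((map_ne_zero s).mpr hu) (v := s v) (by rw [← map_pow, hv]) hT hh hhs
    rw [h1.1, h5.1]
    show aM act s (t ((s⁻¹ * h * s) v / v)) = aM act s (t (s⁻¹ (h (s v) / s v)))
    rw [map_div₀, hss']
    rfl
  · have e1 : kum act p k (SH act G p) u t (s⁻¹ * h * s) = 0 := if_neg (fun h' => hh ((hcj h).2 h'))
    have e2 : kum act p k (SH act G p) (s u) (fun z => aM act s (t (s⁻¹ z))) h = 0 := if_neg hh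
    rw [e1, e2, map_zero]

/-- Chunk K2c (S/M). Divisibility: t on the p-th roots of unity comes from t' on the p^k-th roots of unity, k > 0: t(z^(p^(k-1))) = p^(k-1) t'(z) for z^(p^k) = 1 (zeta a primitive p^k-th root of unity, t(zeta^(p^(k-1))) = p^(k-1) y (CMA.surj), t'(zeta^i) = i y;
p^k y = p t(..) = 0). Then kum 1 u t = p^(k-1) kum k u t'. -/
theorem kum_div (dta : Dta A B Om j act mo ψ p) {k : ℕ} (hk : 0 < k) {G : Subgroup (Ω ≃ₐ[F] Ω)} {u : Ω} (hu : u ≠ 0) {t : Ω → PM act} (ht : IsT act p 1 t)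
    (hfix : ∀ h, SH act G p h → h u = u) :
    ∃ t' : Ω → PM act, IsT act p k t' ∧ kum act p 1 (SH act G p) u t = p ^ (k - 1) • kum act p k (SH act G p) u t' := by
  classical
  have hp0 : p ≠ 0 := dta.prime.ne_zero
  obtain ⟨ζ, hζ⟩ := x2_prim dta k
  have hpk : p ^ (k - 1) * p = p ^ k := by
    rw [← pow_succ]
    congr 1
    omega
  obtain ⟨ξ, hξ⟩ : ∃ ξ, ξ = ζ ^ p ^ (k - 1) := ⟨_, rfl⟩
  have hξ1 : ξ ^ p ^ 1 = 1 := by
    rw [hξ, pow_one, ← pow_mul, hpk]
    exact hζ.pow_eq_one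
  obtain ⟨y, hy⟩ : ∃ y : PM act, p ^ (k - 1) • y = t ξ := by
    have hne : ((p ^ (k - 1) : ℕ) : 𝓞 F) ≠ 0 := by
      exact_mod_cast pow_ne_zero (k - 1) hp0
    obtain ⟨y, hy⟩ := dta.cma.surj _ hne (t ξ)
    refine ⟨y, ?_⟩
    rw [← Nat.cast_smul_eq_nsmul (𝓞 F)]
    exact hy
  have hy0 : p ^ k • y = 0 := by
    rw [← hpk, mul_comm, mul_smul, hy, ← pow_one p, ← k1_pow ht hξ1, hξ1, k1_t1 ht]
  let t' : Ω → PM act := fun z => if h : ∃ i : ℕ, z = ζ ^ i then h.choose • y else 0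
  have hmod : ∀ i j : ℕ, i ≡ j [MOD p ^ k] → i • y = j • y := by
    have h1 : ∀ i : ℕ, i • y = (i % p ^ k) • y := by
      intro i
      conv_lhs => rw [← Nat.div_add_mod i (p ^ k), add_smul, mul_comm, mul_smul, hy0, smul_zero, zero_add]
    intro i j hij
    rw [h1 i, h1 j, hij]
  have ht' : ∀ i : ℕ, t' (ζ ^ i) = i • y := by
    intro i
    have hex : ∃ j : ℕ, ζ ^ i = ζ ^ j := ⟨i, rfl⟩
    have h1 : t' (ζ ^ i) = hex.choose • y := dif_pos hex
    rw [h1]
    exact hmod _ _ (x2_pow hζ (pow_pos dta.prime.pos k) hex.choose_spec).symm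
  have hall : ∀ z : Ω, z ^ p ^ k = 1 → ∃ i : ℕ, z = ζ ^ i := by
    intro z hz
    haveI : NeZero (p ^ k) := ⟨pow_ne_zero _ hp0⟩
    obtain ⟨i, _, hi⟩ := hζ.eq_pow_of_pow_eq_one hz
    exact ⟨i, hi.symm⟩
  have hT : IsT act p k t' := by
    refine ⟨fun z w hz hw => ?_, fun z hz => ?_⟩
    · obtain ⟨i, rfl⟩ := hall z hz
      obtain ⟨j, rfl⟩ := hall w hw
      rw [← pow_add, ht', ht', ht', add_smul]
    · apply dif_neg
      rintro ⟨i, rfl⟩
      apply hz
      rw [← pow_mul, mul_comm, pow_mul, hζ.pow_eq_one, one_pow]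
  refine ⟨t', hT, ?_⟩
  funext h
  show kum act p 1 (SH act G p) u t h = p ^ (k - 1) • kum act p k (SH act G p) u t' h
  by_cases hh : SH act G p h
  · obtain ⟨v, hv⟩ := k1_rt F (k := k) hp0 u
    have h1 := kum_eq dta hu hv hT hh (hfix h hh)
    have h2 := kum_eq dta hu (k := 1) (v := v ^ p ^ (k - 1)) (by rw [pow_one, ← pow_mul, hpk, hv]) ht hh (hfix h hh)
    rw [h1.1, h2.1]
    obtain ⟨i, hi⟩ := hall _ h1.2
    have h3 : h (v ^ p ^ (k - 1)) / v ^ p ^ (k - 1) = ξ ^ i := by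
      rw [map_pow, ← div_pow, hi, hξ, ← pow_mul, ← pow_mul, mul_comm]
    rw [h3, k1_pow ht hξ1, hi, ht', ← hy, smul_comm]
  · have e1 : kum act p 1 (SH act G p) u t h = 0 := if_neg hh
    have e2 : kum act p k (SH act G p) u t' h = 0 := if_neg hh
    rw [e1, e2, smul_zero]

end H35L
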