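import Mathlib
import Pool.Agent.Lib.H35L.K2

/-! # H35L, chunk K3 (M): the modules KU and XU -/

open NumberField IsDedekindDomain WeierstrassCurve

namespace H35L

open H55P (IQ Pt ac Inert Dec Nm)
open H35P (WAB)
open H55K (CMA Dta)
open H35K (Lev)

variable {F : Type} [Field F] [NumberField F] [IQ F] {A B : F} {Om : ℂ} {Ω : Type} [Field Ω] [DecidableEq Ω]
  [Algebra F Ω] [IsAlgClosure F Ω] {j : Ω →+* ℂ} {act : 𝓞 F →+* AddMonoid.End (Pt (WAB A B) Ω)} {mo : Ideal (𝓞 F)}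
  {ψ : Ideal (𝓞 F) →*₀ 𝓞 F} {p : ℕ}

omit [NumberField F] [IQ F] [IsAlgClosure F Ω] in
theorem k3_t1 {k : ℕ} {t : Ω → PM act} (ht : IsT act p k t) : t 1 = 0 := by
  have h1 := ht.mul 1 1 (one_pow _) (one_pow _)
  rw [one_mul] at h1
  exact left_eq_add.1 h1

omit [NumberField F] [IQ F] [IsAlgClosure F Ω] in
theorem k3_tor {k : ℕ} {t : Ω → PM act} (ht : IsT act p k t) (z : Ω) : p ^ k • t z = 0 := by
  by_cases hz : z ^ p ^ k = 1
  · have h1 : ∀ n : ℕ, n • t z = t (z ^ n) := by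
      intro n
      induction n with
      | zero => rw [zero_smul, pow_zero, k3_t1 ht]
      | succ n ih =>
        rw [succ_nsmul, ih, pow_succ, ht.mul _ _ (by rw [← pow_mul, mul_comm, pow_mul, hz, one_pow]) hz]
    rw [h1, hz, k3_t1 ht]
  · rw [ht.out z hz, smul_zero]

theorem k3_Nm_one : Nm (1 : 𝓞 F) = 1 := by
  have h3 := H55K.Nm_nat (F := F) 1
  simpa using h3

theorem k3_fix {B' : IntermediateField F Ω} {x : Ω} (h : ∀ s ∈ B'.fixingSubgroup, s x = x) : x ∈ B' := by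
  have hg : IsGalois F Ω := IsAlgClosure.isGalois F Ω
  rw [← InfiniteGalois.fixedField_fixingSubgroup B', IntermediateField.mem_fixedField_iff]
  exact h

omit [NumberField F] [IQ F] [DecidableEq Ω] [IsAlgClosure F Ω] in
theorem k3_mem {B' : IntermediateField F Ω} {x : Ω} (hx : x ∈ B') {s : Ω ≃ₐ[F] Ω} (hs : s ∈ B'.fixingSubgroup) : s x = x :=
  (IntermediateField.mem_fixingSubgroup_iff B' s).1 hs x hx

theorem k3_sh {K : ℕ} {G : Subgroup (Ω ≃ₐ[F] Ω)} {B' : IntermediateField F Ω} (hB : IsB act p K G B')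
    {h : Ω ≃ₐ[F] Ω} (hh : SH act G p h) : h ∈ B'.fixingSubgroup :=
  (hB h).2 ⟨hh.1, fa_iff.1 hh.2 K⟩

theorem k3_ch1 (hc : Cm act) {K : ℕ} {s h : Ω ≃ₐ[F] Ω} (hh : Ch act p K h 1) : Ch act p K (s⁻¹ * h * s) 1 := by
  intro T hT
  have h1 : p ^ K • aM act s T = 0 := by rw [← map_nsmul, hT, map_zero]
  rw [aM_mul, aM_mul, hh _ h1, one_smul, one_smul, ← aM_mul, inv_mul_cancel, aM_one]

theorem k3_conj (hc : Cm act) {K : ℕ} {G : Subgroup (Ω ≃ₐ[F] Ω)} {B' : IntermediateField F Ω} (hB : IsB act p K G B')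
    {s h : Ω ≃ₐ[F] Ω} (hs : s ∈ G) (hh : h ∈ B'.fixingSubgroup) : s⁻¹ * h * s ∈ B'.fixingSubgroup := by
  obtain ⟨h1, h2⟩ := (hB h).1 hh
  exact (hB _).2 ⟨mul_mem (mul_mem (inv_mem hs) h1) hs, k3_ch1 hc h2⟩

theorem k3_isU (hc : Cm act) {K : ℕ} {G : Subgroup (Ω ≃ₐ[F] Ω)} {B' : IntermediateField F Ω} (hB : IsB act p K G B')
    {s : Ω ≃ₐ[F] Ω} (hs : s ∈ G) {u : Ω} (hu : IsU B' u) : IsU B' (s u) := by
  refine ⟨k3_fix fun h hh => ?_, ?_, ?_, ?_⟩
  · have h1 := k3_mem hu.mem (k3_conj hc hB hs hh)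
    have h2 : (s⁻¹ * h * s) u = s⁻¹ (h (s u)) := rfl
    rw [h2] at h1
    have h3 := congrArg s h1
    have h4 : s (s⁻¹ (h (s u))) = h (s u) := s.apply_symm_apply _
    rwa [h4] at h3
  · exact (map_ne_zero_iff _ s.injective).2 hu.ne
  · exact hu.int.map (s : Ω →ₐ[F] Ω).toRingHom.toIntAlgHom
  · rw [← map_inv₀]
    exact hu.inv.map (s : Ω →ₐ[F] Ω).toRingHom.toIntAlgHom

/-- Chunk K3a (S/M). B = field of the points killed by p^K over G (G normalises: every s in G maps B to itself, since it normalises B.fixingSubgroup: Ch act p K s 1 is stable under conjugation; Galois correspondence InfiniteGalois.fixedField_fixingSubgroup).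
The conjugates by G of Kummer classes of units of B are such. -/
theorem ku_stable (dta : Dta A B Om j act mo ψ p) (hc : Cm act) {k K : ℕ} {G : Subgroup (Ω ≃ₐ[F] Ω)} {B' : IntermediateField F Ω} (hB : IsB act p K G B')
    {s : Ω ≃ₐ[F] Ω} (hs : s ∈ G) {f : (Ω ≃ₐ[F] Ω) → PM act} (hf : f ∈ KU act p k G B') : cjL act hc s f ∈ KU act p k G B' := by
  have hle : KU act p k G B' ≤ (KU act p k G B').comap (cjL act hc s) := by
    refine Submodule.span_le.2 ?_
    rintro f ⟨u, t, hu, ht, rfl⟩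
    have h1 := kum_cj dta hc hs hu.ne ht (fun h hh => k3_mem hu.mem (k3_sh hB hh))
    rw [SetLike.mem_coe, Submodule.mem_comap, h1.1]
    exact Submodule.subset_span ⟨s u, _, k3_isU hc hB hs hu, h1.2, rfl⟩
  exact hle hf

/-- Chunk K3b (S/M). The elements fixing B act trivially if k <= K: they fix u, the roots of unity of order dividing p^k (ch_cyc, Nm 1 = 1) and the values of t. -/
theorem ku_triv (dta : Dta A B Om j act mo ψ p) (hc : Cm act) {k K : ℕ} (hk : k ≤ K) {G : Subgroup (Ω ≃ₐ[F] Ω)} {B' : IntermediateField F Ω} (hB : IsB act p K G B')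
    {s : Ω ≃ₐ[F] Ω} (hs : s ∈ B'.fixingSubgroup) {f : (Ω ≃ₐ[F] Ω) → PM act} (hf : f ∈ KU act p k G B') : cjL act hc s f = f := by
  obtain ⟨hsG, hs1⟩ := (hB s).1 hs
  have hcinv : Ch act p K s⁻¹ 1 := by
    intro T hT
    have h1 : aM act s⁻¹ (aM act s T) = T := by rw [← aM_mul, inv_mul_cancel, aM_one]
    rw [hs1 T hT, one_smul] at h1
    rw [h1, one_smul]
  have hle : KU act p k G B' ≤ LinearMap.ker (cjL act hc s - 1) := by
    refine Submodule.span_le.2 ?_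
    rintro f ⟨u, t, hu, ht, rfl⟩
    have h1 := kum_cj dta hc hsG hu.ne ht (fun h hh => k3_mem hu.mem (k3_sh hB hh))
    rw [SetLike.mem_coe, LinearMap.mem_ker, LinearMap.sub_apply, Module.End.one_apply, sub_eq_zero, h1.1, k3_mem hu.mem hs]
    have h2 : (fun z => aM act s (t (s⁻¹ z))) = t := by
      funext z
      by_cases hz : z ^ p ^ k = 1
      · have hz' : z ^ p ^ K = 1 := by
          obtain ⟨m, rfl⟩ := Nat.exists_eq_add_of_le hk
          rw [pow_add, pow_mul, hz, one_pow]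
        have h3 : s⁻¹ z = z := by
          have h4 := ch_cyc dta hcinv z hz'
          rw [h4, k3_Nm_one, pow_one]
        rw [h3, ch_mono hk hs1 _ (k3_tor ht z), one_smul]
      · have h3 : (s⁻¹ z) ^ p ^ k ≠ 1 := by
          intro h4
          apply hz
          have h5 := congrArg s h4
          rw [map_pow, map_one] at h5
          have h6 : s (s⁻¹ z) = z := s.apply_symm_apply _
          rwa [h6] at h5
        rw [ht.out _ h3, ht.out _ hz, map_zero]
    rw [h2]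
  have h3 := hle hf
  rw [LinearMap.mem_ker, LinearMap.sub_apply, Module.End.one_apply, sub_eq_zero] at h3
  exact h3

omit [IsAlgClosure F Ω] in
theorem k3_hm_zero {H I : (Ω ≃ₐ[F] Ω) → Prop} : IsHm act p H I 0 :=
  ⟨fun _ _ => rfl, fun _ _ _ _ => (add_zero _).symm, fun _ => ⟨0, smul_zero _⟩, ⟨⊥, inferInstance, fun _ _ _ => rfl⟩, fun _ _ _ => rfl⟩

omit [IsAlgClosure F Ω] in
theorem k3_hm_add {H I : (Ω ≃ₐ[F] Ω) → Prop} {f g : (Ω ≃ₐ[F] Ω) → PM act} (hf : IsHm act p H I f) (hg : IsHm act p H I g) :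
    IsHm act p H I (f + g) := by
  refine ⟨fun h hh => ?_, fun h hh h' hh' => ?_, fun h => ?_, ?_, fun h hh hi => ?_⟩
  · rw [Pi.add_apply, hf.out h hh, hg.out h hh, add_zero]
  · rw [Pi.add_apply, hf.mul h hh h' hh', hg.mul h hh h' hh', Pi.add_apply, Pi.add_apply, add_add_add_comm]
  · obtain ⟨k, hk⟩ := hf.tor h
    obtain ⟨l, hl⟩ := hg.tor h
    refine ⟨k + l, ?_⟩
    rw [Pi.add_apply, smul_add, pow_add, mul_smul, mul_smul, smul_comm (p ^ k) (p ^ l) (f h), hk, hl, smul_zero, smul_zero, add_zero]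
  · obtain ⟨L, hL, h1⟩ := hf.cont
    obtain ⟨L', hL', h2⟩ := hg.cont
    refine ⟨L ⊔ L', inferInstance, fun h hh hm => ?_⟩
    rw [IntermediateField.fixingSubgroup_sup] at hm
    rw [Pi.add_apply, h1 h hh hm.1, h2 h hh hm.2, add_zero]
  · rw [Pi.add_apply, hf.unr h hh hi, hg.unr h hh hi, add_zero]

omit [IsAlgClosure F Ω] in
theorem k3_hm_smul {H I : (Ω ≃ₐ[F] Ω) → Prop} (a : 𝓞 F) {f : (Ω ≃ₐ[F] Ω) → PM act} (hf : IsHm act p H I f) :
    IsHm act p H I (a • f) := by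
  refine ⟨fun h hh => ?_, fun h hh h' hh' => ?_, fun h => ?_, ?_, fun h hh hi => ?_⟩
  · rw [Pi.smul_apply, hf.out h hh, smul_zero]
  · rw [Pi.smul_apply, hf.mul h hh h' hh', Pi.smul_apply, Pi.smul_apply, smul_add]
  · obtain ⟨k, hk⟩ := hf.tor h
    refine ⟨k, ?_⟩
    rw [Pi.smul_apply, smul_comm, hk, smul_zero]
  · obtain ⟨L, hL, h1⟩ := hf.cont
    refine ⟨L, hL, fun h hh hm => ?_⟩
    rw [Pi.smul_apply, h1 h hh hm, smul_zero]
  · rw [Pi.smul_apply, hf.unr h hh hi, smul_zero]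

/-- Chunk K3c (S/M). The elements of KU are homomorphisms, continuous, unramified outside p, killed by p^k (kum_hm; SH fixes B). -/
theorem ku_hm (dta : Dta A B Om j act mo ψ p) (hc : Cm act) {k K : ℕ} {G : Subgroup (Ω ≃ₐ[F] Ω)} {B' : IntermediateField F Ω} (hB : IsB act p K G B')
    {f : (Ω ≃ₐ[F] Ω) → PM act} (hf : f ∈ KU act p k G B') : IsHm act p (SH act G p) (GI p) f ∧ p ^ k • f = 0 := by
  refine Submodule.span_induction ?_ ?_ ?_ ?_ hf
  · rintro f ⟨u, t, hu, ht, rfl⟩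
    refine ⟨kum_hm dta hu.ne hu.int hu.inv ht (fun h hh => k3_mem hu.mem (k3_sh hB hh)), ?_⟩
    funext h
    rw [Pi.smul_apply, Pi.zero_apply]
    unfold kum
    split_ifs
    · exact k3_tor ht _
    · rw [smul_zero]
  · exact ⟨k3_hm_zero, smul_zero _⟩
  · rintro f g _ _ ⟨h1, h2⟩ ⟨h3, h4⟩
    exact ⟨k3_hm_add h1 h3, by rw [smul_add, h2, h4, add_zero]⟩
  · rintro a f _ ⟨h1, h2⟩
    exact ⟨k3_hm_smul a h1, by rw [smul_comm, h2, smul_zero]⟩

/-- Conjugation by an element of SH is trivial on homomorphisms. -/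
theorem k3_inner (hc : Cm act) {G : Subgroup (Ω ≃ₐ[F] Ω)} {I : (Ω ≃ₐ[F] Ω) → Prop} {f : (Ω ≃ₐ[F] Ω) → PM act}
    (hf : IsHm act p (SH act G p) I f) {c : Ω ≃ₐ[F] Ω} (hcG : c ∈ G) (hcF : FA act p c) : cjL act hc c f = f := by
  have hinv : SH act G p c⁻¹ := by
    refine ⟨inv_mem hcG, fun P hP => ?_⟩
    have h1 : aM act c⁻¹ (aM act c P) = P := by rw [← aM_mul, inv_mul_cancel, aM_one]
    rwa [hcF P hP] at h1
  have hmul : ∀ {a b : Ω ≃ₐ[F] Ω}, SH act G p a → SH act G p b → SH act G p (a * b) := fun ha hb =>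
    ⟨mul_mem ha.1 hb.1, FA_mul act ha.2 hb.2⟩
  funext h
  show aM act c (f (c⁻¹ * h * c)) = f h
  rw [hcF _ (hf.tor _)]
  by_cases hh : SH act G p h
  · rw [hf.mul _ (hmul hinv hh) _ ⟨hcG, hcF⟩, hf.mul _ hinv _ hh, add_right_comm, ← hf.mul _ hinv _ ⟨hcG, hcF⟩,
      inv_mul_cancel]
    have h1 := hf.mul 1 ⟨one_mem _, fun P _ => aM_one act P⟩ h hh
    rw [one_mul] at h1
    exact h1.symm
  · rw [hf.out h hh, hf.out _ fun h1 => hh ?_]
    have h2 := hmul (hmul ⟨hcG, hcF⟩ h1) hinv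
    have h3 : c * (c⁻¹ * h * c) * c⁻¹ = h := by group
    rwa [h3] at h2

/-- Chunk K3d (M). XU is stable under G: s sigma = sigma s c, c = a commutator: it is in G and acts trivially on the points, so it acts trivially on the values and ... c f = f for f a homomorphism on SH: f(c^-1 h c) = f(h) for c in SH. -/
theorem xu_stable (dta : Dta A B Om j act mo ψ p) (hc : Cm act) {k K : ℕ} {G : Subgroup (Ω ≃ₐ[F] Ω)} {B' : IntermediateField F Ω} (hB : IsB act p K G B')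
    {σ s : Ω ≃ₐ[F] Ω} (hσ : σ ∈ G) (hs : s ∈ G) {f : (Ω ≃ₐ[F] Ω) → PM act} (hf : f ∈ XU act hc p k G B' σ) : cjL act hc s f ∈ XU act hc p k G B' σ := by
  obtain ⟨h1, h2⟩ := Submodule.mem_inf.1 hf
  rw [LinearMap.mem_ker, LinearMap.sub_apply, Module.End.one_apply, sub_eq_zero] at h2
  refine Submodule.mem_inf.2 ⟨ku_stable dta hc hB hs h1, ?_⟩
  rw [LinearMap.mem_ker, LinearMap.sub_apply, Module.End.one_apply, sub_eq_zero]
  have h3 : cjL act hc (σ⁻¹ * s⁻¹ * σ * s) f = f := by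
    refine k3_inner hc (ku_hm dta hc hB h1).1 ?_ ?_
    · exact mul_mem (mul_mem (mul_mem (inv_mem hσ) (inv_mem hs)) hσ) hs
    · have h4 := fa_comm dta σ⁻¹ s⁻¹
      rwa [inv_inv, inv_inv] at h4
  have h5 : σ * s = s * σ * (σ⁻¹ * s⁻¹ * σ * s) := by group
  have h6 : cjL act hc σ (cjL act hc s f) = cjL act hc (σ * s) f := by
    rw [cjL_mul]
    rfl
  rw [h6, h5, cjL_mul, cjL_mul, Module.End.mul_apply, Module.End.mul_apply, h3, h2]

/-- Chunk K3e (M). p^(k-1) : XU k -> XU 1 is onto, 0 < k <= K: f in XU 1 is a sum of a_i kum 1 u_i t_i = p^(k-1) f', f' in KU k (kum_div); sigma^(q-1) fixes B (IsSig.pw: it acts as a^(q-1) = 1 on the points killed by p^K), so (ku_triv) e = the sum of sigma^i, i < q - 1,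
maps KU k to XU k; n (q - 1) = 1 modulo p^k: F = n e f', p^(k-1) F = n e f = n (q-1) f = f (p f = 0). -/
theorem xu_div (dta : Dta A B Om j act mo ψ p) (hc : Cm act) {k K : ℕ} (hk0 : 0 < k) (hk : k ≤ K) {G : Subgroup (Ω ≃ₐ[F] Ω)} {B' : IntermediateField F Ω}
    (hB : IsB act p K G B') {σ : Ω ≃ₐ[F] Ω} (hσ : σ ∈ G) {a : 𝓞 F} (ha : IsSig act p K σ a) {f : (Ω ≃ₐ[F] Ω) → PM act} (hf : f ∈ XU act hc p 1 G B' σ) :
    ∃ f' ∈ XU act hc p k G B' σ, p ^ (k - 1) • f' = f := by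
  classical
  have hp := dta.prime
  obtain ⟨h1, h2⟩ := Submodule.mem_inf.1 hf
  rw [LinearMap.mem_ker, LinearMap.sub_apply, Module.End.one_apply, sub_eq_zero] at h2
  have h3 : ∃ g ∈ KU act p k G B', p ^ (k - 1) • g = f := by
    refine Submodule.span_induction ?_ ?_ ?_ ?_ h1
    · rintro f ⟨u, t, hu, ht, rfl⟩
      obtain ⟨t', ht', h4⟩ := kum_div dta hk0 (G := G) hu.ne ht (fun h hh => k3_mem hu.mem (k3_sh hB hh))
      exact ⟨_, Submodule.subset_span ⟨u, t', hu, ht', rfl⟩, h4.symm⟩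
    · exact ⟨0, zero_mem _, smul_zero _⟩
    · rintro f g _ _ ⟨f', hf1, hf2⟩ ⟨g', hg1, hg2⟩
      exact ⟨f' + g', add_mem hf1 hg1, by rw [smul_add, hf2, hg2]⟩
    · rintro b f _ ⟨f', hf1, hf2⟩
      exact ⟨b • f', Submodule.smul_mem _ _ hf1, by rw [smul_comm, hf2]⟩
  obtain ⟨g, hg, hgf⟩ := h3
  have hpow : ∀ i : ℕ, ∀ f, cjL act hc (σ ^ (i + 1)) f = cjL act hc σ (cjL act hc (σ ^ i) f) := by
    intro i f
    rw [pow_succ', cjL_mul]
    rfl
  have hst : ∀ i : ℕ, cjL act hc (σ ^ i) g ∈ KU act p k G B' := fun i => ku_stable dta hc hB (pow_mem hσ i) hg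
  have hfx : ∀ i : ℕ, cjL act hc (σ ^ i) f = f := by
    intro i
    induction i with
    | zero => rw [pow_zero, cjL_one]; rfl
    | succ i ih => rw [hpow, ih, h2]
  obtain ⟨m, hm⟩ : ∃ m, m = p ^ 2 - 1 := ⟨_, rfl⟩
  have hch : ∀ i : ℕ, Ch act p K (σ ^ i) (a ^ i) := by
    intro i
    induction i with
    | zero => intro T _; rw [pow_zero, pow_zero, aM_one, one_smul]
    | succ i ih => rw [pow_succ, pow_succ]; exact ch_mul hc ih ha.ch
  have hper : cjL act hc (σ ^ m) g = g := by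
    refine ku_triv dta hc hk hB ((hB _).2 ⟨pow_mem hσ m, ?_⟩) hg
    rw [hm]
    exact ch_congr (hch _) ha.pw
  have hp2 : 2 ≤ p := hp.two_le
  have h4 : 2 * 2 ≤ p ^ 2 := by nlinarith
  have hcop : Nat.Coprime m (p ^ k) := by
    refine Nat.Coprime.pow_right k ?_
    rw [Nat.coprime_comm, Nat.Prime.coprime_iff_not_dvd hp]
    intro hd
    have h5 : p ∣ p ^ 2 := dvd_pow_self p two_ne_zero
    have h6 : p ∣ 1 := by
      have h7 := Nat.dvd_sub h5 hd
      have h8 : p ^ 2 - m = 1 := by omega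
      rwa [h8] at h7
    exact hp.one_lt.ne' (Nat.dvd_one.1 h6)
  obtain ⟨n, _, hn⟩ := Nat.exists_mul_mod_eq_one_of_coprime hcop (Nat.one_lt_pow hk0.ne' hp.one_lt)
  refine ⟨n • ∑ i ∈ Finset.range m, cjL act hc (σ ^ i) g, ?_, ?_⟩
  · refine Submodule.smul_of_tower_mem _ n (Submodule.mem_inf.2 ⟨sum_mem fun i _ => hst i, ?_⟩)
    rw [LinearMap.mem_ker, LinearMap.sub_apply, Module.End.one_apply, sub_eq_zero, map_sum]
    have h5 : ∑ i ∈ Finset.range m, cjL act hc σ (cjL act hc (σ ^ i) g) =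
        ∑ i ∈ Finset.range m, cjL act hc (σ ^ (i + 1)) g := Finset.sum_congr rfl fun i _ => (hpow i g).symm
    have h6 := Finset.sum_range_succ (fun i => cjL act hc (σ ^ i) g) m
    rw [Finset.sum_range_succ', hper, pow_zero, cjL_one, Module.End.one_apply] at h6
    rw [h5]
    exact add_right_cancel h6
  · have h5 : p ^ (k - 1) • (n • ∑ i ∈ Finset.range m, cjL act hc (σ ^ i) g) =
        n • ∑ i ∈ Finset.range m, cjL act hc (σ ^ i) f := by
      rw [smul_comm, Finset.smul_sum]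
      refine congrArg (n • ·) (Finset.sum_congr rfl fun i _ => ?_)
      rw [← map_nsmul, hgf]
    rw [h5, Finset.sum_congr rfl fun i _ => hfx i, Finset.sum_const, Finset.card_range, ← mul_smul, mul_comm n m]
    have h6 : p ^ 1 • f = 0 := (ku_hm dta hc hB h1).2
    have h7 : m * n = p ^ k * (m * n / p ^ k) + 1 := by
      have h8 := Nat.div_add_mod (m * n) (p ^ k)
      rw [hn] at h8
      exact h8.symm
    have h8 : p ^ k • f = 0 := by
      have h9 : k = k - 1 + 1 := by omega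
      rw [h9, pow_succ, mul_smul, ← pow_one p, ← pow_mul, one_mul, h6, smul_zero]
    rw [h7, add_smul, one_smul, mul_comm, mul_smul, h8, smul_zero, zero_add]

end H35L
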