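import Mathlib
import Pool.Agent.Lib.H35L.K3
import Pool.Agent.Lib.H35L.X5

/-! # H35L, chunk K4 (M): the Kummer map on units tensor 𝓞 F / p -/

open NumberField IsDedekindDomain WeierstrassCurve

namespace H35L

open H55P (IQ Pt ac Inert Dec Nm)
open H35P (WAB)
open H55K (CMA Dta)
open H35K (Lev)

open TensorProduct
variable {F : Type} [Field F] [NumberField F] [IQ F] {A B : F} {Om : ℂ} {Ω : Type} [Field Ω] [DecidableEq Ω]
  [Algebra F Ω] [IsAlgClosure F Ω] {j : Ω →+* ℂ} {act : 𝓞 F →+* AddMonoid.End (Pt (WAB A B) Ω)} {mo : Ideal (𝓞 F)}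
  {ψ : Ideal (𝓞 F) →*₀ 𝓞 F} {p : ℕ}

omit [NumberField F] [IQ F] [IsAlgClosure F Ω] in
theorem k4_smul (T : PM act) : ((p : 𝓞 F)) • T = p • T := by
  rw [Nat.cast_smul_eq_nsmul]

omit [NumberField F] [IQ F] [IsAlgClosure F Ω] in
theorem k4_one {t : Ω → PM act} (ht : IsT act p 1 t) : t 1 = 0 := by
  have h1 := ht.mul 1 1 (one_pow _) (one_pow _)
  rw [mul_one] at h1
  exact left_eq_add.1 h1

omit [NumberField F] [IQ F] [IsAlgClosure F Ω] in
theorem k4_pow {t : Ω → PM act} (ht : IsT act p 1 t) {z : Ω} (hz : z ^ p ^ 1 = 1) (n : ℕ) : t (z ^ n) = n • t z := by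
  induction n with
  | zero => rw [pow_zero, k4_one ht, zero_smul]
  | succ n ih =>
    rw [pow_succ, ht.mul _ _ (by rw [← pow_mul, mul_comm, pow_mul, hz, one_pow]) hz, ih, succ_nsmul]

omit [NumberField F] [IQ F] [IsAlgClosure F Ω] in
theorem k4_p {t : Ω → PM act} (ht : IsT act p 1 t) (z : Ω) : p • t z = 0 := by
  by_cases hz : z ^ p ^ 1 = 1
  · rw [← k4_pow ht hz, ← pow_one p, hz, k4_one ht]
  · rw [ht.out z hz, smul_zero]

omit [DecidableEq Ω] in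
theorem k4_rt (hac : IsAlgClosed Ω) (hp : p.Prime) (u : Ω) : (rt p 1 u) ^ p ^ 1 = u := by
  classical
  have h : ∃ v : Ω, v ^ p ^ 1 = u := IsAlgClosed.exists_pow_nat_eq u (pow_pos hp.pos 1)
  unfold rt
  rw [dif_pos h]
  exact h.choose_spec

omit [NumberField F] [IQ F] in
theorem k4_eq (hp : p.Prime) {H : (Ω ≃ₐ[F] Ω) → Prop} (hr : ∀ h, H h → ∀ z : Ω, z ^ p ^ 1 = 1 → h z = z) {u v : Ω} (hu : u ≠ 0)
    (hv : v ^ p ^ 1 = u) {t : Ω → PM act} {h : Ω ≃ₐ[F] Ω} (hh : H h) (hhu : h u = u) :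
    kum act p 1 H u t h = t (h v / v) ∧ (h v / v) ^ p ^ 1 = 1 := by
  classical
  have hpk : p ^ 1 ≠ 0 := pow_ne_zero _ hp.ne_zero
  have hv0 : v ≠ 0 := by
    rintro rfl
    rw [zero_pow hpk] at hv
    exact hu hv.symm
  have hr1 := k4_rt (IsAlgClosure.isAlgClosed F) hp u
  have hr0 : rt p 1 u ≠ 0 := by
    intro h0
    rw [h0, zero_pow hpk] at hr1
    exact hu hr1.symm
  constructor
  · unfold kum
    rw [if_pos hh]
    have h1 : (v / rt p 1 u) ^ p ^ 1 = 1 := by rw [div_pow, hv, hr1, div_self hu]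
    have h2 := hr h hh _ h1
    rw [map_div₀] at h2
    have hh0 : h (rt p 1 u) ≠ 0 := by rwa [Ne, EmbeddingLike.map_eq_zero_iff]
    have h3 : h v / v = h (rt p 1 u) / rt p 1 u := by
      rw [div_eq_div_iff hh0 hr0] at h2
      rw [div_eq_div_iff hv0 hr0, h2]
      ring
    rw [h3]
  · rw [div_pow, ← map_pow, hv, hhu, div_self hu]

omit [NumberField F] [IQ F] in
theorem k4_mul (hp : p.Prime) {H : (Ω ≃ₐ[F] Ω) → Prop} (hr : ∀ h, H h → ∀ z : Ω, z ^ p ^ 1 = 1 → h z = z) {u u' : Ω} (hu : u ≠ 0)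
    (hu' : u' ≠ 0) {t : Ω → PM act} (ht : IsT act p 1 t) (hf : ∀ h, H h → h u = u) (hf' : ∀ h, H h → h u' = u') :
    kum act p 1 H (u * u') t = kum act p 1 H u t + kum act p 1 H u' t := by
  classical
  funext h
  rw [Pi.add_apply]
  by_cases hh : H h
  · have h1 := k4_eq hp hr (mul_ne_zero hu hu') (v := rt p 1 u * rt p 1 u') (by rw [mul_pow, k4_rt (IsAlgClosure.isAlgClosed F) hp, k4_rt (IsAlgClosure.isAlgClosed F) hp]) (t := t) hh
      (by rw [map_mul, hf h hh, hf' h hh])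
    have h2 := k4_eq hp hr hu (k4_rt (IsAlgClosure.isAlgClosed F) hp u) (t := t) hh (hf h hh)
    have h3 := k4_eq hp hr hu' (k4_rt (IsAlgClosure.isAlgClosed F) hp u') (t := t) hh (hf' h hh)
    rw [h1.1, h2.1, h3.1, map_mul, mul_div_mul_comm, ht.mul _ _ h2.2 h3.2]
  · unfold kum
    rw [if_neg hh, if_neg hh, if_neg hh, add_zero]

omit [NumberField F] [IQ F] [IsAlgClosure F Ω] in
theorem k4_kp {H : (Ω ≃ₐ[F] Ω) → Prop} (u : Ω) {t : Ω → PM act} (ht : IsT act p 1 t) : p • kum act p 1 H u t = 0 := by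
  classical
  funext h
  rw [Pi.smul_apply, Pi.zero_apply]
  unfold kum
  split_ifs
  · exact k4_p ht _
  · exact smul_zero _

theorem k4_theta (hp : p.Prime) {H : (Ω ≃ₐ[F] Ω) → Prop} (hr : ∀ h, H h → ∀ z : Ω, z ^ p ^ 1 = 1 → h z = z)
    {B' : IntermediateField F Ω} [NumberField B'] (hfix : ∀ h, H h → h ∈ B'.fixingSubgroup) {t₀ : Ω → PM act} (h0 : IsT act p 1 t₀) :
    ∃ θ : (𝓞 F ⧸ Ideal.span {(p : 𝓞 F)}) ⊗[ℤ] Additive (𝓞 B')ˣ →+ ((Ω ≃ₐ[F] Ω) → PM act),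
      ∀ (a : 𝓞 F) (u : (𝓞 B')ˣ), θ (Ideal.Quotient.mk _ a ⊗ₜ Additive.ofMul u) = a • kum act p 1 H (((u : 𝓞 B') : B') : Ω) t₀ := by
  have hun : ∀ u : (𝓞 B')ˣ, (((u : 𝓞 B') : B') : Ω) ≠ 0 := by
    intro u
    rw [Ne, ZeroMemClass.coe_eq_zero]
    exact fun h => u.ne_zero (RingOfIntegers.coe_eq_zero_iff.1 h)
  have huf : ∀ (u : (𝓞 B')ˣ) (h : Ω ≃ₐ[F] Ω), H h → h (((u : 𝓞 B') : B') : Ω) = (((u : 𝓞 B') : B') : Ω) := by
    intro u h hh
    exact (IntermediateField.mem_fixingSubgroup_iff _ _).1 (hfix h hh) _ ((u : 𝓞 B') : B').2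
  obtain ⟨K, hK⟩ : ∃ K : (𝓞 B')ˣ → ((Ω ≃ₐ[F] Ω) → PM act), ∀ u, K u = kum act p 1 H (((u : 𝓞 B') : B') : Ω) t₀ := ⟨_, fun _ => rfl⟩
  have hKm : ∀ u u', K (u * u') = K u + K u' := by
    intro u u'
    rw [hK, hK, hK, ← k4_mul hp hr (hun u) (hun u') h0 (huf u) (huf u')]
    rfl
  have hKp : ∀ (u) (x y : 𝓞 F), Ideal.Quotient.mk (Ideal.span {(p : 𝓞 F)}) x = Ideal.Quotient.mk (Ideal.span {(p : 𝓞 F)}) y →
      x • K u = y • K u := by
    intro u x y hxy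
    rw [Ideal.Quotient.mk_eq_mk_iff_sub_mem, Ideal.mem_span_singleton] at hxy
    obtain ⟨c, hc⟩ := hxy
    rw [← sub_eq_zero, ← sub_smul, hc, mul_comm, mul_smul, Nat.cast_smul_eq_nsmul, hK, k4_kp _ h0, smul_zero]
  let rep : (𝓞 F ⧸ Ideal.span {(p : 𝓞 F)}) → 𝓞 F := Function.surjInv Ideal.Quotient.mk_surjective
  have hrep : ∀ a, Ideal.Quotient.mk (Ideal.span {(p : 𝓞 F)}) (rep a) = a := fun a => Function.surjInv_eq _ a
  let f : (𝓞 F ⧸ Ideal.span {(p : 𝓞 F)}) →+ Additive (𝓞 B')ˣ →+ ((Ω ≃ₐ[F] Ω) → PM act) :=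
    AddMonoidHom.mk' (fun a => AddMonoidHom.mk' (fun u => rep a • K u.toMul) (by
      intro u u'
      rw [toMul_add, hKm, smul_add])) (by
      intro a b
      refine AddMonoidHom.ext fun u => ?_
      show rep (a + b) • K u.toMul = rep a • K u.toMul + rep b • K u.toMul
      rw [← add_smul]
      refine hKp _ _ _ ?_
      rw [map_add, hrep, hrep, hrep])
  have hf : ∀ a u, f a u = rep a • K u.toMul := fun a u => rfl
  have hbal : ∀ (r : ℤ) (a : 𝓞 F ⧸ Ideal.span {(p : 𝓞 F)}) (u : Additive (𝓞 B')ˣ), f (r • a) u = f a (r • u) := by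
    intro r a u
    rw [map_zsmul f r a, map_zsmul (f a) r u]
    rfl
  refine ⟨TensorProduct.liftAddHom f hbal, ?_⟩
  intro a u
  rw [TensorProduct.liftAddHom_tmul, hf, toMul_ofMul, hKp _ _ _ (hrep _), hK]

/-- Chunk K4a (S/M). A generator t₀ of the homomorphisms on the p-th roots of unity: t₀(zeta) = T₀ (tor_gen for k = 1). -/
theorem exists_t0 (dta : Dta A B Om j act mo ψ p) (ζ : Ω) (hζ : IsPrimitiveRoot ζ p) : ∃ (t₀ : Ω → PM act) (T₀ : PM act), IsT act p 1 t₀ ∧ t₀ ζ = T₀ ∧ T₀ ≠ 0 ∧ p • T₀ = 0 ∧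
    (∀ i : ℕ, t₀ (ζ ^ i) = i • T₀) ∧ ∀ a : 𝓞 F, a • T₀ = 0 ↔ (p : 𝓞 F) ∣ a := by
  classical
  have hp := dta.prime
  obtain ⟨T₀, h0, -, hz⟩ := tor_gen dta 1
  rw [pow_one] at h0 hz
  have hT0 : T₀ ≠ 0 := by
    intro h
    have h1 : (p : 𝓞 F) ∣ 1 := (hz 1).1 (by rw [h, smul_zero])
    have h2 : (p : 𝓞 F) ∣ ((1 : ℤ) : 𝓞 F) := by
      rw [Int.cast_one]
      exact h1
    have h3 := x2_nat_dvd h2
    have h5 : p ∣ 1 := by exact_mod_cast h3
    exact hp.one_lt.ne' (Nat.dvd_one.1 h5)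
  have hn0 : NeZero p := ⟨hp.ne_zero⟩
  have hex : ∀ z : Ω, z ^ p ^ 1 = 1 → ∃ i : ℕ, ζ ^ i = z := by
    intro z hz1
    rw [pow_one] at hz1
    obtain ⟨i, _, hi⟩ := hζ.eq_pow_of_pow_eq_one hz1
    exact ⟨i, hi⟩
  have hnp : ∀ i i' : ℕ, ζ ^ i = ζ ^ i' → i • T₀ = i' • T₀ := by
    intro i i' h
    have h1 := x2_pow hζ hp.pos h
    have h2 : ∀ n : ℕ, n • T₀ = (n % p) • T₀ := by
      intro n
      conv_lhs => rw [← Nat.div_add_mod n p]
      rw [add_smul, mul_comm, mul_smul, h0, smul_zero, zero_add]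
    rw [h2 i, h2 i', h1]
  let t₀ : Ω → PM act := fun z => if h : z ^ p ^ 1 = 1 then (hex z h).choose • T₀ else 0
  have ht : ∀ i : ℕ, t₀ (ζ ^ i) = i • T₀ := by
    intro i
    have h1 : (ζ ^ i) ^ p ^ 1 = 1 := by rw [← pow_mul, mul_comm, pow_mul, pow_one, hζ.pow_eq_one, one_pow]
    show (if h : (ζ ^ i) ^ p ^ 1 = 1 then (hex _ h).choose • T₀ else 0) = i • T₀
    rw [dif_pos h1]
    exact hnp _ _ (hex _ h1).choose_spec
  refine ⟨t₀, T₀, ⟨?_, ?_⟩, ?_, hT0, h0, ht, hz⟩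
  · intro z w hz1 hw1
    obtain ⟨i, rfl⟩ := hex z hz1
    obtain ⟨i', rfl⟩ := hex w hw1
    rw [← pow_add, ht, ht, ht, add_smul]
  · intro z hz1
    exact dif_neg hz1
  · have h1 := ht 1
    rwa [pow_one, one_smul] at h1

/-- Chunk K4b (S/M). s acts as a on the points killed by p: the conjugate of t₀ is lambda t₀ with lambda Nm a = a modulo p: s t₀(s^-1 z): s zeta = zeta^(Nm a) (ch_cyc), so with z = s zeta: s t₀(zeta) = a T₀ = t₀'(zeta^(Nm a)) = Nm a t₀'(zeta). -/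
theorem t0_cj (dta : Dta A B Om j act mo ψ p) (hin : Prime (p : 𝓞 F)) {ζ : Ω} (hζ : IsPrimitiveRoot ζ p) {t₀ : Ω → PM act} {T₀ : PM act} (h0 : IsT act p 1 t₀)
    (h1 : ∀ i : ℕ, t₀ (ζ ^ i) = i • T₀) (hT : p • T₀ = 0) (h2 : ∀ a : 𝓞 F, a • T₀ = 0 ↔ (p : 𝓞 F) ∣ a) {s : Ω ≃ₐ[F] Ω} {a l : 𝓞 F} (ha : Ch act p 1 s a)
    (hl : (p : 𝓞 F) ∣ l * (Nm a : 𝓞 F) - a) : (fun z => aM act s (t₀ (s⁻¹ z))) = l • t₀ := by
  have hn0 : NeZero p := ⟨dta.prime.ne_zero⟩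
  funext z
  rw [Pi.smul_apply]
  have hsz : s (s⁻¹ z) = z := s.apply_symm_apply z
  by_cases hz : z ^ p ^ 1 = 1
  · have hw : (s⁻¹ z) ^ p ^ 1 = 1 := by rw [← map_pow, hz, map_one]
    have hw' := hw
    rw [pow_one] at hw'
    obtain ⟨i, _, hi⟩ := hζ.eq_pow_of_pow_eq_one hw'
    have h3 : z = ζ ^ (i * Nm a) := by
      rw [pow_mul, hi, ← ch_cyc dta ha _ hw, hsz]
    rw [← hi, h1, map_nsmul, ha T₀ (by rw [pow_one]; exact hT), h3, h1]
    obtain ⟨c, hc⟩ := hl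
    have h4 : a = l * (Nm a : 𝓞 F) - p * c := by linear_combination -hc
    have h5 : a • T₀ = (l * (Nm a : 𝓞 F)) • T₀ := by
      conv_lhs => rw [h4]
      rw [sub_smul, mul_comm (p : 𝓞 F) c, mul_smul c, k4_smul, hT, smul_zero, sub_zero]
    rw [h5, mul_smul, Nat.cast_smul_eq_nsmul, smul_comm i l, ← mul_smul i]
  · have hw : (s⁻¹ z) ^ p ^ 1 ≠ 1 := by
      intro h
      apply hz
      rw [← hsz, ← map_pow, h, map_one]
    rw [h0.out _ hw, h0.out _ hz, map_zero, smul_zero]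

/-- Chunk K4c (M). The map (𝓞 F/p) (x) units(B) -> functions, a (x) u -> a kum 1 u t₀ (TensorProduct.lift; a kum = 0 for p | a; additive in u: kum_mul). -/
theorem exists_theta (dta : Dta A B Om j act mo ψ p) {G : Subgroup (Ω ≃ₐ[F] Ω)} {B' : IntermediateField F Ω} [NumberField B'] (hfix : ∀ h, SH act G p h → h ∈ B'.fixingSubgroup)
    {t₀ : Ω → PM act} (h0 : IsT act p 1 t₀) :
    ∃ θ : (𝓞 F ⧸ Ideal.span {(p : 𝓞 F)}) ⊗[ℤ] Additive (𝓞 B')ˣ →+ ((Ω ≃ₐ[F] Ω) → PM act),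
      ∀ (a : 𝓞 F) (u : (𝓞 B')ˣ), θ (Ideal.Quotient.mk _ a ⊗ₜ Additive.ofMul u) = a • kum act p 1 (SH act G p) (((u : 𝓞 B') : B') : Ω) t₀ :=
  k4_theta dta.prime (fun _ hh z hz => fa_root dta hh.2 1 z hz) hfix h0

omit [NumberField F] [IQ F] in
/-- The elements fixing the roots of unity: homomorphism property. -/
theorem k4_hm (hp : p.Prime) {H : (Ω ≃ₐ[F] Ω) → Prop} (hr : ∀ h, H h → ∀ z : Ω, z ^ p ^ 1 = 1 → h z = z) {u : Ω} (hu : u ≠ 0)
    {t : Ω → PM act} (ht : IsT act p 1 t) (hf : ∀ h, H h → h u = u) {h h' : Ω ≃ₐ[F] Ω} (hh : H h) (hh' : H h') (hm : H (h * h')) :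
    kum act p 1 H u t (h * h') = kum act p 1 H u t h + kum act p 1 H u t h' := by
  have hv := k4_rt (IsAlgClosure.isAlgClosed F) hp u
  have hpk : p ^ 1 ≠ 0 := pow_ne_zero _ hp.ne_zero
  have hv0 : rt p 1 u ≠ 0 := by
    intro h0
    rw [h0, zero_pow hpk] at hv
    exact hu hv.symm
  have h1 := k4_eq hp hr hu hv (t := t) hm (hf _ hm)
  have h2 := k4_eq hp hr hu hv (t := t) hh (hf _ hh)
  have h3 := k4_eq hp hr hu hv (t := t) hh' (hf _ hh')
  have h4 : (h * h') (rt p 1 u) / rt p 1 u = (h (rt p 1 u) / rt p 1 u) * (h' (rt p 1 u) / rt p 1 u) := by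
    have h5 := hr h hh _ h3.2
    rw [map_div₀] at h5
    have hh0 : h (rt p 1 u) ≠ 0 := by rwa [Ne, EmbeddingLike.map_eq_zero_iff]
    rw [AlgEquiv.mul_apply]
    rw [div_eq_div_iff hh0 hv0] at h5
    rw [div_mul_div_comm, div_eq_div_iff hv0 (mul_ne_zero hv0 hv0)]
    linear_combination (rt p 1 u) * h5
  rw [h1.1, h2.1, h3.1, h4, ht.mul _ _ h2.2 h3.2]

omit [IQ F] in
/-- Decomposition of a tensor along a basis of 𝓞 F. -/
theorem k4_dec {U : Type*} [CommGroup U] (z : (𝓞 F ⧸ Ideal.span {(p : 𝓞 F)}) ⊗[ℤ] Additive U) :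
    ∃ w : Module.Free.ChooseBasisIndex ℤ (𝓞 F) → U,
      z = ∑ i, Ideal.Quotient.mk (Ideal.span {(p : 𝓞 F)}) (RingOfIntegers.basis F i) ⊗ₜ[ℤ] Additive.ofMul (w i) := by
  induction z using TensorProduct.induction_on with
  | zero =>
    refine ⟨fun _ => 1, ?_⟩
    symm
    refine Finset.sum_eq_zero fun i _ => ?_
    rw [ofMul_one, TensorProduct.tmul_zero]
  | tmul a u =>
    obtain ⟨x, rfl⟩ := Ideal.Quotient.mk_surjective a
    refine ⟨fun i => u.toMul ^ ((RingOfIntegers.basis F).repr x i), ?_⟩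
    conv_lhs => rw [← (RingOfIntegers.basis F).sum_repr x]
    rw [map_sum, TensorProduct.sum_tmul]
    refine Finset.sum_congr rfl fun i _ => ?_
    rw [map_zsmul, TensorProduct.smul_tmul, ofMul_zpow, ofMul_toMul]
  | add x y hx hy =>
    obtain ⟨w, hw⟩ := hx
    obtain ⟨w', hw'⟩ := hy
    refine ⟨fun i => w i * w' i, ?_⟩
    rw [hw, hw', ← Finset.sum_add_distrib]
    refine Finset.sum_congr rfl fun i _ => ?_
    rw [ofMul_mul, TensorProduct.tmul_add]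

/-- A p-th root in B of a unit of B is a unit. -/
theorem k4_unit (hp : p.Prime) {B' : IntermediateField F Ω} [NumberField B'] (u : (𝓞 B')ˣ) {v : Ω} (hv : v ∈ B')
    (hvu : v ^ p ^ 1 = (((u : 𝓞 B') : B') : Ω)) : ∃ w : (𝓞 B')ˣ, w ^ p = u := by
  have hpp : 0 < p := hp.pos
  rw [pow_one] at hvu
  have key : ∀ (u : (𝓞 B')ˣ) (v : Ω) (hv : v ∈ B'), v ^ p = (((u : 𝓞 B') : B') : Ω) → IsIntegral ℤ (⟨v, hv⟩ : B') := by
    intro u v hv h
    refine IsIntegral.of_pow hpp ?_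
    have h1 : (⟨v, hv⟩ : B') ^ p = ((u : 𝓞 B') : B') := Subtype.ext h
    rw [h1]
    exact (u : 𝓞 B').2
  have hu1 : (((u : 𝓞 B') : B') : Ω) * ((((u⁻¹ : (𝓞 B')ˣ) : 𝓞 B') : B') : Ω) = 1 := by
    have h1 : (u : 𝓞 B') * ((u⁻¹ : (𝓞 B')ˣ) : 𝓞 B') = 1 := u.mul_inv
    have h2 := congrArg (fun x : 𝓞 B' => ((x : B') : Ω)) h1
    exact h2
  have hvi : v⁻¹ ∈ B' := B'.inv_mem hv
  have h2 : v⁻¹ ^ p = ((((u⁻¹ : (𝓞 B')ˣ) : 𝓞 B') : B') : Ω) := by
    rw [inv_pow, hvu]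
    exact inv_eq_of_mul_eq_one_right hu1
  have hv0 : v ≠ 0 := by
    rintro rfl
    rw [zero_pow hpp.ne'] at hvu
    rw [← hvu, zero_mul] at hu1
    exact zero_ne_one hu1
  let x : 𝓞 B' := ⟨⟨v, hv⟩, key u v hv hvu⟩
  let y : 𝓞 B' := ⟨⟨v⁻¹, hvi⟩, key u⁻¹ v⁻¹ hvi h2⟩
  have hxy : x * y = 1 := by
    apply RingOfIntegers.ext
    apply Subtype.ext
    exact mul_inv_cancel₀ hv0
  refine ⟨⟨x, y, hxy, by rw [mul_comm, hxy]⟩, ?_⟩
  apply Units.ext
  apply RingOfIntegers.ext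
  apply Subtype.ext
  exact hvu

/-- Chunk K4 (M/L). INJECTIVITY on the eigenvectors: B as in IsB with K > 0, sigma in G, sigma - 1 bijective on the points; z in (𝓞 F/p) (x) units(B) with theta z = 0 and sigma (theta z) = theta z computed through the units: (1 (x) sigma) z = mu z with mu l = 1 (l as in t0_cj). Then
z = 0. PROOF. 𝓞 F/p has an F_p-basis b_1, b_2 (classes of beta_1, beta_2 in 𝓞 F): z = sum b_i (x) u_i. Define Phi(h) = sum beta_i t₀(h v_i/v_i) for h fixing B, v_i^p = u_i: a homomorphism on B.fixingSubgroup (fixes zeta, u_i) extending theta z on SH. The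
eigenvector condition says that Phi(sigma h sigma^-1) = sigma Phi(h) for h fixing B (same computation as kum_cj; z -> Phi is additive and well defined on the tensor product). sigma h sigma^-1 h^-1 is in SH (fa_comm), so Phi(sigma h sigma^-1) = Phi(h): Phi(h) = 0
(Tb.inj). t₀(h v_i/v_i) = n_i T₀, sum beta_i n_i T₀ = 0: n_i = 0 modulo p: h v_i = v_i for all h fixing B: v_i is in B, a unit: u_i = v_i^p, b_i (x) u_i = p b_i (x) v_i = 0. -/
theorem theta_inj (dta : Dta A B Om j act mo ψ p) (hin : Prime (p : 𝓞 F)) {K : ℕ} (hK : 0 < K) {G : Subgroup (Ω ≃ₐ[F] Ω)} {B' : IntermediateField F Ω}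
    [FiniteDimensional F B'] [NumberField B'] (hB : IsB act p K G B') {ζ : Ω} (hζ : IsPrimitiveRoot ζ p) {t₀ : Ω → PM act} {T₀ : PM act} (h0 : IsT act p 1 t₀)
    (h1 : ∀ i : ℕ, t₀ (ζ ^ i) = i • T₀) (hT : p • T₀ = 0) (h2 : ∀ a : 𝓞 F, a • T₀ = 0 ↔ (p : 𝓞 F) ∣ a) {σ : Ω ≃ₐ[F] Ω} (hσ : σ ∈ G) (hb : Tb act p σ) {a l m : 𝓞 F}
    (ha : Ch act p 1 σ a) (hl : (p : 𝓞 F) ∣ l * (Nm a : 𝓞 F) - a) (hm : (p : 𝓞 F) ∣ m * l - 1)
    (τ : (𝓞 B')ˣ →* (𝓞 B')ˣ) (hτ : ∀ u : (𝓞 B')ˣ, (((τ u : 𝓞 B') : B') : Ω) = σ (((u : 𝓞 B') : B') : Ω))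
    (θ : (𝓞 F ⧸ Ideal.span {(p : 𝓞 F)}) ⊗[ℤ] Additive (𝓞 B')ˣ →+ ((Ω ≃ₐ[F] Ω) → PM act))
    (hθ : ∀ (a : 𝓞 F) (u : (𝓞 B')ˣ), θ (Ideal.Quotient.mk _ a ⊗ₜ Additive.ofMul u) = a • kum act p 1 (SH act G p) (((u : 𝓞 B') : B') : Ω) t₀)
    (z : (𝓞 F ⧸ Ideal.span {(p : 𝓞 F)}) ⊗[ℤ] Additive (𝓞 B')ˣ)
    (hz : (MonoidHom.toAdditive τ).toIntLinearMap.baseChange (𝓞 F ⧸ Ideal.span {(p : 𝓞 F)}) z = (Ideal.Quotient.mk (Ideal.span {(p : 𝓞 F)}) m) • z) (h3 : θ z = 0) : z = 0 := by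
  classical
  have hp := dta.prime
  have hcm := cm dta
  have hn0 : NeZero p := ⟨hp.ne_zero⟩
  let H : (Ω ≃ₐ[F] Ω) → Prop := fun h => h ∈ B'.fixingSubgroup
  have hr : ∀ h, H h → ∀ z : Ω, z ^ p ^ 1 = 1 → h z = z := by
    intro h hh z hz
    have h4 : Ch act p 1 h 1 := ch_mono (by omega) ((hB h).1 hh).2
    have h5 : Nm (1 : 𝓞 F) = 1 := by
      have h6 := H55K.Nm_nat (F := F) 1
      simpa using h6
    rw [ch_cyc dta h4 z hz, h5, pow_one]
  have hun : ∀ u : (𝓞 B')ˣ, (((u : 𝓞 B') : B') : Ω) ≠ 0 := by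
    intro u
    rw [Ne, ZeroMemClass.coe_eq_zero]
    exact fun h => u.ne_zero (RingOfIntegers.coe_eq_zero_iff.1 h)
  have huf : ∀ (u : (𝓞 B')ˣ) (h : Ω ≃ₐ[F] Ω), H h → h (((u : 𝓞 B') : B') : Ω) = (((u : 𝓞 B') : B') : Ω) := by
    intro u h hh
    exact (IntermediateField.mem_fixingSubgroup_iff _ _).1 hh _ ((u : 𝓞 B') : B').2
  obtain ⟨θ', hθ'⟩ := k4_theta hp hr (fun _ h => h) h0
  have hSH : ∀ h, SH act G p h → H h := fun h hh => (hB h).2 ⟨hh.1, fa_iff.1 hh.2 K⟩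
  have e1 : ∀ w h, SH act G p h → θ' w h = θ w h := by
    intro w h hh
    induction w using TensorProduct.induction_on with
    | zero => rw [map_zero, map_zero]
    | tmul x u =>
      obtain ⟨x, rfl⟩ := Ideal.Quotient.mk_surjective x
      rw [← ofMul_toMul u, hθ', hθ, Pi.smul_apply, Pi.smul_apply]
      unfold kum
      rw [if_pos (hSH h hh), if_pos hh]
    | add x y hx hy => rw [map_add, map_add, Pi.add_apply, Pi.add_apply, hx, hy]
  have e2 : ∀ (c : 𝓞 F) w, θ' (Ideal.Quotient.mk (Ideal.span {(p : 𝓞 F)}) c • w) = c • θ' w := by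
    intro c w
    induction w using TensorProduct.induction_on with
    | zero => rw [smul_zero, map_zero, smul_zero]
    | tmul x u =>
      obtain ⟨x, rfl⟩ := Ideal.Quotient.mk_surjective x
      rw [TensorProduct.smul_tmul', smul_eq_mul, ← map_mul, ← ofMul_toMul u, hθ', hθ', mul_smul]
    | add x y hx hy => rw [smul_add, map_add, map_add, hx, hy, smul_add]
  have ep : ∀ w, p • θ' w = 0 := by
    intro w
    induction w using TensorProduct.induction_on with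
    | zero => rw [map_zero, smul_zero]
    | tmul x u =>
      obtain ⟨x, rfl⟩ := Ideal.Quotient.mk_surjective x
      rw [← ofMul_toMul u, hθ', smul_comm, k4_kp _ h0, smul_zero]
    | add x y hx hy => rw [map_add, smul_add, hx, hy, add_zero]
  have hch : ∀ (h : Ω ≃ₐ[F] Ω), H h → ∀ s ∈ G, H (s * h * s⁻¹) := by
    intro h hh s hs
    obtain ⟨h4, h5⟩ := (hB h).1 hh
    refine (hB _).2 ⟨mul_mem (mul_mem hs h4) (inv_mem hs), ?_⟩
    intro T hT
    rw [aM_mul, aM_mul, h5 _ (by rw [← map_nsmul, hT, map_zero]), one_smul, one_smul, aM_inv]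
  have hiff : ∀ h, H (σ⁻¹ * h * σ) ↔ H h := by
    intro h
    constructor
    · intro h4
      have h5 := hch _ h4 σ hσ
      have h6 : σ * (σ⁻¹ * h * σ) * σ⁻¹ = h := by group
      rwa [h6] at h5
    · intro h4
      have h5 := hch h h4 σ⁻¹ (inv_mem hσ)
      rwa [inv_inv] at h5
  have hkc : ∀ u : (𝓞 B')ˣ, cjL act hcm σ (kum act p 1 H (((u : 𝓞 B') : B') : Ω) t₀) =
      l • kum act p 1 H (((τ u : 𝓞 B') : B') : Ω) t₀ := by
    intro u
    funext h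
    show aM act σ (kum act p 1 H (((u : 𝓞 B') : B') : Ω) t₀ (σ⁻¹ * h * σ)) =
      l • kum act p 1 H (((τ u : 𝓞 B') : B') : Ω) t₀ h
    by_cases hh : H h
    · have hh' := (hiff h).2 hh
      have hv := k4_rt (IsAlgClosure.isAlgClosed F) hp (((u : 𝓞 B') : B') : Ω)
      have h4 := k4_eq hp hr (hun u) hv (t := t₀) hh' (huf u _ hh')
      have h5 := k4_eq hp hr (hun (τ u)) (v := σ (rt p 1 (((u : 𝓞 B') : B') : Ω))) (by rw [← map_pow, hv, hτ]) (t := t₀) hh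
        (huf (τ u) _ hh)
      rw [h4.1, h5.1]
      have h6 := congrFun (t0_cj dta hin hζ h0 h1 hT h2 ha hl) (h (σ (rt p 1 (((u : 𝓞 B') : B') : Ω))) / σ (rt p 1 (((u : 𝓞 B') : B') : Ω)))
      rw [Pi.smul_apply] at h6
      rw [← h6, map_div₀]
      have h7 : (σ⁻¹ : Ω ≃ₐ[F] Ω) (σ (rt p 1 (((u : 𝓞 B') : B') : Ω))) = rt p 1 (((u : 𝓞 B') : B') : Ω) := σ.symm_apply_apply _
      rw [h7]
      rfl
    · have hh' : ¬ H (σ⁻¹ * h * σ) := fun h4 => hh ((hiff h).1 h4)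
      unfold kum
      rw [if_neg hh, if_neg hh', map_zero, smul_zero]
  have e3 : ∀ w, cjL act hcm σ (θ' w) = l • θ' ((MonoidHom.toAdditive τ).toIntLinearMap.baseChange (𝓞 F ⧸ Ideal.span {(p : 𝓞 F)}) w) := by
    intro w
    induction w using TensorProduct.induction_on with
    | zero => simp only [map_zero, smul_zero]
    | tmul x u =>
      obtain ⟨x, rfl⟩ := Ideal.Quotient.mk_surjective x
      have h4 : (MonoidHom.toAdditive τ).toIntLinearMap u = Additive.ofMul (τ u.toMul) := rfl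
      rw [LinearMap.baseChange_tmul, h4, hθ', ← ofMul_toMul u, hθ', map_smul, toMul_ofMul, hkc, smul_comm]
    | add x y hx hy => simp only [map_add, smul_add, hx, hy]
  have e4 : cjL act hcm σ (θ' z) = θ' z := by
    rw [e3, hz, e2, ← mul_smul]
    obtain ⟨c, hc⟩ := hm
    have h4 : l * m = 1 + c * p := by linear_combination hc
    rw [h4, add_smul, one_smul, mul_smul, Nat.cast_smul_eq_nsmul, ep, smul_zero, add_zero]
  have e6 : ∀ w h h', H h → H h' → θ' w (h * h') = θ' w h + θ' w h' := by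
    intro w h h' hh hh'
    induction w using TensorProduct.induction_on with
    | zero => rw [map_zero, Pi.zero_apply, Pi.zero_apply, Pi.zero_apply, add_zero]
    | tmul x u =>
      obtain ⟨x, rfl⟩ := Ideal.Quotient.mk_surjective x
      rw [← ofMul_toMul u, hθ', Pi.smul_apply, Pi.smul_apply, Pi.smul_apply,
        k4_hm hp hr (hun _) h0 (huf _) hh hh' (mul_mem hh hh'), smul_add]
    | add x y hx hy => rw [map_add, Pi.add_apply, Pi.add_apply, Pi.add_apply, hx, hy, add_add_add_comm]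
  have e5 : ∀ h, H h → θ' z h = 0 := by
    intro h hh
    have hG := ((hB h).1 hh).1
    have h4 : SH act G p (σ⁻¹ * h * σ * h⁻¹) := by
      refine ⟨mul_mem (mul_mem (mul_mem (inv_mem hσ) hG) hσ) (inv_mem hG), ?_⟩
      have h5 := fa_comm dta σ⁻¹ h
      rwa [inv_inv] at h5
    have h5 : θ' z (σ⁻¹ * h * σ) = θ' z h := by
      have h6 : σ⁻¹ * h * σ = (σ⁻¹ * h * σ * h⁻¹) * h := by group
      rw [h6, e6 z _ _ (hSH _ h4) hh, e1 z _ h4, h3, Pi.zero_apply, zero_add]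
    have h6 := congrFun e4 h
    have h7 : aM act σ (θ' z (σ⁻¹ * h * σ)) = θ' z h := h6
    rw [h5] at h7
    refine hb.inj _ ⟨1, ?_⟩ h7
    have h8 := congrFun (ep z) h
    rw [pow_one]
    exact h8
  obtain ⟨w, hw⟩ := k4_dec z
  have e7 : ∀ i, ∀ h, H h → h (rt p 1 ((((w i : 𝓞 B') : B')) : Ω)) = rt p 1 ((((w i : 𝓞 B') : B')) : Ω) := by
    intro i h hh
    have hv : ∀ i, _ := fun i => k4_rt (IsAlgClosure.isAlgClosed F) hp (((w i : 𝓞 B') : B') : Ω)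
    have h4 : ∀ i, _ := fun i => k4_eq hp hr (hun (w i)) (hv i) (t := t₀) hh (huf (w i) _ hh)
    have h5 : ∀ i, ∃ n : ℕ, ζ ^ n = h (rt p 1 ((((w i : 𝓞 B') : B')) : Ω)) / rt p 1 ((((w i : 𝓞 B') : B')) : Ω) := by
      intro i
      obtain ⟨n, _, hn⟩ := hζ.eq_pow_of_pow_eq_one (by have := (h4 i).2; rwa [pow_one] at this)
      exact ⟨n, hn⟩
    choose n hn using h5
    have h6 : (∑ i, (n i : 𝓞 F) * (RingOfIntegers.basis F i : 𝓞 F)) • T₀ = 0 := by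
      rw [Finset.sum_smul, ← e5 h hh, hw, map_sum, Finset.sum_apply]
      refine Finset.sum_congr rfl fun i _ => ?_
      rw [hθ', Pi.smul_apply, (h4 i).1, ← hn i, h1, mul_comm, mul_smul, Nat.cast_smul_eq_nsmul]
    obtain ⟨c, hc⟩ := (h2 _).1 h6
    have h7 : (p : ℤ) ∣ (n i : ℤ) := by
      have h8 : (RingOfIntegers.basis F).repr (∑ i, (n i : 𝓞 F) * (RingOfIntegers.basis F i : 𝓞 F)) i = (n i : ℤ) := by
        have h9 : ∑ i, (n i : 𝓞 F) * (RingOfIntegers.basis F i : 𝓞 F) = ∑ i, (n i : ℤ) • (RingOfIntegers.basis F i : 𝓞 F) := by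
          refine Finset.sum_congr rfl fun i _ => ?_
          rw [zsmul_eq_mul, Int.cast_natCast]
        rw [h9, Module.Basis.repr_sum_self]
      have h10 : (RingOfIntegers.basis F).repr ((p : 𝓞 F) * c) i = (p : ℤ) * (RingOfIntegers.basis F).repr c i := by
        have h9 : (p : 𝓞 F) * c = (p : ℤ) • c := by rw [zsmul_eq_mul, Int.cast_natCast]
        rw [h9, map_zsmul, Finsupp.smul_apply, smul_eq_mul]
      rw [← h8, hc, h10]
      exact dvd_mul_right _ _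
    have h8 : p ∣ n i := by exact_mod_cast h7
    have h9 : ζ ^ n i = 1 := (hζ.pow_eq_one_iff_dvd _).2 h8
    have hv0 : rt p 1 ((((w i : 𝓞 B') : B')) : Ω) ≠ 0 := by
      intro h0
      have h10 := hv i
      rw [h0, zero_pow (pow_ne_zero _ hp.ne_zero)] at h10
      exact hun (w i) h10.symm
    rw [hn i, div_eq_one_iff_eq hv0] at h9
    exact h9
  have hg : IsGalois F Ω := IsAlgClosure.isGalois F Ω
  have e8 : ∀ i, ∃ w' : (𝓞 B')ˣ, w' ^ p = w i := by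
    intro i
    refine k4_unit hp (w i) (v := rt p 1 ((((w i : 𝓞 B') : B')) : Ω)) ?_ (k4_rt (IsAlgClosure.isAlgClosed F) hp _)
    have h4 : rt p 1 ((((w i : 𝓞 B') : B')) : Ω) ∈ IntermediateField.fixedField B'.fixingSubgroup := by
      rw [IntermediateField.mem_fixedField_iff]
      exact fun f hf => e7 i f hf
    rwa [InfiniteGalois.fixedField_fixingSubgroup] at h4
  rw [hw]
  refine Finset.sum_eq_zero fun i _ => ?_
  obtain ⟨w', hw'⟩ := e8 i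
  rw [← hw', ofMul_pow, ← TensorProduct.smul_tmul, ← map_nsmul]
  have h4 : Ideal.Quotient.mk (Ideal.span {(p : 𝓞 F)}) (p • (RingOfIntegers.basis F i : 𝓞 F)) = 0 := by
    rw [Ideal.Quotient.eq_zero_iff_mem, Ideal.mem_span_singleton, nsmul_eq_mul]
    exact dvd_mul_right _ _
  rw [h4, TensorProduct.zero_tmul]

end H35L
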