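import Mathlib

/-! # H35L: automorphisms acting on the units of a number field (definitions) -/

open NumberField NumberField.Units

namespace H35L

section

variable {L : Type} [Field L] [NumberField L]

/-- The automorphism on the units. -/
noncomputable def uM (σ : L ≃ₐ[ℚ] L) : (𝓞 L)ˣ →* (𝓞 L)ˣ :=
  Units.map (RingOfIntegers.mapRingHom (σ : L →+* L) : 𝓞 L →* 𝓞 L)

theorem uM_val (σ : L ≃ₐ[ℚ] L) (u : (𝓞 L)ˣ) : ((uM σ u : 𝓞 L) : L) = σ ((u : 𝓞 L) : L) := rfl

/-- The automorphism on the units, additively. -/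
noncomputable def uA (σ : L ≃ₐ[ℚ] L) : Additive (𝓞 L)ˣ →ₗ[ℤ] Additive (𝓞 L)ˣ :=
  (MonoidHom.toAdditive (uM σ)).toIntLinearMap

/-- The permutation of the infinite places on the functions. -/
noncomputable def pZ (R : Type) [CommRing R] (σ : L ≃ₐ[ℚ] L) : (InfinitePlace L → R) →ₗ[R] (InfinitePlace L → R) :=
  LinearMap.funLeft R R (fun w => w.comap (σ : L →+* L))

/-- sigma^n = 1 and no power of sigma of exponent between 0 and n fixes an infinite place. -/
def FreeA (σ : L ≃ₐ[ℚ] L) (n : ℕ) : Prop :=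
  σ ^ n = 1 ∧ ∀ (w : InfinitePlace L) (i : ℕ), 0 < i → i < n → w.comap ((σ ^ i : L ≃ₐ[ℚ] L) : L →+* L) ≠ w

end

end H35L
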