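import Mathlib
import Pool.Agent.Lib.H35L.U0

/-! # H35L, chunk U1A (M): a real basis from the units -/

open NumberField NumberField.Units

namespace H35L

variable {L : Type} [Field L] [NumberField L]

/-- the family of the basis -/
noncomputable def u1a_v (L : Type) [Field L] [NumberField L] :
    Fin (rank L) ⊕ Unit → (InfinitePlace L → ℝ) :=
  Sum.elim (fun i w => w.mult * Real.log (w ((fundSystem L i : 𝓞 L) : L))) (fun _ _ => 1)

theorem u1a_li (L : Type) [Field L] [NumberField L] : LinearIndependent ℝ (u1a_v L) := by
  classical
  rw [Fintype.linearIndependent_iff]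
  intro g hg
  rw [Fintype.sum_sum_type] at hg
  have h1 : ∀ w : InfinitePlace L, ∑ i : Fin (rank L), g (Sum.inl i) *
      (w.mult * Real.log (w ((fundSystem L i : 𝓞 L) : L))) + g (Sum.inr ()) = 0 := by
    intro w
    have h2 := congrFun hg w
    simpa [u1a_v] using h2
  have h3 : g (Sum.inr ()) = 0 := by
    have h4 : ∑ w : InfinitePlace L, (∑ i : Fin (rank L), g (Sum.inl i) *
      (w.mult * Real.log (w ((fundSystem L i : 𝓞 L) : L))) + g (Sum.inr ())) = 0 :=
      Finset.sum_eq_zero fun w _ => h1 w
    rw [Finset.sum_add_distrib, Finset.sum_comm] at h4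
    have h5 : ∀ i : Fin (rank L), ∑ w : InfinitePlace L, g (Sum.inl i) *
      (w.mult * Real.log (w ((fundSystem L i : 𝓞 L) : L))) = 0 := by
      intro i
      rw [← Finset.mul_sum, sum_mult_mul_log, mul_zero]
    rw [Finset.sum_eq_zero fun i _ => h5 i, zero_add, Finset.sum_const, nsmul_eq_mul,
      Finset.card_univ] at h4
    rcases mul_eq_zero.1 h4 with h | h
    · exfalso
      have h6 : Fintype.card (InfinitePlace L) = 0 := by exact_mod_cast h
      rw [Fintype.card_eq_zero_iff] at h6
      exact h6.elim (inferInstance : Nonempty (InfinitePlace L)).some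
    · exact h
  have h7 : LinearIndependent ℝ ((basisUnitLattice L).ofZLatticeBasis ℝ (unitLattice L)) :=
    Module.Basis.linearIndependent _
  rw [Fintype.linearIndependent_iff] at h7
  have h8 : ∑ i : Fin (rank L), g (Sum.inl i) •
      (basisUnitLattice L).ofZLatticeBasis ℝ (unitLattice L) i = 0 := by
    funext w
    rw [Finset.sum_apply]
    have h9 := h1 w.1
    rw [h3, add_zero] at h9
    rw [Pi.zero_apply, ← h9]
    refine Finset.sum_congr rfl fun i _ => ?_
    rw [Pi.smul_apply, smul_eq_mul, Module.Basis.ofZLatticeBasis_apply, ← logEmbedding_fundSystem]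
    rfl
  have h10 := h7 _ h8
  intro i
  rcases i with i | i
  · exact h10 i
  · exact h3

/-- Chunk U1A (M). A real basis of the functions on the infinite places: the vectors l(b) = (w -> mult w log |b|_w) for b in the fundamental system of units (Mathlib: fundSystem, logEmbedding_fundSystem, basisUnitLattice), and the constant function 1.
Independence: if sum c_i l(b_i) + c = 0, the sum over all w (product formula, Units.sum_mult_mul_log: the sum of every l(b) is 0) gives c = 0; then the components w <> w₀ give sum c_i logEmbedding b_i = 0, so c_i = 0 since the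
logEmbedding b_i are a real basis (basisUnitLattice is a ℤ-basis of the full lattice unitLattice: Basis.ofZLatticeBasis). Their number is rank + 1 = number of places. -/
theorem exists_basis (L : Type) [Field L] [NumberField L] : ∃ b : Module.Basis (Fin (rank L) ⊕ Unit) ℝ (InfinitePlace L → ℝ),
    (∀ i w, b (Sum.inl i) w = w.mult * Real.log (w ((fundSystem L i : 𝓞 L) : L))) ∧ b (Sum.inr ()) = fun _ => 1 := by
  have hc : Fintype.card (Fin (rank L) ⊕ Unit) = Module.finrank ℝ (InfinitePlace L → ℝ) := by
    rw [Fintype.card_sum, Fintype.card_fin, Module.finrank_fintype_fun_eq_card]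
    have h1 : 0 < Fintype.card (InfinitePlace L) := Fintype.card_pos
    have h2 : rank L = Fintype.card (InfinitePlace L) - 1 := rfl
    rw [h2]
    simp only [Fintype.card_unique]
    omega
  refine ⟨basisOfLinearIndependentOfCardEqFinrank (u1a_li L) hc, ?_, ?_⟩
  · intro i w
    rw [coe_basisOfLinearIndependentOfCardEqFinrank]
    rfl
  · rw [coe_basisOfLinearIndependentOfCardEqFinrank]
    rfl

end H35L
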