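import Mathlib
import Pool.Agent.Lib.H35L.U1A

/-! # H35L, chunk U1 (M/L): the characteristic polynomial on the units -/

open NumberField NumberField.Units Polynomial

namespace H35L

variable {L : Type} [Field L] [NumberField L]

/-- two additive maps on the units agree if they agree on the torsion and on the fundamental system -/
theorem u1_ext {A : Type} [AddCommGroup A] (f g : Additive (𝓞 L)ˣ →+ A)
    (h1 : ∀ z : (𝓞 L)ˣ, z ∈ torsion L → f (Additive.ofMul z) = g (Additive.ofMul z))
    (h2 : ∀ i, f (Additive.ofMul (fundSystem L i)) = g (Additive.ofMul (fundSystem L i)))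
    (u : Additive (𝓞 L)ˣ) : f u = g u := by
  obtain ⟨⟨z, e⟩, hx, -⟩ := exist_unique_eq_mul_prod L u.toMul
  have h3 : u = Additive.ofMul ((z : (𝓞 L)ˣ) * ∏ i, fundSystem L i ^ e i) := by
    rw [← ofMul_toMul u]
    exact congrArg Additive.ofMul hx
  rw [h3, ofMul_mul, ofMul_prod, map_add, map_add, map_sum, map_sum, h1 z z.2]
  congr 1
  refine Finset.sum_congr rfl fun i _ => ?_
  rw [ofMul_zpow, map_zsmul, map_zsmul, h2]

theorem u1_uni (x : (𝓞 L)ˣ) (y y' : torsion L × (Fin (rank L) → ℤ))
    (h : x = y.1 * ∏ i, fundSystem L i ^ y.2 i) (h' : x = y'.1 * ∏ i, fundSystem L i ^ y'.2 i) :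
    y = y' := by
  obtain ⟨z, -, hz⟩ := exist_unique_eq_mul_prod L x
  exact (hz y h).trans (hz y' h').symm

/-- the exponents as an additive map -/
theorem u1_exp (L : Type) [Field L] [NumberField L] :
    ∃ e : Additive (𝓞 L)ˣ →+ (Fin (rank L) → ℤ),
      ∀ x : (𝓞 L)ˣ, ∃ z : torsion L, x = z * ∏ i, fundSystem L i ^ e (Additive.ofMul x) i := by
  choose y hy _ using fun x : (𝓞 L)ˣ => exist_unique_eq_mul_prod L x
  refine ⟨{ toFun := fun x => (y x.toMul).2
            map_zero' := ?_
            map_add' := ?_ }, fun x => ⟨(y x).1, hy x⟩⟩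
  · have h1 := u1_uni (1 : (𝓞 L)ˣ) (y 1) (1, 0) (hy 1) (by simp)
    change (y 1).2 = 0
    rw [h1]
  · intro a b
    have h1 := u1_uni (a.toMul * b.toMul) (y (a.toMul * b.toMul))
      ((y a.toMul).1 * (y b.toMul).1, (y a.toMul).2 + (y b.toMul).2) (hy _) (by
        simp only [Pi.add_apply, zpow_add, Finset.prod_mul_distrib, Subgroup.coe_mul]
        nth_rewrite 1 [hy a.toMul, hy b.toMul]
        exact mul_mul_mul_comm _ _ _ _)
    change (y (a.toMul * b.toMul)).2 = _
    rw [h1]

/-- Chunk U1b (S/M). The exponents: Mathlib's basisModTorsion, fundSystem_mk, exist_unique_eq_mul_prod, fun_eq_repr. (The instance Module ℤ (Additive ((𝓞 L)ˣ ⧸ torsion L)) is awkward: AddCommGroup.toIntModule; it is easier to define the map by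
exist_unique_eq_mul_prod.) -/
theorem exists_ex (L : Type) [Field L] [NumberField L] : ∃ ex : Additive (𝓞 L)ˣ →ₗ[ℤ] (Fin (rank L) → ℤ),
    (∀ i, ex (Additive.ofMul (fundSystem L i)) = Pi.single i 1) ∧ ∀ u : (𝓞 L)ˣ, ex (Additive.ofMul u) = 0 ↔ u ∈ torsion L := by
  classical
  obtain ⟨e0, he0⟩ := u1_exp L
  refine ⟨e0.toIntLinearMap, ?_, ?_⟩
  · intro i
    change e0 (Additive.ofMul (fundSystem L i)) = Pi.single i 1
    obtain ⟨z, hz⟩ := he0 (fundSystem L i)
    have h1 := u1_uni (fundSystem L i) (z, e0 (Additive.ofMul (fundSystem L i)))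
      (1, Pi.single i 1) hz (by
        rw [Finset.prod_eq_single i]
        · simp
        · intro j _ hj
          change fundSystem L j ^ (Pi.single i 1 : Fin (rank L) → ℤ) j = 1
          rw [Pi.single_eq_of_ne hj, zpow_zero]
        · intro hi
          exact absurd (Finset.mem_univ i) hi)
    exact congrArg Prod.snd h1
  · intro u
    change e0 (Additive.ofMul u) = 0 ↔ u ∈ torsion L
    obtain ⟨z, hz⟩ := he0 u
    constructor
    · intro h
      rw [h] at hz
      rw [hz]
      simp
    · intro h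
      have h1 := u1_uni u (z, e0 (Additive.ofMul u)) (⟨u, h⟩, 0) hz (by simp)
      exact congrArg Prod.snd h1

theorem u1_mult (σ : L ≃ₐ[ℚ] L) (w : InfinitePlace L) :
    (w.comap (σ : L →+* L)).mult = w.mult := by
  apply le_antisymm (InfinitePlace.mult_comap_le _ _)
  have h1 : (w.comap (σ : L →+* L)).comap ((σ.symm : L ≃ₐ[ℚ] L) : L →+* L) = w := by
    rw [← InfinitePlace.comap_comp]
    have h2 : (σ : L →+* L).comp ((σ.symm : L ≃ₐ[ℚ] L) : L →+* L) = RingHom.id L := by
      ext x
      exact σ.apply_symm_apply x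
    rw [h2]
    rfl
  conv_lhs => rw [← h1]
  exact InfinitePlace.mult_comap_le _ _

/-- the logarithmic embedding with all places -/
noncomputable def u1_l (L : Type) [Field L] [NumberField L] : Additive (𝓞 L)ˣ →+ (InfinitePlace L → ℝ) where
  toFun u w := w.mult * Real.log (w ((u.toMul : 𝓞 L) : L))
  map_zero' := by
    funext w
    simp
  map_add' := by
    intro u v
    funext w
    have h1 : ∀ x : (𝓞 L)ˣ, w ((x : 𝓞 L) : L) ≠ 0 := by
      intro x
      rw [Ne, map_eq_zero]
      exact_mod_cast x.ne_zero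
    simp only [toMul_add, Units.val_mul, map_mul, Pi.add_apply]
    rw [Real.log_mul (h1 _) (h1 _), mul_add]

theorem u1_map (σ : L ≃ₐ[ℚ] L) :
    ((pZ ℤ σ).charpoly).map (Int.castRingHom ℝ) = (pZ ℝ σ).charpoly := by
  classical
  rw [← LinearMap.charpoly_toMatrix (pZ ℤ σ) (Pi.basisFun ℤ (InfinitePlace L)),
    ← LinearMap.charpoly_toMatrix (pZ ℝ σ) (Pi.basisFun ℝ (InfinitePlace L)),
    ← Matrix.charpoly_map]
  congr 1
  ext w w'
  rw [Matrix.map_apply, LinearMap.toMatrix_apply, LinearMap.toMatrix_apply]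
  simp only [Pi.basisFun_apply, Pi.basisFun_repr, pZ, LinearMap.funLeft_apply]
  rw [Pi.single_apply, Pi.single_apply]
  split_ifs <;> simp

/-- Chunk U1 (M/L). tau = the endomorphism of the exponents induced by sigma (sigma maps the torsion to the torsion, ex is onto). The matrix of pZ ℝ sigma in the basis of exists_basis is the block diagonal matrix (matrix of tau, 1): with u = sigma(b_i),
l(u)(w) = l(b_i)(w.comap sigma) (mult (w.comap sigma) = mult w), l(u) = sum_j ex(u)_j l(b_j) (l is additive, 0 on roots of unity). So the characteristic polynomials agree over ℝ (LinearMap.charpoly_toMatrix, Matrix.charpoly of a block triangular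
matrix, Matrix.charpoly_map), hence over ℤ (Polynomial.map_injective). -/
theorem u_charpoly (σ : L ≃ₐ[ℚ] L) : ∃ (ex : Additive (𝓞 L)ˣ →ₗ[ℤ] (Fin (rank L) → ℤ)) (τ : (Fin (rank L) → ℤ) →ₗ[ℤ] (Fin (rank L) → ℤ)),
    Function.Surjective ex ∧ (∀ u, ex (uA σ u) = τ (ex u)) ∧ τ.charpoly * (X - 1) = (pZ ℤ σ).charpoly := by
  classical
  obtain ⟨ex, hex1, hex2⟩ := exists_ex L
  let τ : (Fin (rank L) → ℤ) →ₗ[ℤ] (Fin (rank L) → ℤ) :=
    (Pi.basisFun ℤ (Fin (rank L))).constr ℤ (fun i => ex (uA σ (Additive.ofMul (fundSystem L i))))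
  have hτs : ∀ i, τ (Pi.single i 1) = ex (uA σ (Additive.ofMul (fundSystem L i))) := by
    intro i
    have h1 := (Pi.basisFun ℤ (Fin (rank L))).constr_basis ℤ
      (fun i => ex (uA σ (Additive.ofMul (fundSystem L i)))) i
    rwa [Pi.basisFun_apply] at h1
  have hτ : ∀ u, ex (uA σ u) = τ (ex u) := by
    intro u
    refine u1_ext ((ex ∘ₗ uA σ).toAddMonoidHom) ((τ ∘ₗ ex).toAddMonoidHom) ?_ ?_ u
    · intro z hz
      change ex (uA σ (Additive.ofMul z)) = τ (ex (Additive.ofMul z))
      rw [(hex2 z).2 hz, map_zero]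
      have h1 : uM σ z ∈ torsion L := by
        rw [torsion, CommGroup.mem_torsion] at hz ⊢
        exact MonoidHom.isOfFinOrder (uM σ) hz
      exact (hex2 (uM σ z)).2 h1
    · intro i
      change ex (uA σ (Additive.ofMul (fundSystem L i))) = τ (ex (Additive.ofMul (fundSystem L i)))
      rw [hex1, hτs]
  have hsurj : Function.Surjective ex := by
    intro y
    refine ⟨∑ i, y i • Additive.ofMul (fundSystem L i), ?_⟩
    rw [map_sum]
    have h1 : ∀ i, ex (y i • Additive.ofMul (fundSystem L i)) = Pi.single i (y i) := by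
      intro i
      rw [map_zsmul, hex1]
      funext j
      rw [Pi.smul_apply, Pi.single_apply, Pi.single_apply]
      split_ifs <;> simp
    rw [Finset.sum_congr rfl fun i _ => h1 i]
    exact Finset.univ_sum_single y
  refine ⟨ex, τ, hsurj, hτ, ?_⟩
  obtain ⟨b, hb1, hb2⟩ := exists_basis L
  have hb1' : ∀ i, b (Sum.inl i) = u1_l L (Additive.ofMul (fundSystem L i)) := by
    intro i
    funext w
    exact hb1 i w
  have hl : ∀ u : Additive (𝓞 L)ˣ, u1_l L u = ∑ i, ((ex u i : ℤ) : ℝ) • b (Sum.inl i) := by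
    intro u
    let g : Additive (𝓞 L)ˣ →+ (InfinitePlace L → ℝ) :=
      { toFun := fun u => ∑ i, ((ex u i : ℤ) : ℝ) • b (Sum.inl i)
        map_zero' := by simp
        map_add' := by
          intro x y
          rw [← Finset.sum_add_distrib]
          refine Finset.sum_congr rfl fun i _ => ?_
          rw [map_add, Pi.add_apply, Int.cast_add, add_smul] }
    refine u1_ext (u1_l L) g ?_ ?_ u
    · intro z hz
      change u1_l L (Additive.ofMul z) = ∑ i, ((ex (Additive.ofMul z) i : ℤ) : ℝ) • b (Sum.inl i)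
      rw [(hex2 z).2 hz]
      have h1 : ∑ i, (((0 : Fin (rank L) → ℤ) i : ℤ) : ℝ) • b (Sum.inl i) = 0 := by simp
      rw [h1]
      funext w
      change (w.mult : ℝ) * Real.log (w ((z : 𝓞 L) : L)) = 0
      rw [(mem_torsion L).1 hz w, Real.log_one, mul_zero]
    · intro i
      change u1_l L (Additive.ofMul (fundSystem L i)) =
        ∑ j, ((ex (Additive.ofMul (fundSystem L i)) j : ℤ) : ℝ) • b (Sum.inl j)
      rw [hex1, ← hb1', Finset.sum_eq_single i]
      · simp
      · intro j _ hj
        rw [Pi.single_eq_of_ne hj]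
        simp
      · intro hi
        exact absurd (Finset.mem_univ i) hi
  have hσl : ∀ u : Additive (𝓞 L)ˣ, pZ ℝ σ (u1_l L u) = u1_l L (uA σ u) := by
    intro u
    funext w
    change ((w.comap (σ : L →+* L)).mult : ℝ) * Real.log ((w.comap (σ : L →+* L)) ((u.toMul : 𝓞 L) : L)) =
      (w.mult : ℝ) * Real.log (w (((uM σ u.toMul : (𝓞 L)ˣ) : 𝓞 L) : L))
    rw [u1_mult]
    rfl
  have hM : LinearMap.toMatrix b b (pZ ℝ σ) = Matrix.fromBlocks
      ((LinearMap.toMatrix (Pi.basisFun ℤ (Fin (rank L))) (Pi.basisFun ℤ (Fin (rank L))) τ).map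
        (Int.castRingHom ℝ)) 0 0 (1 : Matrix Unit Unit ℝ) := by
    have h1 : ∀ j, pZ ℝ σ (b (Sum.inl j)) =
        ∑ i, ((ex (uA σ (Additive.ofMul (fundSystem L j))) i : ℤ) : ℝ) • b (Sum.inl i) := by
      intro j
      rw [hb1', hσl, hl]
    have h2 : pZ ℝ σ (b (Sum.inr ())) = b (Sum.inr ()) := by
      rw [hb2]
      rfl
    ext i j
    rw [LinearMap.toMatrix_apply]
    rcases j with j | j
    · rw [h1]
      rcases i with i | i
      · rw [Matrix.fromBlocks_apply₁₁, Matrix.map_apply, LinearMap.toMatrix_apply,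
          Pi.basisFun_apply, hτs, Pi.basisFun_repr]
        simp [Finsupp.single_apply]
      · rw [Matrix.fromBlocks_apply₂₁]
        simp
    · rw [show j = () from rfl, h2]
      rcases i with i | i
      · rw [Matrix.fromBlocks_apply₁₂]
        simp
      · rw [Matrix.fromBlocks_apply₂₂]
        simp
  have h3 : (τ.charpoly * (X - 1)).map (Int.castRingHom ℝ) = ((pZ ℤ σ).charpoly).map (Int.castRingHom ℝ) := by
    rw [u1_map, ← LinearMap.charpoly_toMatrix (pZ ℝ σ) b, hM, Matrix.charpoly_fromBlocks_zero₁₂,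
      Matrix.charpoly_map, LinearMap.charpoly_toMatrix, Matrix.charpoly_one]
    simp
  exact Polynomial.map_injective _ (RingHom.injective_int _) h3

end H35L
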