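import Mathlib
import Pool.Agent.Lib.H35L.U0

/-! # H35L, chunk U2 (M): eigenfunctions of a free permutation -/

open NumberField NumberField.Units Polynomial

namespace H35L

variable {L : Type} [Field L] [NumberField L]

section comb

variable {S : Type} (T : S → S) {n : ℕ}

theorem u2_mul (h1 : T^[n] = id) (i : ℕ) : T^[n * i] = id := by
  rw [Function.iterate_mul, h1, Function.iterate_id]

theorem u2_mod (h1 : T^[n] = id) (i : ℕ) : T^[i] = T^[i % n] := by
  conv_lhs => rw [← Nat.mod_add_div i n]
  rw [Function.iterate_add, u2_mul T h1]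
  rfl

theorem u2_inj (hn : 0 < n) (h1 : T^[n] = id) : Function.Injective T := by
  have h2 : Function.LeftInverse (T^[n - 1]) T := by
    intro x
    have h3 : T^[n - 1] (T x) = T^[n - 1 + 1] x := rfl
    rw [h3, Nat.sub_add_cancel hn, h1]
    rfl
  exact h2.injective

theorem u2_idx (hn : 0 < n) (h1 : T^[n] = id) (h2 : ∀ w i, 0 < i → i < n → T^[i] w ≠ w)
    (w : S) (i j : ℕ) (h : T^[i] w = T^[j] w) : i % n = j % n := by
  wlog hij : i ≤ j generalizing i j
  · exact (this j i h.symm (by omega)).symm
  obtain ⟨d, rfl⟩ := Nat.exists_eq_add_of_le hij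
  rw [Function.iterate_add_apply] at h
  have h3 : w = T^[d] w := (u2_inj T hn h1).iterate i h
  have h4 : T^[d % n] w = w := by rw [← u2_mod T h1]; exact h3.symm
  have h5 : d % n = 0 := by
    by_contra hc
    exact h2 w (d % n) (Nat.pos_of_ne_zero hc) (Nat.mod_lt _ hn) h4
  rw [Nat.add_mod, h5, add_zero, Nat.mod_mod]

/-- the orbits -/
def u2_s (hn : 0 < n) (h1 : T^[n] = id) : Setoid S where
  r w w' := ∃ i, T^[i] w = w'
  iseqv := by
    refine ⟨fun w => ⟨0, rfl⟩, ?_, ?_⟩
    · rintro w w' ⟨i, rfl⟩
      refine ⟨(n - 1) * i, ?_⟩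
      rw [← Function.iterate_add_apply]
      have h3 : (n - 1) * i + i = n * i := by
        obtain ⟨m, rfl⟩ : ∃ m, n = m + 1 := ⟨n - 1, by omega⟩
        rw [Nat.add_sub_cancel]; ring
      rw [h3, u2_mul T h1]
      rfl
    · rintro w w' w'' ⟨i, rfl⟩ ⟨j, rfl⟩
      exact ⟨j + i, Function.iterate_add_apply _ _ _ _⟩

end comb

/-- Chunk U2a (M), pure combinatorics: T a permutation of the finite set S of N n elements with T^n = id and no fixed point of T^i, 0 < i < n; mu^n = 1: the functions f with f(T w) = mu f(w) form a space of dimension at least N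
(in fact N). PROOF. S is the union of N orbits of n elements; f is arbitrary at a representative of every orbit: the map f -> (values at the representatives) is onto k^N (f(T^i w) = mu^i f(w) is well defined). -/
theorem eig_free {S : Type} [Fintype S] [DecidableEq S] (T : S → S) {n N : ℕ} (hn : 0 < n) (h1 : T^[n] = id)
    (h2 : ∀ w i, 0 < i → i < n → T^[i] w ≠ w) (hc : Fintype.card S = N * n) {k : Type} [Field k] (μ : k) (hμ : μ ^ n = 1) :
    N ≤ Module.finrank k (Module.End.eigenspace (LinearMap.funLeft k k T) μ) := by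
  classical
  let Q := Quotient (u2_s T hn h1)
  have hex : ∀ w : S, ∃ i, T^[i] (Quotient.out (Quotient.mk (u2_s T hn h1) w)) = w := by
    intro w
    have h3 : (u2_s T hn h1).r (Quotient.out (Quotient.mk (u2_s T hn h1) w)) w :=
      Quotient.exact (Quotient.out_eq _)
    exact h3
  choose idx hidx using hex
  have hpow : ∀ i j : ℕ, i % n = j % n → μ ^ i = μ ^ j := by
    intro i j h
    rw [pow_eq_pow_mod i hμ, h, ← pow_eq_pow_mod j hμ]
  have hq : ∀ w, Quotient.mk (u2_s T hn h1) (T w) = Quotient.mk (u2_s T hn h1) w := by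
    intro w
    exact (Quotient.sound (s := u2_s T hn h1) (show (u2_s T hn h1).r w (T w) from ⟨1, rfl⟩)).symm
  have hstep : ∀ w, idx (T w) % n = (idx w + 1) % n := by
    intro w
    apply u2_idx T hn h1 h2 (Quotient.out (Quotient.mk (u2_s T hn h1) w))
    have h3 := hidx (T w)
    rw [hq] at h3
    rw [h3, add_comm, Function.iterate_add_apply, hidx]
    rfl
  have hcard : Fintype.card Q = N := by
    have e : Q × Fin n ≃ S := Equiv.ofBijective (fun x => T^[(x.2 : ℕ)] (Quotient.out x.1)) (by
      constructor
      · rintro ⟨q, i⟩ ⟨q', j⟩ h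
        have h3 : T^[(i : ℕ)] (Quotient.out q) = T^[(j : ℕ)] (Quotient.out q') := h
        have h4 : q = q' := by
          have h5 : ∀ (x : Q) (m : ℕ), Quotient.mk (u2_s T hn h1) (T^[m] (Quotient.out x)) = x := by
            intro x m
            have h6 : Quotient.mk (u2_s T hn h1) (Quotient.out x) =
                Quotient.mk (u2_s T hn h1) (T^[m] (Quotient.out x)) :=
              Quotient.sound (s := u2_s T hn h1)
                (show (u2_s T hn h1).r (Quotient.out x) (T^[m] (Quotient.out x)) from ⟨m, rfl⟩)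
            rw [← h6]
            exact Quotient.out_eq x
          rw [← h5 q i, h3, h5]
        subst h4
        have h5 := u2_idx T hn h1 h2 _ _ _ h3
        rw [Nat.mod_eq_of_lt i.2, Nat.mod_eq_of_lt j.2] at h5
        rw [Fin.ext h5]
      · intro w
        refine ⟨(Quotient.mk (u2_s T hn h1) w, ⟨idx w % n, Nat.mod_lt _ hn⟩), ?_⟩
        change T^[idx w % n] _ = w
        rw [← u2_mod T h1]
        exact hidx w)
    have h3 := Fintype.card_congr e
    rw [Fintype.card_prod, Fintype.card_fin, hc] at h3
    exact Nat.eq_of_mul_eq_mul_right hn h3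
  let Φ : (Q → k) →ₗ[k] (Module.End.eigenspace (LinearMap.funLeft k k T) μ) :=
    { toFun := fun a => ⟨fun w => μ ^ idx w * a (Quotient.mk (u2_s T hn h1) w), by
        rw [Module.End.mem_eigenspace_iff]
        funext w
        rw [LinearMap.funLeft_apply, Pi.smul_apply, smul_eq_mul, hq, hpow _ _ (hstep w), pow_succ]
        ring⟩
      map_add' := by
        intro a b
        apply Subtype.ext
        funext w
        exact mul_add _ _ _
      map_smul' := by
        intro c a
        apply Subtype.ext
        funext w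
        change μ ^ idx w * (c * a _) = c * (μ ^ idx w * a _)
        ring }
  have hΦ : Function.Injective Φ := by
    intro a b hab
    funext q
    obtain ⟨w, rfl⟩ := Quotient.exists_rep q
    have h3 := congrFun (congrArg Subtype.val hab) w
    change μ ^ idx w * a _ = μ ^ idx w * b _ at h3
    have h4 : μ ^ idx w ≠ 0 := by
      apply pow_ne_zero
      intro h0
      rw [h0, zero_pow hn.ne'] at hμ
      exact zero_ne_one hμ
    exact mul_left_cancel₀ h4 h3
  have h3 := LinearMap.finrank_le_finrank_of_injective hΦ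
  rw [Module.finrank_fintype_fun_eq_card, hcard] at h3
  exact h3

theorem u2_map (σ : L ≃ₐ[ℚ] L) {k : Type} [Field k] :
    ((pZ ℤ σ).charpoly).map (Int.castRingHom k) = (pZ k σ).charpoly := by
  classical
  rw [← LinearMap.charpoly_toMatrix (pZ ℤ σ) (Pi.basisFun ℤ (InfinitePlace L)),
    ← LinearMap.charpoly_toMatrix (pZ k σ) (Pi.basisFun k (InfinitePlace L)),
    ← Matrix.charpoly_map]
  congr 1
  ext w w'
  rw [Matrix.map_apply, LinearMap.toMatrix_apply, LinearMap.toMatrix_apply]
  simp only [Pi.basisFun_apply, Pi.basisFun_repr, pZ, LinearMap.funLeft_apply]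
  rw [Pi.single_apply, Pi.single_apply]
  split_ifs <;> simp

/-- Chunk U2b (S/M). The multiplicity of the root mu of the characteristic polynomial over ℤ, reduced to k, is at least N: charpoly of funLeft ℤ mapped to k is charpoly of funLeft k (matrices, Matrix.charpoly_map),
LinearMap.finrank_eigenspace_le, eig_free with T w = w.comap σ (T^[i] w = w.comap (σ^i)). -/
theorem u_mult (σ : L ≃ₐ[ℚ] L) {n N : ℕ} (hn : 0 < n) (h : FreeA σ n) (hc : Nat.card (InfinitePlace L) = N * n) {k : Type} [Field k]
    (μ : k) (hμ : μ ^ n = 1) : N ≤ (((pZ ℤ σ).charpoly).map (Int.castRingHom k)).rootMultiplicity μ := by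
  classical
  rw [u2_map]
  refine le_trans ?_ (LinearMap.finrank_eigenspace_le (pZ k σ) μ)
  have hit : ∀ (i : ℕ) (w : InfinitePlace L), (fun w : InfinitePlace L => w.comap (σ : L →+* L))^[i] w =
      w.comap ((σ ^ i : L ≃ₐ[ℚ] L) : L →+* L) := by
    intro i
    induction i with
    | zero => intro w; rfl
    | succ i ih =>
      intro w
      rw [Function.iterate_succ_apply, ih]
      rw [← InfinitePlace.comap_comp]
      congr 1
      ext x
      rw [pow_succ']
      rfl
  refine eig_free (fun w : InfinitePlace L => w.comap (σ : L →+* L)) hn ?_ ?_ ?_ μ hμ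
  · funext w
    rw [hit, h.1]
    rfl
  · intro w i h0 hi
    rw [hit]
    exact h.2 w i h0 hi
  · rw [← Nat.card_eq_fintype_card]
    exact hc

end H35L
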