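import Mathlib
import Pool.Agent.Lib.H35L.U1
import Pool.Agent.Lib.H35L.U2

/-! # H35L, chunk U3 (M): eigenspaces on the exponents -/

open NumberField NumberField.Units Polynomial

namespace H35L

variable {L : Type} [Field L] [NumberField L]

/-- Chunk U3a (S/M). An endomorphism f of a finite-dimensional space with f^n = 1, n <> 0 in k, is semisimple: its generalised eigenspaces are the eigenspaces (X^n - 1 is separable; Module.End.IsFinitelySemisimple.maxGenEigenspace_eq_eigenspace or
directly: (f - mu)^2 v = 0 implies (f - mu) v = 0: f = mu + e, e^2 = 0 on v, f^n v = mu^n v + n mu^(n-1) e v, mu^n = 1). -/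
theorem eig_ss {k V : Type} [Field k] [AddCommGroup V] [Module k V] [FiniteDimensional k V] (f : Module.End k V) {n : ℕ} (hn : (n : k) ≠ 0)
    (hf : f ^ n = 1) (μ : k) : f.maxGenEigenspace μ = f.eigenspace μ := by
  have h1 : (X ^ n - 1 : k[X]).Separable := X_pow_sub_one_separable_iff.2 hn
  have h2 : f.IsSemisimple := by
    apply Module.End.isSemisimple_of_squarefree_aeval_eq_zero h1.squarefree
    rw [map_sub, map_pow, aeval_X, map_one, hf, sub_self]
  exact h2.isFinitelySemisimple.maxGenEigenspace_eq_eigenspace μ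

/-- Chunk U3 (M). hx reduced to k: the multiplicity of mu <> 1 in the characteristic polynomial of tau is that of pZ; u_mult; LinearMap.finrank_maxGenEigenspace_eq, LinearMap.charpoly_baseChange; eig_ss. -/
theorem u_eig (σ : L ≃ₐ[ℚ] L) {n N : ℕ} (hn : 0 < n) (h : FreeA σ n) (hc : Nat.card (InfinitePlace L) = N * n)
    {r : ℕ} (τ : (Fin r → ℤ) →ₗ[ℤ] (Fin r → ℤ)) (hτ : τ ^ n = 1) (hx : τ.charpoly * (X - 1) = (pZ ℤ σ).charpoly) {k : Type} [Field k]
    (hnk : (n : k) ≠ 0) (μ : k) (hμ : μ ^ n = 1) (h1 : μ ≠ 1) :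
    N ≤ Module.finrank k (Module.End.eigenspace (τ.baseChange k) μ) := by
  have h2 : (τ.baseChange k) ^ n = 1 := by
    rw [← LinearMap.baseChange_pow, hτ]
    exact LinearMap.baseChange_id
  rw [← eig_ss (τ.baseChange k) hnk h2 μ, LinearMap.finrank_maxGenEigenspace_eq,
    LinearMap.charpoly_baseChange]
  have h3 := u_mult σ hn h hc μ hμ
  rw [← hx, Polynomial.map_mul] at h3
  have h4 : (τ.charpoly.map (Int.castRingHom k)).Monic := (LinearMap.charpoly_monic τ).map _
  have h5 : ((X - 1 : ℤ[X]).map (Int.castRingHom k)) = X - C 1 := by simp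
  rw [h5] at h3
  have h6 : τ.charpoly.map (Int.castRingHom k) * (X - C 1) ≠ 0 :=
    mul_ne_zero h4.ne_zero (X_sub_C_ne_zero 1)
  rw [Polynomial.rootMultiplicity_mul h6] at h3
  have h7 : rootMultiplicity μ (X - C 1 : k[X]) = 0 := by
    apply Polynomial.rootMultiplicity_eq_zero
    rw [Polynomial.root_X_sub_C]
    exact fun h => h1 h.symm
  rw [h7, add_zero] at h3
  exact h3

end H35L
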