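import Mathlib
import Pool.Agent.Lib.H35L.U3

/-! # H35L, chunk U4 (M): eigenspaces on the units -/

open NumberField NumberField.Units TensorProduct Polynomial

namespace H35L

variable {L : Type} [Field L] [NumberField L]

theorem u4_pow (σ : L ≃ₐ[ℚ] L) (i : ℕ) : (uA σ) ^ i = uA (σ ^ i) := by
  induction i with
  | zero =>
    apply LinearMap.ext
    intro u
    rfl
  | succ i ih =>
    rw [pow_succ, pow_succ, ih]
    apply LinearMap.ext
    intro u
    rfl

/-- the averaged vector is an eigenvector -/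
theorem u4_avg {k V : Type} [Field k] [AddCommGroup V] [Module k V] (U : Module.End k V) {n : ℕ}
    (hU : U ^ n = 1) (μ : k) (hμ : μ ^ n = 1) (hn : 0 < n) (z : V) :
    U (∑ i ∈ Finset.range n, (μ⁻¹) ^ i • (U ^ i) z) =
      μ • ∑ i ∈ Finset.range n, (μ⁻¹) ^ i • (U ^ i) z := by
  have hμ0 : μ ≠ 0 := by
    intro h
    rw [h, zero_pow hn.ne'] at hμ
    exact zero_ne_one hμ
  have h1 : U (∑ i ∈ Finset.range n, (μ⁻¹) ^ i • (U ^ i) z) =
      μ • ∑ i ∈ Finset.range n, (μ⁻¹) ^ (i + 1) • (U ^ (i + 1)) z := by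
    rw [map_sum, Finset.smul_sum]
    refine Finset.sum_congr rfl fun i _ => ?_
    rw [map_smul, smul_smul, pow_succ' U, Module.End.mul_apply]
    congr 1
    rw [pow_succ, mul_comm, mul_assoc, inv_mul_cancel₀ hμ0, mul_one]
  rw [h1]
  congr 1
  have h2 := Finset.sum_range_succ' (fun i => (μ⁻¹) ^ i • (U ^ i) z) n
  rw [Finset.sum_range_succ] at h2
  have h3 : (μ⁻¹) ^ n • (U ^ n) z = (μ⁻¹) ^ 0 • (U ^ 0) z := by
    rw [hU, inv_pow, hμ, inv_one, pow_zero, pow_zero]
  rw [h3] at h2
  exact (add_right_cancel h2).symm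

/-- Chunk U4 (M). ex, tau from u_charpoly; tau^n = 1 (ex is onto, sigma^n = 1). The map k (x) units -> k (x) ℤ^r is onto and commutes with sigma, tau; both have n-th power 1 with n invertible in k, so it is onto on the eigenspaces: for v in the
eigenspace downstairs and any preimage z the element (1/n) sum over i < n of mu^(-i) sigma^i z is an eigenvector with image v. So the eigenspace upstairs has at least (card k)^N elements (u_eig; it is finite: k (x) units is finite-dimensional, Additive units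
is a finite ℤ-module). -/
theorem u_card (σ : L ≃ₐ[ℚ] L) {n N : ℕ} (hn : 0 < n) (h : FreeA σ n) (hc : Nat.card (InfinitePlace L) = N * n) {k : Type} [Field k] [Finite k]
    (hnk : (n : k) ≠ 0) (μ : k) (hμ : μ ^ n = 1) (h1 : μ ≠ 1) :
    Nat.card k ^ N ≤ Nat.card {z : k ⊗[ℤ] Additive (𝓞 L)ˣ // (uA σ).baseChange k z = μ • z} := by
  classical
  obtain ⟨ex, τ, hsurj, hτ, hx⟩ := u_charpoly σ
  have hτi : ∀ (i : ℕ) u, ex (((uA σ) ^ i) u) = (τ ^ i) (ex u) := by
    intro i
    induction i with
    | zero => intro u; rfl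
    | succ i ih =>
      intro u
      rw [pow_succ', pow_succ', Module.End.mul_apply, Module.End.mul_apply, hτ, ih]
  have hUn : (uA σ) ^ n = 1 := by
    rw [u4_pow, h.1]
    apply LinearMap.ext
    intro u
    rfl
  have hτn : τ ^ n = 1 := by
    apply LinearMap.ext
    intro y
    obtain ⟨u, rfl⟩ := hsurj y
    rw [← hτi, hUn]
    rfl
  have hE := u_eig σ hn h hc τ hτn hx hnk μ hμ h1
  have hg : Function.Surjective (ex.baseChange k) := LinearMap.lTensor_surjective k hsurj
  have hU' : ((uA σ).baseChange k) ^ n = 1 := by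
    rw [← LinearMap.baseChange_pow, hUn]
    exact LinearMap.baseChange_id
  have hcomm : ∀ z, ex.baseChange k ((uA σ).baseChange k z) = τ.baseChange k (ex.baseChange k z) := by
    intro z
    have h2 : (ex.baseChange k) ∘ₗ ((uA σ).baseChange k) = (τ.baseChange k) ∘ₗ (ex.baseChange k) := by
      rw [← LinearMap.baseChange_comp, ← LinearMap.baseChange_comp]
      congr 1
      apply LinearMap.ext
      exact hτ
    exact LinearMap.congr_fun h2 z
  have hcommi : ∀ (i : ℕ) z, ex.baseChange k ((((uA σ).baseChange k) ^ i) z) =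
      ((τ.baseChange k) ^ i) (ex.baseChange k z) := by
    intro i
    induction i with
    | zero => intro z; rfl
    | succ i ih =>
      intro z
      rw [pow_succ', pow_succ', Module.End.mul_apply, Module.End.mul_apply, hcomm, ih]
  have hμ0 : μ ≠ 0 := by
    intro h
    rw [h, zero_pow hn.ne'] at hμ
    exact zero_ne_one hμ
  have hfin : Finite (k ⊗[ℤ] Additive (𝓞 L)ˣ) := Module.finite_of_finite k
  have hfin2 : Finite (k ⊗[ℤ] (Fin (rank L) → ℤ)) := Module.finite_of_finite k
  have hcard : Nat.card (Module.End.eigenspace (τ.baseChange k) μ) =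
      Nat.card k ^ Module.finrank k (Module.End.eigenspace (τ.baseChange k) μ) :=
    Module.natCard_eq_pow_finrank (K := k) (V := Module.End.eigenspace (τ.baseChange k) μ)
  have hpos : 0 < Nat.card k := Nat.card_pos
  refine (Nat.pow_le_pow_right hpos hE).trans ?_
  rw [← hcard]
  let f : {z : k ⊗[ℤ] Additive (𝓞 L)ˣ // (uA σ).baseChange k z = μ • z} →
      (Module.End.eigenspace (τ.baseChange k) μ) :=
    fun z => ⟨ex.baseChange k z.1, by
      rw [Module.End.mem_eigenspace_iff, ← hcomm, z.2, map_smul]⟩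
  refine Nat.card_le_card_of_surjective f ?_
  rintro ⟨v, hv⟩
  rw [Module.End.mem_eigenspace_iff] at hv
  obtain ⟨z, hz⟩ := hg v
  have hvi : ∀ i : ℕ, ((τ.baseChange k) ^ i) v = μ ^ i • v := by
    intro i
    induction i with
    | zero => simp
    | succ i ih =>
      rw [pow_succ', Module.End.mul_apply, ih, map_smul, hv, smul_smul, pow_succ]
  refine ⟨⟨(n : k)⁻¹ • ∑ i ∈ Finset.range n, (μ⁻¹) ^ i • (((uA σ).baseChange k) ^ i) z, ?_⟩, ?_⟩
  · rw [map_smul, u4_avg _ hU' μ hμ hn z, smul_comm]
  · apply Subtype.ext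
    change ex.baseChange k ((n : k)⁻¹ • ∑ i ∈ Finset.range n, (μ⁻¹) ^ i • (((uA σ).baseChange k) ^ i) z) = v
    rw [map_smul, map_sum]
    have h2 : ∀ i ∈ Finset.range n, ex.baseChange k ((μ⁻¹) ^ i • (((uA σ).baseChange k) ^ i) z) = v := by
      intro i _
      rw [map_smul, hcommi, hz, hvi, smul_smul, ← mul_pow, inv_mul_cancel₀ hμ0, one_pow, one_smul]
    rw [Finset.sum_congr rfl h2, Finset.sum_const, Finset.card_range, ← Nat.cast_smul_eq_nsmul k,
      smul_smul, inv_mul_cancel₀ hnk, one_smul]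

end H35L
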