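import Mathlib
import Pool.Agent.Lib.H35L.K4
import Pool.Agent.Lib.H35L.U4

/-! # H35L, chunk K5 (M): there are many Kummer classes -/

open NumberField IsDedekindDomain WeierstrassCurve

namespace H35L

open H55P (IQ Pt ac Inert Dec Nm)
open H35P (WAB)
open H55K (CMA Dta)
open H35K (Lev)

open TensorProduct

variable {F : Type} [Field F] [NumberField F] [IQ F] {A B : F} {Om : ℂ} {Ω : Type} [Field Ω] [DecidableEq Ω]
  [Algebra F Ω] [IsAlgClosure F Ω] {j : Ω →+* ℂ} {act : 𝓞 F →+* AddMonoid.End (Pt (WAB A B) Ω)} {mo : Ideal (𝓞 F)}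
  {ψ : Ideal (𝓞 F) →*₀ 𝓞 F} {p : ℕ}


/-- No embedding of F is real. -/
theorem k5_notreal (F : Type) [Field F] [NumberField F] [IQ F] (φ : F →+* ℂ) : ¬ ComplexEmbedding.IsReal φ := by
  intro h
  have h1 : (starRingEnd ℂ).comp φ = φ := by
    ext x
    have h2 := RingHom.congr_fun (ComplexEmbedding.isReal_iff.1 h) x
    exact h2
  by_cases hφ : φ = H55P.embF F
  · rw [hφ] at h1
    exact H55K.d1_conj_ne F h1
  · have h2 := H55K.d1_emb F φ _ hφ (H55K.d1_conj_ne F)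
    apply hφ
    rw [← h1, h2]
    ext x
    exact Complex.conj_conj _

theorem k5_tc (F : Type) [Field F] [NumberField F] [IQ F] : IsTotallyComplex F := by
  refine ⟨fun v => ?_⟩
  rw [← InfinitePlace.not_isReal_iff_isComplex]
  intro h
  exact k5_notreal F _ (InfinitePlace.isReal_iff.1 h)

omit [DecidableEq Ω] [IsAlgClosure F Ω] in
/-- Chunk K5a (S/M). A finite extension B of the imaginary quadratic field F has [B:F] infinite places: all are complex (IQ.im: the restriction to F of an embedding is not real), nrComplexPlaces = [B:ℚ]/2 = [B:F]. -/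
theorem card_places (B' : IntermediateField F Ω) [FiniteDimensional F B'] [NumberField B'] :
    Nat.card (InfinitePlace B') = Module.finrank F B' := by
  have h0 : IsTotallyComplex F := k5_tc F
  have h1 : IsTotallyComplex B' := isTotallyComplex_of_algebra F B'
  have h2 := InfinitePlace.card_add_two_mul_card_eq_rank B'
  have h3 : InfinitePlace.nrRealPlaces B' = 0 := IsTotallyComplex.nrRealPlaces_eq_zero B'
  have h4 : Module.finrank ℚ F * Module.finrank F B' = Module.finrank ℚ B' := Module.finrank_mul_finrank ℚ F B'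
  have h5 : Module.finrank ℚ F = 2 := IQ.deg
  have h6 := InfinitePlace.card_eq_nrRealPlaces_add_nrComplexPlaces B'
  rw [Nat.card_eq_fintype_card, h6, h3, zero_add]
  rw [h3, zero_add, ← h4, h5] at h2
  omega


omit [IsAlgClosure F Ω] in
theorem k5_ch (hc : Cm act) {K : ℕ} {σ : Ω ≃ₐ[F] Ω} {a : 𝓞 F} (ha : Ch act p K σ a) (i : ℕ) : Ch act p K (σ ^ i) (a ^ i) := by
  induction i with
  | zero =>
    rw [pow_zero, pow_zero]
    intro T _
    rw [aM_one, one_smul]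
  | succ i ih =>
    rw [pow_succ, pow_succ]
    exact ch_mul hc ih ha

theorem k5_stab {K : ℕ} {G : Subgroup (Ω ≃ₐ[F] Ω)} {B' : IntermediateField F Ω} (hB : IsB act p K G B') {s : Ω ≃ₐ[F] Ω} (hs : s ∈ G)
    {x : Ω} (hx : x ∈ B') : s x ∈ B' := by
  have halg : IsGalois F Ω := IsAlgClosure.isGalois F Ω
  rw [← InfiniteGalois.fixedField_fixingSubgroup B', IntermediateField.mem_fixedField_iff]
  intro t ht
  have h1 : s⁻¹ * t * s ∈ B'.fixingSubgroup := by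
    rw [hB] at ht ⊢
    refine ⟨mul_mem (mul_mem (inv_mem hs) ht.1) hs, ?_⟩
    intro T hT
    have hT' : p ^ K • aM act s T = 0 := by rw [← map_nsmul, hT, map_zero]
    rw [aM_mul, aM_mul, ht.2 _ hT', one_smul, one_smul, ← aM_mul, inv_mul_cancel, aM_one]
  have h2 := (IntermediateField.mem_fixingSubgroup_iff _ _).1 h1 x hx
  have h3 : s (s⁻¹ (t (s x))) = s x := congrArg s h2
  have h4 : s (s⁻¹ (t (s x))) = t (s x) := s.apply_symm_apply _
  rw [← h4, h3]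

/-- The restriction to B. -/
theorem k5_restr {K : ℕ} {G : Subgroup (Ω ≃ₐ[F] Ω)} {B' : IntermediateField F Ω} [FiniteDimensional F B'] [NumberField B'] (hB : IsB act p K G B')
    {s : Ω ≃ₐ[F] Ω} (hs : s ∈ G) : ∃ τ : B' ≃ₐ[ℚ] B', ∀ x : B', ((τ x : B') : Ω) = s (x : Ω) := by
  let f : B' →ₐ[F] B' := ((s : Ω →ₐ[F] Ω).comp B'.val).codRestrict B'.toSubalgebra (fun x => k5_stab hB hs x.2)
  have hf : Function.Bijective f := AlgHom.bijective f
  let e : B' ≃ₐ[F] B' := AlgEquiv.ofBijective f hf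
  exact ⟨e.restrictScalars ℚ, fun x => rfl⟩

/-- Chunk K5b (M). sigma restricted to B is an automorphism of order q - 1 and its powers sigma^i, 0 < i < q-1, fix no infinite place: sigma^(q-1) fixes B (IsSig.pw, IsB). w.comap sigma^i = w: phi sigma^i = phi, so sigma^i is the identity on B, a^i = 1 modulo p (it
acts as a^i on the points killed by p), q - 1 divides i (IsSig.gen); or phi sigma^i = conj phi: on F, sigma^i is the identity, phi is real on F: impossible (IQ.im and d1_emb). -/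
theorem sig_free (dta : Dta A B Om j act mo ψ p) (hin : Prime (p : 𝓞 F)) {K : ℕ} (hK : 0 < K) {G : Subgroup (Ω ≃ₐ[F] Ω)} {B' : IntermediateField F Ω}
    [FiniteDimensional F B'] [NumberField B'] (hB : IsB act p K G B') {σ : Ω ≃ₐ[F] Ω} (hσ : σ ∈ G) {a : 𝓞 F} (ha : IsSig act p K σ a) :
    ∃ τ : B' ≃ₐ[ℚ] B', (∀ x : B', ((τ x : B') : Ω) = σ (x : Ω)) ∧ FreeA τ (p ^ 2 - 1) := by
  obtain ⟨τ, hτ⟩ := k5_restr hB hσ
  have hpow : ∀ (i : ℕ) (x : B'), (((τ ^ i : B' ≃ₐ[ℚ] B') x : B') : Ω) = (σ ^ i : Ω ≃ₐ[F] Ω) (x : Ω) := by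
    intro i
    induction i with
    | zero => intro x; rfl
    | succ i ih =>
      intro x
      rw [pow_succ, pow_succ, AlgEquiv.mul_apply, AlgEquiv.mul_apply, ih, hτ]
  have hfix : ∀ (i : ℕ), σ ^ i ∈ B'.fixingSubgroup ↔ (p : 𝓞 F) ^ K ∣ a ^ i - 1 := by
    intro i
    rw [hB]
    constructor
    · rintro ⟨_, h1⟩
      exact ch_uniq dta (k5_ch (cm dta) ha.ch i) h1
    · intro h1
      exact ⟨pow_mem hσ i, ch_congr (k5_ch (cm dta) ha.ch i) h1⟩
  refine ⟨τ, hτ, ?_, ?_⟩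
  · apply AlgEquiv.ext
    intro x
    apply Subtype.ext
    rw [hpow]
    exact (IntermediateField.mem_fixingSubgroup_iff _ _).1 ((hfix _).2 ha.pw) x x.2
  · intro w i hi0 hi1 hw
    have h1 : InfinitePlace.mk (w.embedding.comp ((τ ^ i : B' ≃ₐ[ℚ] B') : B' →+* B')) = InfinitePlace.mk w.embedding := by
      rw [← InfinitePlace.comap_mk, InfinitePlace.mk_embedding]
      exact hw
    rcases InfinitePlace.mk_eq_iff.1 h1 with h2 | h2
    · have h3 : σ ^ i ∈ B'.fixingSubgroup := by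
        rw [IntermediateField.mem_fixingSubgroup_iff]
        intro x hx
        have h4 := RingHom.congr_fun h2 ⟨x, hx⟩
        have h5 : (τ ^ i : B' ≃ₐ[ℚ] B') ⟨x, hx⟩ = ⟨x, hx⟩ := w.embedding.injective h4
        rw [← hpow i ⟨x, hx⟩, h5]
      have h4 : (p : 𝓞 F) ∣ a ^ i - 1 := (dvd_pow_self _ hK.ne').trans ((hfix i).1 h3)
      have h5 := Nat.le_of_dvd hi0 (ha.gen i h4)
      omega
    · apply k5_notreal F (w.embedding.comp (algebraMap F B'))
      rw [ComplexEmbedding.isReal_iff]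
      ext x
      have h4 := RingHom.congr_fun h2 (algebraMap F B' x)
      have h5 : (τ ^ i : B' ≃ₐ[ℚ] B') (algebraMap F B' x) = algebraMap F B' x := by
        apply Subtype.ext
        rw [hpow]
        exact (σ ^ i : Ω ≃ₐ[F] Ω).commutes x
      have h6 : (starRingEnd ℂ) (w.embedding ((τ ^ i : B' ≃ₐ[ℚ] B') (algebraMap F B' x))) = w.embedding (algebraMap F B' x) := h4
      rw [h5] at h6
      exact h6


omit [NumberField F] [IQ F] [IsAlgClosure F Ω] in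
theorem k5_smul {k : ℕ} {H : (Ω ≃ₐ[F] Ω) → Prop} (a : 𝓞 F) (u : Ω) (t : Ω → PM act) : kum act p k H u (a • t) = a • kum act p k H u t := by
  funext h
  rw [Pi.smul_apply]
  unfold kum
  by_cases hh : H h
  · rw [if_pos hh, if_pos hh, Pi.smul_apply]
  · rw [if_neg hh, if_neg hh, smul_zero]

omit [NumberField F] [IQ F] [IsAlgClosure F Ω] in
theorem k5_one {k : ℕ} {t : Ω → PM act} (ht : IsT act p k t) : t 1 = 0 := by
  have h1 := ht.mul 1 1 (one_pow _) (one_pow _)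
  rw [mul_one] at h1
  exact add_eq_left.1 h1.symm

omit [NumberField F] [IQ F] [IsAlgClosure F Ω] in
theorem k5_pow {k : ℕ} {t : Ω → PM act} (ht : IsT act p k t) {z : Ω} (hz : z ^ p ^ k = 1) (i : ℕ) : t (z ^ i) = i • t z := by
  induction i with
  | zero => rw [pow_zero, zero_smul, k5_one ht]
  | succ i ih =>
    rw [pow_succ, ht.mul _ _ (by rw [← pow_mul, mul_comm, pow_mul, hz, one_pow]) hz, ih, succ_nsmul]

theorem k5_gen (dta : Dta A B Om j act mo ψ p) (hin : Prime (p : 𝓞 F)) {T₀ : PM act} (hT : p • T₀ = 0)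
    (h2 : ∀ a : 𝓞 F, a • T₀ = 0 ↔ (p : 𝓞 F) ∣ a) (T : PM act) (h : p • T = 0) : ∃ b : 𝓞 F, T = b • T₀ := by
  obtain ⟨T₁, h3, h4, h5⟩ := tor_gen dta 1
  obtain ⟨c, hc⟩ := h4 T₀ (by rw [pow_one]; exact hT)
  have h6 : ¬ (p : 𝓞 F) ∣ c := by
    intro h7
    apply hin.not_dvd_one
    rw [← h2, one_smul, hc, h5, pow_one]
    exact h7
  have h8 : IsCoprime (p : 𝓞 F) c := (hin.irreducible.coprime_iff_not_dvd).2 h6
  obtain ⟨v, u, huv⟩ := h8
  obtain ⟨d, hd⟩ := h4 T (by rw [pow_one]; exact h)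
  refine ⟨d * u, ?_⟩
  have h9 : (v * (p : 𝓞 F) + u * c) • T₁ = T₁ := by rw [huv, one_smul]
  have h10 : (p : 𝓞 F) • T₁ = 0 := by
    rw [Nat.cast_smul_eq_nsmul]
    rw [pow_one] at h3
    exact h3
  rw [add_smul, mul_smul, h10, smul_zero, zero_add, mul_smul, ← hc] at h9
  rw [mul_smul, h9, hd]

theorem k5_t (dta : Dta A B Om j act mo ψ p) (hin : Prime (p : 𝓞 F)) {ζ : Ω} (hζ : IsPrimitiveRoot ζ p) {t₀ : Ω → PM act} {T₀ : PM act} (h0 : IsT act p 1 t₀)
    (h1 : ∀ i : ℕ, t₀ (ζ ^ i) = i • T₀) (hT : p • T₀ = 0) (h2 : ∀ a : 𝓞 F, a • T₀ = 0 ↔ (p : 𝓞 F) ∣ a) {t : Ω → PM act} (ht : IsT act p 1 t) :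
    ∃ b : 𝓞 F, t = b • t₀ := by
  have hz : ζ ^ p ^ 1 = 1 := by rw [pow_one, hζ.pow_eq_one]
  have h3 : p • t ζ = 0 := by
    rw [← k5_pow ht hz p, hζ.pow_eq_one, k5_one ht]
  obtain ⟨b, hb⟩ := k5_gen dta hin hT h2 _ h3
  refine ⟨b, ?_⟩
  funext z
  rw [Pi.smul_apply]
  by_cases h4 : z ^ p ^ 1 = 1
  · have hp : NeZero p := ⟨dta.prime.ne_zero⟩
    rw [pow_one] at h4
    obtain ⟨i, _, hi⟩ := hζ.eq_pow_of_pow_eq_one h4
    rw [← hi, k5_pow ht hz, h1, hb, smul_comm]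
  · rw [ht.out z h4, h0.out z h4, smul_zero]

/-- Chunk K5 (M). XU 1 is finite with at least q^N elements, [B:F] = N (q-1). Finite: KU 1 is finite: it is the image of theta of (𝓞 F/p) (x) units (finite; every homomorphism on the p-th roots of unity is b t₀, b in 𝓞 F: t(zeta) = b T₀). The eigenspace of U4 for
tau (sig_free), n = q - 1, k = 𝓞 F/p (q elements: Ideal.absNorm), mu = the class of m := cj a (a (Nm a)^-1 m = 1 modulo p; mu^(q-1) = 1, mu <> 1 because q - 1 > 1 divides the order of a, hence of mu) is mapped injectively (theta_inj: apply to differences) to XU 1: theta z is in KU 1 and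
sigma theta z = l theta(sigma z) = l m theta z = theta z (t0_cj, kum_cj). -/
theorem xu_card (dta : Dta A B Om j act mo ψ p) (hin : Prime (p : 𝓞 F)) (hc : Cm act) {K : ℕ} (hK : 0 < K) {G : Subgroup (Ω ≃ₐ[F] Ω)} {B' : IntermediateField F Ω}
    [FiniteDimensional F B'] (hB : IsB act p K G B') {σ : Ω ≃ₐ[F] Ω} (hσ : σ ∈ G) {a : 𝓞 F} (ha : IsSig act p K σ a) {N : ℕ}
    (hN : Module.finrank F B' = N * (p ^ 2 - 1)) :
    Finite (XU act hc p 1 G B' σ) ∧ (p ^ 2) ^ N ≤ Nat.card (XU act hc p 1 G B' σ) := by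
  classical
  have hNB : NumberField B' := NumberField.of_module_finite F B'
  obtain ⟨ζ, hζ⟩ := x2_prim dta 1
  rw [pow_one] at hζ
  obtain ⟨t₀, T₀, h0, hz0, hT0, hT, h1, h2⟩ := exists_t0 dta ζ hζ
  have hfix : ∀ h, SH act G p h → h ∈ B'.fixingSubgroup := fun h hh => (hB h).2 ⟨hh.1, (fa_iff.1 hh.2) K⟩
  have hfixu : ∀ (u : (𝓞 B')ˣ) (h : Ω ≃ₐ[F] Ω), SH act G p h → h (((u : 𝓞 B') : B') : Ω) = (((u : 𝓞 B') : B') : Ω) :=
    fun u h hh => (IntermediateField.mem_fixingSubgroup_iff _ _).1 (hfix h hh) _ (SetLike.coe_mem _)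
  have hu0 : ∀ u : (𝓞 B')ˣ, (((u : 𝓞 B') : B') : Ω) ≠ 0 := by
    intro u h
    have h3 : ((u : 𝓞 B') : B') = 0 := Subtype.ext h
    have h4 : (u : 𝓞 B') = 0 := RingOfIntegers.ext h3
    exact u.ne_zero h4
  obtain ⟨θ, hθ⟩ := exists_theta dta hfix h0
  obtain ⟨τ, hτ, hfree⟩ := sig_free dta hin hK hB hσ ha
  have hθs : ∀ (r : 𝓞 F) (z : (𝓞 F ⧸ Ideal.span {(p : 𝓞 F)}) ⊗[ℤ] Additive (𝓞 B')ˣ),
      θ (Ideal.Quotient.mk (Ideal.span {(p : 𝓞 F)}) r • z) = r • θ z := by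
    intro r z
    induction z using TensorProduct.induction_on with
    | zero => rw [smul_zero, map_zero, smul_zero]
    | tmul q u =>
      obtain ⟨a, rfl⟩ := Ideal.Quotient.mk_surjective q
      rw [TensorProduct.smul_tmul', smul_eq_mul, ← map_mul]
      have h3 := hθ (r * a) u.toMul
      have h4 := hθ a u.toMul
      rw [ofMul_toMul] at h3 h4
      rw [h3, h4, mul_smul]
    | add x y hx hy => rw [smul_add, map_add, hx, hy, map_add, smul_add]
  have hint : ∀ u : (𝓞 B')ˣ, IsIntegral ℤ (((u : 𝓞 B') : B') : Ω) := by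
    intro u
    have h3 : IsIntegral ℤ ((u : 𝓞 B') : B') := RingOfIntegers.isIntegral_coe (u : 𝓞 B')
    exact h3.map (B'.val.restrictScalars ℤ)
  have hinv : ∀ u : (𝓞 B')ˣ, ((((u⁻¹ : (𝓞 B')ˣ) : 𝓞 B') : B') : Ω) = ((((u : 𝓞 B') : B') : Ω))⁻¹ := by
    intro u
    refine eq_inv_of_mul_eq_one_left ?_
    have h3 : ((u⁻¹ : (𝓞 B')ˣ) : 𝓞 B') * (u : 𝓞 B') = 1 := u.inv_mul
    have h4 := congrArg (fun x : 𝓞 B' => ((x : B') : Ω)) h3
    exact h4
  have hIsU : ∀ u : (𝓞 B')ˣ, IsU B' (((u : 𝓞 B') : B') : Ω) := by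
    intro u
    refine ⟨SetLike.coe_mem _, hu0 u, hint u, ?_⟩
    rw [← hinv]
    exact hint _
  have hθB : ∀ z, θ z ∈ KU act p 1 G B' := by
    intro z
    induction z using TensorProduct.induction_on with
    | zero => rw [map_zero]; exact zero_mem _
    | tmul q u =>
      obtain ⟨a, rfl⟩ := Ideal.Quotient.mk_surjective q
      have h3 := hθ a u.toMul
      rw [ofMul_toMul] at h3
      rw [h3]
      exact Submodule.smul_mem _ _ (Submodule.subset_span ⟨_, t₀, hIsU _, h0, rfl⟩)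
    | add x y hx hy => rw [map_add]; exact add_mem hx hy
  have hsurj : ∀ f ∈ KU act p 1 G B', ∃ z, θ z = f := by
    intro f hf
    refine Submodule.span_induction ?_ ?_ ?_ ?_ hf
    · rintro f ⟨u, t, hu, ht, rfl⟩
      obtain ⟨b, rfl⟩ := k5_t dta hin hζ h0 h1 hT h2 ht
      have hu1 : IsIntegral ℤ (⟨u, hu.mem⟩ : B') :=
        (isIntegral_algHom_iff (B'.val.restrictScalars ℤ) B'.val.injective).1 hu.int
      have hu2 : IsIntegral ℤ ((⟨u, hu.mem⟩ : B')⁻¹) :=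
        (isIntegral_algHom_iff (B'.val.restrictScalars ℤ) B'.val.injective).1 hu.inv
      have hne : (⟨u, hu.mem⟩ : B') ≠ 0 := fun h => hu.ne (congrArg Subtype.val h)
      let U : (𝓞 B')ˣ := ⟨⟨⟨u, hu.mem⟩, hu1⟩, ⟨(⟨u, hu.mem⟩ : B')⁻¹, hu2⟩, RingOfIntegers.ext (mul_inv_cancel₀ hne), RingOfIntegers.ext (inv_mul_cancel₀ hne)⟩
      refine ⟨Ideal.Quotient.mk _ b ⊗ₜ Additive.ofMul U, ?_⟩
      rw [hθ, k5_smul]
      rfl
    · exact ⟨0, map_zero _⟩
    · rintro f g _ _ ⟨x, rfl⟩ ⟨y, rfl⟩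
      exact ⟨x + y, map_add _ _ _⟩
    · rintro r f _ ⟨x, rfl⟩
      exact ⟨_, hθs r x⟩
  obtain ⟨x, y, hxy⟩ := ha.cop
  have hcx := congrArg H55K.cj hxy
  rw [map_add, map_mul, map_mul, H55K.cj_nat, map_one] at hcx
  have hl : (p : 𝓞 F) ∣ H55K.cj x * (Nm a : 𝓞 F) - a := by
    refine ⟨-(a * H55K.cj y), ?_⟩
    rw [← H55K.mul_cj]
    linear_combination a * hcx
  have hm : (p : 𝓞 F) ∣ H55K.cj a * H55K.cj x - 1 := ⟨-H55K.cj y, by linear_combination hcx⟩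
  have hch1 : Ch act p 1 σ a := ch_mono (by omega) ha.ch
  have hcj0 := t0_cj dta hin hζ h0 h1 hT h2 hch1 hl
  have hcj : ∀ z, cjL act hc σ (θ z) = θ (Ideal.Quotient.mk (Ideal.span {(p : 𝓞 F)}) (H55K.cj x) • (uA τ).baseChange _ z) := by
    intro z
    induction z using TensorProduct.induction_on with
    | zero => rw [map_zero, map_zero, map_zero, smul_zero, map_zero]
    | tmul q u =>
      obtain ⟨b, rfl⟩ := Ideal.Quotient.mk_surjective q
      have h3 := hθ b u.toMul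
      rw [ofMul_toMul] at h3
      have h5 : uA τ u = Additive.ofMul (uM τ u.toMul) := rfl
      rw [h3, map_smul, (kum_cj dta hc hσ (hu0 _) h0 (hfixu _)).1, hcj0, k5_smul, LinearMap.baseChange_tmul, hθs, h5,
        hθ b (uM τ u.toMul), smul_comm b, uM_val, hτ]
    | add x y hx hy => rw [map_add, map_add, hx, hy, map_add, smul_add, map_add]
  have hprime : (Ideal.span {(p : 𝓞 F)}).IsPrime := (Ideal.span_singleton_prime hin.ne_zero).2 hin
  have hmax : (Ideal.span {(p : 𝓞 F)}).IsMaximal := hprime.isMaximal (by rw [Ne, Ideal.span_singleton_eq_bot]; exact hin.ne_zero)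
  have hcard : Nat.card (𝓞 F ⧸ Ideal.span {(p : 𝓞 F)}) = p ^ 2 := by
    have h3 : Nm (p : 𝓞 F) = p ^ 2 := H55K.Nm_nat p
    exact h3
  have hp2 : 0 < p ^ 2 := pow_pos dta.prime.pos 2
  have hfin : Finite (𝓞 F ⧸ Ideal.span {(p : 𝓞 F)}) := Nat.finite_of_card_ne_zero (by rw [hcard]; exact hp2.ne')
  have hfinT : Finite ((𝓞 F ⧸ Ideal.span {(p : 𝓞 F)}) ⊗[ℤ] Additive (𝓞 B')ˣ) := Module.finite_of_finite (𝓞 F ⧸ Ideal.span {(p : 𝓞 F)})
  have hfinX : Finite (XU act hc p 1 G B' σ) := by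
    have h3 : Finite (Set.range θ) := Set.finite_range θ
    refine Set.Finite.subset (Set.finite_range θ) ?_
    intro f hf
    exact hsurj f hf.1
  refine ⟨hfinX, ?_⟩
  have h22 : 2 ^ 2 ≤ p ^ 2 := Nat.pow_le_pow_left dta.prime.two_le 2
  have hnk : ((p ^ 2 - 1 : ℕ) : 𝓞 F ⧸ Ideal.span {(p : 𝓞 F)}) ≠ 0 := by
    intro h
    have h3 : ((p ^ 2 - 1 : ℕ) : 𝓞 F ⧸ Ideal.span {(p : 𝓞 F)}) = Ideal.Quotient.mk _ ((p ^ 2 - 1 : ℕ) : 𝓞 F) := (map_natCast _ _).symm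
    rw [h3, Ideal.Quotient.eq_zero_iff_mem, Ideal.mem_span_singleton] at h
    apply hin.not_dvd_one
    rw [Nat.cast_sub hp2, Nat.cast_pow, Nat.cast_one] at h
    have h4 := dvd_sub (dvd_pow_self (p : 𝓞 F) two_ne_zero) h
    rwa [sub_sub_cancel] at h4
  have hdvd : ∀ b : 𝓞 F, (p : 𝓞 F) ∣ H55K.cj b → (p : 𝓞 F) ∣ b := by
    rintro b ⟨c, hc'⟩
    refine ⟨H55K.cj c, ?_⟩
    have h3 := congrArg H55K.cj hc'
    rw [H55K.cj_cj, map_mul, H55K.cj_nat] at h3
    exact h3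
  have hdvd' : ∀ b : 𝓞 F, (p : 𝓞 F) ∣ b → (p : 𝓞 F) ∣ H55K.cj b := by
    rintro b ⟨c, rfl⟩
    refine ⟨H55K.cj c, ?_⟩
    rw [map_mul, H55K.cj_nat]
  have hgen1 : ¬ (p : 𝓞 F) ∣ a - 1 := by
    intro h
    have h3 := ha.gen 1 (by rw [pow_one]; exact h)
    have h4 := Nat.le_of_dvd one_pos h3
    omega
  have hμ1 : Ideal.Quotient.mk (Ideal.span {(p : 𝓞 F)}) (H55K.cj a) ^ (p ^ 2 - 1) = 1 := by
    rw [← map_pow, ← map_one (Ideal.Quotient.mk (Ideal.span {(p : 𝓞 F)})), Ideal.Quotient.eq, Ideal.mem_span_singleton]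
    have h3 := hdvd' _ ((dvd_pow_self (p : 𝓞 F) hK.ne').trans ha.pw)
    rwa [map_sub, map_pow, map_one] at h3
  have hμ2 : Ideal.Quotient.mk (Ideal.span {(p : 𝓞 F)}) (H55K.cj a) ≠ 1 := by
    intro h
    rw [← map_one (Ideal.Quotient.mk (Ideal.span {(p : 𝓞 F)})), Ideal.Quotient.eq, Ideal.mem_span_singleton] at h
    apply hgen1
    apply hdvd
    rwa [map_sub, map_one]
  have hTb : Tb act p σ := tb_of_ch dta hin hch1 hgen1
  have hlm : Ideal.Quotient.mk (Ideal.span {(p : 𝓞 F)}) (H55K.cj x) * Ideal.Quotient.mk (Ideal.span {(p : 𝓞 F)}) (H55K.cj a) = 1 := by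
    rw [← map_mul, ← map_one (Ideal.Quotient.mk (Ideal.span {(p : 𝓞 F)})), Ideal.Quotient.eq, Ideal.mem_span_singleton, mul_comm]
    exact hm
  have hker : ∀ z : (𝓞 F ⧸ Ideal.span {(p : 𝓞 F)}) ⊗[ℤ] Additive (𝓞 B')ˣ,
      (uA τ).baseChange (𝓞 F ⧸ Ideal.span {(p : 𝓞 F)}) z = Ideal.Quotient.mk (Ideal.span {(p : 𝓞 F)}) (H55K.cj a) • z →
      θ z ∈ XU act hc p 1 G B' σ := by
    intro z hz
    refine ⟨hθB z, ?_⟩
    rw [SetLike.mem_coe, LinearMap.mem_ker, LinearMap.sub_apply, Module.End.one_apply, hcj, hz, ← mul_smul, hlm, one_smul, sub_self]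
  have hinj : ∀ z z' : (𝓞 F ⧸ Ideal.span {(p : 𝓞 F)}) ⊗[ℤ] Additive (𝓞 B')ˣ,
      (uA τ).baseChange (𝓞 F ⧸ Ideal.span {(p : 𝓞 F)}) z = Ideal.Quotient.mk (Ideal.span {(p : 𝓞 F)}) (H55K.cj a) • z →
      (uA τ).baseChange (𝓞 F ⧸ Ideal.span {(p : 𝓞 F)}) z' = Ideal.Quotient.mk (Ideal.span {(p : 𝓞 F)}) (H55K.cj a) • z' →
      θ z = θ z' → z = z' := by
    intro z z' hz hz' h3
    rw [← sub_eq_zero]
    refine theta_inj dta hin hK hB hζ h0 h1 hT h2 hσ hTb hch1 hl hm (uM τ) (fun u => ?_) θ hθ (z - z') ?_ ?_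
    · rw [uM_val, hτ]
    · rw [map_sub, smul_sub]
      exact congrArg₂ (fun a b => a - b) hz hz'
    · rw [map_sub, h3, sub_self]
  have hcc : Nat.card (InfinitePlace B') = N * (p ^ 2 - 1) := by rw [card_places, hN]
  let _ : Field (𝓞 F ⧸ Ideal.span {(p : 𝓞 F)}) := Ideal.Quotient.field _
  have hcount := u_card τ (n := p ^ 2 - 1) (N := N) (by omega) hfree hcc hnk (Ideal.Quotient.mk (Ideal.span {(p : 𝓞 F)}) (H55K.cj a)) hμ1 hμ2
  rw [hcard] at hcount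
  refine hcount.trans ?_
  refine Nat.card_le_card_of_injective (fun z => (⟨θ z.1, hker z.1 z.2⟩ : XU act hc p 1 G B' σ)) ?_
  intro z z' hzz
  exact Subtype.ext (hinj z.1 z'.1 z.2 z'.2 (congrArg Subtype.val hzz))

end H35L
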