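import Mathlib
import Pool.Agent.Lib.H35L.X5T
import Pool.Agent.Lib.H35L.K0
import Pool.Agent.Lib.H35L.X2

/-! # H35L, chunk N0A (M): norms of Teichmueller elements -/

open NumberField IsDedekindDomain WeierstrassCurve

namespace H35L

open H55P (IQ Pt ac Inert Dec Nm)
open H35P (WAB)
open H55K (CMA Dta)
open H35K (Lev)

variable {F : Type} [Field F] [NumberField F] [IQ F] {A B : F} {Om : ℂ} {Ω : Type} [Field Ω] [DecidableEq Ω]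
  [Algebra F Ω] [IsAlgClosure F Ω] {j : Ω →+* ℂ} {act : 𝓞 F →+* AddMonoid.End (Pt (WAB A B) Ω)} {mo : Ideal (𝓞 F)}
  {ψ : Ideal (𝓞 F) →*₀ 𝓞 F} {p : ℕ} {M : IntermediateField F Ω} {V : ValuationSubring Ω} {γ : Ω ≃ₐ[F] Ω} {g : ℕ} {s₀ : Fin g → (Ω ≃ₐ[F] Ω)}

/-- The conjugate is the p-th power modulo p. -/
theorem n0a_cj (hp : p.Prime) (hin : Prime (p : 𝓞 F)) {a : 𝓞 F} (ha : ¬ (p : 𝓞 F) ∣ a) :
    (p : 𝓞 F) ∣ H55K.cj a - a ^ p := by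
  classical
  haveI : Fact p.Prime := ⟨hp⟩
  obtain ⟨b, hb, hbc⟩ := x5t_gen (F := F) hp hin
  have hp2 : 2 ≤ p := hp.two_le
  have hq : 0 < p ^ 2 - 1 := by
    have h9 : p ^ 2 = p * p := sq p
    have h10 : 2 * p ≤ p * p := Nat.mul_le_mul_right p hp2
    omega
  obtain ⟨I, hIdef⟩ : ∃ I : Ideal (𝓞 F), I = Ideal.span {(p : 𝓞 F)} := ⟨_, rfl⟩
  have hI : I.IsPrime := by
    rw [hIdef]
    exact (Ideal.span_singleton_prime hin.ne_zero).2 hin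
  have hI0 : I ≠ ⊥ := by
    rw [hIdef]
    intro h
    exact hin.ne_zero (Ideal.span_singleton_eq_bot.1 h)
  haveI hImax : I.IsMaximal := hI.isMaximal hI0
  letI : Field (𝓞 F ⧸ I) := Ideal.Quotient.field I
  have hcard : Nat.card (𝓞 F ⧸ I) = p ^ 2 := by
    have h1 : Nm (p : 𝓞 F) = p ^ 2 := H55K.Nm_nat p
    unfold H55P.Nm at h1
    rw [Ideal.absNorm_apply, Submodule.cardQuot_apply, ← hIdef] at h1
    exact h1
  haveI : Finite (𝓞 F ⧸ I) := Nat.finite_of_card_ne_zero (by rw [hcard]; positivity)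
  have hdvd : ∀ x : 𝓞 F, Ideal.Quotient.mk I x = 0 ↔ (p : 𝓞 F) ∣ x := by
    intro x
    rw [Ideal.Quotient.eq_zero_iff_mem, hIdef, Ideal.mem_span_singleton]
  have hb0 : Ideal.Quotient.mk I b ≠ 0 := by
    rw [Ne, hdvd]
    intro h
    have h1 : (p : 𝓞 F) ∣ b ^ (p ^ 2 - 1) := dvd_pow h hq.ne'
    have h2 : (p : 𝓞 F) ∣ b ^ (p ^ 2 - 1) - 1 := (hb _).2 (dvd_refl _)
    have h3 := dvd_sub h1 h2
    rw [sub_sub_cancel] at h3
    exact hin.not_unit (isUnit_of_dvd_one h3)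
  obtain ⟨g, hg⟩ : ∃ g : (𝓞 F ⧸ I)ˣ, (g : 𝓞 F ⧸ I) = Ideal.Quotient.mk I b := ⟨Units.mk0 _ hb0, rfl⟩
  have hord : orderOf g = Nat.card (𝓞 F ⧸ I)ˣ := by
    rw [Nat.card_units, hcard]
    refine Nat.dvd_antisymm (orderOf_dvd_iff_pow_eq_one.2 (Units.ext ?_)) ((hb _).1 ?_)
    · have h2 : (p : 𝓞 F) ∣ b ^ (p ^ 2 - 1) - 1 := (hb _).2 (dvd_refl _)
      rw [← hdvd, map_sub, map_pow, map_one, ← hg, sub_eq_zero] at h2
      rw [Units.val_pow_eq_pow_val, Units.val_one]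
      exact h2
    · rw [← hdvd, map_sub, map_pow, map_one, ← hg, sub_eq_zero, ← Units.val_pow_eq_pow_val, pow_orderOf_eq_one,
        Units.val_one]
  have hgen : ∀ x : (𝓞 F ⧸ I)ˣ, x ∈ Subgroup.zpowers g := by
    intro x
    have h1 : Subgroup.zpowers g = ⊤ := by
      rw [← Subgroup.card_eq_iff_eq_top, Nat.card_zpowers]
      exact hord
    rw [h1]
    exact Subgroup.mem_top x
  have ha0 : Ideal.Quotient.mk I a ≠ 0 := by
    rw [Ne, hdvd]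
    exact ha
  obtain ⟨i, hi⟩ := (mem_powers_iff_mem_zpowers (x := g)).2 (hgen (Units.mk0 _ ha0))
  have hai : (p : 𝓞 F) ∣ a - b ^ i := by
    rw [← hdvd, map_sub, map_pow, ← hg, sub_eq_zero]
    have h1 := congrArg Units.val hi
    change ((g ^ i : (𝓞 F ⧸ I)ˣ) : 𝓞 F ⧸ I) = Ideal.Quotient.mk I a at h1
    rw [Units.val_pow_eq_pow_val] at h1
    exact h1.symm
  have h1 : (p : 𝓞 F) ∣ H55K.cj a - (H55K.cj b) ^ i := by
    obtain ⟨z, hz⟩ := hai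
    refine ⟨H55K.cj z, ?_⟩
    have h2 := congrArg H55K.cj hz
    rw [map_sub, map_pow, map_mul, map_natCast] at h2
    exact h2
  have h2 : (p : 𝓞 F) ∣ (H55K.cj b) ^ i - (b ^ p) ^ i := hbc.trans (sub_dvd_pow_sub_pow _ _ _)
  have h3 : (p : 𝓞 F) ∣ a ^ p - (b ^ i) ^ p := hai.trans (sub_dvd_pow_sub_pow _ _ _)
  have h4 : (b ^ p) ^ i = (b ^ i) ^ p := by rw [← pow_mul, ← pow_mul, mul_comm]
  rw [h4] at h2
  have h5 := dvd_sub (dvd_add h1 h2) h3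
  have h6 : H55K.cj a - (H55K.cj b) ^ i + ((H55K.cj b) ^ i - (b ^ i) ^ p) - (a ^ p - (b ^ i) ^ p) = H55K.cj a - a ^ p := by ring
  rwa [h6] at h5

/-- Chunk N0a (M). a^(q-1) = 1 modulo p^(n+1) implies Nm a^(p-1) = 1 modulo p^(n+1): cj a = a^p modulo p (see teich), x = cj a and y = a^p satisfy x^(q-1) = y^(q-1) = 1 modulo p^(n+1) and x = y modulo p, so x = y modulo p^(n+1) (x = y + p^i z, 0 < i <= n: x^(q-1) - y^(q-1) =
(q-1) y^(q-2) p^i z modulo p^(i+1), so p divides z). Nm a = a cj a = a^(p+1). -/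
theorem nm_teich (dta : Dta A B Om j act mo ψ p) (hin : Prime (p : 𝓞 F)) {n : ℕ} {a : 𝓞 F} (ha : IsCoprime a (p : 𝓞 F))
    (h : (p : 𝓞 F) ^ (n + 1) ∣ a ^ (p ^ 2 - 1) - 1) : Nm a ^ (p - 1) ≡ 1 [MOD p ^ (n + 1)] := by
  have hp := dta.prime
  have hp2 : 2 ≤ p := hp.two_le
  have hpa : ¬ (p : 𝓞 F) ∣ a := by
    intro h1
    exact hin.not_unit (isUnit_of_dvd_one (by
      obtain ⟨u, v, huv⟩ := ha
      rw [← huv]
      exact dvd_add (h1.mul_left u) (dvd_mul_left _ v)))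
  have hcj := n0a_cj (F := F) hp hin hpa
  have hle : (p : 𝓞 F) ^ (n + 1) ∣ (p : 𝓞 F) ^ (2 * n + 1) := pow_dvd_pow _ (by omega)
  have hdd : (p ^ 2 - 1) ∣ p ^ (2 * n) - 1 := by
    have h1 := Nat.sub_dvd_pow_sub_pow (p ^ 2) 1 n
    rw [one_pow, ← pow_mul] at h1
    exact h1
  have key : ∀ x : 𝓞 F, (p : 𝓞 F) ^ (n + 1) ∣ x ^ (p ^ 2 - 1) - 1 → (p : 𝓞 F) ^ (n + 1) ∣ x ^ p ^ (2 * n) - x := by
    intro x hx
    obtain ⟨m, hm⟩ := hdd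
    have h1 : x ^ p ^ (2 * n) - x = x * ((x ^ (p ^ 2 - 1)) ^ m - 1 ^ m) := by
      have h2 : p ^ (2 * n) = 1 + (p ^ 2 - 1) * m := by
        rw [← hm]
        have : 0 < p ^ (2 * n) := Nat.pow_pos (by omega)
        omega
      rw [h2, pow_add, pow_one, pow_mul, one_pow]
      ring
    rw [h1]
    exact (hx.trans (sub_dvd_pow_sub_pow _ _ _)).mul_left x
  have hx : (p : 𝓞 F) ^ (n + 1) ∣ (H55K.cj a) ^ (p ^ 2 - 1) - 1 := by
    obtain ⟨z, hz⟩ := h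
    refine ⟨H55K.cj z, ?_⟩
    have h2 := congrArg H55K.cj hz
    rw [map_sub, map_pow, map_mul, map_pow, map_natCast, map_one] at h2
    exact h2
  have hy : (p : 𝓞 F) ^ (n + 1) ∣ (a ^ p) ^ (p ^ 2 - 1) - 1 := by
    have h1 : (a ^ p) ^ (p ^ 2 - 1) - 1 = (a ^ (p ^ 2 - 1)) ^ p - 1 ^ p := by
      rw [← pow_mul, ← pow_mul, mul_comm, one_pow]
    rw [h1]
    exact h.trans (sub_dvd_pow_sub_pow _ _ _)
  have hxy : (p : 𝓞 F) ^ (n + 1) ∣ H55K.cj a - a ^ p := by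
    have h1 := hle.trans (dvd_sub_pow_of_dvd_sub hcj (2 * n))
    have h2 := dvd_add (dvd_sub h1 (key _ hx)) (key _ hy)
    have h3 : H55K.cj a ^ p ^ (2 * n) - (a ^ p) ^ p ^ (2 * n) - (H55K.cj a ^ p ^ (2 * n) - H55K.cj a) +
        ((a ^ p) ^ p ^ (2 * n) - a ^ p) = H55K.cj a - a ^ p := by ring
    rwa [h3] at h2
  have hnm : (p : 𝓞 F) ^ (n + 1) ∣ (Nm a : 𝓞 F) - a ^ (p + 1) := by
    obtain ⟨c, hc⟩ := hxy
    refine ⟨a * c, ?_⟩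
    rw [← H55K.mul_cj, pow_succ' a p]
    linear_combination a * hc
  have ha0 : a ≠ 0 := by
    rintro rfl
    exact hpa (dvd_zero _)
  have h1 : 1 ≤ Nm a ^ (p - 1) := by
    refine Nat.one_le_pow _ _ (Nat.pos_of_ne_zero fun h => ha0 (H55P.Nm_eq_zero.1 h))
  refine ((Nat.modEq_iff_dvd' h1).2 (x5t_nat (F := F) ?_)).symm
  rw [Nat.cast_sub h1, Nat.cast_pow, Nat.cast_pow, Nat.cast_one]
  have h2 : (p : 𝓞 F) ^ (n + 1) ∣ (Nm a : 𝓞 F) ^ (p - 1) - (a ^ (p + 1)) ^ (p - 1) :=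
    hnm.trans (sub_dvd_pow_sub_pow _ _ _)
  have h3 : (a ^ (p + 1)) ^ (p - 1) = a ^ (p ^ 2 - 1) := by
    rw [← pow_mul]
    congr 1
    have h4 := Nat.sq_sub_sq p 1
    rw [one_pow] at h4
    exact h4.symm
  rw [h3] at h2
  have h5 := dvd_add h2 h
  rwa [sub_add_sub_cancel] at h5

end H35L
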