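import Mathlib
import Pool.Agent.Lib.H35L.X5T
import Pool.Agent.Lib.H35L.K0
import Pool.Agent.Lib.H35L.X2
import Pool.Agent.Lib.H35L.N0A
import Pool.Agent.Lib.H35L.X3BA

/-! # H35L, chunk N0 (M): the group of the elements acting as roots of unity -/

open NumberField IsDedekindDomain WeierstrassCurve

namespace H35L

open H55P (IQ Pt ac Inert Dec Nm)
open H35P (WAB)
open H55K (CMA Dta)
open H35K (Lev)

variable {F : Type} [Field F] [NumberField F] [IQ F] {A B : F} {Om : ℂ} {Ω : Type} [Field Ω] [DecidableEq Ω]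
  [Algebra F Ω] [IsAlgClosure F Ω] {j : Ω →+* ℂ} {act : 𝓞 F →+* AddMonoid.End (Pt (WAB A B) Ω)} {mo : Ideal (𝓞 F)}
  {ψ : Ideal (𝓞 F) →*₀ 𝓞 F} {p : ℕ} {M : IntermediateField F Ω} {V : ValuationSubring Ω} {γ : Ω ≃ₐ[F] Ω} {g : ℕ} {s₀ : Fin g → (Ω ≃ₐ[F] Ω)}

theorem n0_cardU (hin : Prime (p : 𝓞 F)) (hp : 0 < p) (k : ℕ) :
    Nat.card (𝓞 F ⧸ Ideal.span {((p : 𝓞 F) ^ (k + 1))})ˣ = (p ^ 2 - 1) * (p ^ 2) ^ k := by
  rw [← x3ba_units (F := F) hp k]
  have hdp : (p : 𝓞 F) ∣ (p : 𝓞 F) ^ (k + 1) := dvd_pow_self _ (Nat.succ_ne_zero k)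
  refine Nat.card_congr (Equiv.ofBijective (fun u => ⟨(u : 𝓞 F ⧸ Ideal.span {((p : 𝓞 F) ^ (k + 1))}), ?_⟩) ⟨?_, ?_⟩)
  · intro a ha hd
    obtain ⟨b, hb⟩ := Ideal.Quotient.mk_surjective ((u⁻¹ : (𝓞 F ⧸ Ideal.span {((p : 𝓞 F) ^ (k + 1))})ˣ) : 𝓞 F ⧸ Ideal.span {((p : 𝓞 F) ^ (k + 1))})
    have h1 : Ideal.Quotient.mk (Ideal.span {((p : 𝓞 F) ^ (k + 1))}) (a * b) = Ideal.Quotient.mk _ 1 := by
      rw [map_mul, ha, hb, map_one]
      exact u.mul_inv
    rw [Ideal.Quotient.eq, Ideal.mem_span_singleton] at h1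
    have h2 : (p : 𝓞 F) ∣ a * b - (a * b - 1) := dvd_sub (hd.mul_right b) (hdp.trans h1)
    rw [sub_sub_cancel] at h2
    exact hin.not_unit (isUnit_of_dvd_one h2)
  · intro u v huv
    exact Units.ext (congrArg Subtype.val huv)
  · rintro ⟨x, hx⟩
    obtain ⟨a, rfl⟩ := Ideal.Quotient.mk_surjective x
    have h1 : IsCoprime (p : 𝓞 F) a := (hin.irreducible.coprime_iff_not_dvd).2 (hx a rfl)
    have h2 : IsCoprime a ((p : 𝓞 F) ^ (k + 1)) := h1.symm.pow_right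
    obtain ⟨b, c, hbc⟩ := h2
    have h3 : Ideal.Quotient.mk (Ideal.span {((p : 𝓞 F) ^ (k + 1))}) a * Ideal.Quotient.mk _ b = 1 := by
      rw [← map_mul, ← map_one (Ideal.Quotient.mk (Ideal.span {((p : 𝓞 F) ^ (k + 1))})), Ideal.Quotient.eq,
        Ideal.mem_span_singleton]
      refine ⟨-c, ?_⟩
      rw [← hbc]
      ring
    exact ⟨Units.mkOfMulEqOne _ _ h3, rfl⟩

/-- In a finite abelian group of order m n, n a power of a prime number not dividing m, with an element of order m, the elements killed by m are the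
powers of this element. -/
theorem n0_grp {U : Type} [CommGroup U] {q r k : ℕ} (hq : q.Prime) (hr : 0 < r) (hc : Nat.card U = r * q ^ k) (hqr : Nat.Coprime q r)
    {a : U} (ha : orderOf a = r) : (powMonoidHom r : U →* U).ker = Subgroup.zpowers a ∧ Nat.card (powMonoidHom r : U →* U).range = q ^ k := by
  have hfin : Finite U := by
    refine (Nat.card_ne_zero.1 ?_).2
    rw [hc]
    exact Nat.mul_ne_zero hr.ne' (pow_ne_zero _ hq.ne_zero)
  have hle : Subgroup.zpowers a ≤ (powMonoidHom r : U →* U).ker := by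
    rw [Subgroup.zpowers_le, MonoidHom.mem_ker, powMonoidHom_apply, ← ha, pow_orderOf_eq_one]
  have hcz : Nat.card (Subgroup.zpowers a) = r := by rw [Nat.card_zpowers, ha]
  have hcop : Nat.Coprime (Nat.card (powMonoidHom r : U →* U).ker) (q ^ k) := by
    refine Nat.Coprime.pow_right k (Nat.Coprime.symm ((Nat.Prime.coprime_iff_not_dvd hq).2 fun hd => ?_))
    haveI : Fact q.Prime := ⟨hq⟩
    obtain ⟨y, hy⟩ := exists_prime_orderOf_dvd_card' (G := (powMonoidHom r : U →* U).ker) q hd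
    have h1 : y ^ r = 1 := by
      apply Subtype.ext
      exact y.2
    have h2 : q ∣ r := by
      rw [← hy]
      exact orderOf_dvd_of_pow_eq_one h1
    have h3 := Nat.dvd_gcd (dvd_refl q) h2
    rw [hqr] at h3
    exact hq.one_lt.ne' (Nat.dvd_one.1 h3)
  have hdvd : Nat.card (powMonoidHom r : U →* U).ker ∣ r := by
    have h1 := Subgroup.card_subgroup_dvd_card (powMonoidHom r : U →* U).ker
    rw [hc] at h1
    exact hcop.dvd_of_dvd_mul_right h1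
  have hck : Nat.card (powMonoidHom r : U →* U).ker = r := by
    refine le_antisymm (Nat.le_of_dvd hr hdvd) ?_
    have h1 := Subgroup.card_le_of_le hle
    rw [hcz] at h1
    exact h1
  refine ⟨?_, ?_⟩
  · refine (Subgroup.eq_of_le_of_card_ge hle ?_).symm
    rw [hck, hcz]
  · have h1 := Subgroup.card_mul_index (powMonoidHom r : U →* U).ker
    rw [Subgroup.index_ker, hck, hc] at h1
    exact Nat.eq_of_mul_eq_mul_left hr h1

/-- Chunk N0 (M). G acts by all units on the points killed by p^K, K > 0. N₀ = the s in G such that s^(q-1) acts trivially on them. It is a normal subgroup of index q^(K-1): s -> the unit by which s acts is a homomorphism onto the units of 𝓞 F/p^K (q^(K-1) (q-1)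
elements, as in tf_card); the image of N₀ is the kernel of the power q - 1, it has q - 1 elements (the Teichmueller elements: a -> a modulo p is injective on it, and a from IsSig generates q - 1 of them). So every s in N₀ is sigma^i b, b acting trivially, and it is of level K - 1 (nm_teich, gc_iff). -/
theorem exists_n0 (dta : Dta A B Om j act mo ψ p) (hin : Prime (p : 𝓞 F)) {K : ℕ} (hK : 0 < K) {G : Subgroup (Ω ≃ₐ[F] Ω)}
    (hs : ∀ a : 𝓞 F, IsCoprime a (p : 𝓞 F) → ∃ s ∈ G, Ch act p K s a) {σ : Ω ≃ₐ[F] Ω} (hσ : σ ∈ G) {a : 𝓞 F} (ha : IsSig act p K σ a) :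
    ∃ N₀ : Subgroup G, N₀.Normal ∧ (∀ s : G, s ∈ N₀ → ∃ (i : ℕ) (b : Ω ≃ₐ[F] Ω), b ∈ G ∧ Ch act p K b 1 ∧ (s : Ω ≃ₐ[F] Ω) = σ ^ i * b) ∧
      (∀ s : G, s ∈ N₀ → Gc p (K - 1) (s : Ω ≃ₐ[F] Ω)) ∧ N₀.index = p ^ (2 * (K - 1)) := by
  classical
  obtain ⟨k, rfl⟩ : ∃ k, K = k + 1 := ⟨K - 1, by omega⟩
  have hp := dta.prime
  have hc := cm dta
  have hp2 : 2 ≤ p := hp.two_le
  have hr : 0 < p ^ 2 - 1 := by
    have : 2 ^ 2 ≤ p ^ 2 := Nat.pow_le_pow_left hp2 2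
    omega
  set I : Ideal (𝓞 F) := Ideal.span {((p : 𝓞 F) ^ (k + 1))} with hI
  have hmk : ∀ x y : 𝓞 F, Ideal.Quotient.mk I x = Ideal.Quotient.mk I y ↔ (p : 𝓞 F) ^ (k + 1) ∣ x - y := by
    intro x y
    rw [Ideal.Quotient.eq, hI, Ideal.mem_span_singleton]
  have hunit : ∀ x : 𝓞 F, IsCoprime x (p : 𝓞 F) → IsUnit (Ideal.Quotient.mk I x) := by
    intro x hx
    obtain ⟨b, c, hbc⟩ := (hx.pow_right (n := k + 1))
    refine IsUnit.of_mul_eq_one (Ideal.Quotient.mk I b) ?_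
    rw [← map_mul, ← map_one (Ideal.Quotient.mk I), hmk]
    refine ⟨-c, ?_⟩
    rw [← hbc]
    ring
  choose cf hcf hcop using fun s : Ω ≃ₐ[F] Ω => ch_exists dta (k + 1) s
  have hch : ∀ (s : Ω ≃ₐ[F] Ω) (x : 𝓞 F), Ch act p (k + 1) s x ↔ Ideal.Quotient.mk I (cf s) = Ideal.Quotient.mk I x := by
    intro s x
    rw [hmk]
    exact ⟨fun h => ch_uniq dta (hcf s) h, fun h => ch_congr (hcf s) h⟩
  let χ : G →* (𝓞 F ⧸ I)ˣ :=
    { toFun := fun s => (hunit _ (hcop (s : Ω ≃ₐ[F] Ω))).unit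
      map_one' := by
        apply Units.ext
        show Ideal.Quotient.mk I (cf 1) = 1
        rw [← map_one (Ideal.Quotient.mk I), ← hch]
        intro T _
        rw [aM_one, one_smul]
      map_mul' := by
        intro s t
        apply Units.ext
        show Ideal.Quotient.mk I (cf (s * t)) = Ideal.Quotient.mk I (cf s) * Ideal.Quotient.mk I (cf t)
        rw [← map_mul, ← hch]
        exact ch_mul hc (hcf _) (hcf _) }
  have hχ : ∀ s : G, ((χ s : (𝓞 F ⧸ I)ˣ) : 𝓞 F ⧸ I) = Ideal.Quotient.mk I (cf s) := fun s => rfl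
  have hsurj : Function.Surjective χ := by
    intro u
    obtain ⟨x, hx⟩ := Ideal.Quotient.mk_surjective (u : 𝓞 F ⧸ I)
    obtain ⟨y, hy⟩ := Ideal.Quotient.mk_surjective ((u⁻¹ : (𝓞 F ⧸ I)ˣ) : 𝓞 F ⧸ I)
    have h1 : (p : 𝓞 F) ^ (k + 1) ∣ x * y - 1 := by
      rw [← hmk, map_mul, hx, hy, map_one]
      exact u.mul_inv
    obtain ⟨z, hz⟩ := h1
    have h2 : IsCoprime x (p : 𝓞 F) := by
      refine ⟨y, -(p : 𝓞 F) ^ k * z, ?_⟩
      have h3 : (p : 𝓞 F) ^ (k + 1) * z = (p : 𝓞 F) ^ k * (p : 𝓞 F) * z := by rw [pow_succ]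
      linear_combination hz + h3
    obtain ⟨s, hsG, hsx⟩ := hs x h2
    refine ⟨⟨s, hsG⟩, Units.ext ?_⟩
    rw [hχ, ← hx]
    exact (hch s x).1 hsx
  -- the element of order q - 1
  have hσa := (hch σ a).1 ha.ch
  have hord : orderOf (χ ⟨σ, hσ⟩) = p ^ 2 - 1 := by
    apply Nat.dvd_antisymm
    · apply orderOf_dvd_of_pow_eq_one
      apply Units.ext
      rw [Units.val_pow_eq_pow_val, hχ]
      show (Ideal.Quotient.mk I (cf σ)) ^ (p ^ 2 - 1) = 1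
      rw [hσa, ← map_pow, ← map_one (Ideal.Quotient.mk I), hmk]
      exact ha.pw
    · apply ha.gen
      have h1 := congrArg (fun u : (𝓞 F ⧸ I)ˣ => (u : 𝓞 F ⧸ I)) (pow_orderOf_eq_one (χ ⟨σ, hσ⟩))
      simp only [Units.val_pow_eq_pow_val, Units.val_one] at h1
      rw [hχ] at h1
      change (Ideal.Quotient.mk I (cf σ)) ^ (orderOf (χ ⟨σ, hσ⟩)) = 1 at h1
      rw [hσa, ← map_pow, ← map_one (Ideal.Quotient.mk I), hmk] at h1
      exact (dvd_pow_self _ (Nat.succ_ne_zero k)).trans h1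
  have hcardU : Nat.card (𝓞 F ⧸ I)ˣ = (p ^ 2 - 1) * p ^ (2 * k) := by
    rw [pow_mul]
    exact n0_cardU hin hp.pos k
  have hcopr : Nat.Coprime p (p ^ 2 - 1) := by
    refine (Nat.Prime.coprime_iff_not_dvd hp).2 fun hd => ?_
    have h1 : p ∣ p ^ 2 := dvd_pow_self _ two_ne_zero
    have h2 := (Nat.dvd_sub h1 hd)
    have h3 : p ^ 2 - (p ^ 2 - 1) = 1 := by omega
    rw [h3] at h2
    exact hp.one_lt.ne' (Nat.dvd_one.1 h2)
  obtain ⟨hker, hrange⟩ := n0_grp hp hr hcardU hcopr hord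
  let φ : G →* (𝓞 F ⧸ I)ˣ := (powMonoidHom (p ^ 2 - 1)).comp χ
  have hφ : ∀ s : G, s ∈ φ.ker ↔ χ s ∈ (powMonoidHom (p ^ 2 - 1) : (𝓞 F ⧸ I)ˣ →* (𝓞 F ⧸ I)ˣ).ker := fun s => Iff.rfl
  refine ⟨φ.ker, inferInstance, ?_, ?_, ?_⟩
  · intro s hs'
    rw [hφ, hker] at hs'
    have h1 : χ s ∈ Submonoid.powers (χ ⟨σ, hσ⟩) := by
      haveI : Finite (𝓞 F ⧸ I)ˣ := by
        refine (Nat.card_ne_zero.1 ?_).2
        rw [hcardU]
        exact Nat.mul_ne_zero hr.ne' (pow_ne_zero _ hp.ne_zero)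
      exact (mem_powers_iff_mem_zpowers).2 hs'
    obtain ⟨i, hi⟩ := h1
    have hb : (σ ^ i)⁻¹ * (s : Ω ≃ₐ[F] Ω) ∈ G := mul_mem (inv_mem (pow_mem hσ i)) s.2
    refine ⟨i, (σ ^ i)⁻¹ * (s : Ω ≃ₐ[F] Ω), hb, ?_, ?_⟩
    · rw [hch, map_one]
      have h2 : χ ⟨(σ ^ i)⁻¹ * (s : Ω ≃ₐ[F] Ω), hb⟩ = 1 := by
        have h3 : (⟨(σ ^ i)⁻¹ * (s : Ω ≃ₐ[F] Ω), hb⟩ : G) = (⟨σ, hσ⟩ ^ i)⁻¹ * s := rfl
        rw [h3, map_mul, map_inv, map_pow]
        have h4 : χ ⟨σ, hσ⟩ ^ i = χ s := hi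
        rw [h4, inv_mul_cancel]
      exact congrArg (fun u : (𝓞 F ⧸ I)ˣ => (u : 𝓞 F ⧸ I)) h2
    · rw [mul_inv_cancel_left]
  · intro s hs'
    have h1 : (χ s) ^ (p ^ 2 - 1) = 1 := hs'
    have h2 := congrArg (fun u : (𝓞 F ⧸ I)ˣ => (u : 𝓞 F ⧸ I)) h1
    simp only [Units.val_pow_eq_pow_val, Units.val_one] at h2
    rw [hχ, ← map_pow, ← map_one (Ideal.Quotient.mk I), hmk] at h2
    exact (gc_iff dta (hcf s)).2 (nm_teich dta hin (hcop s) h2)
  · rw [Subgroup.index_ker]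
    have h1 : φ.range = (powMonoidHom (p ^ 2 - 1) : (𝓞 F ⧸ I)ˣ →* (𝓞 F ⧸ I)ˣ).range := by
      ext u
      constructor
      · rintro ⟨s, rfl⟩
        exact ⟨χ s, rfl⟩
      · rintro ⟨v, rfl⟩
        obtain ⟨s, rfl⟩ := hsurj v
        exact ⟨s, rfl⟩
    rw [h1, hrange]
    rfl

end H35L
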