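import Mathlib
import Pool.Agent.Lib.H35L.S1
import Pool.Agent.Lib.H35L.S0B
import Pool.Agent.Lib.H35L.C5B
import Pool.Agent.Lib.H55P.Sel

/-! # H35L, chunk C7 (M): no class of level 0 killed by p is everywhere a class of points -/

open NumberField IsDedekindDomain WeierstrassCurve

namespace H35L

open H55P (IQ Pt ac Inert Dec Nm)
open H35P (WAB)
open H55K (CMA Dta)
open H35K (Lev)

variable {F : Type} [Field F] [NumberField F] [IQ F] {A B : F} {Om : ℂ} {Ω : Type} [Field Ω] [DecidableEq Ω]
  [Algebra F Ω] [IsAlgClosure F Ω] {j : Ω →+* ℂ} {act : 𝓞 F →+* AddMonoid.End (Pt (WAB A B) Ω)} {mo : Ideal (𝓞 F)}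
  {ψ : Ideal (𝓞 F) →*₀ 𝓞 F} {p : ℕ} {M : IntermediateField F Ω} {V : ValuationSubring Ω} {γ : Ω ≃ₐ[F] Ω} {g : ℕ} {s₀ : Fin g → (Ω ≃ₐ[F] Ω)}

/-- Chunk C7 (M). r of level 0, p r = 0, loc_i r in D 0 for all i, and the Selmer group of M is zero (H55P.SelZero: local conditions on inertia groups only): r = 0. PROOF. r is equivariant under Gal(Ω/M) (lev_zero_iff); c extends it (ext for G = Gal(Ω/M), sigma = exists_sig for V,
in Gal(Ω/M) by Fr.spl), p c = 0. Every valuation ring V' of Ω: V'(p) < 1: loc_p (the group of level 0 is everything: gc_zero). V'(p) = 1, V' <> Ω: loc_np (hu: r.unr). V' = Ω: Inert means s = 1. (Inert V' s implies Dec V' s: s x - x has value < 1 for x in V'.) So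
c(s) = s T - T with p T = 0, and r(h) = h T - T = 0. -/
theorem inj (dta : Dta A B Om j act mo ψ p) (hin : Prime (p : 𝓞 F)) (hc : Cm act) (fr : Fr p M V γ g s₀) (sel : H55P.SelZero (WAB A B) p M)
    (r : RM act hc p M) (h1 : p • r = 0) (h2 : gamF hc fr r = r) (h3 : ∀ i, locF hc fr i r ∈ dF act hc p V 0) : r = 0 := by
  have hp := dta.prime
  haveI := fr.fin
  have he := (lev_zero_iff dta hc GI_conj fr.gM fr.gen r).1 h2
  have hcls : IsCls act p (SH act M.fixingSubgroup p) (GI p) (SN M.fixingSubgroup p) r.1 := r.2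
  obtain ⟨σ, hσd, -, hb⟩ := exists_sig dta hin fr.above 0
  have hσ : σ ∈ M.fixingSubgroup := fr.spl V fr.above σ hσd
  obtain ⟨c, hco, hcr, hct, hck⟩ := ext dta hσ hb hcls.toIsHm he
  have hpr : ∀ h, p ^ 1 • r.1 h = 0 := by
    intro h
    rw [pow_one]
    exact congrArg (fun f : RM act hc p M => f.1 h) h1
  have hpc := hck 1 hpr
  have hloc : ∀ V' : ValuationSubring Ω, ∃ P : PM act, ∀ s ∈ M.fixingSubgroup, Inert V' s →
      c s = aM act s P - P := by
    intro V'
    by_cases htop : V' = ⊤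
    · refine ⟨0, fun s hs hi => ?_⟩
      have hs1 : s = 1 := by
        apply AlgEquiv.ext
        intro x
        have h4 := hi x (by rw [htop]; exact ValuationSubring.mem_top x)
        rw [H55P.lt1_iff] at h4
        rcases h4 with h5 | h5
        · exact sub_eq_zero.1 h5
        · exact absurd (by rw [htop]; exact ValuationSubring.mem_top _) h5
      have hc1 : c 1 = 0 := by
        have h5 := hco.mul 1 (one_mem _) 1 (one_mem _)
        rw [mul_one, aM_one] at h5
        exact left_eq_add.1 h5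
      rw [hs1, hc1, map_zero, sub_zero]
    · by_cases hV : V'.valuation (p : Ω) < 1
      · obtain ⟨P, hP⟩ := loc_p dta hin hc fr 0 r (fun s hs h hh => he s hs.1 h hh) h3 (c := c)
          ⟨fun s hs t ht => hco.mul s hs.1 t ht.1, by
            obtain ⟨L, hL, hLc⟩ := hco.cont
            exact ⟨L, hL, fun s hs hsL => hLc s hs.1 hsL⟩⟩
          (fun s hs => hct s hs.1) hcr hV
        exact ⟨P, fun s hs hi => hP s ⟨hs, gc_zero hp s⟩ (H55P.inert_dec V' s hi)⟩
      · have hV1 : V'.valuation (p : Ω) = 1 := by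
          refine le_antisymm ?_ (not_lt.1 hV)
          rw [ValuationSubring.valuation_le_one_iff]
          exact natCast_mem V' p
        obtain ⟨P, -, hP⟩ := loc_np dta hin M hco hct
          (fun h hh hi => (hcr h hh).trans (hcls.unr h hh hi)) htop hV1
        exact ⟨P, fun s hs hi => hP s hs (H55P.inert_dec V' s hi)⟩
  obtain ⟨T, hT, hTc⟩ : ∃ T : PM act, p • T = 0 ∧ ∀ s ∈ M.fixingSubgroup, c s = aM act s T - T := sel (fun s => c s) ⟨hco.mul, hco.cont⟩
    (fun s hs => by
      have h5 := hpc s hs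
      rw [pow_one] at h5
      exact h5) hloc
  apply Subtype.ext
  funext h
  by_cases hh : SH act M.fixingSubgroup p h
  · have h4 : c h = aM act h T - T := hTc h hh.1
    have h5 : aM act h T = T := hh.2 T ⟨1, by rw [pow_one]; exact hT⟩
    rw [h5, sub_self, hcr h hh] at h4
    exact h4
  · exact hcls.out h hh

end H35L
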