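import Mathlib
import Pool.Agent.Lib.H35L.C7
import Pool.Agent.Lib.H35K.B2

/-! # H35L, chunk R0A (M): abstract bound, level 0 -/

open NumberField IsDedekindDomain WeierstrassCurve

namespace H35L

open H55P (IQ Pt ac Inert Dec Nm)
open H35P (WAB)
open H55K (CMA Dta)
open H35K (Lev)

variable {F : Type} [Field F] [NumberField F] [IQ F] {A B : F} {Om : ℂ} {Ω : Type} [Field Ω] [DecidableEq Ω]
  [Algebra F Ω] [IsAlgClosure F Ω] {j : Ω →+* ℂ} {act : 𝓞 F →+* AddMonoid.End (Pt (WAB A B) Ω)} {mo : Ideal (𝓞 F)}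
  {ψ : Ideal (𝓞 F) →*₀ 𝓞 F} {p : ℕ} {M : IntermediateField F Ω} {V : ValuationSubring Ω} {γ : Ω ≃ₐ[F] Ω} {g : ℕ} {s₀ : Fin g → (Ω ≃ₐ[F] Ω)}

/-- Chunk R0a (M). Abstract: gam on R, del on W, loc_i, inj, |W_0[p]| <= q^2, |D_0[p]| = q: at most q^g classes of level 0 killed by p. As in H35K.a3 (the map r -> (loc_i r modulo D_0[p]) is injective, the targets have at most q elements). -/
theorem r0_abs {O R W : Type} [CommRing O] [AddCommGroup R] [Module O R] [AddCommGroup W] [Module O W] {p q g : ℕ} (hq : 2 ≤ q) (gam : R →ₗ[O] R) (del : W →ₗ[O] W)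
    (loc : Fin g → R →ₗ[O] W) (D0 : Submodule O W) (hcomm : ∀ v r, loc v (gam r) = del (loc v r)) (hd : ∀ w ∈ D0, del w = w)
    (w0f : Finite {w : W // p • w = 0 ∧ del w = w}) (w0 : Nat.card {w : W // p • w = 0 ∧ del w = w} ≤ q ^ 2)
    (hdp : Nat.card {w : W // w ∈ D0 ∧ p • w = 0} = q) (hinj : ∀ r : R, p • r = 0 → gam r = r → (∀ v, loc v r ∈ D0) → r = 0) :
    Finite {r : R // p • r = 0 ∧ gam r = r} ∧ Nat.card {r : R // p • r = 0 ∧ gam r = r} ≤ q ^ g := by
  have hqpos : 0 < q := by omega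
  let K : AddSubgroup W :=
    { carrier := {w : W | p • w = 0 ∧ del w = w}
      zero_mem' := ⟨smul_zero _, map_zero _⟩
      add_mem' := fun {a b} ha hb => ⟨by rw [smul_add, ha.1, hb.1, add_zero], by rw [map_add, ha.2, hb.2]⟩
      neg_mem' := fun {a} ha => ⟨by rw [smul_neg, ha.1, neg_zero], by rw [map_neg, ha.2]⟩ }
  let E1 : AddSubgroup K := D0.toAddSubgroup.comap K.subtype
  have hKf : Finite K := w0f
  have hKc : Nat.card K ≤ q ^ 2 := w0
  have hE1c : Nat.card E1 = q := by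
    rw [← hdp]
    exact Nat.card_congr ⟨fun e => ⟨e.1.1, e.2, e.1.2.1⟩, fun e => ⟨⟨e.1, e.2.2, hd e.1 e.2.1⟩, e.2.1⟩,
      fun _ => rfl, fun _ => rfl⟩
  have hQc : Nat.card (K ⧸ E1) ≤ q := by
    have h3 : Nat.card K = Nat.card (K ⧸ E1) * Nat.card E1 :=
      AddSubgroup.card_eq_card_quotient_mul_card_addSubgroup E1
    rw [h3, hE1c, pow_two] at hKc
    exact Nat.le_of_mul_le_mul_right hKc hqpos
  have hQf : Finite (K ⧸ E1) := Finite.of_surjective (QuotientAddGroup.mk' E1) (QuotientAddGroup.mk'_surjective E1)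
  let f : {r : R // p • r = 0 ∧ gam r = r} → (Fin g → K ⧸ E1) := fun r v =>
    QuotientAddGroup.mk' E1 ⟨loc v r.1, by
      constructor
      · rw [← map_nsmul, r.2.1, map_zero]
      · rw [← hcomm, r.2.2]⟩
  have hf : Function.Injective f := by
    intro r r' h
    have h3 : r.1 - r'.1 = 0 := by
      refine hinj _ (by rw [smul_sub, r.2.1, r'.2.1, sub_zero]) (by rw [map_sub, r.2.2, r'.2.2]) fun v => ?_
      have h4 := congrFun h v
      have h5 := QuotientAddGroup.eq.mp h4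
      have h6 : loc v (r.1 - r'.1) = -(-(loc v r.1) + (loc v r'.1)) := by
        rw [map_sub]
        abel
      rw [h6]
      exact D0.neg_mem h5
    exact Subtype.ext (sub_eq_zero.mp h3)
  refine ⟨Finite.of_injective f hf, ?_⟩
  have h3 := Nat.card_le_card_of_injective f hf
  rw [Nat.card_fun] at h3
  refine h3.trans ?_
  rw [Nat.card_fin]
  exact Nat.pow_le_pow_left hQc g

end H35L
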