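import Mathlib
import Pool.Agent.Lib.H35L.C7
import Pool.Agent.Lib.H35K.B2

/-! # H35L, chunk R0B (S/M): abstract bound, level n -/

open NumberField IsDedekindDomain WeierstrassCurve

namespace H35L

open H55P (IQ Pt ac Inert Dec Nm)
open H35P (WAB)
open H55K (CMA Dta)
open H35K (Lev)

variable {F : Type} [Field F] [NumberField F] [IQ F] {A B : F} {Om : ℂ} {Ω : Type} [Field Ω] [DecidableEq Ω]
  [Algebra F Ω] [IsAlgClosure F Ω] {j : Ω →+* ℂ} {act : 𝓞 F →+* AddMonoid.End (Pt (WAB A B) Ω)} {mo : Ideal (𝓞 F)}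
  {ψ : Ideal (𝓞 F) →*₀ 𝓞 F} {p : ℕ} {M : IntermediateField F Ω} {V : ValuationSubring Ω} {γ : Ω ≃ₐ[F] Ω} {g : ℕ} {s₀ : Fin g → (Ω ≃ₐ[F] Ω)}

/-- Chunk R0b (S/M). So there are at most (q^g)^(p^n) classes of level n killed by p: H35K.a1_bound for gam - 1 on the elements killed by p, lev_p (as in H35K.t1_leW). -/
theorem rn_abs {O R : Type} [CommRing O] [AddCommGroup R] [Module O R] {p c : ℕ} (hp : p.Prime) (gam : R →ₗ[O] R)
    (h0f : Finite {r : R // p • r = 0 ∧ gam r = r}) (h0 : Nat.card {r : R // p • r = 0 ∧ gam r = r} ≤ c) (n : ℕ) :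
    Finite {r : R // p • r = 0 ∧ Lev p n gam r} ∧ Nat.card {r : R // p • r = 0 ∧ Lev p n gam r} ≤ c ^ p ^ n := by
  let X : AddMonoid.End (H35K.b2_T O R p) := H35K.b2_en (H35K.b2_r p (gam - 1))
  have hX : ∀ j (u : H35K.b2_T O R p), (X ^ j) u = (H35K.b2_r p (gam - 1) ^ j) u :=
    fun j u => H35K.b2_End (H35K.b2_r p (gam - 1)) j u
  have e0 : {v : H35K.b2_T O R p // X v = 0} ≃ {w : R // p • w = 0 ∧ gam w = w} :=
    { toFun := fun u => ⟨(u.1 : R), H35K.b2_mem.1 u.1.2, by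
        have h2 := congrArg Subtype.val u.2
        change ((H35K.b2_r p (gam - 1) u.1 : H35K.b2_T O R p) : R) = 0 at h2
        rw [H35K.b2_r_coe, H35K.b2_sub_one] at h2
        exact sub_eq_zero.1 h2⟩
      invFun := fun z => ⟨⟨z.1, H35K.b2_mem.2 z.2.1⟩, Subtype.ext (show gam z.1 - z.1 = 0 from sub_eq_zero.2 z.2.2)⟩
      left_inv := fun u => rfl
      right_inv := fun z => rfl }
  obtain ⟨h1, h2⟩ := H35K.a1_bound X (c := c) (Finite.of_equiv _ e0.symm) ((Nat.card_congr e0).trans_le h0) (p ^ n)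
  have e : {v : H35K.b2_T O R p // (X ^ p ^ n) v = 0} ≃ {w : R // p • w = 0 ∧ Lev p n gam w} :=
    { toFun := fun u => ⟨(u.1 : R), H35K.b2_mem.1 u.1.2, (H35K.lev_p hp n gam _ (H35K.b2_mem.1 u.1.2)).2
        ((H35K.b2_pow_zero _ _ _).1 (by rw [← hX]; exact u.2))⟩
      invFun := fun z => ⟨⟨z.1, H35K.b2_mem.2 z.2.1⟩, by
        rw [hX]
        exact (H35K.b2_pow_zero _ _ _).2 ((H35K.lev_p hp n gam _ z.2.1).1 z.2.2)⟩
      left_inv := fun u => rfl
      right_inv := fun z => rfl }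
  refine ⟨Finite.of_equiv _ e, ?_⟩
  rw [← Nat.card_congr e]
  exact h2

end H35L
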