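import Mathlib
import Pool.Agent.Lib.H35L.C7
import Pool.Agent.Lib.H35K.B2
import Pool.Agent.Lib.H35L.R0A
import Pool.Agent.Lib.H35L.R0B
import Pool.Agent.Lib.H35L.C1D
import Pool.Agent.Lib.H35L.C4

/-! # H35L, chunk R0 (S/M): upper bounds for the classes killed by p -/

open NumberField IsDedekindDomain WeierstrassCurve

namespace H35L

open H55P (IQ Pt ac Inert Dec Nm)
open H35P (WAB)
open H55K (CMA Dta)
open H35K (Lev)

variable {F : Type} [Field F] [NumberField F] [IQ F] {A B : F} {Om : ℂ} {Ω : Type} [Field Ω] [DecidableEq Ω]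
  [Algebra F Ω] [IsAlgClosure F Ω] {j : Ω →+* ℂ} {act : 𝓞 F →+* AddMonoid.End (Pt (WAB A B) Ω)} {mo : Ideal (𝓞 F)}
  {ψ : Ideal (𝓞 F) →*₀ 𝓞 F} {p : ℕ} {M : IntermediateField F Ω} {V : ValuationSubring Ω} {γ : Ω ≃ₐ[F] Ω} {g : ℕ} {s₀ : Fin g → (Ω ≃ₐ[F] Ω)}

/-- Chunk R0 (S/M). For the classes: lo_comm, dlev (n = 0), LocF, inj. -/
theorem rn_le (dta : Dta A B Om j act mo ψ p) (hin : Prime (p : 𝓞 F)) (hc : Cm act) (fr : Fr p M V γ g s₀) (sel : H55P.SelZero (WAB A B) p M)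
    (lf : LocF act hc p (p ^ 2) V fr.gam) (n : ℕ) :
    Finite {r : RM act hc p M // p • r = 0 ∧ Lev p n (gamF hc fr) r} ∧ Nat.card {r : RM act hc p M // p • r = 0 ∧ Lev p n (gamF hc fr) r} ≤ (p ^ 2) ^ (g * p ^ n) := by
  classical
  have hp : p.Prime := dta.prime
  have hq : 2 ≤ p ^ 2 := by
    have := hp.two_le
    nlinarith
  have hd : ∀ w ∈ dF act hc p V 0, delF hc fr w = w := by
    intro w hw
    have h1 := dlev dta hc LI_conj fr.gam fr.gen 0 w hw
    simpa [Lev] using h1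
  have h0 := r0_abs (O := 𝓞 F) (R := RM act hc p M) (W := WM act hc p V) (p := p) (q := p ^ 2) (g := g) hq
    (gamF hc fr) (delF hc fr) (locF hc fr) (dF act hc p V 0)
    (fun i r => lo_comm dta hc GI_conj fr.gM fr.gam (fr.hG i) r) hd lf.w0f lf.w0
    (by
      have h1 := lf.dp 0
      rw [pow_zero, pow_one] at h1
      exact h1)
    (fun r h1 h2 h3 => inj dta hin hc fr sel r h1 h2 h3)
  have h1 := rn_abs hp (gamF hc fr) h0.1 h0.2 n
  rw [← pow_mul] at h1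
  exact h1

end H35L
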