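import Mathlib
import Pool.Agent.Lib.H35L.K3
import Pool.Agent.Lib.H35L.FR
import Pool.Agent.Lib.H35L.C1
import Pool.Agent.Lib.H35L.X3D

/-! # H35L, chunk R1A (S/M): from Kummer classes to classes -/

open NumberField IsDedekindDomain WeierstrassCurve

namespace H35L

open H55P (IQ Pt ac Inert Dec Nm)
open H35P (WAB)
open H55K (CMA Dta)
open H35K (Lev)

variable {F : Type} [Field F] [NumberField F] [IQ F] {A B : F} {Om : ℂ} {Ω : Type} [Field Ω] [DecidableEq Ω]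
  [Algebra F Ω] [IsAlgClosure F Ω] {j : Ω →+* ℂ} {act : 𝓞 F →+* AddMonoid.End (Pt (WAB A B) Ω)} {mo : Ideal (𝓞 F)}
  {ψ : Ideal (𝓞 F) →*₀ 𝓞 F} {p : ℕ} {M : IntermediateField F Ω} {V : ValuationSubring Ω} {γ : Ω ≃ₐ[F] Ω} {g : ℕ} {s₀ : Fin g → (Ω ≃ₐ[F] Ω)}

/-- Chunk R1a (S/M). A Kummer class invariant under level n is a class of level n (ku_hm, lev_iff; f(s h s^-1) = s f(h) is cjL s f = f at s h s^-1). -/
theorem xu_rm (dta : Dta A B Om j act mo ψ p) (hc : Cm act) (fr : Fr p M V γ g s₀) {k K : ℕ} {B' : IntermediateField F Ω} (hB : IsB act p K M.fixingSubgroup B')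
    (n : ℕ) {f : (Ω ≃ₐ[F] Ω) → PM act} (hf : f ∈ KU act p k M.fixingSubgroup B') (hi : ∀ s, SN M.fixingSubgroup p n s → cjL act hc s f = f) :
    ∃ r : RM act hc p M, r.1 = f ∧ Lev p n (gamF hc fr) r := by
  obtain ⟨hm, _⟩ := ku_hm dta hc hB hf
  have heq : ∀ s, SN M.fixingSubgroup p n s → ∀ h, SH act M.fixingSubgroup p h → f (s * h * s⁻¹) = aM act s (f h) := by
    intro s hs h _
    have h1 := congrFun (hi s hs) (s * h * s⁻¹)
    have h2 : aM act s (f (s⁻¹ * (s * h * s⁻¹) * s)) = f (s * h * s⁻¹) := h1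
    rw [← h2]
    congr 2
    group
  let r : RM act hc p M := ⟨f, ⟨hm, ⟨n, heq⟩⟩⟩
  exact ⟨r, rfl, (lev_iff dta hc GI_conj fr.gM fr.gen n r).2 heq⟩

end H35L
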