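import Mathlib
import Pool.Agent.Lib.H35L.K3
import Pool.Agent.Lib.H35L.FR
import Pool.Agent.Lib.H35L.C1
import Pool.Agent.Lib.H35L.X3D

/-! # H35L, chunk R1B (M): the field B -/

open NumberField IsDedekindDomain WeierstrassCurve

namespace H35L

open H55P (IQ Pt ac Inert Dec Nm)
open H35P (WAB)
open H55K (CMA Dta)
open H35K (Lev)

variable {F : Type} [Field F] [NumberField F] [IQ F] {A B : F} {Om : ℂ} {Ω : Type} [Field Ω] [DecidableEq Ω]
  [Algebra F Ω] [IsAlgClosure F Ω] {j : Ω →+* ℂ} {act : 𝓞 F →+* AddMonoid.End (Pt (WAB A B) Ω)} {mo : Ideal (𝓞 F)}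
  {ψ : Ideal (𝓞 F) →*₀ 𝓞 F} {p : ℕ} {M : IntermediateField F Ω} {V : ValuationSubring Ω} {γ : Ω ≃ₐ[F] Ω} {g : ℕ} {s₀ : Fin g → (Ω ≃ₐ[F] Ω)}

/-- the number of units of 𝓞 F/p^K -/
theorem r1b_card (hp : p.Prime) (hin : Prime (p : 𝓞 F)) {K : ℕ} (hK : 0 < K) :
    Nat.card (𝓞 F ⧸ Ideal.span {(p : 𝓞 F) ^ K})ˣ = p ^ (2 * (K - 1)) * (p ^ 2 - 1) := by
  classical
  have hpid : IsPrincipalIdealRing (𝓞 F) := IQ.pid
  have hfr : Module.finrank ℤ (𝓞 F) = 2 := by
    rw [RingOfIntegers.rank, IQ.deg]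
  have hpe : ((p : 𝓞 F)) ^ K = ((p ^ K : ℕ) : 𝓞 F) := by push_cast; rfl
  have hc1 : Nat.card (𝓞 F ⧸ Ideal.span {(p : 𝓞 F) ^ K}) = p ^ (2 * K) := by
    have h1 : Ideal.absNorm (Ideal.span {(p : 𝓞 F) ^ K}) = p ^ (2 * K) := by
      rw [hpe, Ideal.absNorm_span_natCast, hfr, ← pow_mul, mul_comm]
    exact h1
  have hc2 : Nat.card (𝓞 F ⧸ Ideal.span {(p : 𝓞 F)}) = p ^ 2 := by
    have h1 : Ideal.absNorm (Ideal.span {(p : 𝓞 F)}) = p ^ 2 := by
      rw [Ideal.absNorm_span_natCast, hfr]
    exact h1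
  have hfin : Finite (𝓞 F ⧸ Ideal.span {(p : 𝓞 F) ^ K}) := by
    apply (Nat.card_pos_iff.1 _).2
    rw [hc1]
    exact pow_pos hp.pos _
  have hle : Ideal.span {(p : 𝓞 F) ^ K} ≤ Ideal.span {(p : 𝓞 F)} := by
    rw [Ideal.span_singleton_le_span_singleton]
    exact dvd_pow_self _ hK.ne'
  let g : (𝓞 F ⧸ Ideal.span {(p : 𝓞 F) ^ K}) →+* (𝓞 F ⧸ Ideal.span {(p : 𝓞 F)}) := Ideal.Quotient.factor hle
  have hgs : Function.Surjective g := Ideal.Quotient.factor_surjective hle
  let gA : (𝓞 F ⧸ Ideal.span {(p : 𝓞 F) ^ K}) →+ (𝓞 F ⧸ Ideal.span {(p : 𝓞 F)}) := g.toAddMonoidHom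
  have hun : ∀ x, IsUnit x ↔ x ∉ gA.ker := by
    intro x
    obtain ⟨a, rfl⟩ := Ideal.Quotient.mk_surjective x
    have h1 : (Ideal.Quotient.mk (Ideal.span {(p : 𝓞 F) ^ K}) a ∉ gA.ker) ↔
        ¬ (p : 𝓞 F) ∣ a := by
      rw [not_iff_not]
      change g (Ideal.Quotient.mk _ a) = 0 ↔ _
      have h2 : g (Ideal.Quotient.mk _ a) = Ideal.Quotient.mk (Ideal.span {(p : 𝓞 F)}) a := rfl
      rw [h2, Ideal.Quotient.eq_zero_iff_mem, Ideal.mem_span_singleton]
    rw [h1, ← hin.irreducible.coprime_iff_not_dvd]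
    constructor
    · intro h
      obtain ⟨y, hy⟩ := h.exists_right_inv
      obtain ⟨b, rfl⟩ := Ideal.Quotient.mk_surjective y
      rw [← map_mul, ← map_one (Ideal.Quotient.mk _), Ideal.Quotient.eq, Ideal.mem_span_singleton] at hy
      obtain ⟨c, hc⟩ := hy
      obtain ⟨K', rfl⟩ := Nat.exists_eq_succ_of_ne_zero hK.ne'
      exact ⟨-((p : 𝓞 F) ^ K' * c), b, by rw [pow_succ] at hc; linear_combination hc⟩
    · intro h
      obtain ⟨u, v, huv⟩ := (h.pow_left (m := K))
      refine IsUnit.of_mul_eq_one (Ideal.Quotient.mk _ v) ?_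
      rw [← map_mul, ← map_one (Ideal.Quotient.mk _), Ideal.Quotient.eq, Ideal.mem_span_singleton]
      exact ⟨-u, by linear_combination huv⟩
  have hker : Nat.card gA.ker * p ^ 2 = p ^ (2 * K) := by
    rw [← hc1, ← hc2, ← AddSubgroup.card_mul_index gA.ker]
    congr 1
    rw [AddSubgroup.index_ker]
    have h3 : gA.range = ⊤ :=
      AddMonoidHom.range_eq_top.2 hgs
    rw [h3]
    exact (AddSubgroup.card_top).symm
  have hker2 : Nat.card gA.ker = p ^ (2 * (K - 1)) := by
    have h4 : p ^ (2 * K) = p ^ (2 * (K - 1)) * p ^ 2 := by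
      rw [← pow_add]
      congr 1
      omega
    rw [h4] at hker
    exact Nat.eq_of_mul_eq_mul_right (pow_pos hp.pos 2) hker
  have hsplit : Nat.card (𝓞 F ⧸ Ideal.span {(p : 𝓞 F) ^ K})ˣ + Nat.card gA.ker =
      Nat.card (𝓞 F ⧸ Ideal.span {(p : 𝓞 F) ^ K}) := by
    have e1 : Nat.card (𝓞 F ⧸ Ideal.span {(p : 𝓞 F) ^ K})ˣ =
        Nat.card {x // x ∉ gA.ker} := by
      apply Nat.card_congr
      refine Equiv.trans ?_ (Equiv.subtypeEquivRight hun)
      exact ⟨fun u => ⟨u, u.isUnit⟩, fun x => x.2.unit, fun u => Units.ext rfl, fun x => Subtype.ext rfl⟩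
    rw [e1, add_comm]
    have h5 := Nat.card_congr (Equiv.sumCompl (fun x => x ∈ gA.ker))
    rw [Nat.card_sum] at h5
    exact h5
  rw [hker2, hc1] at hsplit
  have h6 : p ^ (2 * K) = p ^ (2 * (K - 1)) * p ^ 2 := by
    rw [← pow_add]
    congr 1
    omega
  rw [h6] at hsplit
  rw [Nat.mul_sub, mul_one]
  omega

/-- Chunk R1b (M). The field of the points killed by p^K over M exists (the group {s in Gal(Ω/M) : s trivial on the points killed by p^K} is open: M and the coordinates of the generator), of degree g (q-1) q^(K-1) over F for K > 0: [Gal(Ω/M) : Gal(Ω/B)] = number of units of 𝓞 F/p^K, as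
Gal(Ω/M) contains Dec V (Fr.spl) and dec_surj. IntermediateField: finrank_eq_fixingSubgroup_index (InfiniteGalois). -/
theorem exists_B (dta : Dta A B Om j act mo ψ p) (hin : Prime (p : 𝓞 F)) (fr : Fr p M V γ g s₀) {K : ℕ} (hK : 0 < K) :
    ∃ B' : IntermediateField F Ω, FiniteDimensional F B' ∧ IsB act p K M.fixingSubgroup B' ∧
      Module.finrank F B' = (g * p ^ (2 * (K - 1))) * (p ^ 2 - 1) := by
  classical
  have hal0 : Algebra.IsAlgebraic F Ω := IsAlgClosure.isAlgebraic
  have hc0 : CharZero Ω := charZero_of_injective_algebraMap (algebraMap F Ω).injective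
  have hG : IsGalois F Ω := IsAlgClosure.isGalois F Ω
  have hfM : FiniteDimensional F M := fr.fin
  have hpK : ((p : 𝓞 F)) ^ K ≠ 0 := pow_ne_zero _ hin.ne_zero
  obtain ⟨T₀, h0, h1, h2⟩ := tor_gen dta K
  -- the field of the generator
  obtain ⟨L, hL, hLs⟩ : ∃ L : IntermediateField F Ω, FiniteDimensional F L ∧
      ∀ s : Ω ≃ₐ[F] Ω, s ∈ L.fixingSubgroup ↔ aM act s T₀ = T₀ := by
    change Pt (WAB A B) Ω at T₀
    cases T₀ with
    | zero => exact ⟨⊥, inferInstance, fun s => ⟨fun _ => rfl, fun _ => by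
        rw [IntermediateField.fixingSubgroup_bot]; trivial⟩⟩
    | some x y h =>
      refine ⟨IntermediateField.adjoin F {x, y}, IntermediateField.finiteDimensional_adjoin_pair
        (Algebra.IsIntegral.isIntegral x) (Algebra.IsIntegral.isIntegral y), fun s => ?_⟩
      have h3 : ac (WAB A B) s (Affine.Point.some x y h) = Affine.Point.some (s x) (s y)
          ((Affine.baseChange_nonsingular _ s.toAlgHom.injective ..).mpr h) := rfl
      change _ ↔ ac (WAB A B) s (Affine.Point.some x y h) = Affine.Point.some x y h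
      rw [h3]
      constructor
      · intro hs
        rw [IntermediateField.mem_fixingSubgroup_iff] at hs
        have hx : s x = x := hs x (IntermediateField.subset_adjoin F _ (by simp))
        have hy : s y = y := hs y (IntermediateField.subset_adjoin F _ (by simp))
        simp only [hx, hy]
      · intro hxy
        have hx : s x = x := (Affine.Point.some.inj hxy).1
        have hy : s y = y := (Affine.Point.some.inj hxy).2
        have h4 : IntermediateField.adjoin F {x, y} ≤ IntermediateField.fixedField (Subgroup.zpowers s) := by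
          rw [IntermediateField.adjoin_le_iff]
          intro z hz
          rw [SetLike.mem_coe, IntermediateField.mem_fixedField_iff]
          have h5 : s z = z := by
            rcases hz with rfl | hz
            · exact hx
            · rw [Set.mem_singleton_iff.1 hz]; exact hy
          intro t ht
          have h6 : Subgroup.zpowers s ≤ MulAction.stabilizer (Ω ≃ₐ[F] Ω) z := by
            rw [Subgroup.zpowers_le]
            exact h5
          exact h6 ht
        rw [IntermediateField.mem_fixingSubgroup_iff]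
        intro z hz
        exact (IntermediateField.mem_fixedField_iff _ _).1 (h4 hz) s (Subgroup.mem_zpowers s)
  have hch1 : ∀ s : Ω ≃ₐ[F] Ω, aM act s T₀ = T₀ ↔ Ch act p K s 1 := by
    intro s
    constructor
    · intro h T hT
      obtain ⟨b, rfl⟩ := h1 T hT
      rw [cm dta, h, one_smul]
    · intro h
      rw [h T₀ h0, one_smul]
  have hB : IsB act p K M.fixingSubgroup (M ⊔ L) := by
    intro s
    rw [IntermediateField.fixingSubgroup_sup, Subgroup.mem_inf, hLs, hch1]
  refine ⟨M ⊔ L, IntermediateField.finiteDimensional_sup M L, hB, ?_⟩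
  -- the character
  let I : Ideal (𝓞 F) := Ideal.span {(p : 𝓞 F) ^ K}
  let f : M.fixingSubgroup →* (𝓞 F ⧸ I) :=
    { toFun := fun s => Ideal.Quotient.mk I (ch_exists dta K s.1).choose
      map_one' := by
        rw [← map_one (Ideal.Quotient.mk I), Ideal.Quotient.eq, Ideal.mem_span_singleton]
        refine ch_uniq dta (ch_exists dta K _).choose_spec.1 (fun T _ => ?_)
        rw [one_smul]
        exact aM_one act T
      map_mul' := by
        intro s t
        rw [← map_mul, Ideal.Quotient.eq, Ideal.mem_span_singleton]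
        exact ch_uniq dta (ch_exists dta K _).choose_spec.1
          (ch_mul (cm dta) (ch_exists dta K _).choose_spec.1 (ch_exists dta K _).choose_spec.1) }
  have hf : ∀ (s : M.fixingSubgroup) (a : 𝓞 F), Ch act p K s.1 a → f s = Ideal.Quotient.mk I a := by
    intro s a ha
    change Ideal.Quotient.mk I (ch_exists dta K s.1).choose = _
    rw [Ideal.Quotient.eq, Ideal.mem_span_singleton]
    exact ch_uniq dta (ch_exists dta K _).choose_spec.1 ha
  let χ : M.fixingSubgroup →* (𝓞 F ⧸ I)ˣ := f.toHomUnits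
  have hχ : ∀ s, ((χ s : (𝓞 F ⧸ I)ˣ) : 𝓞 F ⧸ I) = f s := fun s => rfl
  have hsurj : Function.Surjective χ := by
    intro u
    obtain ⟨a, ha⟩ := Ideal.Quotient.mk_surjective (u : 𝓞 F ⧸ I)
    have hcop : IsCoprime a (p : 𝓞 F) := by
      obtain ⟨b, hb⟩ := Ideal.Quotient.mk_surjective ((u⁻¹ : (𝓞 F ⧸ I)ˣ) : 𝓞 F ⧸ I)
      have h3 : Ideal.Quotient.mk I (a * b) = Ideal.Quotient.mk I 1 := by
        rw [map_mul, ha, hb, Units.mul_inv, map_one]
      rw [Ideal.Quotient.eq, Ideal.mem_span_singleton] at h3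
      obtain ⟨c, hc⟩ := h3
      obtain ⟨K', rfl⟩ := Nat.exists_eq_succ_of_ne_zero hK.ne'
      exact ⟨b, -((p : 𝓞 F) ^ K' * c), by rw [pow_succ] at hc; linear_combination hc⟩
    obtain ⟨s, hs, hsa⟩ := dec_surj dta hin fr.above K a hcop
    have hsM : s ∈ M.fixingSubgroup := fr.spl V fr.above s hs
    refine ⟨⟨s, hsM⟩, Units.ext ?_⟩
    rw [hχ, hf ⟨s, hsM⟩ a hsa, ha]
  have hker : ∀ s : M.fixingSubgroup, s ∈ χ.ker ↔ s.1 ∈ (M ⊔ L).fixingSubgroup := by
    intro s
    rw [MonoidHom.mem_ker, hB s.1]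
    obtain ⟨a, ha, -⟩ := ch_exists dta K s.1
    constructor
    · intro h
      refine ⟨s.2, ch_congr ha ?_⟩
      have h3 : f s = 1 := by rw [← hχ, h, Units.val_one]
      rw [hf s a ha, ← map_one (Ideal.Quotient.mk I), Ideal.Quotient.eq, Ideal.mem_span_singleton] at h3
      exact h3
    · rintro ⟨-, h⟩
      apply Units.ext
      rw [hχ, hf s 1 h, map_one, Units.val_one]
  have hle : (M ⊔ L).fixingSubgroup ≤ M.fixingSubgroup := by
    rw [IntermediateField.fixingSubgroup_sup]
    exact inf_le_left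
  have hrel : (M ⊔ L).fixingSubgroup.relIndex M.fixingSubgroup = Nat.card (𝓞 F ⧸ I)ˣ := by
    have h3 : (M ⊔ L).fixingSubgroup.subgroupOf M.fixingSubgroup = χ.ker := by
      ext s
      rw [hker s, Subgroup.mem_subgroupOf]
    rw [Subgroup.relIndex, h3, Subgroup.index_ker, MonoidHom.range_eq_top.2 hsurj]
    exact Subgroup.card_top
  have hidx : Module.finrank F (M ⊔ L : IntermediateField F Ω) = (M ⊔ L).fixingSubgroup.index :=
    IntermediateField.finrank_eq_fixingSubgroup_index Ω _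
  have hidM : M.fixingSubgroup.index = g := by
    rw [← IntermediateField.finrank_eq_fixingSubgroup_index Ω M]
    exact fr.deg
  rw [hidx, ← Subgroup.relIndex_mul_index hle, hrel, hidM, r1b_card dta.prime hin hK]
  ring


end H35L
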