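import Mathlib
import Pool.Agent.Lib.H35L.K3
import Pool.Agent.Lib.H35L.FR
import Pool.Agent.Lib.H35L.C1
import Pool.Agent.Lib.H35L.X3D
import Pool.Agent.Lib.H35L.X5T
import Pool.Agent.Lib.H35L.R1A
import Pool.Agent.Lib.H35L.R1B

/-! # H35L, chunk R1 (S): sigma -/

open NumberField IsDedekindDomain WeierstrassCurve

namespace H35L

open H55P (IQ Pt ac Inert Dec Nm)
open H35P (WAB)
open H55K (CMA Dta)
open H35K (Lev)

variable {F : Type} [Field F] [NumberField F] [IQ F] {A B : F} {Om : ℂ} {Ω : Type} [Field Ω] [DecidableEq Ω]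
  [Algebra F Ω] [IsAlgClosure F Ω] {j : Ω →+* ℂ} {act : 𝓞 F →+* AddMonoid.End (Pt (WAB A B) Ω)} {mo : Ideal (𝓞 F)}
  {ψ : Ideal (𝓞 F) →*₀ 𝓞 F} {p : ℕ} {M : IntermediateField F Ω} {V : ValuationSubring Ω} {γ : Ω ≃ₐ[F] Ω} {g : ℕ} {s₀ : Fin g → (Ω ≃ₐ[F] Ω)}

/-- Chunk R1c (S). sigma with IsSig exists in Gal(Ω/M), and sigma - 1 is bijective: teich, dec_surj, tb_of_ch. -/
theorem exists_isig (dta : Dta A B Om j act mo ψ p) (hin : Prime (p : 𝓞 F)) (fr : Fr p M V γ g s₀) {K : ℕ} (hK : 0 < K) :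
    ∃ (σ : Ω ≃ₐ[F] Ω) (a : 𝓞 F), σ ∈ M.fixingSubgroup ∧ IsSig act p K σ a := by
  obtain ⟨n, rfl⟩ : ∃ n, K = n + 1 := ⟨K - 1, by omega⟩
  obtain ⟨a, hcop, hpw, -, -, hgen⟩ := teich dta hin n
  obtain ⟨σ, hσ, hch⟩ := dec_surj dta hin fr.above (n + 1) a hcop
  exact ⟨σ, a, fr.spl V fr.above σ hσ, hch, hcop, hpw, hgen⟩

end H35L
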