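import Mathlib
import Pool.Agent.Lib.H35L.R0
import Pool.Agent.Lib.H35L.R1
import Pool.Agent.Lib.H35L.N0
import Pool.Agent.Lib.H35L.K5
import Pool.Agent.Lib.H35L.FL2
import Pool.Agent.Lib.H35L.C0D

/-! # H35L, chunk R2 (M/L): the number of classes killed by p, divisibility by p^(K-1) -/

open NumberField IsDedekindDomain WeierstrassCurve

namespace H35L

open H55P (IQ Pt ac Inert Dec Nm)
open H35P (WAB)
open H55K (CMA Dta)
open H35K (Lev)

variable {F : Type} [Field F] [NumberField F] [IQ F] {A B : F} {Om : ℂ} {Ω : Type} [Field Ω] [DecidableEq Ω]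
  [Algebra F Ω] [IsAlgClosure F Ω] {j : Ω →+* ℂ} {act : 𝓞 F →+* AddMonoid.End (Pt (WAB A B) Ω)} {mo : Ideal (𝓞 F)}
  {ψ : Ideal (𝓞 F) →*₀ 𝓞 F} {p : ℕ} {M : IntermediateField F Ω} {V : ValuationSubring Ω} {γ : Ω ≃ₐ[F] Ω} {g : ℕ} {s₀ : Fin g → (Ω ≃ₐ[F] Ω)}

/-- A choice of classes gives an injection. -/
theorem r2_inj (hc : Cm act) (fr : Fr p M V γ g s₀) {n : ℕ} {P : ((Ω ≃ₐ[F] Ω) → PM act) → Prop}
    (h : ∀ x, P x → ∃ r : RM act hc p M, r.1 = x ∧ p • r = 0 ∧ Lev p n (gamF hc fr) r) :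
    ∃ φ : {x // P x} → {r : RM act hc p M // p • r = 0 ∧ Lev p n (gamF hc fr) r}, Function.Injective φ ∧ ∀ x, (φ x).1.1 = x.1 := by
  choose r hr using fun x : {x // P x} => h x.1 x.2
  refine ⟨fun x => ⟨r x, (hr x).2⟩, ?_, fun x => (hr x).1⟩
  intro x y hxy
  apply Subtype.ext
  rw [← (hr x).1, ← (hr y).1]
  exact congrArg (fun z => z.1.1) hxy

/-- The case of a stable field. -/
theorem r2_key (dta : Dta A B Om j act mo ψ p) (hin : Prime (p : 𝓞 F)) (hc : Cm act) (fr : Fr p M V γ g s₀) (sel : H55P.SelZero (WAB A B) p M)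
    (lf : LocF act hc p (p ^ 2) V fr.gam) {n K : ℕ} (hn : n < K) :
    ∃ (B' : IntermediateField F Ω) (σ : Ω ≃ₐ[F] Ω), IsB act p K M.fixingSubgroup B' ∧
      Nat.card {x : (Ω ≃ₐ[F] Ω) → PM act // x ∈ XU act hc p 1 M.fixingSubgroup B' σ ∧ ∀ s, SN M.fixingSubgroup p n s → cjL act hc s x = x} =
        (p ^ 2) ^ (g * p ^ n) ∧
      ∀ x ∈ XU act hc p 1 M.fixingSubgroup B' σ, (∀ s, SN M.fixingSubgroup p n s → cjL act hc s x = x) →
        ∃ y ∈ XU act hc p K M.fixingSubgroup B' σ, (∀ s, SN M.fixingSubgroup p n s → cjL act hc s y = y) ∧ p ^ (K - 1) • y = x := by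
  have hp : p.Prime := dta.prime
  have h3 : 3 ≤ p := by
    have := dta.five
    omega
  have hK : 0 < K := by omega
  have hprime : (Ideal.span {(p : 𝓞 F)}).IsPrime := (Ideal.span_singleton_prime hin.ne_zero).2 hin
  have hmax : (Ideal.span {(p : 𝓞 F)}).IsMaximal := hprime.isMaximal (by rw [Ne, Ideal.span_singleton_eq_bot]; exact hin.ne_zero)
  have hcard : Nat.card (𝓞 F ⧸ Ideal.span {(p : 𝓞 F)}) = p ^ 2 := by
    have h4 : Nm (p : 𝓞 F) = p ^ 2 := H55K.Nm_nat p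
    exact h4
  have hq2 : 2 ≤ p ^ 2 := by nlinarith
  obtain ⟨B', hBf, hB, hdeg⟩ := exists_B dta hin fr hK
  obtain ⟨σ, a, hσ, ha⟩ := exists_isig dta hin fr hK
  obtain ⟨N₀, hN1, hN2, hN3, hN4⟩ := exists_n0 dta hin hK (G := M.fixingSubgroup) (fun b hb => by
    obtain ⟨s, hs, hs2⟩ := dec_surj dta hin fr.above K b hb
    exact ⟨s, fr.spl V fr.above s hs, hs2⟩) hσ ha
  refine ⟨B', σ, hB, ?_⟩
  let ρ : M.fixingSubgroup →* Module.End (𝓞 F) ((Ω ≃ₐ[F] Ω) → PM act) := (cjR act hc).comp M.fixingSubgroup.subtype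
  have hρ : ∀ (s : M.fixingSubgroup) (x : (Ω ≃ₐ[F] Ω) → PM act), ρ s x = cjL act hc (s : Ω ≃ₐ[F] Ω) x := fun _ _ => rfl
  have htriv : ∀ k, k ≤ K → ∀ s ∈ N₀, ∀ x ∈ XU act hc p k M.fixingSubgroup B' σ, ρ s x = x := by
    intro k hk s hs x hx
    obtain ⟨i, b, hb1, hb2, hb3⟩ := hN2 s hs
    obtain ⟨h1, h2⟩ := Submodule.mem_inf.1 hx
    rw [LinearMap.mem_ker, LinearMap.sub_apply, Module.End.one_apply, sub_eq_zero] at h2
    have hi : ∀ i : ℕ, cjL act hc (σ ^ i) x = x := by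
      intro i
      induction i with
      | zero => rw [pow_zero, cjL_one]; rfl
      | succ i ih =>
        rw [pow_succ', cjL_mul, Module.End.mul_apply, ih, h2]
    rw [hρ, hb3, cjL_mul, Module.End.mul_apply, ku_triv dta hc hk hB ((hB b).2 ⟨hb1, hb2⟩) h1, hi]
  have hle : Nat.card {x : (Ω ≃ₐ[F] Ω) → PM act // x ∈ XU act hc p 1 M.fixingSubgroup B' σ ∧ ∀ s, ρ s x = x} ≤ (p ^ 2) ^ g := by
    have h0 := rn_le dta hin hc fr sel lf 0
    rw [pow_zero, mul_one] at h0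
    obtain ⟨hf0, hc0⟩ := h0
    obtain ⟨φ, hφ, -⟩ := r2_inj hc fr (n := 0) (P := fun x => x ∈ XU act hc p 1 M.fixingSubgroup B' σ ∧ ∀ s, ρ s x = x) (by
      rintro x ⟨hx, hx2⟩
      have hx1 := (Submodule.mem_inf.1 hx).1
      obtain ⟨r, hr1, hr2⟩ := xu_rm dta hc fr hB 0 hx1 (fun s hs => hx2 ⟨s, hs.1⟩)
      refine ⟨r, hr1, ?_, hr2⟩
      apply Subtype.ext
      have h5 := (ku_hm dta hc hB hx1).2
      rw [pow_one] at h5
      have h6 : (p • r : RM act hc p M).1 = p • r.1 := rfl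
      rw [h6, hr1, h5]
      rfl)
    exact (Nat.card_le_card_of_injective φ hφ).trans hc0
  have hxc := xu_card dta hin hc hK hB hσ ha hdeg
  have hmain := fl2 hp hmax hcard hq2 ρ (XU act hc p 1 M.fixingSubgroup B' σ) (XU act hc p K M.fixingSubgroup B' σ)
    (fun s x hx => xu_stable dta hc hB hσ s.2 hx) (fun s x hx => xu_stable dta hc hB hσ s.2 hx) N₀ hN4
    (htriv 1 (by omega)) (htriv K le_rfl)
    (fun x hx => by
      have h5 := (ku_hm dta hc hB (Submodule.mem_inf.1 hx).1).2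
      rwa [pow_one] at h5) hxc.1 (k := K - 1) (fun x hx => xu_div dta hc hK le_rfl hB hσ ha hx) g hle hxc.2
    ((LG hp M.fixingSubgroup n).subgroupOf M.fixingSubgroup) (by
      intro s hs
      exact ⟨s.2, gc_le (by omega) (hN3 s hs)⟩)
  have hidx : ((LG hp M.fixingSubgroup n).subgroupOf M.fixingSubgroup).index = p ^ n := lg_index hp h3 fr.gM fr.gen n
  have hiff : ∀ x : (Ω ≃ₐ[F] Ω) → PM act, (∀ s ∈ (LG hp M.fixingSubgroup n).subgroupOf M.fixingSubgroup, ρ s x = x) ↔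
      ∀ s, SN M.fixingSubgroup p n s → cjL act hc s x = x := by
    intro x
    constructor
    · intro h s hs
      exact h ⟨s, hs.1⟩ hs
    · intro h s hs
      exact h s.1 hs
  rw [hidx] at hmain
  obtain ⟨hm1, hm2⟩ := hmain
  refine ⟨?_, ?_⟩
  · rw [← hm1]
    exact Nat.card_congr (Equiv.subtypeEquivRight fun x => and_congr_right fun _ => (hiff x).symm)
  · intro x hx hx2
    obtain ⟨y, hy, hy2, hy3⟩ := hm2 x hx ((hiff x).2 hx2)
    exact ⟨y, hy, (hiff y).1 hy2, hy3⟩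

/-- Chunk R2 (M/L). n < K. fl2 for Gamma = Gal(Ω/M) (the subgroup type), Z = functions, rho = cjR restricted, X1 = XU 1, XK = XU K (for B = exists_B, sigma = exists_isig; xu_stable), N₀ from exists_n0, m = 2 (K-1) (N₀ acts trivially: s = sigma^i b, cjL sigma f = f on XU, b fixes B: IsB, ku_triv),
k = K - 1 (xu_div), S = the elements of level n, index p^n (lg_index), contains N₀ (gc_le). hle: the invariants under Gal(Ω/M) are classes of level 0 (xu_rm, gc_zero): rn_le for n = 0. hge: xu_card with N = g q^(K-1). So the elements of XU 1 invariant under level n are q^(g p^n) classes of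
level n killed by p (xu_rm); there are at most so many (rn_le): all classes of level n killed by p are of this form, there are q^(g p^n) of them, and each is p^(K-1) times a class of level n. -/
theorem rn_main (dta : Dta A B Om j act mo ψ p) (hin : Prime (p : 𝓞 F)) (hc : Cm act) (fr : Fr p M V γ g s₀) (sel : H55P.SelZero (WAB A B) p M)
    (lf : LocF act hc p (p ^ 2) V fr.gam) {n K : ℕ} (hn : n < K) :
    (p ^ 2) ^ (g * p ^ n) ≤ Nat.card {r : RM act hc p M // p • r = 0 ∧ Lev p n (gamF hc fr) r} ∧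
      ∀ r : RM act hc p M, p • r = 0 → Lev p n (gamF hc fr) r → ∃ r' : RM act hc p M, Lev p n (gamF hc fr) r' ∧ p ^ (K - 1) • r' = r := by
  obtain ⟨B', σ, hB, h1, h2⟩ := r2_key dta hin hc fr sel lf hn
  obtain ⟨hf, hcn⟩ := rn_le dta hin hc fr sel lf n
  obtain ⟨φ, hφ, hφ2⟩ := r2_inj hc fr (n := n) (P := fun x => x ∈ XU act hc p 1 M.fixingSubgroup B' σ ∧ ∀ s, SN M.fixingSubgroup p n s → cjL act hc s x = x) (by
    rintro x ⟨hx, hx2⟩
    have hx1 := (Submodule.mem_inf.1 hx).1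
    obtain ⟨r, hr1, hr2⟩ := xu_rm dta hc fr hB n hx1 hx2
    refine ⟨r, hr1, ?_, hr2⟩
    apply Subtype.ext
    have h5 := (ku_hm dta hc hB hx1).2
    rw [pow_one] at h5
    have h6 : (p • r : RM act hc p M).1 = p • r.1 := rfl
    rw [h6, hr1, h5]
    rfl)
  have hle := Nat.card_le_card_of_injective φ hφ
  rw [h1] at hle
  refine ⟨hle, ?_⟩
  have hfa : Finite {x : (Ω ≃ₐ[F] Ω) → PM act // x ∈ XU act hc p 1 M.fixingSubgroup B' σ ∧ ∀ s, SN M.fixingSubgroup p n s → cjL act hc s x = x} :=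
    Finite.of_injective φ hφ
  have hbij : Function.Bijective φ := by
    have h5 : Nat.card {x : (Ω ≃ₐ[F] Ω) → PM act // x ∈ XU act hc p 1 M.fixingSubgroup B' σ ∧ ∀ s, SN M.fixingSubgroup p n s → cjL act hc s x = x} =
        Nat.card {r : RM act hc p M // p • r = 0 ∧ Lev p n (gamF hc fr) r} := by
      rw [h1]
      exact le_antisymm hle hcn
    exact (Nat.bijective_iff_injective_and_card φ).2 ⟨hφ, h5⟩
  intro r hr1 hr2
  obtain ⟨x, hx⟩ := hbij.2 ⟨r, hr1, hr2⟩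
  have hxr : x.1 = r.1 := by rw [← hφ2 x, hx]
  obtain ⟨y, hy, hy2, hy3⟩ := h2 x.1 x.2.1 x.2.2
  obtain ⟨r', hr3, hr4⟩ := xu_rm dta hc fr hB n (Submodule.mem_inf.1 hy).1 hy2
  refine ⟨r', hr4, ?_⟩
  apply Subtype.ext
  have h6 : (p ^ (K - 1) • r' : RM act hc p M).1 = p ^ (K - 1) • r'.1 := rfl
  rw [h6, hr3, hy3, hxr]

end H35L
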