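import Mathlib
import Pool.Agent.Lib.H35L.R2
import Pool.Agent.Lib.H35L.C1C
import Pool.Agent.Lib.H35L.C1D
import Pool.Agent.Lib.H35L.C4B
import Pool.Agent.Lib.H35L.C4E
import Pool.Agent.Lib.H35K.B7

/-! # H35L, chunk T1A (S/M): divisibility -/

open NumberField IsDedekindDomain WeierstrassCurve

namespace H35L

open H55P (IQ Pt ac Inert Dec Nm)
open H35P (WAB)
open H55K (CMA Dta)
open H35K (Lev)

variable {F : Type} [Field F] [NumberField F] [IQ F] {A B : F} {Om : ℂ} {Ω : Type} [Field Ω] [DecidableEq Ω]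
  [Algebra F Ω] [IsAlgClosure F Ω] {j : Ω →+* ℂ} {act : 𝓞 F →+* AddMonoid.End (Pt (WAB A B) Ω)} {mo : Ideal (𝓞 F)}
  {ψ : Ideal (𝓞 F) →*₀ 𝓞 F} {p : ℕ} {M : IntermediateField F Ω} {V : ValuationSubring Ω} {γ : Ω ≃ₐ[F] Ω} {g : ℕ} {s₀ : Fin g → (Ω ≃ₐ[F] Ω)}

omit [NumberField F] [IQ F] [DecidableEq Ω] [IsAlgClosure F Ω] [Algebra F Ω] [Field Ω] in
theorem t1a_gen {O Z : Type} [CommRing O] [AddCommGroup Z] [Module O Z] {p n : ℕ} {f : Z →ₗ[O] Z}
    (h : ∀ K, n < K → ∀ r : Z, p • r = 0 → Lev p n f r → ∃ r', Lev p n f r' ∧ p ^ (K - 1) • r' = r) (k : ℕ) :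
    ∀ r : Z, p ^ k • r = 0 → Lev p n f r → ∃ r', Lev p n f r' ∧ p • r' = r := by
  have hs : ∀ (a : ℕ) (z : Z), Lev p n f z → Lev p n f (a • z) := by
    intro a z hz
    show (f ^ p ^ n) (a • z) = a • z
    rw [map_nsmul, show (f ^ p ^ n) z = z from hz]
  have hsub : ∀ y z : Z, Lev p n f y → Lev p n f z → Lev p n f (y - z) := by
    intro y z hy hz
    show (f ^ p ^ n) (y - z) = y - z
    rw [map_sub, show (f ^ p ^ n) z = z from hz, show (f ^ p ^ n) y = y from hy]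
  have hadd : ∀ y z : Z, Lev p n f y → Lev p n f z → Lev p n f (y + z) := by
    intro y z hy hz
    show (f ^ p ^ n) (y + z) = y + z
    rw [map_add, show (f ^ p ^ n) z = z from hz, show (f ^ p ^ n) y = y from hy]
  induction k with
  | zero =>
    intro r hr hl
    rw [pow_zero, one_smul] at hr
    refine ⟨0, ?_, ?_⟩
    · show (f ^ p ^ n) 0 = 0
      exact map_zero _
    · rw [hr, smul_zero]
  | succ k ih =>
    intro r hr hl
    have h1 : p • (p ^ k • r) = 0 := by rw [smul_smul, ← pow_succ']; exact hr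
    obtain ⟨s, hs1, hs2⟩ := h (k + n + 2) (by omega) (p ^ k • r) h1 (hs _ _ hl)
    have h2 : p ^ (k + 1) • (p ^ n • s) = p ^ k • r := by
      rw [smul_smul, ← pow_add, ← hs2]
      congr 2
      omega
    have h3 : p ^ k • (r - p • (p ^ n • s)) = 0 := by
      rw [smul_sub, smul_smul (p ^ k) p, ← pow_succ, h2, sub_self]
    obtain ⟨t, ht1, ht2⟩ := ih _ h3 (hsub _ _ hl (hs _ _ (hs _ _ hs1)))
    refine ⟨p ^ n • s + t, hadd _ _ (hs _ _ hs1) ht1, ?_⟩
    rw [smul_add, ht2]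
    abel

/-- Chunk T1a (S/M). Divisibility: r of level n, p^k r = 0; induction on k: p^(k-1) r is killed by p, so it is p^k s with s of level n (rn_main with K = k + n + 1: p^(K-1) s = p^k (p^n s)), r - p s is killed by p^(k-1). -/
theorem rdiv (dta : Dta A B Om j act mo ψ p) (hin : Prime (p : 𝓞 F)) (hc : Cm act) (fr : Fr p M V γ g s₀) (sel : H55P.SelZero (WAB A B) p M)
    (lf : LocF act hc p (p ^ 2) V fr.gam) (n : ℕ) (r : RM act hc p M) (hr : Lev p n (gamF hc fr) r) :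
    ∃ r' : RM act hc p M, Lev p n (gamF hc fr) r' ∧ p • r' = r := by
  obtain ⟨k, hk⟩ := cls_tor hc r
  exact t1a_gen (fun K hK r hr hl => (rn_main dta hin hc fr sel lf hK).2 r hr hl) k r hk hr

end H35L
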