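import Mathlib
import Pool.Agent.Lib.H35L.R2
import Pool.Agent.Lib.H35L.C1C
import Pool.Agent.Lib.H35L.C1D
import Pool.Agent.Lib.H35L.C4B
import Pool.Agent.Lib.H35L.C4E
import Pool.Agent.Lib.H35K.B7
import Pool.Agent.Lib.H35L.T1A

/-! # H35L, chunk T1 (M): the tower -/

open NumberField IsDedekindDomain WeierstrassCurve

namespace H35L

open H55P (IQ Pt ac Inert Dec Nm)
open H35P (WAB)
open H55K (CMA Dta)
open H35K (Lev)

variable {F : Type} [Field F] [NumberField F] [IQ F] {A B : F} {Om : ℂ} {Ω : Type} [Field Ω] [DecidableEq Ω]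
  [Algebra F Ω] [IsAlgClosure F Ω] {j : Ω →+* ℂ} {act : 𝓞 F →+* AddMonoid.End (Pt (WAB A B) Ω)} {mo : Ideal (𝓞 F)}
  {ψ : Ideal (𝓞 F) →*₀ 𝓞 F} {p : ℕ} {M : IntermediateField F Ω} {V : ValuationSubring Ω} {γ : Ω ≃ₐ[F] Ω} {g : ℕ} {s₀ : Fin g → (Ω ≃ₐ[F] Ω)}

/-- Chunk T1 (M). All fields of the tower: dta.prime, dta.five; g > 0 (degree of M); (p) is maximal, 𝓞 F/p has p^2 elements (Ideal.absNorm_span_natCast or Nm_nat); lo_comm (gamma in Gal(Ω/M) and in Dec V); cls_tor; LocF; dlev, dmono, dst, dnrm, ddiv; inj; rn_main; rdiv. -/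
theorem tow (dta : Dta A B Om j act mo ψ p) (hin : Prime (p : 𝓞 F)) (hc : Cm act) (fr : Fr p M V γ g s₀) (sel : H55P.SelZero (WAB A B) p M)
    (lf : LocF act hc p (p ^ 2) V fr.gam) :
    H35K.Tow p (p ^ 2) g (gamF hc fr) (delF hc fr) (locF hc fr) (dF act hc p V) := by
  have hp : p.Prime := dta.prime
  have h3 : 3 ≤ p := by
    have := dta.five
    omega
  have hprime : (Ideal.span {(p : 𝓞 F)}).IsPrime := (Ideal.span_singleton_prime hin.ne_zero).2 hin
  have hmax : (Ideal.span {(p : 𝓞 F)}).IsMaximal := hprime.isMaximal (by rw [Ne, Ideal.span_singleton_eq_bot]; exact hin.ne_zero)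
  have hcard : Nat.card (𝓞 F ⧸ Ideal.span {(p : 𝓞 F)}) = p ^ 2 := by
    have h4 : Nm (p : 𝓞 F) = p ^ 2 := H55K.Nm_nat p
    exact h4
  have hq2 : 2 ≤ p ^ 2 := by nlinarith
  have hfin := fr.fin
  have hg : 0 < g := by
    rw [← fr.deg]
    exact Module.finrank_pos
  exact
    { pr := hp
      odd := h3
      gpos := hg
      max := hmax
      card := hcard
      q2 := hq2
      comm := fun v r => lo_comm dta hc GI_conj fr.gM fr.gam (fr.hG v) r
      torR := fun r => cls_tor hc r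
      torW := fun w => cls_tor hc w
      w0f := lf.w0f
      w0 := lf.w0
      dlev := fun n w hw => dlev dta hc LI_conj fr.gam fr.gen n w hw
      dmono := fun n => dmono hc n
      dst := fun n w hw => dst hp hc LI_conj fr.gam n w hw
      dnrm := fun n w hw => dnrm dta hc LI_conj fr.gam fr.gen n w hw
      ddiv := fun n w hw => ddiv dta hc (fun _ h => h) n w hw
      dp := lf.dp
      ds := lf.ds
      inj := fun r h1 h2 h4 => inj dta hin hc fr sel r h1 h2 h4
      rdim := fun n => (rn_main dta hin hc fr sel lf (Nat.lt_succ_self n)).1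
      rdiv := fun n r hr => rdiv dta hin hc fr sel lf n r hr }

end H35L
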