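import Mathlib
import Pool.Agent.Lib.H35L.S6
import Pool.Agent.Lib.H35L.T1
import Pool.Agent.Lib.H35L.S4
import Pool.Agent.Lib.H35L.S5
import Pool.Agent.Lib.H35L.C6

/-! # H35L, S7: the theorem of module AL -/

open NumberField IsDedekindDomain WeierstrassCurve

namespace H35L

open H55P (IQ Pt ac Inert Dec Nm)
open H35P (WAB)
open H55K (CMA Dta)
open H35K (Lev)

/-- There is a valuation ring above p. -/
theorem s7_above (Ω : Type) [Field Ω] [CharZero Ω] {p : ℕ} (hp : p.Prime) : ∃ V : ValuationSubring Ω, V.valuation (p : Ω) < 1 := by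
  let A : Subring Ω := (Int.castRingHom Ω).range
  have h2A : (p : Ω) ∈ A := ⟨p, by simp⟩
  let t : A := ⟨p, h2A⟩
  have hI : Ideal.span {t} ≠ ⊤ := by
    intro h
    have h1 : (1 : A) ∈ Ideal.span {t} := by rw [h]; trivial
    rw [Ideal.mem_span_singleton] at h1
    obtain ⟨⟨c, ⟨n, hn⟩⟩, hc⟩ := h1
    have h3 : (1 : Ω) = (p : Ω) * c := congrArg Subtype.val hc
    rw [← hn] at h3
    simp only [eq_intCast] at h3
    have h4 : (1 : ℤ) = (p : ℤ) * n := by exact_mod_cast h3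
    have h5 : (p : ℤ) ∣ 1 := ⟨n, h4⟩
    have h6 : (p : ℤ) ≤ 1 := Int.le_of_dvd one_pos h5
    have h7 := hp.two_le
    omega
  obtain ⟨B, -, hB⟩ := Ideal.image_subset_nonunits_valuationSubring (Ideal.span {t}) hI
  refine ⟨B, ?_⟩
  rw [← ValuationSubring.mem_nonunits_iff]
  exact hB ⟨t, Ideal.mem_span_singleton_self t, rfl⟩

section frame

variable {F : Type} [Field F] [NumberField F] [IQ F] {A B : F} {Om : ℂ} {Ω : Type} [Field Ω] [DecidableEq Ω]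
  [Algebra F Ω] [IsAlgClosure F Ω] {j : Ω →+* ℂ} {act : 𝓞 F →+* AddMonoid.End (Pt (WAB A B) Ω)} {mo : Ideal (𝓞 F)}
  {ψ : Ideal (𝓞 F) →*₀ 𝓞 F} {p : ℕ}

/-- The frame exists. -/
theorem exists_fr (dta : Dta A B Om j act mo ψ p) (hin : Prime (p : 𝓞 F)) (M : IntermediateField F Ω) [FiniteDimensional F M]
    (spl : ∀ V' : ValuationSubring Ω, V'.valuation (p : Ω) < 1 → ∀ s, Dec V' s → s ∈ M.fixingSubgroup) {V : ValuationSubring Ω}
    (hV : V.valuation (p : Ω) < 1) :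
    ∃ (γ : Ω ≃ₐ[F] Ω) (s₀ : Fin (Module.finrank F M) → (Ω ≃ₐ[F] Ω)), Fr p M V γ (Module.finrank F M) s₀ := by
  obtain ⟨γ, hγ, hg⟩ := exists_gam dta hin hV
  have : IsAlgClosed Ω := IsAlgClosure.isAlgClosed F
  have : Algebra.IsAlgebraic F Ω := IsAlgClosure.isAlgebraic
  have : Normal F Ω := IsAlgClosure.normal F Ω
  have : IsGalois F Ω := ⟨⟩
  have h1 : Module.finrank F M = M.fixingSubgroup.index := IntermediateField.finrank_eq_fixingSubgroup_index Ω M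
  have h2 : 0 < Module.finrank F M := Module.finrank_pos
  have h3 : M.fixingSubgroup.FiniteIndex := ⟨by rw [← h1]; omega⟩
  have h4 : Nat.card ((Ω ≃ₐ[F] Ω) ⧸ M.fixingSubgroup) = Module.finrank F M := h1.symm
  let e : ((Ω ≃ₐ[F] Ω) ⧸ M.fixingSubgroup) ≃ Fin (Module.finrank F M) := Finite.equivFinOfCardEq h4
  refine ⟨γ, fun i => (Quotient.out (e.symm i))⁻¹, ⟨inferInstance, rfl, hV, spl, hγ, hg, fun x => ?_⟩⟩
  refine ⟨e (x⁻¹ : Ω ≃ₐ[F] Ω), x * Quotient.out (((x⁻¹ : Ω ≃ₐ[F] Ω)) : (Ω ≃ₐ[F] Ω) ⧸ M.fixingSubgroup), ?_, ?_⟩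
  · have h5 : (((Quotient.out (((x⁻¹ : Ω ≃ₐ[F] Ω)) : (Ω ≃ₐ[F] Ω) ⧸ M.fixingSubgroup)) : (Ω ≃ₐ[F] Ω)) : (Ω ≃ₐ[F] Ω) ⧸ M.fixingSubgroup) =
        ((x⁻¹ : Ω ≃ₐ[F] Ω) : (Ω ≃ₐ[F] Ω) ⧸ M.fixingSubgroup) := QuotientGroup.out_eq' _
    have h6 := QuotientGroup.eq.1 h5.symm
    rw [inv_inv] at h6
    exact h6
  · simp only [Equiv.symm_apply_apply]
    group

end frame

open scoped Classical

variable {F : Type} [Field F] [NumberField F] [IQ F] {A B : F} {Om : ℂ} {Ω : Type} [Field Ω]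
  [Algebra F Ω] [IsAlgClosure F Ω] {j : Ω →+* ℂ} {act : 𝓞 F →+* AddMonoid.End (Pt (WAB A B) Ω)} {mo : Ideal (𝓞 F)}
  {ψ : Ideal (𝓞 F) →*₀ 𝓞 F} {p : ℕ}

/-- The theorem of module AL: the points fixed by the group H of level n are finitely many, none of order p, and the p-primary part of the Tate-Shafarevich group of H has order p^(2 [M:F] (J_1 + ... + J_n)). -/
theorem al_main (dta : Dta A B Om j act mo ψ p) (hin : Prime (p : 𝓞 F)) (M : IntermediateField F Ω) [FiniteDimensional F M]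
    (spl : ∀ V' : ValuationSubring Ω, V'.valuation (p : Ω) < 1 → ∀ s, Dec V' s → s ∈ M.fixingSubgroup)
    (sel : H55P.SelZero (WAB A B) p M)
    (lp : ∀ (hc : Cm act) (V : ValuationSubring Ω), V.valuation (p : Ω) < 1 → ∀ (γ : Ω ≃ₐ[F] Ω) (hγ : γ ∈ dV V), Gen p γ → LocP act hc p (p ^ 2) V hγ)
    (n : ℕ) (H : Subgroup (Ω ≃ₐ[F] Ω)) (hH : ∀ s, s ∈ H ↔ s ∈ M.fixingSubgroup ∧ Gc p n s) :
    {P : Pt (WAB A B) Ω | ∀ s ∈ H, ac (WAB A B) s P = P}.Finite ∧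
    (∀ P : Pt (WAB A B) Ω, (∀ s ∈ H, ac (WAB A B) s P = P) → p • P = 0 → P = 0) ∧
    Finite (SSG.PP p ((SSG.galS (WAB A B) Ω).res H).Sha) ∧
    Nat.card (SSG.PP p ((SSG.galS (WAB A B) Ω).res H).Sha) =
      p ^ (2 * (Module.finrank F M * ∑ k ∈ Finset.range n, p ^ (k + 1) / (p + 1))) := by
  have hHL : H = LG dta.prime M.fixingSubgroup n := by
    ext s
    exact hH s
  subst hHL
  have : CharZero Ω := charZero_of_injective_algebraMap (algebraMap F Ω).injective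
  obtain ⟨V, hV⟩ := s7_above Ω dta.prime
  obtain ⟨γ, s₀, fr⟩ := exists_fr dta hin M spl hV
  have hc : Cm act := cm dta
  have lf := locf_of_locp dta hin hc hV fr.gam fr.gen (lp hc V hV γ fr.gam fr.gen)
  have tw := tow dta hin hc fr sel lf
  obtain ⟨hfin, hcard⟩ := H35K.main tw n
  have h1 := card_sha dta hin hc fr n hfin
  have h2 : Nat.card (SSG.PP p ((SSG.galS (WAB A B) Ω).res (LG dta.prime M.fixingSubgroup n)).Sha) =
      p ^ (2 * (Module.finrank F M * ∑ k ∈ Finset.range n, p ^ (k + 1) / (p + 1))) := by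
    rw [h1, hcard, ← pow_mul, Finset.sum_range_succ', H35K.J_zero dta.prime.one_le]
    rfl
  obtain ⟨h3, h4⟩ := am_div dta hin hc fr n hfin
  obtain ⟨h5, -⟩ := am_fin dta (M := M) inferInstance n h3 h4
  refine ⟨?_, fun P hP hp => h4 P (fun s hs => hP s hs) hp, ?_, h2⟩
  · have h6 : {P : Pt (WAB A B) Ω | ∀ s ∈ LG dta.prime M.fixingSubgroup n, ac (WAB A B) s P = P} =
        ((AM act p M.fixingSubgroup n : AddSubgroup (PM act)) : Set (PM act)) := rfl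
    rw [h6]
    exact Set.finite_coe_iff.1 h5
  · refine Nat.finite_of_card_ne_zero ?_
    rw [h2]
    exact pow_ne_zero _ dta.prime.ne_zero

end H35L
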