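import Mathlib
import Pool.Agent.Lib.H35L.X8
import Pool.Agent.Lib.H55Z.S2
import Pool.Agent.Lib.H55P.S14

/-! # H35L, S8: if p splits completely in M the decomposition groups at p fix M -/

open NumberField IsDedekindDomain WeierstrassCurve

namespace H35L

open H55P (IQ Dec)

variable {F : Type} [Field F] [NumberField F] {Ω : Type} [Field Ω] [Algebra F Ω] [IsAlgClosure F Ω]

/-- an automorphism which carries V to V' preserves the valuation ideals -/
theorem s8_lt {V V' : ValuationSubring Ω} {t : Ω ≃ₐ[F] Ω} (h : ∀ x, t x ∈ V' ↔ x ∈ V) (x : Ω) :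
    V'.valuation (t x) < 1 ↔ V.valuation x < 1 := by
  classical
  rw [H55P.lt1_iff, H55P.lt1_iff, ← map_inv₀, h, map_eq_zero]

/-- The decomposition groups at p fix M. -/
theorem spl_dec {p : ℕ} (hp : p.Prime) (hin : Prime (p : 𝓞 F)) (M : IntermediateField F Ω) [NumberField M] (hS : H55Z.Spl F p M)
    {V : ValuationSubring Ω} (hV : V.valuation (p : Ω) < 1) {s : Ω ≃ₐ[F] Ω} (hs : Dec V s) : s ∈ M.fixingSubgroup := by
  classical
  have hac : IsAlgClosed Ω := IsAlgClosure.isAlgClosed F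
  have hal : Algebra.IsAlgebraic F Ω := IsAlgClosure.isAlgebraic
  have hfd : FiniteDimensional F M := Module.Finite.of_restrictScalars_finite ℚ F M
  let v : Ideal (𝓞 F) := Ideal.span {(p : 𝓞 F)}
  have hvp : v.IsPrime := (Ideal.span_singleton_prime hin.ne_zero).2 hin
  have hv0 : v ≠ ⊥ := by
    rw [Ne, Ideal.span_singleton_eq_bot]
    exact hin.ne_zero
  have hvm : v.IsMaximal := hvp.isMaximal hv0
  have hfin : (v.primesOver (𝓞 M)).Finite := IsDedekindDomain.primesOver_finite v (𝓞 M)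
  have : Fintype (v.primesOver (𝓞 M)) := hfin.fintype
  have h1 := Ideal.sum_ramification_inertia_eq_finrank v (𝓞 M)
  have h2 : Module.finrank F M = Module.finrank (𝓞 F) (𝓞 M) := IsFractionRing.finrank_eq (𝓞 F) F (𝓞 M) M
  have hmem : ∀ Q : v.primesOver (𝓞 M), (p : 𝓞 M) ∈ Q.1 := by
    rintro ⟨Q, hQ, hQv⟩
    have h3 : (p : 𝓞 F) ∈ v := Ideal.mem_span_singleton_self _
    rw [hQv.over] at h3
    have h4 : algebraMap (𝓞 F) (𝓞 M) (p : 𝓞 F) ∈ Q := h3
    rwa [map_natCast] at h4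
  have hcard : Fintype.card (v.primesOver (𝓞 M)) = Module.finrank F M := by
    rw [h2, ← h1, Finset.sum_congr rfl (g := fun _ => 1), Finset.sum_const, Finset.card_univ, smul_eq_mul, mul_one]
    rintro Q -
    obtain ⟨e1, f1⟩ := hS ⟨Q.1, Q.2.1, Ideal.ne_bot_of_mem_primesOver hv0 Q.2⟩ (hmem Q)
    rw [e1, f1]
  have hcard2 : Fintype.card (M →ₐ[F] Ω) = Module.finrank F M := AlgHom.card F M Ω
  have hQp : (H13S.in2Q V).IsPrime := H13S.in2Q_prime V
  have hpM : ((p : 𝓞 M) : M) = (p : M) := map_natCast (algebraMap (𝓞 M) M) p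
  have hoM : ((1 : 𝓞 M) : M) = (1 : M) := map_one (algebraMap (𝓞 M) M)
  let q : (M →ₐ[F] Ω) → Ideal (𝓞 M) := fun σ => (H13S.in2Q V).comap (RingOfIntegers.mapRingHom (σ : M →+* Ω))
  have hq : ∀ σ (x : 𝓞 M), x ∈ q σ ↔ V.valuation (σ (x : M)) < 1 := by
    intro σ x
    show RingOfIntegers.mapRingHom (σ : M →+* Ω) x ∈ H13S.in2Q V ↔ _
    rw [H13S.in2Q_lt]
    rfl
  have hlies : ∀ σ, (q σ).LiesOver v := by
    intro σ
    refine ⟨hvm.eq_of_le ?_ ?_⟩
    · intro h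
      have h3 : (1 : 𝓞 F) ∈ (q σ).under (𝓞 F) := by rw [h]; trivial
      have h4 : algebraMap (𝓞 F) (𝓞 M) 1 ∈ q σ := h3
      rw [map_one, hq] at h4
      have h5 : σ ((1 : 𝓞 M) : M) = 1 := by rw [hoM, map_one]
      rw [h5, map_one] at h4
      exact lt_irrefl _ h4
    · rw [Ideal.span_singleton_le_iff_mem]
      show algebraMap (𝓞 F) (𝓞 M) (p : 𝓞 F) ∈ q σ
      rw [map_natCast, hq]
      have h5 : σ (((p : 𝓞 M)) : M) = (p : Ω) := by
        rw [hpM, map_natCast]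
      rw [h5]
      exact hV
  let Φ : (M →ₐ[F] Ω) → v.primesOver (𝓞 M) := fun σ => ⟨q σ, inferInstance, hlies σ⟩
  have hsurj : Function.Surjective Φ := by
    intro Q
    obtain ⟨V', hV'⟩ := H55P.exists_below M ⟨Q.1, Q.2.1, Ideal.ne_bot_of_mem_primesOver hv0 Q.2⟩
    have h3 : V'.valuation (p : Ω) < 1 := by
      have h4 := (hV' (p : 𝓞 M)).1 (hmem Q)
      have h5 : ((((p : 𝓞 M)) : M) : Ω) = (p : Ω) := by
        rw [hpM]
        exact map_natCast (algebraMap M Ω) p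
      rwa [h5] at h4
    obtain ⟨t, ht⟩ := conj_all p hp hin h3 hV
    refine ⟨(t : Ω →ₐ[F] Ω).comp M.val, Subtype.ext ?_⟩
    ext x
    rw [show (Φ ((t : Ω →ₐ[F] Ω).comp M.val)).1 = q ((t : Ω →ₐ[F] Ω).comp M.val) from rfl, hq]
    refine Iff.trans ?_ (hV' x).symm
    exact s8_lt ht _
  have hbij : Function.Bijective Φ := (Fintype.bijective_iff_surjective_and_card Φ).2 ⟨hsurj, by rw [hcard, hcard2]⟩
  have h6 : Φ ((s : Ω →ₐ[F] Ω).comp M.val) = Φ M.val := by
    apply Subtype.ext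
    ext x
    show x ∈ q _ ↔ x ∈ q _
    rw [hq, hq]
    exact s8_lt hs _
  have h7 := hbij.1 h6
  rw [IntermediateField.mem_fixingSubgroup_iff]
  intro x hx
  exact DFunLike.congr_fun h7 (⟨x, hx⟩ : M)

end H35L
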